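import Pool.Agent.Spl1.Defs

/-!
# Generic positions

Paper proof of `GI_of_exists`.  Consider the real matrix `A(p)` with columns `V × V` (the unknown
`ω`, all ordered pairs) and three kinds of rows: for every `(u,v)` with `u = v` or `{u,v} ∉ F` the row of
`ω u v`; for every `(u,v)` the row of `ω v u - (-1)^D ω u v`; for every `u ∈ I`, `j < D` the row of
`∑_v ω u v mon ...`.  Its entries are polynomials in `p`.  `Indep D p F I` says that `A(p)` has trivial kernel,
which for a real matrix is equivalent to `det (A(p)ᵀ A(p)) ≠ 0` (`Matrix.exists_mulVec_eq_zero_iff`,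
`xᵀAᵀAx = |Ax|²`).  Take `Q = det (AᵀA)` over `MvPolynomial`; `eval p Q = det (A(p)ᵀ A(p))`
(`RingHom.map_det`), it is nonzero at the given position, so `Q ≠ 0`.

Paper proof of `exists_of_GI_open`: an open set contains a box `∏ (a_i, b_i)`; a polynomial vanishing on a
product of infinite sets is zero (`MvPolynomial.funext_set` or induction on the number of variables).
-/

set_option autoImplicit false

namespace Pool.Agent.Spl1

open Finset

variable {V : Type*} [Fintype V] [DecidableEq V]

theorem exists_eval_ne_of_open {σ : Type*} [Finite σ] {Q : MvPolynomial σ ℝ} (hQ : Q ≠ 0)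
    {U : Set (σ → ℝ)} (hU : IsOpen U) (hne : U.Nonempty) : ∃ p ∈ U, MvPolynomial.eval p Q ≠ 0 := by
  have := Fintype.ofFinite σ
  by_contra hcon
  push Not at hcon
  obtain ⟨x, hx⟩ := hne
  obtain ⟨ε, hε, hball⟩ := Metric.isOpen_iff.mp hU x hx
  apply hQ
  refine MvPolynomial.funext_set (fun i => Metric.ball (x i) ε) (fun i => ?_) (fun y hy => ?_)
  · rw [Real.ball_eq_Ioo]
    exact Set.Ioo_infinite (by linarith)
  · rw [map_zero]
    apply hcon
    apply hball
    rw [ball_pi x hε]
    exact hy

/-- the matrix whose kernel is the space of stresses -/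
noncomputable def matS (R : Type*) [CommRing R] (D : ℕ) (F : Finset (Finset V)) (I : Finset V)
    (X : V × Fin 2 → R) :
    Matrix ((V × V) ⊕ (V × V) ⊕ (V × Fin D)) (V × V) R := fun r c =>
  match r with
  | Sum.inl a => if (a.1 = a.2 ∨ ({a.1, a.2} : Finset V) ∉ F) then (if c = a then 1 else 0) else 0
  | Sum.inr (Sum.inl a) => (if c = (a.2, a.1) then 1 else 0) - (if c = a then (-1) ^ D else 0)
  | Sum.inr (Sum.inr b) => if b.1 ∈ I ∧ c.1 = b.1 then
      (X (c.2, 0) - X (c.1, 0)) ^ (b.2 : ℕ) * (X (c.2, 1) - X (c.1, 1)) ^ (D - 1 - (b.2 : ℕ)) else 0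

theorem stress_of_ker {D : ℕ} {F : Finset (Finset V)} {I : Finset V} {p : V × Fin 2 → ℝ}
    {x : V × V → ℝ} (hx : (matS ℝ D F I p).mulVec x = 0) :
    IsStress D p F I (fun u v => x (u, v)) := by
  have h1 : ∀ a : V × V, (a.1 = a.2 ∨ ({a.1, a.2} : Finset V) ∉ F) → x a = 0 := by
    intro a ha
    have h := congrFun hx (Sum.inl a)
    simpa [Matrix.mulVec, dotProduct, matS, ha] using h
  have h2 : ∀ a : V × V, x (a.2, a.1) = (-1) ^ D * x a := by
    intro a
    have h := congrFun hx (Sum.inr (Sum.inl a))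
    simp only [Matrix.mulVec, dotProduct, matS, sub_mul, Finset.sum_sub_distrib, ite_mul, one_mul,
      zero_mul, Finset.sum_ite_eq', Finset.mem_univ, if_true, Pi.zero_apply] at h
    linarith
  have h3 : ∀ u ∈ I, ∀ j : Fin D,
      ∑ v, x (u, v) * mon D (p (v, 0) - p (u, 0)) (p (v, 1) - p (u, 1)) j = 0 := by
    intro u hu j
    have h := congrFun hx (Sum.inr (Sum.inr (u, j)))
    simp only [Matrix.mulVec, dotProduct, matS, Pi.zero_apply, Fintype.sum_prod_type, hu,
      true_and, ite_mul, zero_mul] at h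
    rw [Finset.sum_comm] at h
    simp only [Finset.sum_ite_eq', Finset.mem_univ, if_true] at h
    rw [← h]
    refine Finset.sum_congr rfl fun v _ => ?_
    simp only [mon]
    ring
  refine ⟨?_, ?_, h3⟩
  · intro u v huv
    by_contra hcon
    apply huv
    apply h1 (u, v)
    by_cases h : u = v
    · exact Or.inl h
    · right
      intro hF
      exact hcon ⟨h, hF⟩
  · intro u v
    exact h2 (u, v)

theorem ker_of_stress {D : ℕ} {F : Finset (Finset V)} {I : Finset V} {p : V × Fin 2 → ℝ}
    {ω : V → V → ℝ} (hω : IsStress D p F I ω) :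
    (matS ℝ D F I p).mulVec (fun a : V × V => ω a.1 a.2) = 0 := by
  funext r
  rcases r with a | a | b
  · have : (a.1 = a.2 ∨ ({a.1, a.2} : Finset V) ∉ F) → ω a.1 a.2 = 0 := by
      intro h
      by_contra hne
      obtain ⟨h1, h2⟩ := hω.supp a.1 a.2 hne
      rcases h with h | h
      · exact h1 h
      · exact h h2
    by_cases h : (a.1 = a.2 ∨ ({a.1, a.2} : Finset V) ∉ F)
    · simp [Matrix.mulVec, dotProduct, matS, h, this h]
    · simp [Matrix.mulVec, dotProduct, matS, h]
  · have h := hω.symm a.1 a.2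
    simp only [Matrix.mulVec, dotProduct, matS, sub_mul, Finset.sum_sub_distrib, ite_mul, one_mul,
      zero_mul, Finset.sum_ite_eq', Finset.mem_univ, if_true, Pi.zero_apply]
    linarith
  · by_cases hb : b.1 ∈ I
    · have h := hω.eq b.1 hb b.2
      simp only [Matrix.mulVec, dotProduct, matS, Pi.zero_apply, Fintype.sum_prod_type, hb,
        true_and, ite_mul, zero_mul]
      rw [Finset.sum_comm]
      simp only [Finset.sum_ite_eq', Finset.mem_univ, if_true]
      rw [← h]
      refine Finset.sum_congr rfl fun v _ => ?_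
      simp only [mon]
      ring
    · simp [Matrix.mulVec, dotProduct, matS, hb]

theorem Indep_iff_det {D : ℕ} {F : Finset (Finset V)} {I : Finset V} {p : V × Fin 2 → ℝ} :
    Indep D p F I ↔ ((matS ℝ D F I p).transpose * matS ℝ D F I p).det ≠ 0 := by
  constructor
  · intro h hdet
    obtain ⟨x, hx0, hx⟩ := Matrix.exists_mulVec_eq_zero_iff.mpr hdet
    have h0 : (matS ℝ D F I p).mulVec x = 0 := by
      have h1 : dotProduct ((matS ℝ D F I p).mulVec x) ((matS ℝ D F I p).mulVec x) = 0 := by
        rw [← Matrix.mulVec_mulVec] at hx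
        have h2 : dotProduct x ((matS ℝ D F I p).transpose.mulVec ((matS ℝ D F I p).mulVec x)) = 0 := by
          rw [hx, dotProduct_zero]
        rw [Matrix.dotProduct_mulVec, Matrix.vecMul_transpose] at h2
        exact h2
      exact dotProduct_self_eq_zero.mp h1
    apply hx0
    funext a
    have := h _ (stress_of_ker h0) a.1 a.2
    simpa using this
  · intro hdet ω hω u v
    by_contra hne
    apply hdet
    apply Matrix.exists_mulVec_eq_zero_iff.mp
    refine ⟨fun a : V × V => ω a.1 a.2, ?_, ?_⟩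
    · intro h0
      exact hne (congrFun h0 (u, v))
    · rw [← Matrix.mulVec_mulVec, ker_of_stress hω, Matrix.mulVec_zero]

theorem matS_map {D : ℕ} {F : Finset (Finset V)} {I : Finset V} (p : V × Fin 2 → ℝ) :
    (matS (MvPolynomial (V × Fin 2) ℝ) D F I MvPolynomial.X).map (MvPolynomial.eval p) =
      matS ℝ D F I p := by
  ext r c
  rcases r with a | a | b
  · simp only [Matrix.map_apply, matS]
    split_ifs <;> simp
  · simp only [Matrix.map_apply, matS]
    split_ifs <;> simp
  · simp only [Matrix.map_apply, matS]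
    split_ifs <;> simp

theorem GI_of_exists {D : ℕ} {F : Finset (Finset V)} {I : Finset V}
    (h : ∃ p : V × Fin 2 → ℝ, Indep D p F I) : GI D F I := by
  obtain ⟨p, hp⟩ := h
  have key : ∀ q : V × Fin 2 → ℝ, MvPolynomial.eval q
      ((matS (MvPolynomial (V × Fin 2) ℝ) D F I MvPolynomial.X).transpose *
        matS (MvPolynomial (V × Fin 2) ℝ) D F I MvPolynomial.X).det =
      ((matS ℝ D F I q).transpose * matS ℝ D F I q).det := by
    intro q
    rw [RingHom.map_det, RingHom.mapMatrix_apply, Matrix.map_mul, Matrix.transpose_map, matS_map]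
  have hne : ((matS (MvPolynomial (V × Fin 2) ℝ) D F I MvPolynomial.X).transpose *
      matS (MvPolynomial (V × Fin 2) ℝ) D F I MvPolynomial.X).det ≠ 0 := by
    intro h0
    have h1 := key p
    rw [h0, map_zero] at h1
    exact Indep_iff_det.mp hp h1.symm
  refine ⟨_, hne, fun q hq => ?_⟩
  rw [key q] at hq
  exact Indep_iff_det.mpr hq

theorem exists_of_GI_open {D : ℕ} {F : Finset (Finset V)} {I : Finset V} (h : GI D F I)
    {U : Set (V × Fin 2 → ℝ)} (hU : IsOpen U) (hne : U.Nonempty) : ∃ p ∈ U, Indep D p F I := by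
  obtain ⟨Q, hQ, hQ2⟩ := h
  obtain ⟨p, hp, hpQ⟩ := exists_eval_ne_of_open hQ hU hne
  exact ⟨p, hp, hQ2 p hpQ⟩

end Pool.Agent.Spl1
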