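import Pool.Agent.Spl1.Defs

/-!
# Extension lemmas at a given position

`cr p v a b` is the cross product of `p_a - p_v` and `p_b - p_v`.

Paper proof of `mon_indep`.  Suppose `∑_i c_i a_i^j b_i^(D-1-j) = 0` for all `j < D`, i.e. for every binary form
`G(X,Y) = ∑_j g_j X^j Y^(D-1-j)` of degree `D - 1`: `∑_i c_i G(a_i, b_i) = 0`.  For `i₀ ∈ s` take
`G = (b_{i₀}-independent factor)`: `G(X,Y) = L^(D-|s|) ∏_{i ≠ i₀} (b_i X - a_i Y)` with `L = X` or `L = Y`
not vanishing at `(a_{i₀}, b_{i₀})`; degree `(D - |s|) + (|s| - 1) = D - 1`; it vanishes at all `i ≠ i₀` and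
not at `i₀`, so `c_{i₀} = 0`.  (Alternatively Vandermonde: `Matrix.vandermonde` after reducing to
`a_i ≠ 0` by a shear, or `Matrix.det_projVandermonde`.)

`indep_del`: let `ω` be a stress of `F`.  The equation at `v` is a relation between at most `D` pairwise
non-parallel nonzero vectors `p_w - p_v`, `w ∈ nb F v`, so `ω v w = 0` for all `w`, and `ω w v = 0` by `symm`.
So `ω` is a stress of `F.filter (v ∉ ·)` on `I.erase v`.

`indep_ext1`: `p_v = (1-s) p_x + s p_b`, `s ≠ 0, 1`.  In the equation at `v` the terms of `x` and `b` are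
`(ω v x (-s)^(D-1) + ω v b (1-s)^(D-1)) mon (p_b - p_x)`, and the directions `p_b - p_x` and `p_w - p_v`
(`w ≠ x, b`) are `D` pairwise non-parallel vectors: so `ω v w = 0` for `w ≠ x, b`, and
`ω v x (-s)^(D-1) + ω v b (1-s)^(D-1) = 0`.  Define `ω'` = `ω` on the pairs not containing `v`, plus
`ω' x b = ω x v s^(D-1)`, `ω' b x = ω b v (1-s)^(D-1)` (here `ω x b = 0` since `{x,b} ∉ F`).  `symm`:
`(-1)^D ω x v s^(D-1) = ω v x s^(D-1) = -(-1)^(D-1) ω v b (1-s)^(D-1) = (-1)^D ω v b (1-s)^(D-1)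
= ω b v (1-s)^(D-1)` (signs: `(-1)^D (-1)^D = 1`).  Equation at `x`: `mon (p_v - p_x) = s^(D-1) mon (p_b - p_x)`;
at `b`: `mon (p_v - p_b) = (1-s)^(D-1) mon (p_x - p_b)`.  So `ω'` is a stress of
`insert {x,b} (F.filter ..)` on `I.erase v`, hence `0`, and `ω x v = 0`, `ω b v = 0`.

`indep_ext2`: the same with two lines: `p_v` is on the line `x a` and on the line `y b` (not at a vertex).
The directions `p_a - p_x`, `p_b - p_y`, `p_w - p_v` are `D` pairwise non-parallel vectors.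
-/

set_option autoImplicit false

namespace Pool.Agent.Spl1

open Finset

variable {V : Type*} [Fintype V] [DecidableEq V]

/-- cross product -/
def cr (p : V × Fin 2 → ℝ) (v a b : V) : ℝ :=
  (p (a, 0) - p (v, 0)) * (p (b, 1) - p (v, 1)) - (p (a, 1) - p (v, 1)) * (p (b, 0) - p (v, 0))

theorem alg2_pow0 {x : ℝ} {n : ℕ} (h : x ^ n = 0) : x = 0 := by
  by_contra hx
  exact pow_ne_zero n hx h

/-- binary forms of degree `n`, as functions -/
def Alg2BForm (n : ℕ) (g : ℝ → ℝ → ℝ) : Prop :=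
  ∃ q : ℕ → ℝ, ∀ a b, g a b = ∑ j ∈ range (n + 1), q j * (a ^ j * b ^ (n - j))

theorem Alg2BForm.one : Alg2BForm 0 (fun _ _ => 1) := ⟨fun _ => 1, fun a b => by simp⟩

theorem Alg2BForm.mul_lin {n : ℕ} {g : ℝ → ℝ → ℝ} (hg : Alg2BForm n g) (α β : ℝ) :
    Alg2BForm (n + 1) (fun a b => (α * a + β * b) * g a b) := by
  obtain ⟨q, hq⟩ := hg
  refine ⟨fun j => α * (if j = 0 then 0 else q (j - 1)) + β * (if j ≤ n then q j else 0),
    fun a b => ?_⟩
  simp only []
  rw [hq a b]
  have h1 : ∑ j ∈ range (n + 1 + 1), (if j = 0 then 0 else q (j - 1)) * (a ^ j * b ^ (n + 1 - j)) =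
      a * ∑ j ∈ range (n + 1), q j * (a ^ j * b ^ (n - j)) := by
    rw [Finset.sum_range_succ', Finset.mul_sum, if_pos rfl, zero_mul, add_zero]
    refine Finset.sum_congr rfl fun j _ => ?_
    rw [if_neg (Nat.succ_ne_zero j), Nat.add_sub_cancel, Nat.add_sub_add_right]
    ring
  have h2 : ∑ j ∈ range (n + 1 + 1), (if j ≤ n then q j else 0) * (a ^ j * b ^ (n + 1 - j)) =
      b * ∑ j ∈ range (n + 1), q j * (a ^ j * b ^ (n - j)) := by
    rw [Finset.sum_range_succ, Finset.mul_sum, if_neg (by omega), zero_mul, add_zero]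
    refine Finset.sum_congr rfl fun j hj => ?_
    rw [Finset.mem_range] at hj
    rw [if_pos (by omega)]
    have h3 : n + 1 - j = (n - j) + 1 := by omega
    rw [h3, pow_succ]
    ring
  have h4 : ∀ j, (α * (if j = 0 then 0 else q (j - 1)) + β * (if j ≤ n then q j else 0)) *
      (a ^ j * b ^ (n + 1 - j)) = α * ((if j = 0 then 0 else q (j - 1)) * (a ^ j * b ^ (n + 1 - j))) +
      β * ((if j ≤ n then q j else 0) * (a ^ j * b ^ (n + 1 - j))) := fun j => by ring
  rw [Finset.sum_congr rfl fun j _ => h4 j, Finset.sum_add_distrib, ← Finset.mul_sum,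
    ← Finset.mul_sum, h1, h2]
  ring

theorem Alg2BForm.prod {ι : Type*} [DecidableEq ι] (t : Finset ι) (α β : ι → ℝ) :
    Alg2BForm t.card (fun x y => ∏ i ∈ t, (α i * x + β i * y)) := by
  induction t using Finset.induction_on with
  | empty => simpa using Alg2BForm.one
  | insert i t hi ih =>
    rw [Finset.card_insert_of_notMem hi]
    have h := ih.mul_lin (α i) (β i)
    simpa only [Finset.prod_insert hi] using h

theorem Alg2BForm.mul_pow {n : ℕ} {g : ℝ → ℝ → ℝ} (hg : Alg2BForm n g) (α β : ℝ) (k : ℕ) :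
    Alg2BForm (n + k) (fun a b => (α * a + β * b) ^ k * g a b) := by
  induction k with
  | zero => simpa using hg
  | succ k ih =>
    have h := ih.mul_lin α β
    have e : (fun a b => (α * a + β * b) ^ (k + 1) * g a b) =
        (fun a b => (α * a + β * b) * ((α * a + β * b) ^ k * g a b)) := by
      funext a b
      ring
    rw [e]
    exact h

theorem alg2_mon_smul (D : ℕ) (k a b : ℝ) (j : Fin D) :
    mon D (k * a) (k * b) j = k ^ (D - 1) * mon D a b j := by
  unfold mon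
  rw [mul_pow, mul_pow]
  have h : (j : ℕ) + (D - 1 - j) = D - 1 := by
    have := j.2
    omega
  calc k ^ (j : ℕ) * a ^ (j : ℕ) * (k ^ (D - 1 - (j : ℕ)) * b ^ (D - 1 - (j : ℕ)))
      = k ^ ((j : ℕ) + (D - 1 - j)) * (a ^ (j : ℕ) * b ^ (D - 1 - (j : ℕ))) := by
        rw [pow_add]; ring
    _ = _ := by rw [h]

theorem alg2_supp {D : ℕ} {p : V × Fin 2 → ℝ} {F : Finset (Finset V)} {I : Finset V} {v w : V}
    {ω : V → V → ℝ} (hω : IsStress D p F I ω) (hw : w ∉ nb F v) : ω v w = 0 := by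
  by_contra hne
  obtain ⟨h1, h2⟩ := hω.supp v w hne
  exact hw (mem_nb.2 ⟨h1.symm, h2⟩)

theorem mon_indep {D : ℕ} {ι : Type*} [DecidableEq ι] (s : Finset ι) (a b c : ι → ℝ)
    (hcard : s.card ≤ D) (hne : ∀ i ∈ s, a i ≠ 0 ∨ b i ≠ 0)
    (hpar : ∀ i ∈ s, ∀ j ∈ s, i ≠ j → a i * b j - b i * a j ≠ 0)
    (h : ∀ j : Fin D, ∑ i ∈ s, c i * mon D (a i) (b i) j = 0) : ∀ i ∈ s, c i = 0 := by
  intro i₀ hi₀
  have hs : 1 ≤ s.card := Finset.card_pos.2 ⟨i₀, hi₀⟩
  obtain ⟨α, β, hαβ⟩ : ∃ α β : ℝ, α * a i₀ + β * b i₀ ≠ 0 := by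
    rcases hne i₀ hi₀ with h0 | h0
    · exact ⟨1, 0, by simpa using h0⟩
    · exact ⟨0, 1, by simpa using h0⟩
  have hG := (Alg2BForm.prod (s.erase i₀) (fun i => b i) (fun i => -a i)).mul_pow α β (D - s.card)
  have hdeg : (s.erase i₀).card + (D - s.card) = D - 1 := by
    rw [Finset.card_erase_of_mem hi₀]
    omega
  rw [hdeg] at hG
  obtain ⟨q, hq⟩ := hG
  have hD : D - 1 + 1 = D := by omega
  rw [hD] at hq
  have hq' : ∀ x y : ℝ, (α * x + β * y) ^ (D - s.card) * ∏ k ∈ s.erase i₀, (b k * x + -a k * y) =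
      ∑ j ∈ range D, q j * (x ^ j * y ^ (D - 1 - j)) := hq
  have hsum : ∑ i ∈ s, c i * ((α * a i + β * b i) ^ (D - s.card) *
      ∏ k ∈ s.erase i₀, (b k * a i + -a k * b i)) = 0 := by
    have e : ∀ i ∈ s, c i * ((α * a i + β * b i) ^ (D - s.card) *
        ∏ k ∈ s.erase i₀, (b k * a i + -a k * b i)) =
        ∑ j ∈ range D, q j * (c i * (a i ^ j * b i ^ (D - 1 - j))) := by
      intro i _
      rw [hq' (a i) (b i), Finset.mul_sum]
      refine Finset.sum_congr rfl fun j _ => ?_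
      ring
    rw [Finset.sum_congr rfl e, Finset.sum_comm]
    refine Finset.sum_eq_zero fun j hj => ?_
    rw [← Finset.mul_sum]
    have hj' := h ⟨j, Finset.mem_range.1 hj⟩
    unfold mon at hj'
    simp only at hj'
    rw [hj', mul_zero]
  rw [Finset.sum_eq_single_of_mem i₀ hi₀] at hsum
  · rcases mul_eq_zero.1 hsum with h1 | h1
    · exact h1
    · exfalso
      rcases mul_eq_zero.1 h1 with h2 | h2
      · exact hαβ (alg2_pow0 h2)
      · obtain ⟨k, hk, hk0⟩ := Finset.prod_eq_zero_iff.1 h2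
        have hk' := Finset.mem_erase.1 hk
        refine hpar k hk'.2 i₀ hi₀ hk'.1 ?_
        linarith
  · intro i hi hne'
    have : ∏ k ∈ s.erase i₀, (b k * a i + -a k * b i) = 0 :=
      Finset.prod_eq_zero (Finset.mem_erase.2 ⟨hne', hi⟩) (by ring)
    rw [this, mul_zero, mul_zero]

theorem indep_del {D : ℕ} {p : V × Fin 2 → ℝ} {F : Finset (Finset V)} {I : Finset V} {v : V}
    (hv : v ∈ I) (hcard : (nb F v).card ≤ D)
    (hne : ∀ w ∈ nb F v, p (w, 0) ≠ p (v, 0) ∨ p (w, 1) ≠ p (v, 1))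
    (hpar : ∀ w ∈ nb F v, ∀ w' ∈ nb F v, w ≠ w' → cr p v w w' ≠ 0)
    (h : Indep D p (F.filter (fun e => v ∉ e)) (I.erase v)) : Indep D p F I := by
  intro ω hω
  have hz : ∀ w, ω v w = 0 := by
    have h1 := mon_indep (D := D) (nb F v) (fun w => p (w, 0) - p (v, 0)) (fun w => p (w, 1) - p (v, 1))
      (ω v) hcard
      (fun w hw => (hne w hw).imp (fun h => sub_ne_zero.2 h) (fun h => sub_ne_zero.2 h))
      (fun w hw w' hw' hww => hpar w hw w' hw' hww)
      (fun j => by
        rw [← hω.eq v hv j]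
        refine Finset.sum_subset (Finset.subset_univ _) fun w _ hw => ?_
        rw [alg2_supp hω hw, zero_mul])
    intro w
    by_cases hw : w ∈ nb F v
    · exact h1 w hw
    · exact alg2_supp hω hw
  refine h ω ⟨?_, hω.symm, fun u hu j => hω.eq u (Finset.mem_of_mem_erase hu) j⟩
  intro u w huw
  obtain ⟨h1, h2⟩ := hω.supp u w huw
  refine ⟨h1, Finset.mem_filter.2 ⟨h2, ?_⟩⟩
  intro hvv
  rw [Finset.mem_insert, Finset.mem_singleton] at hvv
  rcases hvv with h3 | h3
  · exact huw (h3 ▸ hz w)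
  · apply huw
    rw [hω.symm w u, ← h3, hz u, mul_zero]

/-- move the stress of the edges `v x`, `v a` to the edge `x a` -/
def alg2mv (ω : V → V → ℝ) (v x a : V) (cx ca : ℝ) (u w : V) : ℝ :=
  if u = x ∧ w = a then ω x v * cx + ω x a
  else if u = a ∧ w = x then ω a v * ca + ω a x
  else if (u = v ∧ (w = x ∨ w = a)) ∨ (w = v ∧ (u = x ∨ u = a)) then 0 else ω u w

section alg2mv

variable {ω : V → V → ℝ} {v x a : V} {cx ca : ℝ}

theorem alg2mv_xa : alg2mv ω v x a cx ca x a = ω x v * cx + ω x a := by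
  unfold alg2mv
  rw [if_pos ⟨rfl, rfl⟩]

theorem alg2mv_ax (hxa : x ≠ a) : alg2mv ω v x a cx ca a x = ω a v * ca + ω a x := by
  unfold alg2mv
  rw [if_neg (fun h => hxa h.2), if_pos ⟨rfl, rfl⟩]

theorem alg2mv_off {u w : V} (h1 : ¬(u = x ∧ w = a)) (h2 : ¬(u = a ∧ w = x))
    (h3 : ¬((u = v ∧ (w = x ∨ w = a)) ∨ (w = v ∧ (u = x ∨ u = a)))) :
    alg2mv ω v x a cx ca u w = ω u w := by
  unfold alg2mv
  rw [if_neg h1, if_neg h2, if_neg h3]

theorem alg2mv_v (hxv : x ≠ v) (hav : a ≠ v) {w : V} :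
    alg2mv ω v x a cx ca v w = if w = x ∨ w = a then 0 else ω v w := by
  unfold alg2mv
  rw [if_neg (fun h => hxv h.1.symm), if_neg (fun h => hav h.1.symm)]
  by_cases hw : w = x ∨ w = a
  · rw [if_pos (Or.inl ⟨rfl, hw⟩), if_pos hw]
  · rw [if_neg hw, if_neg]
    rintro (⟨_, h⟩ | ⟨_, h | h⟩)
    · exact hw h
    · exact hxv h.symm
    · exact hav h.symm

theorem alg2mv_x (hxa : x ≠ a) (hxv : x ≠ v) (hav : a ≠ v) (w : V) :
    alg2mv ω v x a cx ca x w = ω x w + (if w = a then ω x v * cx else 0) -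
      (if w = v then ω x v else 0) := by
  unfold alg2mv
  by_cases hw : w = a
  · subst hw
    rw [if_pos ⟨rfl, rfl⟩, if_pos rfl, if_neg hav]
    ring
  · rw [if_neg (fun h => hw h.2), if_neg (fun h => hxa h.1), if_neg hw]
    by_cases hwv : w = v
    · subst hwv
      rw [if_pos (Or.inr ⟨rfl, Or.inl rfl⟩), if_pos rfl]
      ring
    · rw [if_neg hwv, if_neg]
      · ring
      · rintro (⟨h, _⟩ | ⟨h, _⟩)
        · exact hxv h
        · exact hwv h

theorem alg2mv_a (hxa : x ≠ a) (hxv : x ≠ v) (hav : a ≠ v) (w : V) :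
    alg2mv ω v x a cx ca a w = ω a w + (if w = x then ω a v * ca else 0) -
      (if w = v then ω a v else 0) := by
  unfold alg2mv
  by_cases hw : w = x
  · subst hw
    rw [if_neg (fun h => hxa h.2), if_pos ⟨rfl, rfl⟩, if_pos rfl, if_neg hxv]
    ring
  · rw [if_neg (fun h => hxa h.1.symm), if_neg (fun h => hw h.2), if_neg hw]
    by_cases hwv : w = v
    · subst hwv
      rw [if_pos (Or.inr ⟨rfl, Or.inr rfl⟩), if_pos rfl]
      ring
    · rw [if_neg hwv, if_neg]
      · ring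
      · rintro (⟨h, _⟩ | ⟨h, _⟩)
        · exact hav h
        · exact hwv h

theorem alg2mv_other {u : V} (hux : u ≠ x) (hua : u ≠ a) (huv : u ≠ v) (w : V) :
    alg2mv ω v x a cx ca u w = ω u w := by
  refine alg2mv_off (fun h => hux h.1) (fun h => hua h.1) ?_
  rintro (⟨h, _⟩ | ⟨_, h | h⟩)
  · exact huv h
  · exact hux h
  · exact hua h

theorem alg2mv_symm {D : ℕ} (hxa : x ≠ a) (hsym : ∀ u w, ω w u = (-1) ^ D * ω u w)
    (hR : ω a v * ca = (-1) ^ D * (ω x v * cx)) (u w : V) :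
    alg2mv ω v x a cx ca w u = (-1) ^ D * alg2mv ω v x a cx ca u w := by
  have hsq : ((-1 : ℝ) ^ D) * (-1) ^ D = 1 := by
    rw [← mul_pow]
    norm_num
  by_cases h1 : u = x ∧ w = a
  · obtain ⟨rfl, rfl⟩ := h1
    rw [alg2mv_xa, alg2mv_ax hxa, hR, hsym u w]
    ring
  · by_cases h2 : u = a ∧ w = x
    · obtain ⟨rfl, rfl⟩ := h2
      rw [alg2mv_xa, alg2mv_ax hxa, hR, hsym w u]
      linear_combination (-(ω w v * cx + ω w u)) * hsq
    · by_cases h3 : (u = v ∧ (w = x ∨ w = a)) ∨ (w = v ∧ (u = x ∨ u = a))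
      · unfold alg2mv
        rw [if_neg (fun h => h2 ⟨h.2, h.1⟩), if_neg (fun h => h1 ⟨h.2, h.1⟩),
          if_pos (Or.symm h3), if_neg h1, if_neg h2, if_pos h3, mul_zero]
      · rw [alg2mv_off h1 h2 h3, alg2mv_off (fun h => h2 ⟨h.2, h.1⟩) (fun h => h1 ⟨h.2, h.1⟩)
          (fun h => h3 (Or.symm h)), hsym u w]

theorem alg2mv_eq {D : ℕ} {p : V × Fin 2 → ℝ} (hxa : x ≠ a) (hxv : x ≠ v) (hav : a ≠ v) {s : ℝ}
    (hline : ∀ k : Fin 2, p (v, k) = (1 - s) * p (x, k) + s * p (a, k)) {u : V} (huv : u ≠ v)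
    (j : Fin D)
    (heq : ∑ w, ω u w * mon D (p (w, 0) - p (u, 0)) (p (w, 1) - p (u, 1)) j = 0) :
    ∑ w, alg2mv ω v x a (s ^ (D - 1)) ((1 - s) ^ (D - 1)) u w *
      mon D (p (w, 0) - p (u, 0)) (p (w, 1) - p (u, 1)) j = 0 := by
  by_cases hux : u = x
  · subst hux
    have e : ∀ w, alg2mv ω v u a (s ^ (D - 1)) ((1 - s) ^ (D - 1)) u w *
        mon D (p (w, 0) - p (u, 0)) (p (w, 1) - p (u, 1)) j =
        ω u w * mon D (p (w, 0) - p (u, 0)) (p (w, 1) - p (u, 1)) j +
        (if w = a then ω u v * s ^ (D - 1) * mon D (p (w, 0) - p (u, 0)) (p (w, 1) - p (u, 1)) j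
          else 0) -
        (if w = v then ω u v * mon D (p (w, 0) - p (u, 0)) (p (w, 1) - p (u, 1)) j else 0) := by
      intro w
      rw [alg2mv_x hxa hxv hav w]
      split_ifs <;> ring
    rw [Finset.sum_congr rfl fun w _ => e w, Finset.sum_sub_distrib, Finset.sum_add_distrib, heq,
      Finset.sum_ite_eq' Finset.univ a, Finset.sum_ite_eq' Finset.univ v,
      if_pos (Finset.mem_univ _), if_pos (Finset.mem_univ _)]
    have e0 : p (v, 0) - p (u, 0) = s * (p (a, 0) - p (u, 0)) := by rw [hline 0]; ring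
    have e1 : p (v, 1) - p (u, 1) = s * (p (a, 1) - p (u, 1)) := by rw [hline 1]; ring
    rw [e0, e1, alg2_mon_smul]
    ring
  · by_cases hua : u = a
    · subst hua
      have e : ∀ w, alg2mv ω v x u (s ^ (D - 1)) ((1 - s) ^ (D - 1)) u w *
          mon D (p (w, 0) - p (u, 0)) (p (w, 1) - p (u, 1)) j =
          ω u w * mon D (p (w, 0) - p (u, 0)) (p (w, 1) - p (u, 1)) j +
          (if w = x then ω u v * (1 - s) ^ (D - 1) *
            mon D (p (w, 0) - p (u, 0)) (p (w, 1) - p (u, 1)) j else 0) -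
          (if w = v then ω u v * mon D (p (w, 0) - p (u, 0)) (p (w, 1) - p (u, 1)) j
            else 0) := by
        intro w
        rw [alg2mv_a hxa hxv hav w]
        split_ifs <;> ring
      rw [Finset.sum_congr rfl fun w _ => e w, Finset.sum_sub_distrib, Finset.sum_add_distrib,
        heq, Finset.sum_ite_eq' Finset.univ x, Finset.sum_ite_eq' Finset.univ v,
        if_pos (Finset.mem_univ _), if_pos (Finset.mem_univ _)]
      have e0 : p (v, 0) - p (u, 0) = (1 - s) * (p (x, 0) - p (u, 0)) := by rw [hline 0]; ring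
      have e1 : p (v, 1) - p (u, 1) = (1 - s) * (p (x, 1) - p (u, 1)) := by rw [hline 1]; ring
      rw [e0, e1, alg2_mon_smul]
      ring
    · rw [← heq]
      exact Finset.sum_congr rfl fun w _ => by rw [alg2mv_other hux hua huv w]

end alg2mv

/-- the relation between the two values on a line, from the relation of parallel directions -/
theorem alg2_rel {D : ℕ} (hD : 1 ≤ D) {ω : V → V → ℝ} {v x a : V} {s : ℝ} (hs0 : s ≠ 0)
    (hsym : ∀ u w, ω w u = (-1) ^ D * ω u w)
    (h : ω v x + (-(1 - s) / s) ^ (D - 1) * ω v a = 0) :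
    ω a v * (1 - s) ^ (D - 1) = (-1) ^ D * (ω x v * s ^ (D - 1)) := by
  obtain ⟨n, rfl⟩ : ∃ n, D = n + 1 := ⟨D - 1, by omega⟩
  rw [hsym v a, hsym v x]
  simp only [Nat.add_sub_cancel] at h ⊢
  have h1 : ω v x = -((-(1 - s) / s) ^ n * ω v a) := by linarith
  have hsn : s ^ n ≠ 0 := pow_ne_zero n hs0
  have h2 : (-(1 - s) / s) ^ n * s ^ n = (-1) ^ n * (1 - s) ^ n := by
    rw [← mul_pow, ← mul_pow]
    congr 1
    field_simp
  have hsq : ((-1 : ℝ) ^ n) * (-1) ^ n = 1 := by
    rw [← mul_pow]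
    norm_num
  rw [h1, pow_succ]
  have h3 : (-1) ^ n * -1 * ((-1) ^ n * -1 * -((-(1 - s) / s) ^ n * ω v a) * s ^ n) =
      -(((-1 : ℝ) ^ n * (-1) ^ n) * (((-(1 - s) / s) ^ n * s ^ n) * ω v a)) := by ring
  rw [h3, hsq, h2]
  ring

/-- the direction to `a` is a multiple of the direction to `x` -/
theorem alg2_dir {D : ℕ} {p : V × Fin 2 → ℝ} {v x a : V} {s : ℝ} (hs0 : s ≠ 0)
    (hline : ∀ k : Fin 2, p (v, k) = (1 - s) * p (x, k) + s * p (a, k)) (j : Fin D) :
    mon D (p (a, 0) - p (v, 0)) (p (a, 1) - p (v, 1)) j =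
      (-(1 - s) / s) ^ (D - 1) * mon D (p (x, 0) - p (v, 0)) (p (x, 1) - p (v, 1)) j := by
  rw [← alg2_mon_smul]
  have e0 : p (a, 0) - p (v, 0) = (-(1 - s) / s) * (p (x, 0) - p (v, 0)) := by
    rw [hline 0]; field_simp; ring
  have e1 : p (a, 1) - p (v, 1) = (-(1 - s) / s) * (p (x, 1) - p (v, 1)) := by
    rw [hline 1]; field_simp; ring
  rw [e0, e1]

theorem indep_ext1 {D : ℕ} {p : V × Fin 2 → ℝ} {F : Finset (Finset V)} {I : Finset V} {v x b : V}
    (hv : v ∈ I) (hx : x ∈ nb F v) (hb : b ∈ nb F v) (hxb : x ≠ b)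
    (hcard : (nb F v).card = D + 1) (hF : ({x, b} : Finset V) ∉ F)
    (s : ℝ) (hs0 : s ≠ 0) (hs1 : s ≠ 1)
    (hline : ∀ k : Fin 2, p (v, k) = (1 - s) * p (x, k) + s * p (b, k))
    (hne : ∀ w ∈ nb F v, p (w, 0) ≠ p (v, 0) ∨ p (w, 1) ≠ p (v, 1))
    (hpar : ∀ w ∈ (nb F v).erase b, ∀ w' ∈ (nb F v).erase b, w ≠ w' → cr p v w w' ≠ 0)
    (h : Indep D p (insert {x, b} (F.filter (fun e => v ∉ e))) (I.erase v)) : Indep D p F I := by
  intro ω hω
  have hxv : x ≠ v := (mem_nb.1 hx).1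
  have hbv : b ≠ v := (mem_nb.1 hb).1
  have hD : 1 ≤ D := by
    have h2 : ({x, b} : Finset V).card ≤ (nb F v).card := Finset.card_le_card (by
      intro y hy
      rw [Finset.mem_insert, Finset.mem_singleton] at hy
      rcases hy with rfl | rfl
      · exact hx
      · exact hb)
    rw [Finset.card_pair hxb] at h2
    omega
  -- the equation at `v`
  have h1 := mon_indep (D := D) ((nb F v).erase b) (fun w => p (w, 0) - p (v, 0))
    (fun w => p (w, 1) - p (v, 1))
    (fun w => ω v w + (if w = x then (-(1 - s) / s) ^ (D - 1) * ω v b else 0))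
    (by rw [Finset.card_erase_of_mem hb]; omega)
    (fun w hw => (hne w (Finset.mem_of_mem_erase hw)).imp (fun h => sub_ne_zero.2 h)
      (fun h => sub_ne_zero.2 h))
    (fun w hw w' hw' hww => hpar w hw w' hw' hww)
    (fun j => by
      have hxm : x ∈ (nb F v).erase b := Finset.mem_erase.2 ⟨hxb, hx⟩
      have e : ∀ w ∈ (nb F v).erase b,
          (ω v w + (if w = x then (-(1 - s) / s) ^ (D - 1) * ω v b else 0)) *
            mon D (p (w, 0) - p (v, 0)) (p (w, 1) - p (v, 1)) j =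
          ω v w * mon D (p (w, 0) - p (v, 0)) (p (w, 1) - p (v, 1)) j +
          (if w = x then (-(1 - s) / s) ^ (D - 1) * ω v b *
            mon D (p (w, 0) - p (v, 0)) (p (w, 1) - p (v, 1)) j else 0) := by
        intro w _
        split_ifs <;> ring
      rw [Finset.sum_congr rfl e, Finset.sum_add_distrib, Finset.sum_ite_eq' _ x, if_pos hxm]
      have e2 : ∑ w ∈ nb F v, ω v w * mon D (p (w, 0) - p (v, 0)) (p (w, 1) - p (v, 1)) j = 0 := by
        rw [← hω.eq v hv j]
        refine Finset.sum_subset (Finset.subset_univ _) fun w _ hw => ?_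
        rw [alg2_supp hω hw, zero_mul]
      rw [← Finset.add_sum_erase _ _ hb, alg2_dir hs0 hline j] at e2
      linarith)
  have hoth : ∀ w, w ≠ x → w ≠ b → ω v w = 0 := by
    intro w hwx hwb
    by_cases hw : w ∈ nb F v
    · have := h1 w (Finset.mem_erase.2 ⟨hwb, hw⟩)
      simpa [hwx] using this
    · exact alg2_supp hω hw
  have hoth' : ∀ w, w ≠ x → w ≠ b → ω w v = 0 := by
    intro w hwx hwb
    rw [hω.symm v w, hoth w hwx hwb, mul_zero]
  have hrel : ω v x + (-(1 - s) / s) ^ (D - 1) * ω v b = 0 := by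
    have := h1 x (Finset.mem_erase.2 ⟨hxb, hx⟩)
    simpa using this
  have hR := alg2_rel hD hs0 hω.symm hrel
  have hs1' : 1 - s ≠ 0 := sub_ne_zero.2 (Ne.symm hs1)
  have hxb0 : ω x b = 0 := by
    by_contra hne'
    exact hF (hω.supp x b hne').2
  have hbx0 : ω b x = 0 := by rw [hω.symm x b, hxb0, mul_zero]
  -- the new stress
  have hst : IsStress D p (insert {x, b} (F.filter (fun e => v ∉ e))) (I.erase v)
      (alg2mv ω v x b (s ^ (D - 1)) ((1 - s) ^ (D - 1))) := by
    refine ⟨?_, ?_, ?_⟩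
    · intro u w huw
      by_cases c1 : u = x ∧ w = b
      · obtain ⟨rfl, rfl⟩ := c1
        exact ⟨hxb, Finset.mem_insert_self _ _⟩
      · by_cases c2 : u = b ∧ w = x
        · obtain ⟨rfl, rfl⟩ := c2
          exact ⟨hxb.symm, by rw [Finset.pair_comm]; exact Finset.mem_insert_self _ _⟩
        · by_cases c3 : (u = v ∧ (w = x ∨ w = b)) ∨ (w = v ∧ (u = x ∨ u = b))
          · exfalso
            apply huw
            unfold alg2mv
            rw [if_neg c1, if_neg c2, if_pos c3]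
          · rw [alg2mv_off c1 c2 c3] at huw
            obtain ⟨h2, h3⟩ := hω.supp u w huw
            refine ⟨h2, Finset.mem_insert_of_mem (Finset.mem_filter.2 ⟨h3, ?_⟩)⟩
            intro hvv
            rw [Finset.mem_insert, Finset.mem_singleton] at hvv
            rcases hvv with rfl | rfl
            · push Not at c3
              exact huw (hoth w (c3.1 rfl).1 (c3.1 rfl).2)
            · push Not at c3
              exact huw (hoth' u (c3.2 rfl).1 (c3.2 rfl).2)
    · intro u w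
      exact alg2mv_symm hxb hω.symm hR u w
    · intro u hu j
      obtain ⟨hu1, hu2⟩ := Finset.mem_erase.1 hu
      exact alg2mv_eq hxb hxv hbv hline hu1 j (hω.eq u hu2 j)
  have hz := h _ hst
  have hxv0 : ω x v = 0 := by
    have h2 := hz x b
    rw [alg2mv_xa, hxb0, add_zero] at h2
    exact (mul_eq_zero.1 h2).resolve_right (pow_ne_zero _ hs0)
  have hbv0 : ω b v = 0 := by
    have h2 := hz b x
    rw [alg2mv_ax hxb, hbx0, add_zero] at h2
    exact (mul_eq_zero.1 h2).resolve_right (pow_ne_zero _ hs1')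
  have hwv : ∀ w, ω w v = 0 := by
    intro w
    by_cases c1 : w = x
    · rw [c1]; exact hxv0
    · by_cases c2 : w = b
      · rw [c2]; exact hbv0
      · exact hoth' w c1 c2
  intro u w
  by_cases c1 : u = x ∧ w = b
  · rw [c1.1, c1.2]; exact hxb0
  · by_cases c2 : u = b ∧ w = x
    · rw [c2.1, c2.2]; exact hbx0
    · by_cases c4 : u = v
      · rw [c4, hω.symm w v, hwv w, mul_zero]
      · by_cases c5 : w = v
        · rw [c5]; exact hwv u
        · have h2 := hz u w
          rwa [alg2mv_off c1 c2 (fun h => h.elim (fun h => c4 h.1) (fun h => c5 h.1))] at h2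

theorem indep_ext2 {D : ℕ} {p : V × Fin 2 → ℝ} {F : Finset (Finset V)} {I : Finset V}
    {v x a y b : V} (hv : v ∈ I) (hx : x ∈ nb F v) (ha : a ∈ nb F v) (hy : y ∈ nb F v)
    (hb : b ∈ nb F v) (hxa : x ≠ a) (hyb : y ≠ b) (hxy : x ≠ y) (hxb : x ≠ b) (hay : a ≠ y)
    (hab : a ≠ b) (hcard : (nb F v).card = D + 2) (hF : ({x, a} : Finset V) ∉ F)
    (hF' : ({y, b} : Finset V) ∉ F)
    (s t : ℝ) (hs0 : s ≠ 0) (hs1 : s ≠ 1) (ht0 : t ≠ 0) (ht1 : t ≠ 1)
    (hline : ∀ k : Fin 2, p (v, k) = (1 - s) * p (x, k) + s * p (a, k))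
    (hline' : ∀ k : Fin 2, p (v, k) = (1 - t) * p (y, k) + t * p (b, k))
    (hne : ∀ w ∈ nb F v, p (w, 0) ≠ p (v, 0) ∨ p (w, 1) ≠ p (v, 1))
    (hpar : ∀ w ∈ ((nb F v).erase a).erase b, ∀ w' ∈ ((nb F v).erase a).erase b,
      w ≠ w' → cr p v w w' ≠ 0)
    (h : Indep D p (insert {x, a} (insert {y, b} (F.filter (fun e => v ∉ e)))) (I.erase v)) :
    Indep D p F I := by
  intro ω hω
  have hxv : x ≠ v := (mem_nb.1 hx).1
  have hav : a ≠ v := (mem_nb.1 ha).1
  have hyv : y ≠ v := (mem_nb.1 hy).1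
  have hbv : b ≠ v := (mem_nb.1 hb).1
  have hD : 1 ≤ D := by
    have h2 : ({x, a, y} : Finset V).card ≤ (nb F v).card := Finset.card_le_card (by
      intro z hz
      rw [Finset.mem_insert, Finset.mem_insert, Finset.mem_singleton] at hz
      rcases hz with rfl | rfl | rfl
      · exact hx
      · exact ha
      · exact hy)
    rw [Finset.card_eq_three.2 ⟨x, a, y, hxa, hxy, hay, rfl⟩] at h2
    omega
  have hbe : b ∈ (nb F v).erase a := Finset.mem_erase.2 ⟨hab.symm, hb⟩
  have hxm : x ∈ ((nb F v).erase a).erase b :=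
    Finset.mem_erase.2 ⟨hxb, Finset.mem_erase.2 ⟨hxa, hx⟩⟩
  have hym : y ∈ ((nb F v).erase a).erase b :=
    Finset.mem_erase.2 ⟨hyb, Finset.mem_erase.2 ⟨hay.symm, hy⟩⟩
  -- the equation at `v`
  have h1 := mon_indep (D := D) (((nb F v).erase a).erase b) (fun w => p (w, 0) - p (v, 0))
    (fun w => p (w, 1) - p (v, 1))
    (fun w => ω v w + (if w = x then (-(1 - s) / s) ^ (D - 1) * ω v a else 0) +
      (if w = y then (-(1 - t) / t) ^ (D - 1) * ω v b else 0))
    (by rw [Finset.card_erase_of_mem hbe, Finset.card_erase_of_mem ha]; omega)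
    (fun w hw => (hne w (Finset.mem_of_mem_erase (Finset.mem_of_mem_erase hw))).imp
      (fun h => sub_ne_zero.2 h) (fun h => sub_ne_zero.2 h))
    (fun w hw w' hw' hww => hpar w hw w' hw' hww)
    (fun j => by
      have e : ∀ w ∈ ((nb F v).erase a).erase b,
          (ω v w + (if w = x then (-(1 - s) / s) ^ (D - 1) * ω v a else 0) +
            (if w = y then (-(1 - t) / t) ^ (D - 1) * ω v b else 0)) *
            mon D (p (w, 0) - p (v, 0)) (p (w, 1) - p (v, 1)) j =
          ω v w * mon D (p (w, 0) - p (v, 0)) (p (w, 1) - p (v, 1)) j +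
          (if w = x then (-(1 - s) / s) ^ (D - 1) * ω v a *
            mon D (p (w, 0) - p (v, 0)) (p (w, 1) - p (v, 1)) j else 0) +
          (if w = y then (-(1 - t) / t) ^ (D - 1) * ω v b *
            mon D (p (w, 0) - p (v, 0)) (p (w, 1) - p (v, 1)) j else 0) := by
        intro w _
        split_ifs <;> ring
      rw [Finset.sum_congr rfl e, Finset.sum_add_distrib, Finset.sum_add_distrib,
        Finset.sum_ite_eq' _ x, if_pos hxm, Finset.sum_ite_eq' _ y, if_pos hym]
      have e2 : ∑ w ∈ nb F v, ω v w * mon D (p (w, 0) - p (v, 0)) (p (w, 1) - p (v, 1)) j = 0 := by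
        rw [← hω.eq v hv j]
        refine Finset.sum_subset (Finset.subset_univ _) fun w _ hw => ?_
        rw [alg2_supp hω hw, zero_mul]
      rw [← Finset.add_sum_erase _ _ ha, ← Finset.add_sum_erase _ _ hbe, alg2_dir hs0 hline j,
        alg2_dir ht0 hline' j] at e2
      linarith)
  have hoth : ∀ w, w ≠ x → w ≠ a → w ≠ y → w ≠ b → ω v w = 0 := by
    intro w hwx hwa hwy hwb
    by_cases hw : w ∈ nb F v
    · have := h1 w (Finset.mem_erase.2 ⟨hwb, Finset.mem_erase.2 ⟨hwa, hw⟩⟩)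
      simpa [hwx, hwy] using this
    · exact alg2_supp hω hw
  have hoth' : ∀ w, w ≠ x → w ≠ a → w ≠ y → w ≠ b → ω w v = 0 := by
    intro w hwx hwa hwy hwb
    rw [hω.symm v w, hoth w hwx hwa hwy hwb, mul_zero]
  have hrel : ω v x + (-(1 - s) / s) ^ (D - 1) * ω v a = 0 := by
    have := h1 x hxm
    simpa [hxy] using this
  have hrel' : ω v y + (-(1 - t) / t) ^ (D - 1) * ω v b = 0 := by
    have := h1 y hym
    simpa [hxy.symm] using this
  have hR := alg2_rel hD hs0 hω.symm hrel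
  have hR' := alg2_rel hD ht0 hω.symm hrel'
  have hs1' : 1 - s ≠ 0 := sub_ne_zero.2 (Ne.symm hs1)
  have ht1' : 1 - t ≠ 0 := sub_ne_zero.2 (Ne.symm ht1)
  have hxa0 : ω x a = 0 := by
    by_contra hne'
    exact hF (hω.supp x a hne').2
  have hax0 : ω a x = 0 := by rw [hω.symm x a, hxa0, mul_zero]
  have hyb0 : ω y b = 0 := by
    by_contra hne'
    exact hF' (hω.supp y b hne').2
  have hby0 : ω b y = 0 := by rw [hω.symm y b, hyb0, mul_zero]
  -- the first move
  obtain ⟨ω₁, hω₁⟩ : ∃ ω₁, ω₁ = alg2mv ω v x a (s ^ (D - 1)) ((1 - s) ^ (D - 1)) := ⟨_, rfl⟩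
  have o1 : ∀ u w, u ≠ x → u ≠ a → u ≠ v → ω₁ u w = ω u w := fun u w c1 c2 c3 => by
    rw [hω₁]; exact alg2mv_other c1 c2 c3 w
  have s1 : ∀ u w, ω₁ w u = (-1) ^ D * ω₁ u w := by
    rw [hω₁]; exact alg2mv_symm hxa hω.symm hR
  have q1 : ∀ u ∈ I.erase v, ∀ j : Fin D,
      ∑ w, ω₁ u w * mon D (p (w, 0) - p (u, 0)) (p (w, 1) - p (u, 1)) j = 0 := by
    intro u hu j
    obtain ⟨hu1, hu2⟩ := Finset.mem_erase.1 hu
    rw [hω₁]
    exact alg2mv_eq hxa hxv hav hline hu1 j (hω.eq u hu2 j)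
  have yv : ω₁ y v = ω y v := o1 y v hxy.symm hay.symm hyv
  have bv : ω₁ b v = ω b v := o1 b v hxb.symm hab.symm hbv
  have yb : ω₁ y b = 0 := (o1 y b hxy.symm hay.symm hyv).trans hyb0
  have bY : ω₁ b y = 0 := (o1 b y hxb.symm hab.symm hbv).trans hby0
  have R1 : ω₁ b v * (1 - t) ^ (D - 1) = (-1) ^ D * (ω₁ y v * t ^ (D - 1)) := by
    rw [bv, yv]; exact hR'
  have xv1 : ω₁ x v = 0 := by
    rw [hω₁, alg2mv_x hxa hxv hav, if_neg hav.symm, if_pos rfl]
    ring
  have av1 : ω₁ a v = 0 := by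
    rw [hω₁, alg2mv_a hxa hxv hav, if_neg hxv.symm, if_pos rfl]
    ring
  have wv1 : ∀ w, w ≠ y → w ≠ b → ω₁ w v = 0 := by
    intro w c1 c2
    by_cases c3 : w = x
    · rw [c3]; exact xv1
    · by_cases c4 : w = a
      · rw [c4]; exact av1
      · by_cases c5 : w = v
        · subst c5
          rw [hω₁, alg2mv_v hxv hav, if_neg (fun h => h.elim c3 c4)]
          exact hoth w c3 c4 c1 c2
        · rw [o1 w v c3 c4 c5]
          exact hoth' w c3 c4 c1 c2
  -- the second move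
  obtain ⟨ω₂, hω₂⟩ : ∃ ω₂, ω₂ = alg2mv ω₁ v y b (t ^ (D - 1)) ((1 - t) ^ (D - 1)) := ⟨_, rfl⟩
  have hst : IsStress D p (insert {x, a} (insert {y, b} (F.filter (fun e => v ∉ e)))) (I.erase v)
      ω₂ := by
    refine ⟨?_, ?_, ?_⟩
    · intro u w huw
      by_cases c1 : u = y ∧ w = b
      · obtain ⟨rfl, rfl⟩ := c1
        exact ⟨hyb, Finset.mem_insert_of_mem (Finset.mem_insert_self _ _)⟩
      · by_cases c2 : u = b ∧ w = y
        · obtain ⟨rfl, rfl⟩ := c2
          refine ⟨hyb.symm, ?_⟩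
          rw [Finset.pair_comm u w]
          exact Finset.mem_insert_of_mem (Finset.mem_insert_self _ _)
        · by_cases c3 : (u = v ∧ (w = y ∨ w = b)) ∨ (w = v ∧ (u = y ∨ u = b))
          · exfalso
            apply huw
            rw [hω₂]
            unfold alg2mv
            rw [if_neg c1, if_neg c2, if_pos c3]
          · rw [hω₂, alg2mv_off c1 c2 c3] at huw
            push Not at c3
            have hwv : w ≠ v := by
              rintro rfl
              exact huw (wv1 u (c3.2 rfl).1 (c3.2 rfl).2)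
            have huv : u ≠ v := by
              rintro rfl
              apply huw
              rw [s1 w u, wv1 w (c3.1 rfl).1 (c3.1 rfl).2, mul_zero]
            by_cases d1 : u = x ∧ w = a
            · obtain ⟨rfl, rfl⟩ := d1
              exact ⟨hxa, Finset.mem_insert_self _ _⟩
            · by_cases d2 : u = a ∧ w = x
              · obtain ⟨rfl, rfl⟩ := d2
                refine ⟨hxa.symm, ?_⟩
                rw [Finset.pair_comm u w]
                exact Finset.mem_insert_self _ _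
              · rw [hω₁, alg2mv_off d1 d2
                  (fun h => h.elim (fun h => huv h.1) (fun h => hwv h.1))] at huw
                obtain ⟨h2, h3⟩ := hω.supp u w huw
                refine ⟨h2, Finset.mem_insert_of_mem (Finset.mem_insert_of_mem
                  (Finset.mem_filter.2 ⟨h3, ?_⟩))⟩
                intro hvv
                rw [Finset.mem_insert, Finset.mem_singleton] at hvv
                exact hvv.elim (fun h => huv h.symm) (fun h => hwv h.symm)
    · intro u w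
      rw [hω₂]
      exact alg2mv_symm hyb s1 R1 u w
    · intro u hu j
      rw [hω₂]
      exact alg2mv_eq hyb hyv hbv hline' (Finset.mem_erase.1 hu).1 j (q1 u hu j)
  have hz := h _ hst
  have hyv0 : ω y v = 0 := by
    have h2 := hz y b
    rw [hω₂, alg2mv_xa, yb, add_zero, yv] at h2
    exact (mul_eq_zero.1 h2).resolve_right (pow_ne_zero _ ht0)
  have hbv0 : ω b v = 0 := by
    have h2 := hz b y
    rw [hω₂, alg2mv_ax hyb, bY, add_zero, bv] at h2
    exact (mul_eq_zero.1 h2).resolve_right (pow_ne_zero _ ht1')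
  -- all values of the first move vanish away from the pairs with `v`
  have z1 : ∀ u w, u ≠ v → w ≠ v → ω₁ u w = 0 := by
    intro u w huv hwv
    by_cases c1 : u = y ∧ w = b
    · rw [c1.1, c1.2]; exact yb
    · by_cases c2 : u = b ∧ w = y
      · rw [c2.1, c2.2]; exact bY
      · have h2 := hz u w
        rwa [hω₂, alg2mv_off c1 c2 (fun h => h.elim (fun h => huv h.1) (fun h => hwv h.1))] at h2
  have hxv0 : ω x v = 0 := by
    have h2 := z1 x a hxv hav
    rw [hω₁, alg2mv_xa, hxa0, add_zero] at h2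
    exact (mul_eq_zero.1 h2).resolve_right (pow_ne_zero _ hs0)
  have hav0 : ω a v = 0 := by
    have h2 := z1 a x hav hxv
    rw [hω₁, alg2mv_ax hxa, hax0, add_zero] at h2
    exact (mul_eq_zero.1 h2).resolve_right (pow_ne_zero _ hs1')
  have hwv : ∀ w, ω w v = 0 := by
    intro w
    by_cases c1 : w = x
    · rw [c1]; exact hxv0
    · by_cases c2 : w = a
      · rw [c2]; exact hav0
      · by_cases c3 : w = y
        · rw [c3]; exact hyv0
        · by_cases c4 : w = b
          · rw [c4]; exact hbv0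
          · exact hoth' w c1 c2 c3 c4
  intro u w
  by_cases c4 : u = v
  · rw [c4, hω.symm w v, hwv w, mul_zero]
  · by_cases c5 : w = v
    · rw [c5]; exact hwv u
    · by_cases c1 : u = x ∧ w = a
      · rw [c1.1, c1.2]; exact hxa0
      · by_cases c2 : u = a ∧ w = x
        · rw [c2.1, c2.2]; exact hax0
        · have h2 := z1 u w c4 c5
          rwa [hω₁, alg2mv_off c1 c2 (fun h => h.elim (fun h => c4 h.1) (fun h => c5 h.1))] at h2

end Pool.Agent.Spl1
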