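import Pool.Agent.Spl1.Alg1
import Pool.Agent.Spl1.Alg2

/-!
# Generic extension lemmas

All three follow the pattern: `GI_of_exists`, so one position `p` with `Indep D p F I` is enough.  `Indep` of a
set of edges not at `v` on `I.erase v` does not depend on the position of `v` (`indep_congr`).

`gi_del`: `U` = positions with `p (w,0) ≠ p (v,0)` and `cr p v w w' ≠ 0` for `w ≠ w'` in `nb F v`: open, and
nonempty (`p_v = (0,0)`, `p_w = (1, f w)`, `f : V → ℝ` injective).  `exists_of_GI_open`, `indep_del`.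

`gi_ext1`: for a position `p` let `p'` be `p` with `p_v` replaced by the midpoint of `p_x, p_b`.
`U` = positions `p` such that `p'` satisfies the nondegeneracy hypotheses of `indep_ext1` (`s = 1/2`):
open (continuous functions of `p`), nonempty: `p_x = (-1, 0)`, `p_b = (1, 0)`, `p_w = (1, f w)` for the others,
`f` injective and `f w ≠ 0` (then `p'_v = (0,0)`).

`gi_ext2`: for a position `p` with `c(p) = cross(p_a - p_x, p_b - p_y) ≠ 0` the lines `x a` and `y b` meet in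
`(1-s) p_x + s p_a = (1-t) p_y + t p_b`, `s = cross(p_y - p_x, p_b - p_y) / c`,
`t = cross(p_y - p_x, p_a - p_x) / c`; let `p'` be `p` with `p_v` replaced by it.
`U` = positions `p` with `c(p) ≠ 0`, `s, t ≠ 0, 1` and `p'` nondegenerate: open, because `{c ≠ 0}` is open and
`s, t, p'` are continuous on it (or multiply all conditions by powers of `c(p)` to make them polynomial);
nonempty: `p_x = (1,0)`, `p_a = (2,0)`, `p_y = (0,1)`, `p_b = (0,2)`, `p_w = (1, f w)`, `f` injective and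
`f w ≠ 0` for the others; then `p'_v = (0,0)`, `s = t = -1`.
-/

set_option autoImplicit false

namespace Pool.Agent.Spl1

open Finset

variable {V : Type*} [Fintype V] [DecidableEq V]

theorem indep_congr {D : ℕ} {p p' : V × Fin 2 → ℝ} {F : Finset (Finset V)} {I : Finset V} {v : V}
    (hF : ∀ e ∈ F, v ∉ e) (hv : v ∉ I) (hp : ∀ u, u ≠ v → ∀ k, p (u, k) = p' (u, k))
    (h : Indep D p F I) : Indep D p' F I := by
  intro ω hω
  refine h ω ⟨hω.supp, hω.symm, fun u hu j => ?_⟩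
  rw [← hω.eq u hu j]
  have huv : u ≠ v := fun e => hv (e ▸ hu)
  refine sum_congr rfl fun w _ => ?_
  by_cases hw : w = v
  · have h0 : ω u w = 0 := by
      by_contra hne
      have h1 := (hω.supp u w hne).2
      exact hF _ h1 (by rw [hw]; simp)
    rw [h0, zero_mul, zero_mul]
  · rw [hp u huv, hp u huv, hp w hw, hp w hw]

namespace Alg3

/-- one may take the position close to a given one -/
theorem exists_near {D : ℕ} {F : Finset (Finset V)} {I : Finset V} (h : GI D F I)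
    {p₀ : V × Fin 2 → ℝ} {R : (V × Fin 2 → ℝ) → Prop} (hR : ∀ᶠ p in nhds p₀, R p) :
    ∃ p, R p ∧ Indep D p F I := by
  obtain ⟨p, hp, hi⟩ := exists_of_GI_open h (U := interior {p | R p}) isOpen_interior
    ⟨p₀, mem_interior_iff_mem_nhds.2 hR⟩
  exact ⟨p, interior_subset hp, hi⟩

omit [Fintype V] [DecidableEq V] in
theorem ev_ne (N : Finset V) (v : V) {q₀ : V × Fin 2 → ℝ}
    (h : ∀ w ∈ N, q₀ (w, 0) ≠ q₀ (v, 0) ∨ q₀ (w, 1) ≠ q₀ (v, 1)) :
    ∀ᶠ q in nhds q₀, ∀ w ∈ N, q (w, 0) ≠ q (v, 0) ∨ q (w, 1) ≠ q (v, 1) := by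
  rw [Filter.eventually_all_finset]
  intro w hw
  have hc : ∀ i : V × Fin 2, ContinuousAt (fun q : V × Fin 2 → ℝ => q i) q₀ := fun i =>
    (continuous_apply i).continuousAt
  rcases h w hw with h1 | h1
  · have h2 := ((hc (w, 0)).sub (hc (v, 0))).eventually_ne (sub_ne_zero.2 h1)
    filter_upwards [h2] with q hq
    exact Or.inl (sub_ne_zero.1 hq)
  · have h2 := ((hc (w, 1)).sub (hc (v, 1))).eventually_ne (sub_ne_zero.2 h1)
    filter_upwards [h2] with q hq
    exact Or.inr (sub_ne_zero.1 hq)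

omit [Fintype V] [DecidableEq V] in
theorem ev_par (N : Finset V) (v : V) {q₀ : V × Fin 2 → ℝ}
    (h : ∀ w ∈ N, ∀ w' ∈ N, w ≠ w' → cr q₀ v w w' ≠ 0) :
    ∀ᶠ q in nhds q₀, ∀ w ∈ N, ∀ w' ∈ N, w ≠ w' → cr q v w w' ≠ 0 := by
  rw [Filter.eventually_all_finset]
  intro w hw
  rw [Filter.eventually_all_finset]
  intro w' hw'
  by_cases hne : w = w'
  · exact Filter.Eventually.of_forall fun q h1 => absurd hne h1
  · have hc : Continuous (fun q : V × Fin 2 → ℝ => cr q v w w') := by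
      unfold cr
      fun_prop
    have h2 := hc.continuousAt.eventually_ne (h w hw w' hw' hne)
    filter_upwards [h2] with q hq
    exact fun _ => hq

omit [DecidableEq V] in
/-- injective nonzero labels -/
theorem exists_label : ∃ f : V → ℝ, Function.Injective f ∧ ∀ w, f w ≠ 0 := by
  refine ⟨fun w => ((Fintype.equivFin V w : ℕ) : ℝ) + 1, ?_, fun w => by positivity⟩
  intro w w' h
  have h1 : (((Fintype.equivFin V w : ℕ) : ℝ)) = ((Fintype.equivFin V w' : ℕ) : ℝ) := by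
    simpa using h
  exact (Fintype.equivFin V).injective (Fin.ext (by exact_mod_cast h1))

end Alg3

open Alg3

theorem gi_del {D : ℕ} {F : Finset (Finset V)} {I : Finset V} {v : V}
    (hv : v ∈ I) (hcard : (nb F v).card ≤ D)
    (h : GI D (F.filter (fun e => v ∉ e)) (I.erase v)) : GI D F I := by
  obtain ⟨f, hf, hf0⟩ := exists_label (V := V)
  obtain ⟨p₀, hp₀⟩ : ∃ p₀ : V × Fin 2 → ℝ, p₀ = fun i =>
    if i.1 = v then 0 else if i.2 = 0 then 1 else f i.1 := ⟨_, rfl⟩
  have e1 : ∀ k, p₀ (v, k) = 0 := fun k => by rw [hp₀]; simp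
  have e2 : ∀ w, w ≠ v → p₀ (w, 0) = 1 := fun w hw => by rw [hp₀]; simp [hw]
  have e3 : ∀ w, w ≠ v → p₀ (w, 1) = f w := fun w hw => by rw [hp₀]; simp [hw]
  have hnv : ∀ w ∈ nb F v, w ≠ v := fun w hw => (mem_nb.1 hw).1
  have h1 := ev_ne (nb F v) v (q₀ := p₀) (fun w hw => by
    left
    rw [e1, e2 w (hnv w hw)]
    exact one_ne_zero)
  have h2 := ev_par (nb F v) v (q₀ := p₀) (fun w hw w' hw' hne => by
    unfold cr
    rw [e1, e1, e2 w (hnv w hw), e2 w' (hnv w' hw'), e3 w (hnv w hw), e3 w' (hnv w' hw')]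
    intro h0
    apply hne
    apply hf
    linarith)
  obtain ⟨p, ⟨hp1, hp2⟩, hi⟩ := exists_near h (h1.and h2)
  exact GI_of_exists ⟨p, indep_del hv hcard hp1 hp2 hi⟩

theorem gi_ext1 {D : ℕ} {F : Finset (Finset V)} {I : Finset V} {v x b : V}
    (hv : v ∈ I) (hx : x ∈ nb F v) (hb : b ∈ nb F v) (hxb : x ≠ b)
    (hcard : (nb F v).card = D + 1) (hF : ({x, b} : Finset V) ∉ F)
    (h : GI D (insert {x, b} (F.filter (fun e => v ∉ e))) (I.erase v)) : GI D F I := by
  obtain ⟨f, hf, hf0⟩ := exists_label (V := V)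
  have hnv : ∀ w ∈ nb F v, w ≠ v := fun w hw => (mem_nb.1 hw).1
  obtain ⟨p₀, hp₀⟩ : ∃ p₀ : V × Fin 2 → ℝ, p₀ = fun i =>
    if i.1 = x then (if i.2 = 0 then -1 else 0) else
    if i.1 = b then (if i.2 = 0 then 1 else 0) else
    if i.2 = 0 then 1 else f i.1 := ⟨_, rfl⟩
  obtain ⟨P, hP⟩ : ∃ P : (V × Fin 2 → ℝ) → (V × Fin 2 → ℝ), ∀ p i, P p i =
    if i.1 = v then (1 - 1 / 2) * p (x, i.2) + 1 / 2 * p (b, i.2) else p i :=
    ⟨_, fun _ _ => rfl⟩
  have hPc : ContinuousAt P p₀ := by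
    refine continuousAt_pi.2 fun i => ?_
    have h1 : (fun p => P p i) = fun p =>
      if i.1 = v then (1 - 1 / 2) * p (x, i.2) + 1 / 2 * p (b, i.2) else p i :=
      funext fun p => hP p i
    rw [h1]
    split_ifs
    · fun_prop
    · exact (continuous_apply i).continuousAt
  have hPv : ∀ p k, P p (v, k) = (1 - 1 / 2) * p (x, k) + 1 / 2 * p (b, k) := fun p k => by
    rw [hP]; simp
  have hPw : ∀ p w, w ≠ v → ∀ k, P p (w, k) = p (w, k) := fun p w hw k => by
    rw [hP]; simp [hw]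
  have x0 : p₀ (x, 0) = -1 := by rw [hp₀]; simp
  have x1 : p₀ (x, 1) = 0 := by rw [hp₀]; simp
  have b0 : p₀ (b, 0) = 1 := by rw [hp₀]; simp [hxb.symm]
  have b1 : p₀ (b, 1) = 0 := by rw [hp₀]; simp [hxb.symm]
  have w0 : ∀ w, w ≠ x → w ≠ b → p₀ (w, 0) = 1 := fun w h1 h2 => by rw [hp₀]; simp [h1, h2]
  have w1 : ∀ w, w ≠ x → w ≠ b → p₀ (w, 1) = f w := fun w h1 h2 => by rw [hp₀]; simp [h1, h2]
  have v0 : P p₀ (v, 0) = 0 := by rw [hPv, x0, b0]; norm_num
  have v1 : P p₀ (v, 1) = 0 := by rw [hPv, x1, b1]; norm_num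
  have h1 := hPc.eventually (ev_ne (nb F v) v (q₀ := P p₀) (fun w hw => by
    left
    rw [v0, hPw _ w (hnv w hw)]
    by_cases hwx : w = x
    · rw [hwx, x0]; norm_num
    · by_cases hwb : w = b
      · rw [hwb, b0]; norm_num
      · rw [w0 w hwx hwb]; norm_num))
  have h2 := hPc.eventually (ev_par ((nb F v).erase b) v (q₀ := P p₀) (fun w hw w' hw' hne => by
    obtain ⟨hwb, hw⟩ := mem_erase.1 hw
    obtain ⟨hwb', hw'⟩ := mem_erase.1 hw'
    unfold cr
    rw [v0, v1, hPw _ w (hnv w hw), hPw _ w (hnv w hw), hPw _ w' (hnv w' hw'),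
      hPw _ w' (hnv w' hw')]
    by_cases hwx : w = x
    · have hwx' : w' ≠ x := fun e => hne (hwx.trans e.symm)
      rw [hwx, x0, x1, w0 w' hwx' hwb', w1 w' hwx' hwb']
      intro h0
      exact hf0 w' (by linarith)
    · by_cases hwx' : w' = x
      · rw [hwx', x0, x1, w0 w hwx hwb, w1 w hwx hwb]
        intro h0
        exact hf0 w (by linarith)
      · rw [w0 w hwx hwb, w1 w hwx hwb, w0 w' hwx' hwb', w1 w' hwx' hwb']
        intro h0
        apply hne
        apply hf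
        linarith))
  obtain ⟨p, ⟨hp1, hp2⟩, hi⟩ := exists_near h (h1.and h2)
  have hi' : Indep D (P p) (insert {x, b} (F.filter (fun e => v ∉ e))) (I.erase v) := by
    refine indep_congr (v := v) ?_ (notMem_erase v I) (fun u hu k => (hPw p u hu k).symm) hi
    intro e he
    rcases mem_insert.1 he with rfl | he
    · simp only [mem_insert, mem_singleton, not_or]
      exact ⟨(hnv x hx).symm, (hnv b hb).symm⟩
    · exact (mem_filter.1 he).2
  refine GI_of_exists ⟨P p, indep_ext1 hv hx hb hxb hcard hF (1 / 2) (by norm_num) (by norm_num)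
    ?_ hp1 hp2 hi'⟩
  intro k
  rw [hPv, hPw _ x (hnv x hx), hPw _ b (hnv b hb)]

theorem gi_ext2 {D : ℕ} {F : Finset (Finset V)} {I : Finset V} {v x a y b : V}
    (hv : v ∈ I) (hx : x ∈ nb F v) (ha : a ∈ nb F v) (hy : y ∈ nb F v) (hb : b ∈ nb F v)
    (hxa : x ≠ a) (hyb : y ≠ b) (hxy : x ≠ y) (hxb : x ≠ b) (hay : a ≠ y) (hab : a ≠ b)
    (hcard : (nb F v).card = D + 2) (hF : ({x, a} : Finset V) ∉ F) (hF' : ({y, b} : Finset V) ∉ F)
    (h : GI D (insert {x, a} (insert {y, b} (F.filter (fun e => v ∉ e)))) (I.erase v)) :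
    GI D F I := by
  obtain ⟨f, hf, hf0⟩ := exists_label (V := V)
  have hnv : ∀ w ∈ nb F v, w ≠ v := fun w hw => (mem_nb.1 hw).1
  obtain ⟨p₀, hp₀⟩ : ∃ p₀ : V × Fin 2 → ℝ, p₀ = fun i =>
    if i.1 = x then (if i.2 = 0 then 1 else 0) else
    if i.1 = a then (if i.2 = 0 then 2 else 0) else
    if i.1 = y then (if i.2 = 0 then 0 else 1) else
    if i.1 = b then (if i.2 = 0 then 0 else 2) else
    if i.2 = 0 then 1 else f i.1 := ⟨_, rfl⟩
  obtain ⟨c, hc⟩ : ∃ c : (V × Fin 2 → ℝ) → ℝ, ∀ p, c p =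
    (p (a, 0) - p (x, 0)) * (p (b, 1) - p (y, 1)) -
      (p (a, 1) - p (x, 1)) * (p (b, 0) - p (y, 0)) := ⟨_, fun _ => rfl⟩
  obtain ⟨S, hS⟩ : ∃ S : (V × Fin 2 → ℝ) → ℝ, ∀ p, S p =
    ((p (y, 0) - p (x, 0)) * (p (b, 1) - p (y, 1)) -
      (p (y, 1) - p (x, 1)) * (p (b, 0) - p (y, 0))) / c p := ⟨_, fun _ => rfl⟩
  obtain ⟨T, hT⟩ : ∃ T : (V × Fin 2 → ℝ) → ℝ, ∀ p, T p =
    ((p (y, 0) - p (x, 0)) * (p (a, 1) - p (x, 1)) -
      (p (y, 1) - p (x, 1)) * (p (a, 0) - p (x, 0))) / c p := ⟨_, fun _ => rfl⟩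
  obtain ⟨P, hP⟩ : ∃ P : (V × Fin 2 → ℝ) → (V × Fin 2 → ℝ), ∀ p i, P p i =
    if i.1 = v then (1 - S p) * p (x, i.2) + S p * p (a, i.2) else p i :=
    ⟨_, fun _ _ => rfl⟩
  have x0 : p₀ (x, 0) = 1 := by rw [hp₀]; simp
  have x1 : p₀ (x, 1) = 0 := by rw [hp₀]; simp
  have a0 : p₀ (a, 0) = 2 := by rw [hp₀]; simp [hxa.symm]
  have a1 : p₀ (a, 1) = 0 := by rw [hp₀]; simp [hxa.symm]
  have y0 : p₀ (y, 0) = 0 := by rw [hp₀]; simp [hxy.symm, hay.symm]
  have y1 : p₀ (y, 1) = 1 := by rw [hp₀]; simp [hxy.symm, hay.symm]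
  have b0 : p₀ (b, 0) = 0 := by rw [hp₀]; simp [hxb.symm, hab.symm, hyb.symm]
  have b1 : p₀ (b, 1) = 2 := by rw [hp₀]; simp [hxb.symm, hab.symm, hyb.symm]
  have w0 : ∀ w, w ≠ x → w ≠ a → w ≠ y → w ≠ b → p₀ (w, 0) = 1 := fun w h1 h2 h3 h4 => by
    rw [hp₀]; simp [h1, h2, h3, h4]
  have w1 : ∀ w, w ≠ x → w ≠ a → w ≠ y → w ≠ b → p₀ (w, 1) = f w := fun w h1 h2 h3 h4 => by
    rw [hp₀]; simp [h1, h2, h3, h4]
  have hc0 : c p₀ = 1 := by
    rw [hc, a0, x0, b1, y1, a1, x1, b0, y0]; norm_num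
  have hS0 : S p₀ = -1 := by
    rw [hS, hc0, x0, b1, y1, x1, b0, y0]; norm_num
  have hT0 : T p₀ = -1 := by
    rw [hT, hc0, x0, a1, y1, x1, a0, y0]; norm_num
  have hcc : ContinuousAt c p₀ := by
    have h1 : c = fun p => (p (a, 0) - p (x, 0)) * (p (b, 1) - p (y, 1)) -
      (p (a, 1) - p (x, 1)) * (p (b, 0) - p (y, 0)) := funext hc
    rw [h1]
    fun_prop
  have hSc : ContinuousAt S p₀ := by
    have h1 : S = fun p => ((p (y, 0) - p (x, 0)) * (p (b, 1) - p (y, 1)) -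
      (p (y, 1) - p (x, 1)) * (p (b, 0) - p (y, 0))) / c p := funext hS
    rw [h1]
    refine ContinuousAt.div (by fun_prop) hcc ?_
    rw [hc0]
    exact one_ne_zero
  have hTc : ContinuousAt T p₀ := by
    have h1 : T = fun p => ((p (y, 0) - p (x, 0)) * (p (a, 1) - p (x, 1)) -
      (p (y, 1) - p (x, 1)) * (p (a, 0) - p (x, 0))) / c p := funext hT
    rw [h1]
    refine ContinuousAt.div (by fun_prop) hcc ?_
    rw [hc0]
    exact one_ne_zero
  have hap : ∀ i : V × Fin 2, ContinuousAt (fun q : V × Fin 2 → ℝ => q i) p₀ := fun i =>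
    (continuous_apply i).continuousAt
  have hPc : ContinuousAt P p₀ := by
    refine continuousAt_pi.2 fun i => ?_
    have h1 : (fun p => P p i) = fun p =>
      if i.1 = v then (1 - S p) * p (x, i.2) + S p * p (a, i.2) else p i :=
      funext fun p => hP p i
    rw [h1]
    split_ifs
    · exact ((continuousAt_const.sub hSc).mul (hap _)).add (hSc.mul (hap _))
    · exact hap i
  have hPv : ∀ p k, P p (v, k) = (1 - S p) * p (x, k) + S p * p (a, k) := fun p k => by
    rw [hP]; simp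
  have hPw : ∀ p w, w ≠ v → ∀ k, P p (w, k) = p (w, k) := fun p w hw k => by
    rw [hP]; simp [hw]
  have v0 : P p₀ (v, 0) = 0 := by rw [hPv, hS0, x0, a0]; norm_num
  have v1 : P p₀ (v, 1) = 0 := by rw [hPv, hS0, x1, a1]; norm_num
  have h1 := hPc.eventually (ev_ne (nb F v) v (q₀ := P p₀) (fun w hw => by
    rw [v0, v1, hPw _ w (hnv w hw), hPw _ w (hnv w hw)]
    by_cases h1 : w = x
    · left; rw [h1, x0]; norm_num
    · by_cases h2 : w = a
      · left; rw [h2, a0]; norm_num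
      · by_cases h3 : w = y
        · right; rw [h3, y1]; norm_num
        · by_cases h4 : w = b
          · right; rw [h4, b1]; norm_num
          · left; rw [w0 w h1 h2 h3 h4]; norm_num))
  have h2 := hPc.eventually (ev_par (((nb F v).erase a).erase b) v (q₀ := P p₀)
    (fun w hw w' hw' hne => by
      obtain ⟨hwb, hw⟩ := mem_erase.1 hw
      obtain ⟨hwa, hw⟩ := mem_erase.1 hw
      obtain ⟨hwb', hw'⟩ := mem_erase.1 hw'
      obtain ⟨hwa', hw'⟩ := mem_erase.1 hw'
      unfold cr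
      rw [v0, v1, hPw _ w (hnv w hw), hPw _ w (hnv w hw), hPw _ w' (hnv w' hw'),
        hPw _ w' (hnv w' hw')]
      by_cases hwx : w = x
      · have hwx' : w' ≠ x := fun e => hne (hwx.trans e.symm)
        by_cases hwy' : w' = y
        · rw [hwx, hwy', x0, x1, y0, y1]; norm_num
        · rw [hwx, x0, x1, w0 w' hwx' hwa' hwy' hwb', w1 w' hwx' hwa' hwy' hwb']
          intro h0
          exact hf0 w' (by linarith)
      · by_cases hwy : w = y
        · have hwy' : w' ≠ y := fun e => hne (hwy.trans e.symm)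
          by_cases hwx' : w' = x
          · rw [hwy, hwx', x0, x1, y0, y1]; norm_num
          · rw [hwy, y0, y1, w0 w' hwx' hwa' hwy' hwb', w1 w' hwx' hwa' hwy' hwb']
            intro h0
            linarith
        · by_cases hwx' : w' = x
          · rw [hwx', x0, x1, w0 w hwx hwa hwy hwb, w1 w hwx hwa hwy hwb]
            intro h0
            exact hf0 w (by linarith)
          · by_cases hwy' : w' = y
            · rw [hwy', y0, y1, w0 w hwx hwa hwy hwb, w1 w hwx hwa hwy hwb]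
              intro h0
              linarith
            · rw [w0 w hwx hwa hwy hwb, w1 w hwx hwa hwy hwb, w0 w' hwx' hwa' hwy' hwb',
                w1 w' hwx' hwa' hwy' hwb']
              intro h0
              apply hne
              apply hf
              linarith))
  have h3 : ∀ᶠ p in nhds p₀, c p ≠ 0 := hcc.eventually_ne (by rw [hc0]; norm_num)
  have h4 : ∀ᶠ p in nhds p₀, S p ≠ 0 := hSc.eventually_ne (by rw [hS0]; norm_num)
  have h5 : ∀ᶠ p in nhds p₀, S p ≠ 1 := hSc.eventually_ne (by rw [hS0]; norm_num)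
  have h6 : ∀ᶠ p in nhds p₀, T p ≠ 0 := hTc.eventually_ne (by rw [hT0]; norm_num)
  have h7 : ∀ᶠ p in nhds p₀, T p ≠ 1 := hTc.eventually_ne (by rw [hT0]; norm_num)
  obtain ⟨p, ⟨⟨hp1, hp2⟩, hcp, hs0, hs1, ht0, ht1⟩, hi⟩ :=
    exists_near h ((h1.and h2).and (h3.and (h4.and (h5.and (h6.and h7)))))
  have hi' : Indep D (P p) (insert {x, a} (insert {y, b} (F.filter (fun e => v ∉ e))))
      (I.erase v) := by
    refine indep_congr (v := v) ?_ (notMem_erase v I) (fun u hu k => (hPw p u hu k).symm) hi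
    intro e he
    rcases mem_insert.1 he with rfl | he
    · simp only [mem_insert, mem_singleton, not_or]
      exact ⟨(hnv x hx).symm, (hnv a ha).symm⟩
    · rcases mem_insert.1 he with rfl | he
      · simp only [mem_insert, mem_singleton, not_or]
        exact ⟨(hnv y hy).symm, (hnv b hb).symm⟩
      · exact (mem_filter.1 he).2
  refine GI_of_exists ⟨P p, indep_ext2 hv hx ha hy hb hxa hyb hxy hxb hay hab hcard hF hF'
    (S p) (T p) hs0 hs1 ht0 ht1 ?_ ?_ hp1 hp2 hi'⟩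
  · intro k
    rw [hPv, hPw _ x (hnv x hx), hPw _ a (hnv a ha)]
  · intro k
    rw [hPv, hPw _ y (hnv y hy), hPw _ b (hnv b hb)]
    have eS : S p * c p = (p (y, 0) - p (x, 0)) * (p (b, 1) - p (y, 1)) -
        (p (y, 1) - p (x, 1)) * (p (b, 0) - p (y, 0)) := by
      rw [hS]
      exact div_mul_cancel₀ _ hcp
    have eT : T p * c p = (p (y, 0) - p (x, 0)) * (p (a, 1) - p (x, 1)) -
        (p (y, 1) - p (x, 1)) * (p (a, 0) - p (x, 0)) := by
      rw [hT]
      exact div_mul_cancel₀ _ hcp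
    have ec := hc p
    apply mul_right_cancel₀ hcp
    fin_cases k
    · simp only [Fin.zero_eta, Fin.isValue]
      linear_combination (p (a, 0) - p (x, 0)) * eS - (p (b, 0) - p (y, 0)) * eT +
        (p (x, 0) - p (y, 0)) * ec
    · simp only [Fin.mk_one, Fin.isValue]
      linear_combination (p (a, 1) - p (x, 1)) * eS - (p (b, 1) - p (y, 1)) * eT +
        (p (x, 1) - p (y, 1)) * ec

end Pool.Agent.Spl1
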