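import Pool.Agent.Spl1.Link

/-!
# Removing a vertex and drawing chords of its link

Paper proof of `one_chord`: `link_two` at `x` gives a triangle `{v,x,u}`, `link_two` at `u` gives the
triangles `{v,u,x}` and `{v,u,b}`, `b ≠ x` (uniqueness part).  `skip_not_edge`, `flip_step` at `u`, then `delv`.

`two_chords`: `flip_step` at `w (i+1)` (opposite vertices `w i`, `w (i+2)`, different because `n ≥ 6`), the
triangles `{v, w (j+1), w j}`, `{v, w (j+1), w (j+2)}` do not contain `w (i+1)` and are still there;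
the new degree is `n - 1 ≥ 5`; `flip_step` at `w (j+1)`; `delv`.  All chords and old edges do not contain `v`,
so they persist.  The six vertices `w i, w (i+1), w (i+2), w j, w (j+1), w (j+2)` are distinct by `i + 3 ≤ j`,
`j + 3 ≤ i + n` and periodicity.

`arc`: `d = 1`: `i = n-2, j = n+1`.  `d = 2` (`n ≥ 7`): `i = n-2, j = n+2`.  `3 ≤ d ≤ n-3`: `i = 0, j = d`.
`d = n-2` (`n ≥ 7`): `i = 0, j = n-4`.  `d = n-1`: `i = 0, j = n-3`.
-/

set_option autoImplicit false

namespace Pool.Agent.Spl1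

open Finset

variable {V : Type*} [Fintype V] [DecidableEq V]

private theorem nb_of_tri {T : Finset (Finset V)} {v u w : V} (h : ({v, u, w} : Finset V) ∈ T)
    (hw : w ≠ v) : w ∈ nb (edges T) v := by
  rw [mem_nb, mem_edges]
  refine ⟨hw, card_pair hw.symm, _, h, ?_⟩
  intro z hz
  rw [mem_insert, mem_singleton] at hz
  rw [mem_insert, mem_insert, mem_singleton]
  tauto

private theorem keep {T T₁ : Finset (Finset V)} {v u x b : V}
    (he : edges T₁ = insert {x, b} ((edges T).erase {v, u})) {e : Finset V} (h : e ∈ edges T)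
    (hv : v ∉ e) : e ∈ edges T₁ := by
  rw [he]
  refine mem_insert_of_mem (mem_erase.2 ⟨?_, h⟩)
  rintro rfl
  exact hv (mem_insert_self _ _)

private theorem not_mem_pair {v a b : V} (ha : a ≠ v) (hb : b ≠ v) : v ∉ ({a, b} : Finset V) := by
  rw [mem_insert, mem_singleton, not_or]
  exact ⟨ha.symm, hb.symm⟩

private theorem chord_aux {T : Finset (Finset V)} {I : Finset V} (h : Good T I) {v : V} (hv : v ∈ I)
    (hc : Chordless T v) (hn : 4 ≤ (nb (edges T) v).card) {x u b : V} (hxv : x ≠ v) (hbv : b ≠ v)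
    (h1 : ({v, u, x} : Finset V) ∈ T) (h2 : ({v, u, b} : Finset V) ∈ T) (hxb : x ≠ b) :
    ∃ b ∈ nb (edges T) v, x ≠ b ∧ ({x, b} : Finset V) ∉ edges T ∧
      ∃ T', Good T' (I.erase v) ∧ (edges T).filter (fun e => v ∉ e) ⊆ edges T' ∧
        ({x, b} : Finset V) ∈ edges T' := by
  refine ⟨b, nb_of_tri h2 hbv, hxb, skip_not_edge h hv hc hn h1 h2 hxb, ?_⟩
  obtain ⟨g1, g2, _, g4, _⟩ := flip_step h hv hc hn h1 h2 hxb
  obtain ⟨T', k1, k2⟩ := delv g1 hv g2
  refine ⟨T', k1, fun e he => ?_, k2 ?_⟩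
  · rw [mem_filter] at he
    exact k2 (mem_filter.2 ⟨keep g4 he.1 he.2, he.2⟩)
  · rw [mem_filter, g4]
    exact ⟨mem_insert_self _ _, not_mem_pair hxv hbv⟩

theorem one_chord {T : Finset (Finset V)} {I : Finset V} (h : Good T I) {v : V} (hv : v ∈ I)
    (hc : Chordless T v) (hn : 4 ≤ (nb (edges T) v).card) {x : V} (hx : x ∈ nb (edges T) v) :
    ∃ b ∈ nb (edges T) v, x ≠ b ∧ ({x, b} : Finset V) ∉ edges T ∧
      ∃ T', Good T' (I.erase v) ∧ (edges T).filter (fun e => v ∉ e) ⊆ edges T' ∧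
        ({x, b} : Finset V) ∈ edges T' := by
  have hxv : x ≠ v := (mem_nb.1 hx).1
  obtain ⟨u, _, _, huv, hux, _, _, _, ht, _, _⟩ := link_two h hv hx
  have hu : u ∈ nb (edges T) v := nb_of_tri ht huv
  obtain ⟨w, w', hww, hwv, _, hwv', _, _, h1, h2, h3⟩ := link_two h hv hu
  have hxt : x ∈ ({v, x, u} : Finset V) := by simp
  rcases h3 _ ht (by simp) (by simp) with h4 | h4
  · rw [h4] at hxt
    simp only [mem_insert, mem_singleton] at hxt
    have hxw : x = w := by
      rcases hxt with h5 | h5 | h5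
      · exact absurd h5 hxv
      · exact absurd h5.symm hux
      · exact h5
    rw [← hxw] at h1 hww
    exact chord_aux h hv hc hn hxv hwv' h1 h2 hww
  · rw [h4] at hxt
    simp only [mem_insert, mem_singleton] at hxt
    have hxw : x = w' := by
      rcases hxt with h5 | h5 | h5
      · exact absurd h5 hxv
      · exact absurd h5.symm hux
      · exact h5
    rw [← hxw] at h2 hww
    exact chord_aux h hv hc hn hxv hwv h2 h1 hww.symm

theorem two_chords {T : Finset (Finset V)} {I : Finset V} (h : Good T I) {v : V} (hv : v ∈ I)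
    (hc : Chordless T v) {n : ℕ} (hn : (nb (edges T) v).card = n) {w : ℕ → V}
    (hw : Enum T v n w) {i j : ℕ} (hij : i + 3 ≤ j)
    (hji : j + 3 ≤ i + n) :
    w i ≠ w (i + 2) ∧ w j ≠ w (j + 2) ∧ w i ≠ w j ∧ w i ≠ w (j + 2) ∧ w (i + 2) ≠ w j ∧
      w (i + 2) ≠ w (j + 2) ∧
      ({w i, w (i + 2)} : Finset V) ∉ edges T ∧ ({w j, w (j + 2)} : Finset V) ∉ edges T ∧
      ∃ T', Good T' (I.erase v) ∧ (edges T).filter (fun e => v ∉ e) ⊆ edges T' ∧
        ({w i, w (i + 2)} : Finset V) ∈ edges T' ∧ ({w j, w (j + 2)} : Finset V) ∈ edges T' := by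
  have hn0 : 0 < n := by omega
  have hne : ∀ a c : ℕ, a < c → c < a + n → w a ≠ w c := by
    intro a c hac hca hw'
    have h1 := (hw.eq_iff hn0 a c).1 hw'
    have h2 : a ≡ c [MOD n] := h1
    have h3 := (Nat.modEq_iff_dvd' hac.le).1 h2
    have h4 := Nat.le_of_dvd (by omega) h3
    omega
  have hwn : ∀ a, w a ∈ nb (edges T) v := by
    intro a
    rw [hw.cov]
    exact ⟨a % n, Nat.mod_lt _ hn0, hw.mod a⟩
  have hwv : ∀ a, w a ≠ v := fun a => (mem_nb.1 (hwn a)).1
  have tr : ∀ a, ({v, w (a + 1), w a} : Finset V) ∈ T := by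
    intro a
    have h1 := hw.tri a
    rw [pair_comm (w a) (w (a + 1))] at h1
    exact h1
  have hn4 : 4 ≤ (nb (edges T) v).card := by omega
  have hi : w i ≠ w (i + 2) := hne _ _ (by omega) (by omega)
  have hj : w j ≠ w (j + 2) := hne _ _ (by omega) (by omega)
  refine ⟨hi, hj, hne _ _ (by omega) (by omega),
    hne _ _ (by omega) (by omega), hne _ _ (by omega) (by omega), hne _ _ (by omega) (by omega),
    skip_not_edge h hv hc hn4 (tr i) (hw.tri (i + 1)) hi,
    skip_not_edge h hv hc hn4 (tr j) (hw.tri (j + 1)) hj, ?_⟩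
  obtain ⟨g1, g2, g3, g4, g5⟩ := flip_step h hv hc hn4 (tr i) (hw.tri (i + 1)) hi
  obtain ⟨T₁, hT₁⟩ : ∃ T₁, T₁ = flipT T v (w (i + 1)) (w i) (w (i + 2)) := ⟨_, rfl⟩
  have hi1 : w (i + 1 + 1) = w (i + 2) := rfl
  rw [hi1] at g1 g2 g3 g4 g5
  rw [← hT₁] at g1 g2 g3 g4 g5
  have m1 : ({v, w (j + 1), w j} : Finset V) ∈ T₁ := by
    refine g5 _ (tr j) ?_
    simp only [mem_insert, mem_singleton, not_or]
    exact ⟨hwv _, hne _ _ (by omega) (by omega), hne _ _ (by omega) (by omega)⟩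
  have m2 : ({v, w (j + 1), w (j + 2)} : Finset V) ∈ T₁ := by
    refine g5 _ (hw.tri (j + 1)) ?_
    simp only [mem_insert, mem_singleton, not_or]
    exact ⟨hwv _, hne _ _ (by omega) (by omega), hne _ _ (by omega) (by omega)⟩
  have hn5 : 4 ≤ (nb (edges T₁) v).card := by
    rw [g3, card_erase_of_mem (hwn (i + 1)), hn]
    omega
  obtain ⟨k1, k2, _, k4, _⟩ := flip_step g1 hv g2 hn5 m1 m2 hj
  obtain ⟨T', l1, l2⟩ := delv k1 hv k2
  refine ⟨T', l1, fun e he => ?_, l2 ?_, l2 ?_⟩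
  · rw [mem_filter] at he
    exact l2 (mem_filter.2 ⟨keep k4 (keep g4 he.1 he.2) he.2, he.2⟩)
  · have hvn : v ∉ ({w i, w (i + 2)} : Finset V) := not_mem_pair (hwv _) (hwv _)
    rw [mem_filter]
    refine ⟨keep k4 ?_ hvn, hvn⟩
    rw [g4]
    exact mem_insert_self _ _
  · rw [mem_filter, k4]
    exact ⟨mem_insert_self _ _, not_mem_pair (hwv _) (hwv _)⟩

theorem arc {n d : ℕ} (hn : 6 ≤ n) (hd : 0 < d) (hdn : d < n) (h : 7 ≤ n ∨ Odd d) :
    ∃ i j, i + 3 ≤ j ∧ j + 3 ≤ i + n ∧ (i = 0 ∨ i + 2 = n) ∧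
      (j = d ∨ j + 2 = d ∨ j = d + n) := by
  by_cases h1 : d = 1
  · exact ⟨n - 2, n + 1, by omega, by omega, Or.inr (by omega), Or.inr (Or.inr (by omega))⟩
  by_cases h2 : d = 2
  · rcases h with h | h
    · exact ⟨n - 2, n + 2, by omega, by omega, Or.inr (by omega), Or.inr (Or.inr (by omega))⟩
    · rw [h2] at h
      exact absurd h (by decide)
  by_cases h3 : d + 3 ≤ n
  · exact ⟨0, d, by omega, by omega, Or.inl rfl, Or.inl rfl⟩
  by_cases h4 : d + 2 = n
  · by_cases h7 : 7 ≤ n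
    · exact ⟨0, n - 4, by omega, by omega, Or.inl rfl, Or.inr (Or.inl (by omega))⟩
    · rcases h with h | h
      · exact absurd h h7
      · have h8 : d = 4 := by omega
        rw [h8] at h
        exact absurd h (by decide)
  · exact ⟨0, n - 3, by omega, by omega, Or.inl rfl, Or.inr (Or.inl (by omega))⟩

end Pool.Agent.Spl1
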