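import Pool.Agent.Spl1.Hom

/-!
# Connected classes

`Cls F B y`: the smallest subset of `B` containing `y` and closed under the edges of `F` inside `B`.

Paper proofs.  `cls_closed`: if `e ∈ F`, `e ⊆ B` meets `Cls` in `z` then every closed `Z ∋ y` contains `z` and
so `e`.  `cls_disjoint`: `B \ Cls F B y` is closed.
`cls_chain`: the set of `u ∈ B` for which a set `Q` of edges of `F` inside `B` exists whose odd vertices are
`{y} ∆ {u}` contains `y` (`Q = ∅`) and is closed: for `{u,u'} ∈ F` replace `Q` by `Q ∆ {{u,u'}}`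
(`vdeg_symm`).
-/

set_option autoImplicit false

namespace Pool.Agent.Spl1

open Finset

variable {V : Type*} [Fintype V] [DecidableEq V]

open Classical in
/-- the connected component of `y` in the graph of the edges of `F` inside `B` -/
noncomputable def Cls (F : Finset (Finset V)) (B : Finset V) (y : V) : Finset V :=
  B.filter (fun u => ∀ Z ⊆ B, y ∈ Z → (∀ e ∈ F, e ⊆ B → (e ∩ Z).Nonempty → e ⊆ Z) → u ∈ Z)

theorem cls_subset (F : Finset (Finset V)) (B : Finset V) (y : V) : Cls F B y ⊆ B := by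
  unfold Cls
  exact filter_subset _ _

theorem mem_cls_self {F : Finset (Finset V)} {B : Finset V} {y : V} (hy : y ∈ B) :
    y ∈ Cls F B y := by
  unfold Cls
  exact mem_filter.2 ⟨hy, fun Z _ h _ => h⟩

theorem cls_closed {F : Finset (Finset V)} {B : Finset V} {y : V} {e : Finset V} (he : e ∈ F)
    (heB : e ⊆ B) (hne : (e ∩ Cls F B y).Nonempty) : e ⊆ Cls F B y := by
  intro x hx
  obtain ⟨z, hz⟩ := hne
  have hz2 := (mem_inter.1 hz).2
  unfold Cls at hz2 ⊢
  refine mem_filter.2 ⟨heB hx, fun Z hZ hyZ hc => hc e he heB ⟨z, ?_⟩ hx⟩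
  exact mem_inter.2 ⟨(mem_inter.1 hz).1, (mem_filter.1 hz2).2 Z hZ hyZ hc⟩

theorem cls_min {F : Finset (Finset V)} {B Z : Finset V} {y : V} (hZ : Z ⊆ B) (hy : y ∈ Z)
    (hc : ∀ e ∈ F, e ⊆ B → (e ∩ Z).Nonempty → e ⊆ Z) : Cls F B y ⊆ Z := by
  intro u hu
  unfold Cls at hu
  exact (mem_filter.1 hu).2 Z hZ hy hc

theorem cls_disjoint {F : Finset (Finset V)} {B : Finset V} {y y' : V} (hy' : y' ∈ B)
    (h : y' ∉ Cls F B y) : Disjoint (Cls F B y) (Cls F B y') := by
  have h1 : Cls F B y' ⊆ B \ Cls F B y := by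
    refine cls_min sdiff_subset (mem_sdiff.2 ⟨hy', h⟩) ?_
    rintro e he heB ⟨z, hz⟩ x hx
    refine mem_sdiff.2 ⟨heB hx, fun hxc => ?_⟩
    have h2 := cls_closed he heB ⟨x, mem_inter.2 ⟨hx, hxc⟩⟩
    exact (mem_sdiff.1 (mem_inter.1 hz).2).2 (h2 (mem_inter.1 hz).1)
  rw [disjoint_left]
  intro x hx hx'
  exact (mem_sdiff.1 (h1 hx')).2 hx

theorem cls_symm {F : Finset (Finset V)} {B : Finset V} {y y' : V} (hy : y ∈ B)
    (h : y' ∈ Cls F B y) : y ∈ Cls F B y' := by
  by_contra h'
  have h1 := cls_disjoint hy h'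
  exact disjoint_left.1 h1 (mem_cls_self (cls_subset F B y h)) h

theorem cls_chain {F : Finset (Finset V)} (h2 : ∀ e ∈ F, e.card = 2) {B : Finset V} {y u : V}
    (hy : y ∈ B) (hu : u ∈ Cls F B y) :
    ∃ Q ⊆ F.filter (fun e => e ⊆ B), ∀ z, Odd (vdeg Q z) ↔ ¬ (z = y ↔ z = u) := by
  classical
  obtain ⟨Z, hZ⟩ : ∃ Z, Z = B.filter (fun u => ∃ Q ⊆ F.filter (fun e => e ⊆ B),
      ∀ z, Odd (vdeg Q z) ↔ ¬ (z = y ↔ z = u)) := ⟨_, rfl⟩
  have h1 : Cls F B y ⊆ Z := by
    refine cls_min ?_ ?_ ?_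
    · rw [hZ]
      exact filter_subset _ _
    · rw [hZ]
      refine mem_filter.2 ⟨hy, ∅, empty_subset _, fun z => ?_⟩
      simp [vdeg]
    · rintro e he heB ⟨z0, hz0⟩ x hx
      by_cases hxz : x = z0
      · rw [hxz]
        exact (mem_inter.1 hz0).2
      have hz0e := (mem_inter.1 hz0).1
      have hz0Z := (mem_inter.1 hz0).2
      rw [hZ] at hz0Z ⊢
      obtain ⟨-, Q, hQ, hQ2⟩ := mem_filter.1 hz0Z
      refine mem_filter.2 ⟨heB hx, symmDiff Q {e}, ?_, ?_⟩
      · intro e' he'
        rw [mem_symmDiff] at he'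
        rcases he' with he' | he'
        · exact hQ he'.1
        · rw [mem_singleton.1 he'.1]
          exact mem_filter.2 ⟨he, heB⟩
      · intro z
        have hcard : ({z0, x} : Finset V) = e := by
          refine eq_of_subset_of_card_le ?_ ?_
          · intro t ht
            rcases mem_insert.1 ht with rfl | ht
            · exact hz0e
            · rw [mem_singleton.1 ht]
              exact hx
          · rw [h2 e he, card_pair (Ne.symm hxz)]
        have hv : Odd (vdeg {e} z) ↔ (z = z0 ∨ z = x) := by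
          have h3 : z ∈ e ↔ (z = z0 ∨ z = x) := by
            rw [← hcard]
            simp
          rw [← h3]
          unfold vdeg
          by_cases hze : z ∈ e
          · simp [filter_singleton, hze]
          · simp [filter_singleton, hze]
        rw [vdeg_symm, hQ2 z, hv]
        have hne : ¬ (z = z0 ∧ z = x) := fun h => hxz (h.2.symm.trans h.1)
        tauto
  have h3 := h1 hu
  rw [hZ] at h3
  exact (mem_filter.1 h3).2

end Pool.Agent.Spl1
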