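import Pool.Agent.Spl1.Defs

/-!
# Degree sums

Paper proof.  `|nb F w|` is the number of `e ∈ F` with `w ∈ e` (`u ↦ {w,u}` is a bijection since all edges have
two elements), so `∑_{w ∈ K} |nb F w| = ∑_{e ∈ F} |e ∩ K|`, and `|e ∩ K| = [e ∩ K ≠ ∅] + [e ⊆ K]` as `|e| = 2`.
-/

set_option autoImplicit false

namespace Pool.Agent.Spl1

open Finset

variable {V : Type*} [Fintype V] [DecidableEq V]

theorem nb_card {F : Finset (Finset V)} (h2 : ∀ e ∈ F, e.card = 2) (w : V) :
    (nb F w).card = (F.filter (fun e => w ∈ e)).card := by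
  refine Finset.card_bij (fun u _ => ({w, u} : Finset V)) ?_ ?_ ?_
  · intro u hu
    rw [mem_nb] at hu
    rw [mem_filter]
    exact ⟨hu.2, by simp⟩
  · intro u hu u' hu' h
    rw [mem_nb] at hu hu'
    have h1 : u ∈ ({w, u'} : Finset V) := by
      have : u ∈ ({w, u} : Finset V) := by simp
      exact h ▸ this
    rw [mem_insert, mem_singleton] at h1
    rcases h1 with h1 | h1
    · exact absurd h1 hu.1
    · exact h1
  · intro e he
    rw [mem_filter] at he
    obtain ⟨a, b, hab, rfl⟩ := Finset.card_eq_two.mp (h2 e he.1)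
    have hw := he.2
    rw [mem_insert, mem_singleton] at hw
    rcases hw with rfl | rfl
    · exact ⟨b, by rw [mem_nb]; exact ⟨hab.symm, he.1⟩, rfl⟩
    · refine ⟨a, ?_, ?_⟩
      · rw [mem_nb]
        refine ⟨hab, ?_⟩
        rw [Finset.pair_comm]
        exact he.1
      · exact Finset.pair_comm _ _

omit [Fintype V] in
theorem card_inter_two {e K : Finset V} (he : e.card = 2) :
    (e ∩ K).card = (if (e ∩ K).Nonempty then 1 else 0) + (if e ⊆ K then 1 else 0) := by
  by_cases hK : e ⊆ K
  · have h1 : e ∩ K = e := inter_eq_left.mpr hK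
    have h2 : e.Nonempty := by
      rw [← card_pos, he]
      norm_num
    rw [h1, if_pos hK, if_pos h2, he]
  · rw [if_neg hK, add_zero]
    have hlt : (e ∩ K).card < e.card := by
      refine card_lt_card ⟨inter_subset_left, fun h => hK ?_⟩
      exact h.trans inter_subset_right
    by_cases h0 : (e ∩ K).Nonempty
    · rw [if_pos h0]
      have := card_pos.mpr h0
      omega
    · rw [if_neg h0]
      rw [not_nonempty_iff_eq_empty] at h0
      rw [h0, card_empty]

theorem degsum {F : Finset (Finset V)} (h2 : ∀ e ∈ F, e.card = 2) (K : Finset V) :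
    ∑ w ∈ K, (nb F w).card =
      (F.filter (fun e => (e ∩ K).Nonempty)).card + (F.filter (fun e => e ⊆ K)).card := by
  have h1 : ∑ w ∈ K, (nb F w).card = ∑ e ∈ F, (e ∩ K).card := by
    have : ∀ w ∈ K, (nb F w).card = ∑ e ∈ F, if w ∈ e then 1 else 0 := by
      intro w _
      rw [nb_card h2 w, card_filter]
    rw [sum_congr rfl this, sum_comm]
    refine sum_congr rfl fun e _ => ?_
    rw [← card_filter]
    congr 1
    ext x
    rw [mem_filter, mem_inter]
    exact and_comm
  rw [h1, card_filter, card_filter, ← sum_add_distrib]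
  exact sum_congr rfl fun e he => card_inter_two (h2 e he)

end Pool.Agent.Spl1
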