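import Pool.Agent.Spl1.Planar
import Pool.Agent.Spl1.Deg

/-!
# Counting: tight sets

`A ⊆ I` is tight if `cnt F I A = D |A|`.  `cnt` is supermodular, so with `Sparse`: for `A, B ⊆ I`,
`def A = D|A| - cnt A ≥ 0` satisfies `def (A ∪ B) + def (A ∩ B) ≤ def A + def B`.

Paper proofs.
`exists_max`: unions of tight sets are tight; `∅` is tight (`cnt F I ∅ = 0` by `Adm`).
`dead_le`: the edges `{v,w}`, `w` dead (`w ∉ I` or `w ∈ M`), are counted in `cnt (insert v M)` but not in
`cnt M`, so `D|M| + #dead ≤ cnt (insert v M) ≤ D (|M| + 1)`.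
`exists_far`: if no `A ⊆ I.erase v` with `x ∈ A` has `def A ≤ 1` take any live `y ≠ x` (there are at
least `D + 2 - D = 2` live neighbours by `dead_le`).  Otherwise let `A` be such a set of maximal cardinality.  Some
live neighbour `y` is not in `A`: otherwise `def (A ∪ M) ≤ def A + def M - def (A ∩ M) ≤ 1` and all `D + 2`
edges at `v` are counted in `cnt (insert v (A ∪ M))`, which is then `≥ D |A ∪ M| - 1 + D + 2`, too big.
`Far x y`: if `B` contains `x, y` and `def B ≤ 1`, then `x ∈ A ∩ B`, `x ∉ M`, so `A ∩ B` is not tight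
and `def (A ∪ B) ≤ 1`; `A ∪ B` is bigger than `A`, contradiction.
`far_third`: otherwise `A ∋ x, z` and `B ∋ z, y` have `def ≤ 1`, `z ∈ A ∩ B` is not in `M`, so
`def (A ∪ B) ≤ 1`, but it contains `x, y`.
`sparse_dl`: for `A ⊆ I.erase v` the counts are the same.
`sparse_ext1`: if `{x,b}` is counted in `A` then `x ∈ A`, so `A` is not tight (`x ∉ M`).
`sparse_ext2`: if both new edges are counted, `x, y ∈ A` and `def A ≥ 2`; if one is, `A` is not tight.
`exists_maxcard`: `X` a tight set `≠ I` of maximal cardinality; for `v ∈ I \ X` and `A` tight without `v`,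
`A ∪ X` is tight and does not contain `v`.
`deg_small`: `∑_{w ∈ K} deg w = #{e | e ∩ K ≠ ∅} + #{e | e ⊆ K} ≤ (cnt (X ∪ K) - cnt X + 1) + (3|K| - 3)
≤ (D + 3) |K| - 2`.
-/

set_option autoImplicit false

namespace Pool.Agent.Spl1

open Finset

variable {V : Type*} [Fintype V] [DecidableEq V]

/-- the edges not at `v` -/
def dl (F : Finset (Finset V)) (v : V) : Finset (Finset V) := F.filter (fun e => v ∉ e)

/-- tight sets -/
def Tight (D : ℕ) (F : Finset (Finset V)) (I A : Finset V) : Prop := cnt F I A = D * A.card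

/-- no set of deficiency `≤ 1` avoiding `v` contains `x` and `y` -/
def Far (D : ℕ) (F : Finset (Finset V)) (I : Finset V) (v x y : V) : Prop :=
  ∀ A ⊆ I.erase v, x ∈ A → y ∈ A → cnt F I A + 2 ≤ D * A.card

/-- the largest tight set avoiding `v` -/
structure MaxTight (D : ℕ) (F : Finset (Finset V)) (I : Finset V) (v : V) (M : Finset V) : Prop where
  sub : M ⊆ I.erase v
  tight : Tight D F I M
  max : ∀ A ⊆ I.erase v, Tight D F I A → A ⊆ M

theorem cnt_supermod (F : Finset (Finset V)) (I A B : Finset V) :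
    cnt F I A + cnt F I B ≤ cnt F I (A ∪ B) + cnt F I (A ∩ B) := by
  unfold cnt
  have h1 : (F.filter (fun e => e ∩ I ⊆ A)) ∪ (F.filter (fun e => e ∩ I ⊆ B)) ⊆
      F.filter (fun e => e ∩ I ⊆ A ∪ B) := by
    intro e he
    rw [mem_union, mem_filter, mem_filter] at he
    rw [mem_filter]
    rcases he with he | he
    · exact ⟨he.1, he.2.trans subset_union_left⟩
    · exact ⟨he.1, he.2.trans subset_union_right⟩
  have h2 : (F.filter (fun e => e ∩ I ⊆ A)) ∩ (F.filter (fun e => e ∩ I ⊆ B)) ⊆
      F.filter (fun e => e ∩ I ⊆ A ∩ B) := by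
    intro e he
    rw [mem_inter, mem_filter, mem_filter] at he
    rw [mem_filter]
    exact ⟨he.1.1, subset_inter he.1.2 he.2.2⟩
  have h3 := card_union_add_card_inter (F.filter (fun e => e ∩ I ⊆ A))
    (F.filter (fun e => e ∩ I ⊆ B))
  have h4 := card_le_card h1
  have h5 := card_le_card h2
  omega

/-- deficiencies of unions and intersections -/
theorem def_union {D : ℕ} {F : Finset (Finset V)} {I A B : Finset V} {a b c : ℕ}
    (hA : D * A.card ≤ cnt F I A + a) (hB : D * B.card ≤ cnt F I B + b)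
    (hC : cnt F I (A ∩ B) + c ≤ D * (A ∩ B).card) :
    D * (A ∪ B).card + c ≤ cnt F I (A ∪ B) + a + b := by
  have h1 := cnt_supermod F I A B
  have h2 : D * (A ∪ B).card + D * (A ∩ B).card = D * A.card + D * B.card := by
    rw [← mul_add, ← mul_add, card_union_add_card_inter]
  omega

theorem cnt_empty {F : Finset (Finset V)} {I : Finset V} (hA : Adm F I) : cnt F I ∅ = 0 := by
  unfold cnt
  rw [card_eq_zero, filter_eq_empty_iff]
  intro e he h
  rw [subset_empty] at h
  have := (hA e he).2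
  rw [h] at this
  exact not_nonempty_empty this

theorem tight_empty {D : ℕ} {F : Finset (Finset V)} {I : Finset V} (hA : Adm F I) :
    Tight D F I ∅ := by
  unfold Tight
  rw [cnt_empty hA, card_empty, mul_zero]

theorem tight_union {D : ℕ} {F : Finset (Finset V)} {I : Finset V} (hS : Sparse D F I)
    {A B : Finset V} (hA : A ⊆ I) (hB : B ⊆ I) (h1 : Tight D F I A) (h2 : Tight D F I B) :
    Tight D F I (A ∪ B) := by
  unfold Tight at *
  have h3 := def_union (D := D) (F := F) (I := I) (A := A) (B := B) (a := 0) (b := 0) (c := 0)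
    (by omega) (by omega) (by have := hS (A ∩ B) (inter_subset_left.trans hA); omega)
  have h4 := hS (A ∪ B) (union_subset hA hB)
  omega

theorem not_tight {D : ℕ} {F : Finset (Finset V)} {I : Finset V}
    (hS : Sparse D F I) {v : V} {M : Finset V} (hM : MaxTight D F I v M) {A : Finset V}
    (hA : A ⊆ I.erase v) {x : V} (hx : x ∈ A) (hxM : x ∉ M) : cnt F I A + 1 ≤ D * A.card := by
  have h1 := hS A (hA.trans (erase_subset _ _))
  rcases Nat.lt_or_ge (cnt F I A) (D * A.card) with h | h
  · exact h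
  · exact absurd (hM.max A hA (le_antisymm h1 h) hx) hxM

/-- edges at `v` with the other end dead -/
theorem count_at {F : Finset (Finset V)} {I : Finset V} {v : V} (hv : v ∈ I) {N S : Finset V}
    (hvN : v ∉ N) (hS : S ⊆ nb F v) (hd : ∀ w ∈ S, w ∉ I ∨ w ∈ N) :
    S.card + cnt F I N ≤ cnt F I (insert v N) := by
  unfold cnt
  have h1 : S.card = (S.image (fun w => ({v, w} : Finset V))).card := by
    rw [card_image_of_injOn]
    intro w hw w' hw' h
    have hw1 := (mem_nb.1 (hS hw)).1
    have hw2 := (mem_nb.1 (hS hw')).1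
    have h2 : w ∈ ({v, w'} : Finset V) := by
      have : w ∈ ({v, w} : Finset V) := by simp
      rw [show ({v, w} : Finset V) = {v, w'} from h] at this
      exact this
    rw [mem_insert, mem_singleton] at h2
    rcases h2 with h2 | h2
    · exact absurd h2 hw1
    · exact h2
  have hdisj : Disjoint (S.image (fun w => ({v, w} : Finset V)))
      (F.filter (fun e => e ∩ I ⊆ N)) := by
    rw [disjoint_left]
    intro e he he'
    rw [mem_image] at he
    obtain ⟨w, hw, rfl⟩ := he
    rw [mem_filter] at he'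
    exact hvN (he'.2 (mem_inter.2 ⟨by simp, hv⟩))
  rw [h1, ← card_union_of_disjoint hdisj]
  apply card_le_card
  intro e he
  rw [mem_union] at he
  rw [mem_filter]
  rcases he with he | he
  · rw [mem_image] at he
    obtain ⟨w, hw, rfl⟩ := he
    refine ⟨(mem_nb.1 (hS hw)).2, ?_⟩
    intro u hu
    rw [mem_inter, mem_insert, mem_singleton] at hu
    rcases hu with ⟨rfl | rfl, hu2⟩
    · exact mem_insert_self _ _
    · rcases hd u hw with h | h
      · exact absurd hu2 h
      · exact mem_insert_of_mem h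
  · rw [mem_filter] at he
    exact ⟨he.1, he.2.trans (subset_insert _ _)⟩

theorem exists_max {D : ℕ} {F : Finset (Finset V)} {I : Finset V} (hA : Adm F I)
    (hS : Sparse D F I) (v : V) : ∃ M, MaxTight D F I v M := by
  classical
  have hne : ((I.erase v).powerset.filter (fun A => Tight D F I A)).Nonempty :=
    ⟨∅, mem_filter.2 ⟨empty_mem_powerset _, tight_empty hA⟩⟩
  obtain ⟨M, hM, hmax⟩ := exists_max_image _ (fun A : Finset V => A.card) hne
  rw [mem_filter, mem_powerset] at hM
  refine ⟨M, hM.1, hM.2, fun A hA1 hA2 => ?_⟩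
  have h1 : Tight D F I (A ∪ M) :=
    tight_union hS (hA1.trans (erase_subset _ _)) (hM.1.trans (erase_subset _ _)) hA2 hM.2
  have h2 := hmax (A ∪ M) (mem_filter.2 ⟨mem_powerset.2 (union_subset hA1 hM.1), h1⟩)
  have h3 : M = A ∪ M := eq_of_subset_of_card_le subset_union_right h2
  rw [h3]
  exact subset_union_left

theorem dead_le {D : ℕ} {F : Finset (Finset V)} {I : Finset V} (hA : Adm F I) (hS : Sparse D F I)
    {v : V} (hv : v ∈ I) {M : Finset V} (hM : MaxTight D F I v M) :
    ((nb F v).filter (fun w => w ∉ I ∨ w ∈ M)).card ≤ D := by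
  have hvM : v ∉ M := fun h => notMem_erase v I (hM.sub h)
  have h1 := count_at (F := F) (I := I) hv hvM
    (S := (nb F v).filter (fun w => w ∉ I ∨ w ∈ M)) (filter_subset _ _)
    (fun w hw => (mem_filter.1 hw).2)
  have h2 := hS (insert v M) (insert_subset hv (hM.sub.trans (erase_subset _ _)))
  rw [card_insert_of_notMem hvM, mul_add, mul_one] at h2
  have h3 := hM.tight
  unfold Tight at h3
  omega

theorem exists_far {D : ℕ} {F : Finset (Finset V)} {I : Finset V} (hA : Adm F I)
    (hS : Sparse D F I) {v : V} (hv : v ∈ I) {M : Finset V} (hM : MaxTight D F I v M)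
    (hc : (nb F v).card = D + 2) {x : V} (hx : x ∈ nb F v) (hxI : x ∈ I) (hxM : x ∉ M) :
    ∃ y ∈ nb F v, y ∈ I ∧ y ∉ M ∧ y ≠ x ∧ Far D F I v x y := by
  classical
  have hvM : v ∉ M := fun h => notMem_erase v I (hM.sub h)
  by_cases hex : ((I.erase v).powerset.filter
      (fun A => x ∈ A ∧ D * A.card ≤ cnt F I A + 1)).Nonempty
  · obtain ⟨A, hAm, hmax⟩ := exists_max_image _ (fun A : Finset V => A.card) hex
    rw [mem_filter, mem_powerset] at hAm
    obtain ⟨hAs, hxA, hAd⟩ := hAm
    have hvA : v ∉ A := fun h => notMem_erase v I (hAs h)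
    have hAI := hAs.trans (erase_subset v I)
    have hMI := hM.sub.trans (erase_subset v I)
    have hy : ∃ y ∈ nb F v, y ∈ I ∧ y ∉ M ∧ y ∉ A := by
      by_contra hno
      push Not at hno
      have h1 : D * (A ∪ M).card + 0 ≤ cnt F I (A ∪ M) + 1 + 0 :=
        def_union hAd (le_of_eq hM.tight.symm)
          (hS (A ∩ M) (inter_subset_left.trans hAI))
      have h2 := count_at (F := F) (I := I) hv (N := A ∪ M) (S := nb F v)
        (by rw [mem_union]; exact fun h => h.elim hvA hvM) Subset.rfl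
        (fun w hw => by
          by_cases hwI : w ∈ I
          · right
            by_cases hwM : w ∈ M
            · exact mem_union_right _ hwM
            · exact mem_union_left _ (hno w hw hwI hwM)
          · exact Or.inl hwI)
      have h3 := hS (insert v (A ∪ M)) (insert_subset hv (union_subset hAI hMI))
      rw [card_insert_of_notMem (by rw [mem_union]; exact fun h => h.elim hvA hvM),
        mul_add, mul_one] at h3
      omega
    obtain ⟨y, hy1, hyI, hyM, hyA⟩ := hy
    refine ⟨y, hy1, hyI, hyM, fun h => hyA (h ▸ hxA), ?_⟩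
    intro B hB hxB hyB
    by_contra hcon
    have hBd : D * B.card ≤ cnt F I B + 1 := by omega
    have h1 := not_tight hS hM (inter_subset_left.trans hAs : A ∩ B ⊆ I.erase v)
      (mem_inter.2 ⟨hxA, hxB⟩) hxM
    have h2 := def_union hAd hBd h1
    have h3 := hmax (A ∪ B) (mem_filter.2 ⟨mem_powerset.2 (union_subset hAs hB),
      mem_union_left _ hxA, by omega⟩)
    have h4 : A = A ∪ B := eq_of_subset_of_card_le subset_union_left h3
    exact hyA (h4 ▸ mem_union_right _ hyB)
  · have h1 := dead_le hA hS hv hM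
    have h2 := card_filter_add_card_filter_not (s := nb F v) (fun w => w ∉ I ∨ w ∈ M)
    have h3 : 1 < ((nb F v).filter (fun w => ¬ (w ∉ I ∨ w ∈ M))).card := by omega
    obtain ⟨y, hy, hyx⟩ := exists_mem_ne h3 x
    rw [mem_filter] at hy
    push Not at hy
    refine ⟨y, hy.1, hy.2.1, hy.2.2, hyx, ?_⟩
    intro A hA1 hxA _
    by_contra hcon
    exact hex ⟨A, mem_filter.2 ⟨mem_powerset.2 hA1, hxA, by omega⟩⟩

theorem far_third {D : ℕ} {F : Finset (Finset V)} {I : Finset V}
    (hS : Sparse D F I) {v : V} {M : Finset V} (hM : MaxTight D F I v M)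
    {x y z : V} (hxy : Far D F I v x y) (hz : z ∉ M) :
    Far D F I v x z ∨ Far D F I v z y := by
  by_contra hcon
  rw [not_or] at hcon
  obtain ⟨h1, h2⟩ := hcon
  unfold Far at h1 h2
  push Not at h1 h2
  obtain ⟨A, hA, hxA, hzA, hAd⟩ := h1
  obtain ⟨B, hB, hzB, hyB, hBd⟩ := h2
  have h3 := not_tight hS hM (inter_subset_left.trans hA : A ∩ B ⊆ I.erase v)
    (mem_inter.2 ⟨hzA, hzB⟩) hz
  have h4 := def_union (a := 1) (b := 1) (c := 1) (by omega) (by omega) h3
  have h5 := hxy (A ∪ B) (union_subset hA hB) (mem_union_left _ hxA) (mem_union_right _ hyB)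
  omega

theorem far_symm {D : ℕ} {F : Finset (Finset V)} {I : Finset V} {v x y : V}
    (h : Far D F I v x y) : Far D F I v y x := fun A hA hy hx => h A hA hx hy

theorem cnt_dl_le {F : Finset (Finset V)} {I : Finset V} {v : V} (A : Finset V) :
    cnt (dl F v) (I.erase v) A ≤ cnt F I A := by
  unfold cnt dl
  apply card_le_card
  intro e he
  rw [mem_filter, mem_filter] at he
  rw [mem_filter]
  refine ⟨he.1.1, fun u hu => he.2 ?_⟩
  rw [mem_inter] at hu ⊢
  exact ⟨hu.1, mem_erase.2 ⟨fun h => he.1.2 (h ▸ hu.1), hu.2⟩⟩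

theorem sparse_dl {D : ℕ} {F : Finset (Finset V)} {I : Finset V} (hA : Adm F I)
    (hS : Sparse D F I) {v : V} (hv : v ∈ I) :
    Adm (dl F v) (I.erase v) ∧ Sparse D (dl F v) (I.erase v) := by
  constructor
  · intro e he
    unfold dl at he
    rw [mem_filter] at he
    obtain ⟨h1, ⟨u, hu⟩⟩ := hA e he.1
    refine ⟨h1, ⟨u, ?_⟩⟩
    rw [mem_inter] at hu ⊢
    exact ⟨hu.1, mem_erase.2 ⟨fun h => he.2 (h ▸ hu.1), hu.2⟩⟩
  · intro A hA1
    exact (cnt_dl_le A).trans (hS A (hA1.trans (erase_subset _ _)))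

theorem cnt_insert_le (F : Finset (Finset V)) (I A : Finset V) (e : Finset V) :
    cnt (insert e F) I A ≤ cnt F I A + 1 := by
  unfold cnt
  rw [filter_insert]
  split_ifs
  · exact card_insert_le _ _
  · exact Nat.le_succ _

theorem cnt_insert_of_not {F : Finset (Finset V)} {I A : Finset V} {e : Finset V}
    (h : ¬ e ∩ I ⊆ A) : cnt (insert e F) I A = cnt F I A := by
  unfold cnt
  rw [filter_insert, if_neg h]

theorem sparse_ext1 {D : ℕ} {F : Finset (Finset V)} {I : Finset V} (hA : Adm F I)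
    (hS : Sparse D F I) {v : V} (hv : v ∈ I) {M : Finset V} (hM : MaxTight D F I v M)
    {x b : V} (hx : x ∈ I) (hxv : x ≠ v) (hxM : x ∉ M) (hxb : x ≠ b) :
    Adm (insert {x, b} (dl F v)) (I.erase v) ∧ Sparse D (insert {x, b} (dl F v)) (I.erase v) := by
  obtain ⟨h1, h2⟩ := sparse_dl hA hS hv
  constructor
  · intro e he
    rw [mem_insert] at he
    rcases he with rfl | he
    · exact ⟨card_pair hxb, x, mem_inter.2 ⟨by simp, mem_erase.2 ⟨hxv, hx⟩⟩⟩
    · exact h1 e he
  · intro A hA1
    by_cases hc : ({x, b} : Finset V) ∩ I.erase v ⊆ A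
    · have hxA : x ∈ A := hc (mem_inter.2 ⟨by simp, mem_erase.2 ⟨hxv, hx⟩⟩)
      have h3 := not_tight hS hM hA1 hxA hxM
      have h4 := cnt_insert_le (dl F v) (I.erase v) A {x, b}
      have h5 := cnt_dl_le (F := F) (I := I) (v := v) A
      omega
    · rw [cnt_insert_of_not hc]
      exact h2 A hA1

theorem sparse_ext2 {D : ℕ} {F : Finset (Finset V)} {I : Finset V} (hA : Adm F I)
    (hS : Sparse D F I) {v : V} (hv : v ∈ I) {M : Finset V} (hM : MaxTight D F I v M)
    {x y a b : V} (hx : x ∈ I) (hxv : x ≠ v) (hxM : x ∉ M) (hy : y ∈ I) (hyv : y ≠ v) (hyM : y ∉ M)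
    (hf : Far D F I v x y) (hxa : x ≠ a) (hyb : y ≠ b) :
    Adm (insert {x, a} (insert {y, b} (dl F v))) (I.erase v) ∧
      Sparse D (insert {x, a} (insert {y, b} (dl F v))) (I.erase v) := by
  obtain ⟨h1, h2⟩ := sparse_ext1 hA hS hv hM hy hyv hyM hyb
  constructor
  · intro e he
    rw [mem_insert] at he
    rcases he with rfl | he
    · exact ⟨card_pair hxa, x, mem_inter.2 ⟨by simp, mem_erase.2 ⟨hxv, hx⟩⟩⟩
    · exact h1 e he
  · intro A hA1
    by_cases hc : ({x, a} : Finset V) ∩ I.erase v ⊆ A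
    · have hxA : x ∈ A := hc (mem_inter.2 ⟨by simp, mem_erase.2 ⟨hxv, hx⟩⟩)
      have h4 := cnt_insert_le (insert {y, b} (dl F v)) (I.erase v) A {x, a}
      have h5 := cnt_dl_le (F := F) (I := I) (v := v) A
      by_cases hc' : ({y, b} : Finset V) ∩ I.erase v ⊆ A
      · have hyA : y ∈ A := hc' (mem_inter.2 ⟨by simp, mem_erase.2 ⟨hyv, hy⟩⟩)
        have h6 := hf A hA1 hxA hyA
        have h7 := cnt_insert_le (dl F v) (I.erase v) A {y, b}
        omega
      · rw [cnt_insert_of_not hc'] at h4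
        have h3 := not_tight hS hM hA1 hxA hxM
        omega
    · rw [cnt_insert_of_not hc]
      exact h2 A hA1

theorem exists_maxcard {D : ℕ} {F : Finset (Finset V)} {I : Finset V} (hA : Adm F I)
    (hS : Sparse D F I) (hI : I.Nonempty) :
    ∃ X ⊆ I, X ≠ I ∧ ∀ v ∈ I, v ∉ X → MaxTight D F I v X := by
  classical
  have hne : (I.powerset.filter (fun A => Tight D F I A ∧ A ≠ I)).Nonempty :=
    ⟨∅, mem_filter.2 ⟨empty_mem_powerset _, tight_empty hA, fun h => by
      rw [← h] at hI
      exact not_nonempty_empty hI⟩⟩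
  obtain ⟨X, hX, hmax⟩ := exists_max_image _ (fun A : Finset V => A.card) hne
  rw [mem_filter, mem_powerset] at hX
  refine ⟨X, hX.1, hX.2.2, fun v hv hvX => ⟨?_, hX.2.1, fun A hA1 hA2 => ?_⟩⟩
  · intro u hu
    exact mem_erase.2 ⟨fun h => hvX (h ▸ hu), hX.1 hu⟩
  · have hAI := hA1.trans (erase_subset v I)
    have h1 : Tight D F I (A ∪ X) := tight_union hS hAI hX.1 hA2 hX.2.1
    have h2 : A ∪ X ≠ I := by
      intro h
      rw [← h, mem_union] at hv
      rcases hv with h3 | h3
      · exact notMem_erase v I (hA1 h3)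
      · exact hvX h3
    have h3 := hmax (A ∪ X) (mem_filter.2 ⟨mem_powerset.2 (union_subset hAI hX.1), h1, h2⟩)
    have h4 : X = A ∪ X := eq_of_subset_of_card_le subset_union_right h3
    rw [h4]
    exact subset_union_left

theorem deg_small {D : ℕ} {T F : Finset (Finset V)} {I : Finset V} (hG : Good T I)
    (hF : F ⊆ edges T) (hA : Adm F I) (hS : Sparse D F I) {X K : Finset V} (hX : X ⊆ I)
    (hXt : Tight D F I X) (hK : K ⊆ I \ X) (hne : K.Nonempty)
    (h1 : (F.filter (fun e => (e ∩ K).Nonempty ∧ ¬ e ∩ I ⊆ X ∪ K)).card ≤ 1) :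
    ∃ w ∈ K, (nb F w).card ≤ D + 2 := by
  by_contra hcon
  push Not at hcon
  have hKI : K ⊆ I := hK.trans sdiff_subset
  have hdisj : Disjoint X K := by
    rw [disjoint_right]
    intro u hu
    exact (mem_sdiff.1 (hK hu)).2
  have h2 := degsum (fun e he => (hA e he).1) K
  have h3 : (D + 3) * K.card ≤ ∑ w ∈ K, (nb F w).card := by
    rw [mul_comm, ← smul_eq_mul]
    exact card_nsmul_le_sum K _ (D + 3) (fun w hw => hcon w hw)
  have h4 : (F.filter (fun e => e ⊆ K)).card ≤ ((edges T).filter (fun e => e ⊆ K)).card :=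
    card_le_card (filter_subset_filter _ hF)
  have h5 := planar hG hKI hne
  have h6 : (F.filter (fun e => (e ∩ K).Nonempty)).card ≤
      (F.filter (fun e => (e ∩ K).Nonempty ∧ ¬ e ∩ I ⊆ X ∪ K)).card +
      (F.filter (fun e => (e ∩ K).Nonempty ∧ e ∩ I ⊆ X ∪ K)).card := by
    refine (card_le_card ?_).trans (card_union_le _ _)
    intro e he
    rw [mem_filter] at he
    rw [mem_union, mem_filter, mem_filter]
    by_cases h : e ∩ I ⊆ X ∪ K
    · exact Or.inr ⟨he.1, he.2, h⟩
    · exact Or.inl ⟨he.1, he.2, h⟩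
  have h7 : (F.filter (fun e => (e ∩ K).Nonempty ∧ e ∩ I ⊆ X ∪ K)).card + cnt F I X ≤
      cnt F I (X ∪ K) := by
    unfold cnt
    have hd : Disjoint (F.filter (fun e => (e ∩ K).Nonempty ∧ e ∩ I ⊆ X ∪ K))
        (F.filter (fun e => e ∩ I ⊆ X)) := by
      rw [disjoint_left]
      intro e he he'
      rw [mem_filter] at he he'
      obtain ⟨u, hu⟩ := he.2.1
      rw [mem_inter] at hu
      exact (disjoint_right.1 hdisj hu.2) (he'.2 (mem_inter.2 ⟨hu.1, hKI hu.2⟩))
    rw [← card_union_of_disjoint hd]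
    apply card_le_card
    intro e he
    rw [mem_union, mem_filter, mem_filter] at he
    rw [mem_filter]
    rcases he with he | he
    · exact ⟨he.1, he.2.2⟩
    · exact ⟨he.1, he.2.trans subset_union_left⟩
  have h8 := hS (X ∪ K) (union_subset hX hKI)
  rw [card_union_of_disjoint hdisj, mul_add] at h8
  unfold Tight at hXt
  have h9 : (D + 3) * K.card = D * K.card + 3 * K.card := add_mul _ _ _
  omega

end Pool.Agent.Spl1
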