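import Pool.Agent.Spl1.Hom

/-!
# Number of mod 2 cycles of a graph

Paper proof of `cyc_count`.  For `S ⊆ E` let `o(S) = {v ∈ W | vdeg S v odd}`.  Then `|o(S)|` is even
(handshake lemma: `∑_v vdeg S v = 2|S|`, all edges of `S` have two ends, both in `W`).  There are
`2^(|W|-1)` subsets of `W` of even cardinality (`W ≠ ∅`), so it is enough that every fibre of `o` has at
most `c = #{C ⊆ E | IsCyc C}` elements: if `S₀` is in the fibre, then `S ↦ S ∆ S₀` is injective from the
fibre to the cycles in `E` (`vdeg_symm`; outside `W` all degrees are `0`).  So
`2^|E| ≤ 2^(|W|-1) c`.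

Paper proof of `cyc_count_le` (used for H1 of geometric discs).  If the graph `(W, E)` is connected in the
sense that every nonempty `Z ⊆ W` closed under `E` is `W`, then every even subset of `W` is `o(S)` for some
`S ⊆ E`: the set of `u` such that `{x} ∆ {u} = o(S)` for some `S ⊆ E` is closed under `E` (add or remove the
edge `{u,u'}`) and contains `x`; an even set is a symmetric difference of pairs (induction on the
cardinality).  Each fibre has exactly `c` elements (translate by an element of the fibre), hence
`2^(|W|-1) c ≤ 2^|E|`.
-/

set_option autoImplicit false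

namespace Pool.Agent.Spl1

open Finset

variable {V : Type*} [Fintype V] [DecidableEq V]

/-- handshake: the number of vertices of odd degree is even -/
theorem handshake {S : Finset (Finset V)} (h2 : ∀ e ∈ S, e.card = 2) :
    Even (univ.filter (fun v => Odd (vdeg S v))).card := by
  rw [← Finset.even_sum_iff_even_card_odd]
  have h1 : ∑ v : V, vdeg S v = ∑ e ∈ S, e.card := by
    unfold vdeg
    simp_rw [Finset.card_filter]
    rw [Finset.sum_comm]
    apply Finset.sum_congr rfl
    intro e _
    rw [← Finset.card_filter]
    congr 1
    ext v
    simp
  rw [h1, Finset.sum_congr rfl h2, Finset.sum_const, smul_eq_mul]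
  exact ⟨S.card, by ring⟩

/-- the vertices of odd degree -/
def oddv (S : Finset (Finset V)) : Finset V := univ.filter (fun v => Odd (vdeg S v))

theorem mem_oddv {S : Finset (Finset V)} {v : V} : v ∈ oddv S ↔ Odd (vdeg S v) := by
  simp [oddv]

theorem oddv_symm (S S' : Finset (Finset V)) : oddv (symmDiff S S') = symmDiff (oddv S) (oddv S') := by
  ext v
  rw [mem_oddv, vdeg_symm, Finset.mem_symmDiff, mem_oddv, mem_oddv]
  tauto

theorem oddv_subset {E S : Finset (Finset V)} {W : Finset V} (hW : ∀ e ∈ E, e ⊆ W) (hS : S ⊆ E) :
    oddv S ⊆ W := by
  intro v hv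
  rw [mem_oddv] at hv
  have h1 : 0 < vdeg S v := hv.pos
  unfold vdeg at h1
  rw [Finset.card_pos] at h1
  obtain ⟨e, he⟩ := h1
  rw [mem_filter] at he
  exact hW e (hS he.1) he.2

theorem isCyc_iff_oddv {S : Finset (Finset V)} (h2 : ∀ e ∈ S, e.card = 2) :
    IsCyc S ↔ oddv S = ∅ := by
  rw [Finset.eq_empty_iff_forall_notMem]
  unfold IsCyc
  constructor
  · rintro ⟨-, h⟩ v
    rw [mem_oddv, Nat.not_odd_iff_even]
    exact h v
  · intro h
    refine ⟨h2, fun v => ?_⟩
    have := h v
    rw [mem_oddv, Nat.not_odd_iff_even] at this
    exact this

theorem card_even_powerset {W : Finset V} (hne : W.Nonempty) :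
    2 * (W.powerset.filter (fun X => Even X.card)).card = 2 ^ W.card := by
  obtain ⟨w, hw⟩ := hne
  have h1 : (W.powerset.filter (fun X => Even X.card)).card =
      (W.powerset.filter (fun X => ¬ Even X.card)).card := by
    apply Finset.card_bij (fun X _ => symmDiff X {w})
    · intro X hX
      rw [mem_filter, mem_powerset] at hX ⊢
      refine ⟨?_, ?_⟩
      · intro x hx
        rw [Finset.mem_symmDiff, mem_singleton] at hx
        rcases hx with hx | hx
        · exact hX.1 hx.1
        · rw [hx.1]; exact hw
      · by_cases hwX : w ∈ X
        · have h2 : symmDiff X {w} = X.erase w := by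
            ext x
            rw [Finset.mem_symmDiff, mem_singleton, mem_erase]
            by_cases hxw : x = w
            · subst hxw; simp [hwX]
            · simp [hxw]
          rw [h2]
          have h3 := Finset.card_erase_add_one hwX
          have h4 := hX.2
          rw [← h3, Nat.even_add_one] at h4
          exact h4
        · have h2 : symmDiff X {w} = insert w X := by
            ext x
            rw [Finset.mem_symmDiff, mem_singleton, mem_insert]
            by_cases hxw : x = w
            · subst hxw; simp [hwX]
            · simp [hxw]
          rw [h2, Finset.card_insert_of_notMem hwX, Nat.even_add_one, not_not]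
          exact hX.2
    · intro X _ Y _ h
      exact symmDiff_left_injective _ h
    · intro Y hY
      rw [mem_filter, mem_powerset] at hY
      refine ⟨symmDiff Y {w}, ?_, by rw [symmDiff_symmDiff_cancel_right]⟩
      rw [mem_filter, mem_powerset]
      refine ⟨?_, ?_⟩
      · intro x hx
        rw [Finset.mem_symmDiff, mem_singleton] at hx
        rcases hx with hx | hx
        · exact hY.1 hx.1
        · rw [hx.1]; exact hw
      · by_cases hwX : w ∈ Y
        · have h2 : symmDiff Y {w} = Y.erase w := by
            ext x
            rw [Finset.mem_symmDiff, mem_singleton, mem_erase]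
            by_cases hxw : x = w
            · subst hxw; simp [hwX]
            · simp [hxw]
          rw [h2]
          have h3 := Finset.card_erase_add_one hwX
          have h4 := hY.2
          rw [← h3, Nat.even_add_one, not_not] at h4
          exact h4
        · have h2 : symmDiff Y {w} = insert w Y := by
            ext x
            rw [Finset.mem_symmDiff, mem_singleton, mem_insert]
            by_cases hxw : x = w
            · subst hxw; simp [hwX]
            · simp [hxw]
          rw [h2, Finset.card_insert_of_notMem hwX, Nat.even_add_one]
          exact hY.2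
  have h2 := Finset.card_filter_add_card_filter_not (s := W.powerset) (fun X => Even X.card)
  rw [Finset.card_powerset] at h2
  omega

open Classical in
theorem card_powerset_fiber {E : Finset (Finset V)} {W : Finset V} (h2 : ∀ e ∈ E, e.card = 2)
    (hW : ∀ e ∈ E, e ⊆ W) :
    2 ^ E.card = ∑ X ∈ W.powerset.filter (fun X => Even X.card),
      (E.powerset.filter (fun S => oddv S = X)).card := by
  rw [← Finset.card_powerset]
  apply Finset.card_eq_sum_card_fiberwise
  intro S hS
  rw [Finset.mem_coe, mem_powerset] at hS
  rw [Finset.mem_coe, mem_filter, mem_powerset]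
  exact ⟨oddv_subset hW hS, handshake (fun e he => h2 e (hS he))⟩

open Classical in
theorem cyc_count {E : Finset (Finset V)} {W : Finset V} (h2 : ∀ e ∈ E, e.card = 2)
    (hW : ∀ e ∈ E, e ⊆ W) (hne : W.Nonempty) :
    2 ^ (E.card + 1) ≤ 2 ^ W.card * (E.powerset.filter (fun C => IsCyc C)).card := by
  have h1 := card_powerset_fiber h2 hW
  have h3 : ∀ X ∈ W.powerset.filter (fun X => Even X.card),
      (E.powerset.filter (fun S => oddv S = X)).card ≤ (E.powerset.filter (fun C => IsCyc C)).card := by
    intro X _
    rcases Finset.eq_empty_or_nonempty (E.powerset.filter (fun S => oddv S = X)) with h | ⟨S₀, hS₀⟩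
    · rw [h]
      simp
    · rw [mem_filter, mem_powerset] at hS₀
      apply Finset.card_le_card_of_injOn (fun S => symmDiff S S₀)
      · intro S hS
        rw [Finset.mem_coe, mem_filter, mem_powerset] at hS
        rw [Finset.mem_coe, mem_filter, mem_powerset]
        have hsub : symmDiff S S₀ ⊆ E := by
          intro e he
          rw [Finset.mem_symmDiff] at he
          rcases he with he | he
          · exact hS.1 he.1
          · exact hS₀.1 he.1
        refine ⟨hsub, ?_⟩
        rw [isCyc_iff_oddv (fun e he => h2 e (hsub he)), oddv_symm, hS.2, hS₀.2, symmDiff_self]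
        rfl
      · intro S _ S' _ h
        exact symmDiff_left_injective _ h
  have h4 := Finset.sum_le_card_nsmul _ _ _ h3
  rw [← h1, smul_eq_mul] at h4
  have h5 := card_even_powerset hne
  calc 2 ^ (E.card + 1) = 2 * 2 ^ E.card := by ring
    _ ≤ 2 * ((W.powerset.filter (fun X => Even X.card)).card *
        (E.powerset.filter (fun C => IsCyc C)).card) := Nat.mul_le_mul_left _ h4
    _ = (2 * (W.powerset.filter (fun X => Even X.card)).card) *
        (E.powerset.filter (fun C => IsCyc C)).card := by ring
    _ = _ := by rw [h5]

open Classical in
theorem cyc_count_le {E : Finset (Finset V)} {W : Finset V} (h2 : ∀ e ∈ E, e.card = 2)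
    (hW : ∀ e ∈ E, e ⊆ W) (hne : W.Nonempty)
    (hconn : ∀ Z ⊆ W, Z.Nonempty → (∀ e ∈ E, (e ∩ Z).Nonempty → e ⊆ Z) → Z = W) :
    2 ^ W.card * (E.powerset.filter (fun C => IsCyc C)).card ≤ 2 ^ (E.card + 1) := by
  obtain ⟨w, hw⟩ := hne
  have h1 := card_powerset_fiber h2 hW
  -- realisable sets
  have hadd : ∀ X Y : Finset V, (∃ S ⊆ E, oddv S = X) → (∃ S ⊆ E, oddv S = Y) →
      ∃ S ⊆ E, oddv S = symmDiff X Y := by
    rintro X Y ⟨S, hS, rfl⟩ ⟨S', hS', rfl⟩
    refine ⟨symmDiff S S', ?_, oddv_symm S S'⟩
    intro e he
    rw [Finset.mem_symmDiff] at he
    rcases he with he | he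
    · exact hS he.1
    · exact hS' he.1
  have hsingle : ∀ e ∈ E, oddv {e} = e := by
    intro e he
    ext v
    rw [mem_oddv]
    unfold vdeg
    by_cases hv : v ∈ e
    · rw [Finset.filter_singleton, if_pos hv]
      simp [hv]
    · rw [Finset.filter_singleton, if_neg hv]
      simp [hv]
  have hpair : ∀ u ∈ W, ∃ S ⊆ E, oddv S = symmDiff {u} {w} := by
    have hZ : W.filter (fun u => ∃ S ⊆ E, oddv S = symmDiff {u} {w}) = W := by
      apply hconn _ (Finset.filter_subset _ _)
      · refine ⟨w, ?_⟩
        rw [mem_filter]
        refine ⟨hw, ∅, Finset.empty_subset _, ?_⟩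
        rw [symmDiff_self]
        ext v
        rw [mem_oddv]
        simp [vdeg]
      · intro e he hez
        obtain ⟨u, hu⟩ := hez
        rw [mem_inter, mem_filter] at hu
        intro u' hu'
        rw [mem_filter]
        refine ⟨hW e he hu', ?_⟩
        by_cases huu : u' = u
        · rw [huu]; exact hu.2.2
        · have h3 : e = symmDiff {u'} {u} := by
            have h4 : e = {u', u} := by
              symm
              apply Finset.eq_of_subset_of_card_le
              · intro x hx
                rw [mem_insert, mem_singleton] at hx
                rcases hx with rfl | rfl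
                · exact hu'
                · exact hu.1
              · rw [h2 e he, Finset.card_pair huu]
            rw [h4]
            ext x
            rw [mem_insert, mem_singleton, Finset.mem_symmDiff, mem_singleton, mem_singleton]
            constructor
            · rintro (rfl | rfl)
              · exact Or.inl ⟨rfl, huu⟩
              · exact Or.inr ⟨rfl, fun h => huu h.symm⟩
            · rintro (h | h)
              · exact Or.inl h.1
              · exact Or.inr h.1
          have h5 := hadd (symmDiff {u'} {u}) (symmDiff {u} {w})
            ⟨{e}, Finset.singleton_subset_iff.2 he, by rw [hsingle e he]; exact h3⟩ hu.2.2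
          have h6 : symmDiff (symmDiff {u'} {u}) (symmDiff {u} {w}) = (symmDiff {u'} {w} : Finset V) := by
            rw [symmDiff_assoc, symmDiff_symmDiff_cancel_left]
          rw [h6] at h5
          exact h5
    intro u hu
    rw [← hZ, mem_filter] at hu
    exact hu.2
  have hall : ∀ X : Finset V, X ⊆ W → (∃ S ⊆ E, oddv S = X) ∨ (∃ S ⊆ E, oddv S = symmDiff X {w}) := by
    intro X
    induction X using Finset.induction_on with
    | empty =>
      intro _
      left
      refine ⟨∅, Finset.empty_subset _, ?_⟩
      ext v
      rw [mem_oddv]
      simp [vdeg]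
    | insert a X ha ih =>
      intro hX
      have haW : a ∈ W := hX (mem_insert_self a X)
      have hins : insert a X = symmDiff X {a} := by
        ext x
        rw [Finset.mem_symmDiff, mem_singleton, mem_insert]
        by_cases hxa : x = a
        · subst hxa; simp [ha]
        · simp [hxa]
      rcases ih ((Finset.subset_insert a X).trans hX) with h | h
      · right
        have h3 := hadd _ _ h (hpair a haW)
        rw [hins]
        rw [← symmDiff_assoc] at h3
        exact h3
      · left
        have h3 := hadd _ _ h (hpair a haW)
        rw [hins]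
        have h4 : symmDiff (symmDiff X {w}) (symmDiff {a} {w}) = symmDiff X {a} := by
          rw [symmDiff_symmDiff_symmDiff_comm, symmDiff_self]
          exact symmDiff_bot _
        rw [h4] at h3
        exact h3
  have h3 : ∀ X ∈ W.powerset.filter (fun X => Even X.card),
      (E.powerset.filter (fun C => IsCyc C)).card ≤ (E.powerset.filter (fun S => oddv S = X)).card := by
    intro X hX
    rw [mem_filter, mem_powerset] at hX
    have hreal : ∃ S ⊆ E, oddv S = X := by
      rcases hall X hX.1 with h | ⟨S, hS, hSX⟩
      · exact h
      · exfalso
        have h4 := handshake (fun e he => h2 e (hS he))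
        change Even (oddv S).card at h4
        rw [hSX] at h4
        by_cases hwX : w ∈ X
        · have h5 : symmDiff X {w} = X.erase w := by
            ext x
            rw [Finset.mem_symmDiff, mem_singleton, mem_erase]
            by_cases hxw : x = w
            · subst hxw; simp [hwX]
            · simp [hxw]
          rw [h5] at h4
          have h6 := Finset.card_erase_add_one hwX
          have h7 := hX.2
          rw [← h6, Nat.even_add_one] at h7
          exact h7 h4
        · have h5 : symmDiff X {w} = insert w X := by
            ext x
            rw [Finset.mem_symmDiff, mem_singleton, mem_insert]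
            by_cases hxw : x = w
            · subst hxw; simp [hwX]
            · simp [hxw]
          rw [h5, Finset.card_insert_of_notMem hwX, Nat.even_add_one] at h4
          exact h4 hX.2
    obtain ⟨S₀, hS₀, hS₀X⟩ := hreal
    apply Finset.card_le_card_of_injOn (fun C => symmDiff C S₀)
    · intro C hC
      rw [Finset.mem_coe, mem_filter, mem_powerset] at hC
      rw [Finset.mem_coe, mem_filter, mem_powerset]
      refine ⟨?_, ?_⟩
      · intro e he
        rw [Finset.mem_symmDiff] at he
        rcases he with he | he
        · exact hC.1 he.1
        · exact hS₀ he.1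
      · rw [oddv_symm, (isCyc_iff_oddv (fun e he => h2 e (hC.1 he))).1 hC.2, hS₀X]
        exact bot_symmDiff _
    · intro C _ C' _ h
      exact symmDiff_left_injective _ h
  have h4 := Finset.card_nsmul_le_sum _ _ _ h3
  rw [← h1, smul_eq_mul] at h4
  have h5 := card_even_powerset ⟨w, hw⟩
  calc 2 ^ W.card * (E.powerset.filter (fun C => IsCyc C)).card
      = 2 * ((W.powerset.filter (fun X => Even X.card)).card *
        (E.powerset.filter (fun C => IsCyc C)).card) := by rw [← h5]; ring
    _ ≤ 2 * 2 ^ E.card := Nat.mul_le_mul_left _ h4
    _ = 2 ^ (E.card + 1) := by ring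

end Pool.Agent.Spl1
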