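import Mathlib

/-!
# Generic rank of the smoothing cofactor matrix of `S^r_{r+1}`: definitions

`V` is a finite set of vertices, a complex is a finite set `T` of triangles (`Finset V` of
cardinality `3`) together with the set `I` of interior vertices; the other vertices are pinned.

`Good T I` (a disc): every edge is in at most two triangles, an edge at an interior vertex in
exactly two, the link of an interior vertex is one cycle (`conn`), the link of any other vertex
contains no cycle (`acyc`), every mod 2 cycle of edges bounds a unique set of triangles (`H1`, `H2`).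

`F` is a set of edges, each meeting `I`.  `cnt F I A` is the number of edges of `F` all of whose
interior ends lie in `A`, `Sparse D F I` says `cnt F I A ≤ D |A|` for all `A ⊆ I`.

A stress of `F` at the position `p` assigns numbers to the (ordered) edges such that at every
interior vertex `u` the vector `∑_v ω(u,v) (p_v - p_u)^{⊗ (D-1)} ∈ Sym^{D-1}(ℝ²) = ℝ^D` vanishes.
`GI D F I`: for generic positions the only stress is `0`.

Goal (`Main.lean`): if `D ≥ 4`, `Good T I`, `F ⊆ edges T`, `Sparse D F I` then `GI D F I`.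
-/

set_option autoImplicit false

namespace Pool.Agent.Spl1

open Finset

variable {V : Type*} [Fintype V] [DecidableEq V]

/-- the number of triangles of `D` which contain `e` -/
def tdeg (D : Finset (Finset V)) (e : Finset V) : ℕ := (D.filter (fun t => e ⊆ t)).card

/-- the triangles at `v` -/
def star (T : Finset (Finset V)) (v : V) : Finset (Finset V) := T.filter (fun t => v ∈ t)

/-- the edges of the complex `T` -/
def edges (T : Finset (Finset V)) : Finset (Finset V) :=
  univ.filter (fun e => e.card = 2 ∧ 0 < tdeg T e)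

/-- the mod 2 boundary of a set of triangles -/
def bdry (D : Finset (Finset V)) : Finset (Finset V) :=
  univ.filter (fun e => e.card = 2 ∧ Odd (tdeg D e))

/-- the number of edges of `C` at `v` -/
def vdeg (C : Finset (Finset V)) (v : V) : ℕ := (C.filter (fun e => v ∈ e)).card

/-- mod 2 cycles -/
def IsCyc (C : Finset (Finset V)) : Prop := (∀ e ∈ C, e.card = 2) ∧ ∀ v, Even (vdeg C v)

/-- `S` (a set of triangles at `v`) is a mod 2 cycle in the link of `v` -/
def LinkEven (S : Finset (Finset V)) (v : V) : Prop := ∀ u, u ≠ v → Even (tdeg S {v, u})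

/-- triangulated discs -/
structure Good (T : Finset (Finset V)) (I : Finset V) : Prop where
  card3 : ∀ t ∈ T, t.card = 3
  le2 : ∀ e : Finset V, e.card = 2 → tdeg T e ≤ 2
  int2 : ∀ v ∈ I, ∀ e ∈ edges T, v ∈ e → tdeg T e = 2
  ne : ∀ v ∈ I, (star T v).Nonempty
  conn : ∀ v ∈ I, ∀ S ⊆ star T v, LinkEven S v → S = ∅ ∨ S = star T v
  acyc : ∀ v, v ∉ I → ∀ S ⊆ star T v, LinkEven S v → S = ∅
  H1 : ∀ C ⊆ edges T, IsCyc C → ∃ D ⊆ T, bdry D = C
  H2 : ∀ D ⊆ T, bdry D = ∅ → D = ∅

/-- every 3-cycle through `v` is a triangle -/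
def Chordless (T : Finset (Finset V)) (v : V) : Prop :=
  ∀ x y, x ≠ y → x ≠ v → y ≠ v → ({v, x} : Finset V) ∈ edges T → ({v, y} : Finset V) ∈ edges T →
    ({x, y} : Finset V) ∈ edges T → ({v, x, y} : Finset V) ∈ T

/-- the neighbours of `v` in the set `F` of edges -/
def nb (F : Finset (Finset V)) (v : V) : Finset V := univ.filter (fun u => u ≠ v ∧ {v, u} ∈ F)

/-- the flip of the edge `v u` with opposite vertices `w`, `w'` -/
def flipT (T : Finset (Finset V)) (v u w w' : V) : Finset (Finset V) :=
  (T \ {{v, u, w}, {v, u, w'}}) ∪ {{v, w, w'}, {u, w, w'}}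

/-- the number of edges of `F` all of whose interior ends lie in `A` -/
def cnt (F : Finset (Finset V)) (I A : Finset V) : ℕ := (F.filter (fun e => e ∩ I ⊆ A)).card

/-- edges of `F` have two ends, one of them interior -/
def Adm (F : Finset (Finset V)) (I : Finset V) : Prop := ∀ e ∈ F, e.card = 2 ∧ (e ∩ I).Nonempty

/-- the count condition -/
def Sparse (D : ℕ) (F : Finset (Finset V)) (I : Finset V) : Prop :=
  ∀ A ⊆ I, cnt F I A ≤ D * A.card

/-- the vector `(a^j b^(D-1-j))_j` -/
def mon (D : ℕ) (a b : ℝ) : Fin D → ℝ := fun j => a ^ (j : ℕ) * b ^ (D - 1 - (j : ℕ))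

/-- stresses of `F` at the position `p` -/
structure IsStress (D : ℕ) (p : V × Fin 2 → ℝ) (F : Finset (Finset V)) (I : Finset V)
    (ω : V → V → ℝ) : Prop where
  supp : ∀ u v, ω u v ≠ 0 → u ≠ v ∧ ({u, v} : Finset V) ∈ F
  symm : ∀ u v, ω v u = (-1) ^ D * ω u v
  eq : ∀ u ∈ I, ∀ j : Fin D,
    ∑ v, ω u v * mon D (p (v, 0) - p (u, 0)) (p (v, 1) - p (u, 1)) j = 0

/-- the only stress is `0` -/
def Indep (D : ℕ) (p : V × Fin 2 → ℝ) (F : Finset (Finset V)) (I : Finset V) : Prop :=
  ∀ ω : V → V → ℝ, IsStress D p F I ω → ∀ u v, ω u v = 0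

/-- generic independence -/
def GI (D : ℕ) (F : Finset (Finset V)) (I : Finset V) : Prop :=
  ∃ Q : MvPolynomial (V × Fin 2) ℝ, Q ≠ 0 ∧
    ∀ p : V × Fin 2 → ℝ, MvPolynomial.eval p Q ≠ 0 → Indep D p F I

theorem mem_star {T : Finset (Finset V)} {v : V} {t : Finset V} :
    t ∈ star T v ↔ t ∈ T ∧ v ∈ t := by simp [star]

theorem mem_edges {T : Finset (Finset V)} {e : Finset V} :
    e ∈ edges T ↔ e.card = 2 ∧ ∃ t ∈ T, e ⊆ t := by
  unfold edges tdeg
  simp only [mem_filter, mem_univ, true_and, Finset.card_pos, Finset.Nonempty]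

theorem mem_bdry {D : Finset (Finset V)} {e : Finset V} :
    e ∈ bdry D ↔ e.card = 2 ∧ Odd (tdeg D e) := by simp [bdry]

theorem mem_nb {F : Finset (Finset V)} {v u : V} : u ∈ nb F v ↔ u ≠ v ∧ {v, u} ∈ F := by
  simp [nb]

end Pool.Agent.Spl1
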