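import Pool.Agent.Spl1.Hom

/-!
# Flips and removal of vertices of degree three

Let `K` be a set of four vertices and `Tet = K.powersetCard 3` its four triangles: every pair
`e ⊆ K` is in exactly two triangles of `Tet`, `bdry Tet = ∅`, and the three triangles of `Tet` at `z ∈ K`
are `LinkEven` at `z`.  Both operations replace the set `O = T ∩ Tet` of two (three) triangles by
`N = Tet \ T` (two, resp. one triangle), so `T' = symmDiff T Tet`.

*Flip.* `K = {v,u,w,w'}`, `O = {{v,u,w},{v,u,w'}}`, `N = {{v,w,w'},{u,w,w'}}` (not in `T` since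
`{w,w'} ∉ edges T`).  `tdeg T {v,u} = 2` (`le2`), so `O` are the only triangles at `{v,u}`.  For a pair `e`:
`tdeg T' {v,u} = 0`, `tdeg T' {w,w'} = 2`, `tdeg T' e = tdeg T e` for all other `e` (if `e ⊆ K` is one of the
four other pairs it is in exactly one triangle of `O` and one of `N`).  This gives `edges_flip`, `le2`,
`int2`, `card3`.  `ne`: `star T' z` is empty only if `star T z` is.

`H2`: `D' ⊆ T'`, `bdry D' = ∅`.  Since `{w,w'} ∉ bdry D'`, `D'` contains both triangles of `N` or none.  Let
`D = D' ∆ Tet`, resp. `D = D'`; then `D ⊆ T` and `bdry D = ∅`, so `D = ∅` (`H2`).  In the first case `D`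
contains `{v,u,w}`, contradiction.

`H1`: `C ⊆ edges T'` a cycle.  Let `C₁ = C` if `{w,w'} ∉ C`, otherwise `C₁ = C ∆ bdry {{v,w,w'}}`
(`{w,w'} ∉ C₁`).  `C₁ ⊆ edges T`, and `{v,u} ∉ C₁`.  Let `D ⊆ T`, `bdry D = C₁`.  `{v,u} ∉ C₁`, so `D`
contains both triangles of `O` or none; `D₁ = D ∆ Tet` resp. `D₁ = D` is `⊆ T'` and has boundary `C₁`.
Finally `D₁` or `D₁ ∆ {{v,w,w'}}` has boundary `C`.

`conn`, `acyc` at `z`: if `z ∉ K` then `star T' z = star T z`.  Let `z ∈ K`, `Tet_z` the triangles of `Tet` at
`z`, `S' ⊆ star T' z` `LinkEven`.  `S'` contains all the triangles of `N` at `z` or none: if `z ∈ {v,u}` there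
is only one; if `z ∈ {w,w'}` the two of them are the only triangles of `T'` at `{w,w'}`.  If none, then
`S' ⊆ star T z` is `LinkEven` and misses the triangles of `O` at `z` (at least one), so `S' = ∅` by
`conn`/`acyc`.  If all, then `S = S' ∆ Tet_z ⊆ star T z` is `LinkEven`, contains the triangles of `O` at `z`, so it is
nonempty: impossible if `z ∉ I`, and `S = star T z` if `z ∈ I`, which gives `S' = star T' z`.

*Degree three.* `v ∈ I`, `star T v = O = {{v,a,b},{v,b,c},{v,a,c}}`, `K = {v,a,b,c}`, `N = {{a,b,c}}`;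
`{a,b,c} ∉ T` since otherwise `bdry Tet = ∅` contradicts `H2`.  `T' = (T \ star T v) ∪ {{a,b,c}}`.  The same proof:
`tdeg T' {v,x} = 0`, `tdeg T' e = tdeg T e` for `e ∌ v`; `edges T' = edges T` without the edges at `v`;
`H2`, `H1`: `D ⊆ T` with no edge at `v` in its boundary contains all of `O` or nothing of it
(`{v,a}`, `{v,b}` connect them).  At `z ∈ {a,b,c}`: `O` has two triangles at `z` and `N` one.  `ne`: for
`z ∈ {a,b,c}` the triangle `{a,b,c}` is in `star T' z`.  At `v`: `star T' v = ∅`, and `v ∉ I.erase v`.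
-/

set_option autoImplicit false
set_option linter.unusedSimpArgs false
set_option linter.unusedSectionVars false

namespace Pool.Agent.Spl1

open Finset

variable {V : Type*} [Fintype V] [DecidableEq V]

theorem flip_tdeg_union {A B : Finset (Finset V)} (h : Disjoint A B) (e : Finset V) :
    tdeg (A ∪ B) e = tdeg A e + tdeg B e := by
  unfold tdeg
  rw [filter_union, card_union_of_disjoint]
  exact disjoint_filter_filter h

theorem flip_tdeg_move {T O N : Finset (Finset V)} (hO : O ⊆ T) (hN : Disjoint N T)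
    (e : Finset V) : tdeg ((T \ O) ∪ N) e + tdeg O e = tdeg T e + tdeg N e := by
  have h1 : tdeg ((T \ O) ∪ N) e = tdeg (T \ O) e + tdeg N e :=
    flip_tdeg_union (disjoint_of_subset_left sdiff_subset hN.symm) e
  have h2 : tdeg T e = tdeg (T \ O) e + tdeg O e := by
    rw [← flip_tdeg_union sdiff_disjoint e, sdiff_union_of_subset hO]
  omega

theorem flip_tdeg_pair {t₁ t₂ : Finset V} (h : t₁ ≠ t₂) (e : Finset V) :
    tdeg {t₁, t₂} e = (if e ⊆ t₁ then 1 else 0) + (if e ⊆ t₂ then 1 else 0) := by
  unfold tdeg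
  rw [filter_insert, filter_singleton]
  split_ifs <;> simp [h]

theorem flip_tdeg_triple {t₁ t₂ t₃ : Finset V} (h : t₁ ≠ t₂) (h' : t₁ ≠ t₃) (h'' : t₂ ≠ t₃)
    (e : Finset V) :
    tdeg {t₁, t₂, t₃} e = (if e ⊆ t₁ then 1 else 0) + (if e ⊆ t₂ then 1 else 0) +
      (if e ⊆ t₃ then 1 else 0) := by
  unfold tdeg
  rw [filter_insert, filter_insert, filter_singleton]
  split_ifs <;> simp [h, h', h'']

theorem flip_tdeg_single {t : Finset V} (e : Finset V) :
    tdeg {t} e = (if e ⊆ t then 1 else 0) := by
  unfold tdeg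
  rw [filter_singleton]
  split_ifs <;> simp

theorem flip_sub_or {A S : Finset (Finset V)} {a b : Finset V} (hab : a ≠ b) (hA : A = {a, b})
    (h : Even (S ∩ A).card) : A ⊆ S ∨ Disjoint A S := by
  subst hA
  by_cases ha : a ∈ S
  · by_cases hb : b ∈ S
    · left
      intro x hx
      rw [mem_insert, mem_singleton] at hx
      rcases hx with rfl | rfl <;> assumption
    · exfalso
      have : S ∩ {a, b} = {a} := by
        ext x
        simp only [mem_inter, mem_insert, mem_singleton]
        constructor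
        · rintro ⟨h1, rfl | rfl⟩
          · rfl
          · exact absurd h1 hb
        · rintro rfl
          exact ⟨ha, Or.inl rfl⟩
      rw [this] at h
      simp at h
  · by_cases hb : b ∈ S
    · exfalso
      have : S ∩ {a, b} = {b} := by
        ext x
        simp only [mem_inter, mem_insert, mem_singleton]
        constructor
        · rintro ⟨h1, rfl | rfl⟩
          · exact absurd h1 ha
          · rfl
        · rintro rfl
          exact ⟨hb, Or.inr rfl⟩
      rw [this] at h
      simp at h
    · right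
      rw [Finset.disjoint_left]
      intro x hx
      rw [mem_insert, mem_singleton] at hx
      rcases hx with rfl | rfl <;> assumption

/-- the general local move: replace `O ⊆ T` by `N` -/
theorem flip_good_move {T O N : Finset (Finset V)} {I I' : Finset V} (h : Good T I) (hO : O ⊆ T)
    (hN : Disjoint N T) (hOne : O.Nonempty) (N3 : ∀ t ∈ N, t.card = 3)
    (hpar : ∀ e : Finset V, e.card = 2 → (Odd (tdeg O e) ↔ Odd (tdeg N e)))
    (hle : ∀ e : Finset V, e.card = 2 → tdeg ((T \ O) ∪ N) e ≤ 2)
    (hint : ∀ z ∈ I', ∀ e ∈ edges ((T \ O) ∪ N), z ∈ e → tdeg ((T \ O) ∪ N) e = 2)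
    (hne : ∀ z ∈ I', (star ((T \ O) ∪ N) z).Nonempty)
    (hI : ∀ z ∈ I', z ∈ I)
    (hNz : ∀ z, (star N z).Nonempty → (star O z).Nonempty)
    (hI' : ∀ z, z ∉ I' → z ∉ I ∨ star ((T \ O) ∪ N) z = ∅)
    (hNall : ∀ z, ∀ S ⊆ star ((T \ O) ∪ N) z, LinkEven S z →
      star N z ⊆ S ∨ Disjoint (star N z) S)
    (hNall' : ∀ D ⊆ (T \ O) ∪ N, bdry D = ∅ → N ⊆ D ∨ Disjoint N D)
    (hH1 : ∀ C ⊆ edges ((T \ O) ∪ N), IsCyc C → ∃ E ⊆ N, symmDiff C (bdry E) ⊆ edges T ∧
      ∀ D ⊆ T, bdry D = symmDiff C (bdry E) → O ⊆ D ∨ Disjoint O D) :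
    Good ((T \ O) ∪ N) I' := by
  have hON : Disjoint O N := (disjoint_of_subset_right hO hN).symm
  have hmem : ∀ t, t ∈ (T \ O) ∪ N ↔ (t ∈ T ∧ t ∉ O) ∨ t ∈ N := by
    intro t; simp only [mem_union, mem_sdiff]
  have hOT' : ∀ t ∈ O, t ∉ (T \ O) ∪ N := by
    intro t ht ht'
    rcases (hmem t).1 ht' with h1 | h1
    · exact h1.2 ht
    · exact Finset.disjoint_left.1 hON ht h1
  have hNT : ∀ t ∈ N, t ∉ T := fun t ht => Finset.disjoint_left.1 hN ht
  have hparU : ∀ e : Finset V, e.card = 2 → ¬ Odd (tdeg (O ∪ N) e) := by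
    intro e he
    rw [flip_tdeg_union hON, Nat.odd_add]
    have := hpar e he
    rw [← Nat.not_odd_iff_even]
    tauto
  have hpar_star : ∀ z u, u ≠ z → ¬ Odd (tdeg (star (O ∪ N) z) {z, u}) := by
    intro z u hu
    have h1 : tdeg (star (O ∪ N) z) {z, u} = tdeg (O ∪ N) {z, u} := by
      unfold tdeg star
      congr 1
      ext t
      simp only [mem_filter]
      constructor
      · rintro ⟨⟨h1, _⟩, h2⟩
        exact ⟨h1, h2⟩
      · rintro ⟨h1, h2⟩
        exact ⟨⟨h1, h2 (mem_insert_self _ _)⟩, h2⟩
    rw [h1]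
    exact hparU _ (card_pair hu.symm)
  have hbU : bdry (O ∪ N) = ∅ := by
    ext e
    rw [mem_bdry]
    simp only [notMem_empty, iff_false, not_and]
    exact hparU e
  -- the key dichotomy at a vertex
  have key : ∀ z, ∀ S ⊆ star ((T \ O) ∪ N) z, LinkEven S z →
      (∀ S₁ ⊆ star T z, LinkEven S₁ z → S₁ = ∅ ∨ S₁ = star T z) →
      S = ∅ ∨ S = star ((T \ O) ∪ N) z := by
    intro z S hS hSe hcon
    have hstar : ∀ t, t ∈ star ((T \ O) ∪ N) z ↔ ((t ∈ T ∧ t ∉ O) ∨ t ∈ N) ∧ z ∈ t := by
      intro t; rw [mem_star, hmem]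
    rcases hNall z S hS hSe with h1 | h1
    · -- all of star N z in S
      have hS1 : symmDiff S (star (O ∪ N) z) ⊆ star T z := by
        intro t ht
        rw [mem_symmDiff, mem_star] at ht
        rw [mem_star]
        rcases ht with ⟨hs, hn⟩ | ⟨hs, hn⟩
        · obtain ⟨h3, h4⟩ := (hstar t).1 (hS hs)
          rcases h3 with h3 | h3
          · exact ⟨h3.1, h4⟩
          · exact absurd ⟨mem_union_right _ h3, h4⟩ hn
        · rcases mem_union.1 hs.1 with h3 | h3
          · exact ⟨hO h3, hs.2⟩
          · exact absurd (h1 (mem_star.2 ⟨h3, hs.2⟩)) hn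
      have hS1e : LinkEven (symmDiff S (star (O ∪ N) z)) z := by
        intro u hu
        rw [← Nat.not_odd_iff_even, tdeg_symm]
        have h3 := hSe u hu
        rw [← Nat.not_odd_iff_even] at h3
        have h4 := hpar_star z u hu
        tauto
      rcases hcon _ hS1 hS1e with h3 | h3
      · left
        have hSeq : S = star (O ∪ N) z := by
          rw [← symmDiff_eq_bot]; exact h3
        have hOz : star O z = ∅ := by
          rw [Finset.eq_empty_iff_forall_notMem]
          intro t ht
          rw [mem_star] at ht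
          have : t ∈ S := by rw [hSeq, mem_star]; exact ⟨mem_union_left _ ht.1, ht.2⟩
          exact hOT' t ht.1 (mem_star.1 (hS this)).1
        have hNz' : star N z = ∅ := by
          by_contra hcn
          have := hNz z (nonempty_iff_ne_empty.2 hcn)
          rw [hOz] at this
          exact not_nonempty_empty this
        rw [hSeq]
        rw [Finset.eq_empty_iff_forall_notMem]
        intro t ht
        rw [mem_star, mem_union] at ht
        rcases ht with ⟨h5 | h5, h6⟩
        · have : t ∈ star O z := mem_star.2 ⟨h5, h6⟩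
          rw [hOz] at this; exact notMem_empty _ this
        · have : t ∈ star N z := mem_star.2 ⟨h5, h6⟩
          rw [hNz'] at this; exact notMem_empty _ this
      · right
        have hSeq : S = symmDiff (star T z) (star (O ∪ N) z) := by
          rw [← h3, symmDiff_assoc, symmDiff_self]; exact (symmDiff_bot S).symm
        rw [hSeq]
        ext t
        rw [mem_symmDiff, hstar, mem_star, mem_star, mem_union]
        constructor
        · rintro (⟨h5, h6⟩ | ⟨h5, h6⟩)
          · refine ⟨Or.inl ⟨h5.1, fun h7 => h6 ⟨Or.inl h7, h5.2⟩⟩, h5.2⟩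
          · rcases h5.1 with h7 | h7
            · exact absurd ⟨hO h7, h5.2⟩ h6
            · exact ⟨Or.inr h7, h5.2⟩
        · rintro ⟨⟨h5, h6⟩ | h5, h7⟩
          · left
            refine ⟨⟨h5, h7⟩, ?_⟩
            rintro ⟨h8 | h8, _⟩
            · exact h6 h8
            · exact hNT t h8 h5
          · right
            exact ⟨⟨Or.inr h5, h7⟩, fun h8 => hNT t h5 h8.1⟩
    · have hST : S ⊆ star T z := by
        intro t ht
        obtain ⟨h3, h4⟩ := (hstar t).1 (hS ht)
        rcases h3 with h3 | h3
        · exact mem_star.2 ⟨h3.1, h4⟩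
        · exact absurd ht (Finset.disjoint_left.1 h1 (mem_star.2 ⟨h3, h4⟩))
      rcases hcon S hST hSe with h3 | h3
      · exact Or.inl h3
      · right
        have hOz : star O z = ∅ := by
          rw [Finset.eq_empty_iff_forall_notMem]
          intro t ht
          rw [mem_star] at ht
          have : t ∈ S := by rw [h3, mem_star]; exact ⟨hO ht.1, ht.2⟩
          exact hOT' t ht.1 (mem_star.1 (hS this)).1
        have hNz' : star N z = ∅ := by
          by_contra hcn
          have := hNz z (nonempty_iff_ne_empty.2 hcn)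
          rw [hOz] at this
          exact not_nonempty_empty this
        rw [h3]
        ext t
        rw [hstar, mem_star]
        constructor
        · rintro ⟨h5, h6⟩
          refine ⟨Or.inl ⟨h5, fun h7 => ?_⟩, h6⟩
          have : t ∈ star O z := mem_star.2 ⟨h7, h6⟩
          rw [hOz] at this; exact notMem_empty _ this
        · rintro ⟨h5 | h5, h6⟩
          · exact ⟨h5.1, h6⟩
          · have : t ∈ star N z := mem_star.2 ⟨h5, h6⟩
            rw [hNz'] at this; exact absurd this (notMem_empty _)
  constructor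
  · intro t ht
    rcases (hmem t).1 ht with h1 | h1
    · exact h.card3 t h1.1
    · exact N3 t h1
  · exact hle
  · exact hint
  · exact hne
  · intro z hz S hS hSe
    exact key z S hS hSe (h.conn z (hI z hz))
  · intro z hz S hS hSe
    rcases hI' z hz with h1 | h1
    · have hac : ∀ S₁ ⊆ star T z, LinkEven S₁ z → S₁ = ∅ := h.acyc z h1
      -- direct argument: S or S ∆ (O ∪ N)_z is empty
      rcases hNall z S hS hSe with h2 | h2
      · have hS1 : symmDiff S (star (O ∪ N) z) ⊆ star T z := by
          intro t ht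
          rw [mem_symmDiff, mem_star] at ht
          rw [mem_star]
          rcases ht with ⟨hs, hn⟩ | ⟨hs, hn⟩
          · have h4 := (mem_star.1 (hS hs))
            rcases (hmem t).1 h4.1 with h3 | h3
            · exact ⟨h3.1, h4.2⟩
            · exact absurd ⟨mem_union_right _ h3, h4.2⟩ hn
          · rcases mem_union.1 hs.1 with h3 | h3
            · exact ⟨hO h3, hs.2⟩
            · exact absurd (h2 (mem_star.2 ⟨h3, hs.2⟩)) hn
        have hS1e : LinkEven (symmDiff S (star (O ∪ N) z)) z := by
          intro u hu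
          rw [← Nat.not_odd_iff_even, tdeg_symm]
          have h3 := hSe u hu
          rw [← Nat.not_odd_iff_even] at h3
          have h4 := hpar_star z u hu
          tauto
        have h3 := hac _ hS1 hS1e
        have hSeq : S = star (O ∪ N) z := by
          rw [← symmDiff_eq_bot]; exact h3
        have hOz : star O z = ∅ := by
          rw [Finset.eq_empty_iff_forall_notMem]
          intro t ht
          rw [mem_star] at ht
          have : t ∈ S := by rw [hSeq, mem_star]; exact ⟨mem_union_left _ ht.1, ht.2⟩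
          exact hOT' t ht.1 (mem_star.1 (hS this)).1
        have hNz' : star N z = ∅ := by
          by_contra hcn
          have := hNz z (nonempty_iff_ne_empty.2 hcn)
          rw [hOz] at this
          exact not_nonempty_empty this
        rw [hSeq]
        rw [Finset.eq_empty_iff_forall_notMem]
        intro t ht
        rw [mem_star, mem_union] at ht
        rcases ht with ⟨h5 | h5, h6⟩
        · have : t ∈ star O z := mem_star.2 ⟨h5, h6⟩
          rw [hOz] at this; exact notMem_empty _ this
        · have : t ∈ star N z := mem_star.2 ⟨h5, h6⟩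
          rw [hNz'] at this; exact notMem_empty _ this
      · apply hac S _ hSe
        intro t ht
        have h4 := (mem_star.1 (hS ht))
        rcases (hmem t).1 h4.1 with h3 | h3
        · exact mem_star.2 ⟨h3.1, h4.2⟩
        · exact absurd ht (Finset.disjoint_left.1 h2 (mem_star.2 ⟨h3, h4.2⟩))
    · rw [h1] at hS
      exact subset_empty.1 hS
  · intro C hC hCc
    obtain ⟨E, hE, h1, h2⟩ := hH1 C hC hCc
    have hcyc : IsCyc (symmDiff C (bdry E)) :=
      isCyc_symm hCc (isCyc_bdry (fun t ht => N3 t (hE ht)))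
    obtain ⟨D, hD, hDb⟩ := h.H1 _ h1 hcyc
    -- D₁
    have hD1 : ∃ D₁ ⊆ (T \ O) ∪ N, bdry D₁ = symmDiff C (bdry E) := by
      rcases h2 D hD hDb with h3 | h3
      · refine ⟨symmDiff D (O ∪ N), ?_, ?_⟩
        · intro t ht
          rw [mem_symmDiff] at ht
          rw [hmem]
          rcases ht with ⟨h4, h5⟩ | ⟨h4, h5⟩
          · exact Or.inl ⟨hD h4, fun h6 => h5 (mem_union_left _ h6)⟩
          · rcases mem_union.1 h4 with h6 | h6
            · exact absurd (h3 h6) h5
            · exact Or.inr h6
        · rw [bdry_symm, hbU, hDb]; exact symmDiff_bot _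
      · refine ⟨D, ?_, hDb⟩
        intro t ht
        rw [hmem]
        exact Or.inl ⟨hD ht, fun h6 => Finset.disjoint_left.1 h3 h6 ht⟩
    obtain ⟨D₁, hD₁, hD₁b⟩ := hD1
    refine ⟨symmDiff D₁ E, ?_, ?_⟩
    · intro t ht
      rw [mem_symmDiff] at ht
      rcases ht with ht | ht
      · exact hD₁ ht.1
      · exact mem_union_right _ (hE ht.1)
    · rw [bdry_symm, hD₁b, symmDiff_assoc, symmDiff_self]; exact symmDiff_bot _
  · intro D hD hDb
    rcases hNall' D hD hDb with h1 | h1
    · exfalso
      have h2 : symmDiff D (O ∪ N) ⊆ T := by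
        intro t ht
        rw [mem_symmDiff] at ht
        rcases ht with ⟨h4, h5⟩ | ⟨h4, h5⟩
        · rcases (hmem t).1 (hD h4) with h6 | h6
          · exact h6.1
          · exact absurd (mem_union_right _ h6) h5
        · rcases mem_union.1 h4 with h6 | h6
          · exact hO h6
          · exact absurd (h1 h6) h5
      have h3 : bdry (symmDiff D (O ∪ N)) = ∅ := by
        rw [bdry_symm, hbU, hDb]; exact symmDiff_bot _
      have h4 := h.H2 _ h2 h3
      have h5 : D = O ∪ N := by rw [← symmDiff_eq_bot]; exact h4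
      obtain ⟨t, ht⟩ := hOne
      apply hOT' t ht
      apply hD
      rw [h5]
      exact mem_union_left _ ht
    · apply h.H2 D _ hDb
      intro t ht
      rcases (hmem t).1 (hD ht) with h6 | h6
      · exact h6.1
      · exact absurd ht (Finset.disjoint_left.1 h1 h6)

theorem flip_ne3 {a b c : V} (h : ({a, b, c} : Finset V).card = 3) : a ≠ b ∧ a ≠ c ∧ b ≠ c := by
  refine ⟨?_, ?_, ?_⟩
  · rintro rfl
    rw [insert_eq_self.2 (mem_insert_self _ _)] at h
    have := card_le_two (a := a) (b := c)
    omega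
  · rintro rfl
    rw [insert_eq_self.2 (mem_insert_of_mem (mem_singleton_self _))] at h
    have := card_le_two (a := b) (b := a)
    omega
  · rintro rfl
    rw [pair_eq_singleton] at h
    have := card_le_two (a := a) (b := b)
    omega

theorem flip_six {a b c d : V} {e : Finset V} (he : e.card = 2) (hs : e ⊆ {a, b, c, d}) :
    e = {a, b} ∨ e = {a, c} ∨ e = {a, d} ∨ e = {b, c} ∨ e = {b, d} ∨ e = {c, d} := by
  obtain ⟨x, y, hxy, rfl⟩ := card_eq_two.1 he
  have hx : x ∈ ({a, b, c, d} : Finset V) := hs (mem_insert_self _ _)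
  have hy : y ∈ ({a, b, c, d} : Finset V) := hs (mem_insert_of_mem (mem_singleton_self _))
  simp only [mem_insert, mem_singleton] at hx hy
  rcases hx with rfl | rfl | rfl | rfl <;> rcases hy with rfl | rfl | rfl | rfl <;>
    first
    | exact absurd rfl hxy
    | simp [Finset.pair_comm]

/-- the degrees in `O` and `N` for a flip -/
theorem flip_tdeg_ON {v u w w' : V} (hvu : v ≠ u) (hvw : v ≠ w) (huw : u ≠ w) (hvw' : v ≠ w')
    (huw' : u ≠ w') (hww : w ≠ w') {e : Finset V} (he : e.card = 2) (h1 : e ≠ {v, u})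
    (h2 : e ≠ {w, w'}) :
    tdeg ({{v, u, w}, {v, u, w'}} : Finset (Finset V)) e =
      tdeg ({{v, w, w'}, {u, w, w'}} : Finset (Finset V)) e := by
  have hne1 : ({v, u, w} : Finset V) ≠ {v, u, w'} := by
    intro h
    have : w ∈ ({v, u, w'} : Finset V) := by rw [← h]; simp
    simp only [mem_insert, mem_singleton] at this
    rcases this with h3 | h3 | h3
    · exact hvw h3.symm
    · exact huw h3.symm
    · exact hww h3
  have hne2 : ({v, w, w'} : Finset V) ≠ {u, w, w'} := by
    intro h
    have : v ∈ ({u, w, w'} : Finset V) := by rw [← h]; simp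
    simp only [mem_insert, mem_singleton] at this
    rcases this with h3 | h3 | h3
    · exact hvu h3
    · exact hvw h3
    · exact hvw' h3
  rw [flip_tdeg_pair hne1, flip_tdeg_pair hne2]
  by_cases hK : e ⊆ {v, u, w, w'}
  · rcases flip_six he hK with rfl | rfl | rfl | rfl | rfl | rfl
    · exact absurd rfl h1
    · simp [insert_subset_iff, hvu, hvw, huw, hvw', huw', hww, hvu.symm, hvw.symm, huw.symm,
        hvw'.symm, huw'.symm, hww.symm]
    · simp [insert_subset_iff, hvu, hvw, huw, hvw', huw', hww, hvu.symm, hvw.symm, huw.symm,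
        hvw'.symm, huw'.symm, hww.symm]
    · simp [insert_subset_iff, hvu, hvw, huw, hvw', huw', hww, hvu.symm, hvw.symm, huw.symm,
        hvw'.symm, huw'.symm, hww.symm]
    · simp [insert_subset_iff, hvu, hvw, huw, hvw', huw', hww, hvu.symm, hvw.symm, huw.symm,
        hvw'.symm, huw'.symm, hww.symm]
    · exact absurd rfl h2
  · have a1 : ¬ e ⊆ {v, u, w} := fun h => hK (h.trans (by
      intro x; simp only [mem_insert, mem_singleton]; tauto))
    have a2 : ¬ e ⊆ {v, u, w'} := fun h => hK (h.trans (by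
      intro x; simp only [mem_insert, mem_singleton]; tauto))
    have a3 : ¬ e ⊆ {v, w, w'} := fun h => hK (h.trans (by
      intro x; simp only [mem_insert, mem_singleton]; tauto))
    have a4 : ¬ e ⊆ {u, w, w'} := fun h => hK (h.trans (by
      intro x; simp only [mem_insert, mem_singleton]; tauto))
    simp [a1, a2, a3, a4]

structure FlipData (T : Finset (Finset V)) (I : Finset V) (v u w w' : V) : Prop where
  hvu : v ≠ u
  hvw : v ≠ w
  huw : u ≠ w
  hvw' : v ≠ w'
  huw' : u ≠ w'
  hww : w ≠ w'
  hO : ({{v, u, w}, {v, u, w'}} : Finset (Finset V)) ⊆ T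
  hN : Disjoint ({{v, w, w'}, {u, w, w'}} : Finset (Finset V)) T
  hne1 : ({v, u, w} : Finset V) ≠ {v, u, w'}
  hne2 : ({v, w, w'} : Finset V) ≠ {u, w, w'}
  t0 : tdeg (flipT T v u w w') {v, u} = 0
  t2 : tdeg (flipT T v u w w') {w, w'} = 2
  t1 : ∀ e : Finset V, e.card = 2 → e ≠ {v, u} → e ≠ {w, w'} →
    tdeg (flipT T v u w w') e = tdeg T e
  only : ∀ t ∈ T, {v, u} ⊆ t → t = {v, u, w} ∨ t = {v, u, w'}
  none : ∀ t ∈ T, ¬ {w, w'} ⊆ t

theorem flipData {T : Finset (Finset V)} {I : Finset V} (h : Good T I) {v u w w' : V}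
    (h1 : ({v, u, w} : Finset V) ∈ T) (h2 : ({v, u, w'} : Finset V) ∈ T) (hww : w ≠ w')
    (hne : ({w, w'} : Finset V) ∉ edges T) : FlipData T I v u w w' := by
  obtain ⟨hvu, hvw, huw⟩ := flip_ne3 (h.card3 _ h1)
  obtain ⟨-, hvw', huw'⟩ := flip_ne3 (h.card3 _ h2)
  have hnone : ∀ t ∈ T, ¬ ({w, w'} : Finset V) ⊆ t := by
    intro t ht hs
    exact hne (mem_edges.2 ⟨card_pair hww, t, ht, hs⟩)
  have hO : ({{v, u, w}, {v, u, w'}} : Finset (Finset V)) ⊆ T := by
    intro t ht
    rw [mem_insert, mem_singleton] at ht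
    rcases ht with rfl | rfl
    · exact h1
    · exact h2
  have hN : Disjoint ({{v, w, w'}, {u, w, w'}} : Finset (Finset V)) T := by
    rw [Finset.disjoint_left]
    intro t ht htT
    rw [mem_insert, mem_singleton] at ht
    rcases ht with rfl | rfl
    · exact hnone _ htT (subset_insert _ _)
    · exact hnone _ htT (subset_insert _ _)
  have hne1 : ({v, u, w} : Finset V) ≠ {v, u, w'} := by
    intro h
    have : w ∈ ({v, u, w'} : Finset V) := by rw [← h]; simp
    simp only [mem_insert, mem_singleton] at this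
    rcases this with h3 | h3 | h3
    · exact hvw h3.symm
    · exact huw h3.symm
    · exact hww h3
  have hne2 : ({v, w, w'} : Finset V) ≠ {u, w, w'} := by
    intro h
    have : v ∈ ({u, w, w'} : Finset V) := by rw [← h]; simp
    simp only [mem_insert, mem_singleton] at this
    rcases this with h3 | h3 | h3
    · exact hvu h3
    · exact hvw h3
    · exact hvw' h3
  have hmove := fun e : Finset V => flip_tdeg_move (e := e) hO hN
  have tO : tdeg ({{v, u, w}, {v, u, w'}} : Finset (Finset V)) {v, u} = 2 := by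
    rw [flip_tdeg_pair hne1]
    simp [insert_subset_iff]
  have tO' : tdeg ({{v, u, w}, {v, u, w'}} : Finset (Finset V)) {w, w'} = 0 := by
    rw [flip_tdeg_pair hne1]
    simp [insert_subset_iff, hvu, hvw, huw, hvw', huw', hww, hvu.symm, hvw.symm, huw.symm,
        hvw'.symm, huw'.symm, hww.symm]
  have tN : tdeg ({{v, w, w'}, {u, w, w'}} : Finset (Finset V)) {v, u} = 0 := by
    rw [flip_tdeg_pair hne2]
    simp [insert_subset_iff, hvu, hvw, huw, hvw', huw', hww, hvu.symm, hvw.symm, huw.symm,
        hvw'.symm, huw'.symm, hww.symm]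
  have tN' : tdeg ({{v, w, w'}, {u, w, w'}} : Finset (Finset V)) {w, w'} = 2 := by
    rw [flip_tdeg_pair hne2]
    simp [insert_subset_iff]
  have tT : tdeg T {w, w'} = 0 := by
    unfold tdeg
    rw [card_eq_zero, filter_eq_empty_iff]
    exact fun t ht => hnone t ht
  have tT2 := h.le2 {v, u} (card_pair hvu)
  refine ⟨hvu, hvw, huw, hvw', huw', hww, hO, hN, hne1, hne2, ?_, ?_, ?_, ?_, hnone⟩
  · have := hmove {v, u}
    unfold flipT
    omega
  · have := hmove {w, w'}
    unfold flipT
    omega
  · intro e he h3 h4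
    have := hmove e
    have h5 := flip_tdeg_ON hvu hvw huw hvw' huw' hww he h3 h4
    unfold flipT
    omega
  · intro t ht hs
    have hsub : ({{v, u, w}, {v, u, w'}} : Finset (Finset V)) ⊆
        T.filter (fun t => ({v, u} : Finset V) ⊆ t) := by
      intro t ht
      rw [mem_filter]
      refine ⟨hO ht, ?_⟩
      rw [mem_insert, mem_singleton] at ht
      rcases ht with rfl | rfl <;> simp [insert_subset_iff]
    have hcard : (T.filter (fun t => ({v, u} : Finset V) ⊆ t)).card ≤
        ({{v, u, w}, {v, u, w'}} : Finset (Finset V)).card := by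
      rw [card_pair hne1]; exact tT2
    have heq := eq_of_subset_of_card_le hsub hcard
    have : t ∈ T.filter (fun t => ({v, u} : Finset V) ⊆ t) := mem_filter.2 ⟨ht, hs⟩
    rw [← heq, mem_insert, mem_singleton] at this
    exact this

theorem edges_flip {T : Finset (Finset V)} {I : Finset V} (h : Good T I) {v u w w' : V}
    (h1 : ({v, u, w} : Finset V) ∈ T) (h2 : ({v, u, w'} : Finset V) ∈ T) (hww : w ≠ w')
    (hne : ({w, w'} : Finset V) ∉ edges T) :
    edges (flipT T v u w w') = insert {w, w'} ((edges T).erase {v, u}) := by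
  have F := flipData h h1 h2 hww hne
  ext e
  rw [mem_insert, mem_erase]
  have hme : ∀ T' : Finset (Finset V), e ∈ edges T' ↔ e.card = 2 ∧ 0 < tdeg T' e := by
    intro T'; simp [edges]
  rw [hme, hme]
  constructor
  · rintro ⟨h3, h4⟩
    by_cases h5 : e = {w, w'}
    · exact Or.inl h5
    · right
      have h6 : e ≠ {v, u} := by
        rintro rfl
        rw [F.t0] at h4
        exact absurd h4 (lt_irrefl _)
      rw [F.t1 e h3 h6 h5] at h4
      exact ⟨h6, h3, h4⟩
  · rintro (rfl | ⟨h3, h4, h5⟩)
    · exact ⟨card_pair hww, by rw [F.t2]; norm_num⟩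
    · refine ⟨h4, ?_⟩
      have h6 : e ≠ {w, w'} := by
        rintro rfl
        apply hne
        rw [hme]; exact ⟨h4, h5⟩
      rw [F.t1 e h4 h3 h6]
      exact h5

theorem good_flip {T : Finset (Finset V)} {I : Finset V} (h : Good T I) {v u w w' : V}
    (h1 : ({v, u, w} : Finset V) ∈ T) (h2 : ({v, u, w'} : Finset V) ∈ T) (hww : w ≠ w')
    (hne : ({w, w'} : Finset V) ∉ edges T) : Good (flipT T v u w w') I := by
  have F := flipData h h1 h2 hww hne
  have hed := edges_flip h h1 h2 hww hne
  have t0 := F.t0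
  have t1 := F.t1
  have t2 := F.t2
  unfold flipT at t0 t1 t2 hed
  unfold flipT
  -- triangles of the new complex at `w w'`
  have hww_only : ∀ t ∈ (T \ {{v, u, w}, {v, u, w'}}) ∪ ({{v, w, w'}, {u, w, w'}} : Finset (Finset V)),
      {w, w'} ⊆ t → t ∈ ({{v, w, w'}, {u, w, w'}} : Finset (Finset V)) := by
    intro t ht hs
    rcases mem_union.1 ht with h3 | h3
    · exact absurd hs (F.none t (mem_sdiff.1 h3).1)
    · exact h3
  have hww_sub : ∀ t ∈ ({{v, w, w'}, {u, w, w'}} : Finset (Finset V)), {w, w'} ⊆ t := by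
    intro t ht
    rw [mem_insert, mem_singleton] at ht
    rcases ht with rfl | rfl <;> exact subset_insert _ _
  have hfilt : ∀ D ⊆ (T \ {{v, u, w}, {v, u, w'}}) ∪ ({{v, w, w'}, {u, w, w'}} : Finset (Finset V)),
      D.filter (fun t => {w, w'} ⊆ t) = D ∩ ({{v, w, w'}, {u, w, w'}} : Finset (Finset V)) := by
    intro D hD
    ext t
    rw [mem_filter, mem_inter]
    constructor
    · rintro ⟨h3, h4⟩
      exact ⟨h3, hww_only t (hD h3) h4⟩
    · rintro ⟨h3, h4⟩
      exact ⟨h3, hww_sub t h4⟩
  have hevenN : ∀ D ⊆ (T \ {{v, u, w}, {v, u, w'}}) ∪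
      ({{v, w, w'}, {u, w, w'}} : Finset (Finset V)), Even (tdeg D {w, w'}) →
      ({{v, w, w'}, {u, w, w'}} : Finset (Finset V)) ⊆ D ∨
        Disjoint ({{v, w, w'}, {u, w, w'}} : Finset (Finset V)) D := by
    intro D hD hev
    apply flip_sub_or F.hne2 rfl
    unfold tdeg at hev
    rwa [hfilt D hD] at hev
  have hmem3 : ∀ {a b c x : V}, x ∈ ({a, b, c} : Finset V) ↔ x = a ∨ x = b ∨ x = c := by
    intro a b c x
    simp only [mem_insert, mem_singleton]
  apply flip_good_move h F.hO F.hN ⟨_, mem_insert_self _ _⟩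
  · intro t ht
    rw [mem_insert, mem_singleton] at ht
    rcases ht with rfl | rfl
    · exact card_eq_three.2 ⟨_, _, _, F.hvw, F.hvw', F.hww, rfl⟩
    · exact card_eq_three.2 ⟨_, _, _, F.huw, F.huw', F.hww, rfl⟩
  · intro e he
    by_cases h3 : e = {v, u}
    · subst h3
      have a1 : tdeg ({{v, u, w}, {v, u, w'}} : Finset (Finset V)) {v, u} = 2 := by
        rw [flip_tdeg_pair F.hne1]
        simp [insert_subset_iff]
      have a2 : tdeg ({{v, w, w'}, {u, w, w'}} : Finset (Finset V)) {v, u} = 0 := by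
        rw [flip_tdeg_pair F.hne2]
        simp [insert_subset_iff, F.hvu, F.hvw, F.huw, F.hvw', F.huw', F.hvu.symm]
      rw [a1, a2]
      decide
    · by_cases h4 : e = {w, w'}
      · subst h4
        have a1 : tdeg ({{v, u, w}, {v, u, w'}} : Finset (Finset V)) {w, w'} = 0 := by
          rw [flip_tdeg_pair F.hne1]
          simp [insert_subset_iff, F.hvw.symm, F.huw.symm, F.hvw'.symm, F.huw'.symm, F.hww,
            F.hww.symm]
        have a2 : tdeg ({{v, w, w'}, {u, w, w'}} : Finset (Finset V)) {w, w'} = 2 := by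
          rw [flip_tdeg_pair F.hne2]
          simp [insert_subset_iff]
        rw [a1, a2]
        decide
      · rw [flip_tdeg_ON F.hvu F.hvw F.huw F.hvw' F.huw' F.hww he h3 h4]
  · intro e he
    by_cases h3 : e = {v, u}
    · subst h3; rw [t0]; norm_num
    · by_cases h4 : e = {w, w'}
      · subst h4; rw [t2]
      · rw [t1 e he h3 h4]; exact h.le2 e he
  · intro z hz e he hze
    rw [hed, mem_insert, mem_erase] at he
    rcases he with rfl | ⟨h3, h4⟩
    · exact t2
    · have h5 : e ≠ {w, w'} := by rintro rfl; exact hne h4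
      rw [t1 e (mem_edges.1 h4).1 h3 h5]
      exact h.int2 z hz e h4 hze
  · intro z hz
    obtain ⟨t, ht⟩ := h.ne z hz
    rw [mem_star] at ht
    by_cases h3 : t ∈ ({{v, u, w}, {v, u, w'}} : Finset (Finset V))
    · have : z = v ∨ z = u ∨ z = w ∨ z = w' := by
        rw [mem_insert, mem_singleton] at h3
        rcases h3 with rfl | rfl
        · rcases hmem3.1 ht.2 with h4 | h4 | h4 <;> tauto
        · rcases hmem3.1 ht.2 with h4 | h4 | h4 <;> tauto
      rcases this with h4 | h4
      · refine ⟨{v, w, w'}, mem_star.2 ⟨mem_union_right _ (mem_insert_self _ _), ?_⟩⟩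
        rw [h4]; simp
      · refine ⟨{u, w, w'}, mem_star.2 ⟨mem_union_right _ (mem_insert_of_mem
          (mem_singleton_self _)), ?_⟩⟩
        rw [hmem3]; exact h4
    · exact ⟨t, mem_star.2 ⟨mem_union_left _ (mem_sdiff.2 ⟨ht.1, h3⟩), ht.2⟩⟩
  · exact fun z hz => hz
  · intro z hz
    obtain ⟨t, ht⟩ := hz
    rw [mem_star, mem_insert, mem_singleton] at ht
    obtain ⟨ht, hzt⟩ := ht
    have : z = v ∨ z = u ∨ z = w ∨ z = w' := by
      rcases ht with rfl | rfl
      · rcases hmem3.1 hzt with h4 | h4 | h4 <;> tauto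
      · rcases hmem3.1 hzt with h4 | h4 | h4 <;> tauto
    rcases this with h4 | h4 | h4 | h4
    · exact ⟨{v, u, w}, mem_star.2 ⟨mem_insert_self _ _, by rw [hmem3]; tauto⟩⟩
    · exact ⟨{v, u, w}, mem_star.2 ⟨mem_insert_self _ _, by rw [hmem3]; tauto⟩⟩
    · exact ⟨{v, u, w}, mem_star.2 ⟨mem_insert_self _ _, by rw [hmem3]; tauto⟩⟩
    · exact ⟨{v, u, w'}, mem_star.2 ⟨mem_insert_of_mem (mem_singleton_self _), by
        rw [hmem3]; tauto⟩⟩
  · exact fun z hz => Or.inl hz
  · intro z S hS hSe
    have hS' : S ⊆ (T \ {{v, u, w}, {v, u, w'}}) ∪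
        ({{v, w, w'}, {u, w, w'}} : Finset (Finset V)) := fun t ht => (mem_star.1 (hS ht)).1
    have hcase : Even (tdeg S {w, w'}) → star ({{v, w, w'}, {u, w, w'}} : Finset (Finset V)) z ⊆ S ∨
        Disjoint (star ({{v, w, w'}, {u, w, w'}} : Finset (Finset V)) z) S := by
      intro hev
      rcases hevenN S hS' hev with h3 | h3
      · exact Or.inl (fun t ht => h3 (mem_star.1 ht).1)
      · exact Or.inr (disjoint_of_subset_left (fun t ht => (mem_star.1 ht).1) h3)
    have hsmall : ∀ t₀ : Finset V, (∀ t ∈ star ({{v, w, w'}, {u, w, w'}} : Finset (Finset V)) z,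
        t = t₀) → star ({{v, w, w'}, {u, w, w'}} : Finset (Finset V)) z ⊆ S ∨
        Disjoint (star ({{v, w, w'}, {u, w, w'}} : Finset (Finset V)) z) S := by
      intro t₀ ht₀
      by_cases h5 : t₀ ∈ S
      · left
        intro t ht
        rw [ht₀ t ht]; exact h5
      · right
        rw [Finset.disjoint_left]
        intro t ht
        rw [ht₀ t ht]; exact h5
    by_cases hzw : z = w
    · apply hcase
      have := hSe w' (by rw [hzw]; exact hww.symm)
      rwa [hzw] at this
    · by_cases hzw' : z = w'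
      · apply hcase
        have := hSe w (by rw [hzw']; exact hww)
        rwa [hzw', Finset.pair_comm] at this
      · by_cases hzv : z = v
        · apply hsmall {v, w, w'}
          intro t ht
          rw [mem_star, mem_insert, mem_singleton] at ht
          obtain ⟨rfl | rfl, h6⟩ := ht
          · rfl
          · exfalso
            rw [hmem3] at h6
            rcases h6 with h6 | h6 | h6
            · exact F.hvu (hzv ▸ h6)
            · exact hzw h6
            · exact hzw' h6
        · apply hsmall {u, w, w'}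
          intro t ht
          rw [mem_star, mem_insert, mem_singleton] at ht
          obtain ⟨rfl | rfl, h6⟩ := ht
          · exfalso
            rw [hmem3] at h6
            rcases h6 with h6 | h6 | h6
            · exact hzv h6
            · exact hzw h6
            · exact hzw' h6
          · rfl
  · intro D hD hDb
    apply hevenN D hD
    rw [← Nat.not_odd_iff_even]
    intro hodd
    have : ({w, w'} : Finset V) ∈ bdry D := mem_bdry.2 ⟨card_pair hww, hodd⟩
    rw [hDb] at this
    exact notMem_empty _ this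
  · intro C hC hCc
    -- the choice of `E`
    have hE : ∃ E ⊆ ({{v, w, w'}, {u, w, w'}} : Finset (Finset V)),
        ({w, w'} : Finset V) ∉ symmDiff C (bdry E) ∧
        symmDiff C (bdry E) ⊆ edges ((T \ {{v, u, w}, {v, u, w'}}) ∪
          ({{v, w, w'}, {u, w, w'}} : Finset (Finset V))) := by
      by_cases h3 : ({w, w'} : Finset V) ∈ C
      · refine ⟨{{v, w, w'}}, ?_, ?_, ?_⟩
        · intro t ht
          rw [mem_singleton] at ht
          rw [ht]; exact mem_insert_self _ _
        · rw [mem_symmDiff]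
          have : ({w, w'} : Finset V) ∈ bdry {{v, w, w'}} := by
            rw [mem_bdry_single (card_eq_three.2 ⟨_, _, _, F.hvw, F.hvw', F.hww, rfl⟩)]
            exact ⟨card_pair hww, subset_insert _ _⟩
          tauto
        · intro e he
          rw [mem_symmDiff] at he
          rcases he with he | he
          · exact hC he.1
          · apply bdry_subset_edges _ he.1
            intro t ht
            rw [mem_singleton] at ht
            rw [ht]; exact mem_union_right _ (mem_insert_self _ _)
      · refine ⟨∅, empty_subset _, ?_, ?_⟩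
        · rw [bdry_empty]
          rw [mem_symmDiff]
          simp [h3]
        · rw [bdry_empty]
          intro e he
          rw [mem_symmDiff] at he
          rcases he with he | he
          · exact hC he.1
          · exact absurd he.1 (notMem_empty _)
    obtain ⟨E, hEN, hE1, hE2⟩ := hE
    have hE3 : ∀ e ∈ symmDiff C (bdry E), e ∈ edges T ∧ e ≠ {v, u} := by
      intro e he
      have h4 := hE2 he
      rw [hed, mem_insert, mem_erase] at h4
      rcases h4 with h4 | h4
      · rw [h4] at he; exact absurd he hE1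
      · exact ⟨h4.2, h4.1⟩
    refine ⟨E, hEN, fun e he => (hE3 e he).1, ?_⟩
    intro D hD hDb
    apply flip_sub_or F.hne1 rfl
    have h5 : D.filter (fun t => {v, u} ⊆ t) = D ∩ ({{v, u, w}, {v, u, w'}} : Finset (Finset V)) := by
      ext t
      rw [mem_filter, mem_inter]
      constructor
      · rintro ⟨h6, h7⟩
        refine ⟨h6, ?_⟩
        rw [mem_insert, mem_singleton]
        exact F.only t (hD h6) h7
      · rintro ⟨h6, h7⟩
        refine ⟨h6, ?_⟩
        rw [mem_insert, mem_singleton] at h7
        rcases h7 with rfl | rfl <;> simp [insert_subset_iff]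
    rw [← h5]
    change Even (tdeg D {v, u})
    rw [← Nat.not_odd_iff_even]
    intro hodd
    have h6 : ({v, u} : Finset V) ∈ bdry D := mem_bdry.2 ⟨card_pair F.hvu, hodd⟩
    rw [hDb] at h6
    exact (hE3 _ h6).2 rfl

theorem flip_tdeg_ON3 {v a b c : V} (hva : v ≠ a) (hvb : v ≠ b) (hvc : v ≠ c)
    (hab : a ≠ b) (hbc : b ≠ c) (hac : a ≠ c) {e : Finset V} (he : e.card = 2) :
    (v ∉ e → tdeg ({{v, a, b}, {v, b, c}, {v, a, c}} : Finset (Finset V)) e =
      tdeg ({{a, b, c}} : Finset (Finset V)) e) ∧
    (Odd (tdeg ({{v, a, b}, {v, b, c}, {v, a, c}} : Finset (Finset V)) e) ↔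
      Odd (tdeg ({{a, b, c}} : Finset (Finset V)) e)) := by
  have n1 : ({v, a, b} : Finset V) ≠ {v, b, c} := by
    intro h
    have : a ∈ ({v, b, c} : Finset V) := by rw [← h]; simp
    simp only [mem_insert, mem_singleton] at this
    rcases this with h3 | h3 | h3
    · exact hva h3.symm
    · exact hab h3
    · exact hac h3
  have n2 : ({v, a, b} : Finset V) ≠ {v, a, c} := by
    intro h
    have : b ∈ ({v, a, c} : Finset V) := by rw [← h]; simp
    simp only [mem_insert, mem_singleton] at this
    rcases this with h3 | h3 | h3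
    · exact hvb h3.symm
    · exact hab h3.symm
    · exact hbc h3
  have n3 : ({v, b, c} : Finset V) ≠ {v, a, c} := by
    intro h
    have : b ∈ ({v, a, c} : Finset V) := by rw [← h]; simp
    simp only [mem_insert, mem_singleton] at this
    rcases this with h3 | h3 | h3
    · exact hvb h3.symm
    · exact hab h3.symm
    · exact hbc h3
  rw [flip_tdeg_triple n1 n2 n3, flip_tdeg_single]
  by_cases hK : e ⊆ {v, a, b, c}
  · rcases flip_six he hK with rfl | rfl | rfl | rfl | rfl | rfl <;>
    · simp [insert_subset_iff, hva, hvb, hvc, hab, hbc, hac, hva.symm, hvb.symm, hvc.symm,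
        hab.symm, hbc.symm, hac.symm]
  · have a1 : ¬ e ⊆ {v, a, b} := fun h => hK (h.trans (by
      intro x; simp only [mem_insert, mem_singleton]; tauto))
    have a2 : ¬ e ⊆ {v, b, c} := fun h => hK (h.trans (by
      intro x; simp only [mem_insert, mem_singleton]; tauto))
    have a3 : ¬ e ⊆ {v, a, c} := fun h => hK (h.trans (by
      intro x; simp only [mem_insert, mem_singleton]; tauto))
    have a4 : ¬ e ⊆ {a, b, c} := fun h => hK (h.trans (by
      intro x; simp only [mem_insert, mem_singleton]; tauto))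
    simp [a1, a2, a3, a4]

structure Del3Data (T : Finset (Finset V)) (v a b c : V) : Prop where
  hva : v ≠ a
  hvb : v ≠ b
  hvc : v ≠ c
  hN : Disjoint ({{a, b, c}} : Finset (Finset V)) T
  t0 : ∀ e : Finset V, v ∈ e → tdeg ((T \ star T v) ∪ {{a, b, c}}) e = 0
  t1 : ∀ e : Finset V, e.card = 2 → v ∉ e → tdeg ((T \ star T v) ∪ {{a, b, c}}) e = tdeg T e

theorem del3Data {T : Finset (Finset V)} {I : Finset V} (h : Good T I) {v a b c : V}
    (hst : star T v = {{v, a, b}, {v, b, c}, {v, a, c}}) (hab : a ≠ b) (hbc : b ≠ c)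
    (hac : a ≠ c) : Del3Data T v a b c := by
  have m1 : ({v, a, b} : Finset V) ∈ star T v := by rw [hst]; simp
  have m2 : ({v, b, c} : Finset V) ∈ star T v := by rw [hst]; simp
  obtain ⟨hva, hvb, -⟩ := flip_ne3 (h.card3 _ (mem_star.1 m1).1)
  obtain ⟨-, hvc, -⟩ := flip_ne3 (h.card3 _ (mem_star.1 m2).1)
  have hstT : star T v ⊆ T := fun t ht => (mem_star.1 ht).1
  have hvabc : v ∉ ({a, b, c} : Finset V) := by
    simp only [mem_insert, mem_singleton]
    rintro (h3 | h3 | h3)
    · exact hva h3
    · exact hvb h3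
    · exact hvc h3
  have hdis : Disjoint (star T v) ({{a, b, c}} : Finset (Finset V)) := by
    rw [Finset.disjoint_left]
    intro t ht ht'
    rw [mem_singleton] at ht'
    rw [ht'] at ht
    exact hvabc (mem_star.1 ht).2
  have hN : Disjoint ({{a, b, c}} : Finset (Finset V)) T := by
    rw [Finset.disjoint_left]
    intro t ht htT
    rw [mem_singleton] at ht
    subst ht
    have h3 : star T v ∪ {{a, b, c}} ⊆ T := by
      intro t ht
      rcases mem_union.1 ht with h4 | h4
      · exact hstT h4
      · rw [mem_singleton] at h4; rw [h4]; exact htT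
    have h4 : bdry (star T v ∪ {{a, b, c}}) = ∅ := by
      ext e
      rw [mem_bdry]
      simp only [notMem_empty, iff_false, not_and]
      intro he
      rw [flip_tdeg_union hdis, Nat.odd_add]
      have h5 := (flip_tdeg_ON3 hva hvb hvc hab hbc hac he).2
      rw [← hst] at h5
      rw [← Nat.not_odd_iff_even]
      tauto
    have h5 := h.H2 _ h3 h4
    have h6 : ({a, b, c} : Finset V) ∈ star T v ∪ {{a, b, c}} :=
      mem_union_right _ (mem_singleton_self _)
    rw [h5] at h6
    exact notMem_empty _ h6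
  refine ⟨hva, hvb, hvc, hN, ?_, ?_⟩
  · intro e hve
    unfold tdeg
    rw [card_eq_zero, filter_eq_empty_iff]
    intro t ht hs
    rcases mem_union.1 ht with h3 | h3
    · rw [mem_sdiff] at h3
      exact h3.2 (mem_star.2 ⟨h3.1, hs hve⟩)
    · rw [mem_singleton] at h3
      rw [h3] at hs
      exact hvabc (hs hve)
  · intro e he hve
    have h3 := flip_tdeg_move hstT hN e
    have h4 := (flip_tdeg_ON3 hva hvb hvc hab hbc hac he).1 hve
    rw [← hst] at h4
    omega

theorem edges_del3 {T : Finset (Finset V)} {I : Finset V} (h : Good T I) {v a b c : V} (hv : v ∈ I)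
    (hst : star T v = {{v, a, b}, {v, b, c}, {v, a, c}}) (hab : a ≠ b) (hbc : b ≠ c) (hac : a ≠ c) :
    edges ((T \ star T v) ∪ {{a, b, c}}) = (edges T).filter (fun e => v ∉ e) := by
  have _ := hv
  have F := del3Data h hst hab hbc hac
  ext e
  rw [mem_filter]
  have hme : ∀ T' : Finset (Finset V), e ∈ edges T' ↔ e.card = 2 ∧ 0 < tdeg T' e := by
    intro T'; simp [edges]
  rw [hme, hme]
  constructor
  · rintro ⟨h3, h4⟩
    have h5 : v ∉ e := by
      intro h6
      rw [F.t0 e h6] at h4
      exact absurd h4 (lt_irrefl _)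
    rw [F.t1 e h3 h5] at h4
    exact ⟨⟨h3, h4⟩, h5⟩
  · rintro ⟨⟨h3, h4⟩, h5⟩
    refine ⟨h3, ?_⟩
    rw [F.t1 e h3 h5]; exact h4

theorem good_del3 {T : Finset (Finset V)} {I : Finset V} (h : Good T I) {v a b c : V} (hv : v ∈ I)
    (hst : star T v = {{v, a, b}, {v, b, c}, {v, a, c}}) (hab : a ≠ b) (hbc : b ≠ c) (hac : a ≠ c) :
    Good ((T \ star T v) ∪ {{a, b, c}}) (I.erase v) := by
  have F := del3Data h hst hab hbc hac
  have hed := edges_del3 h hv hst hab hbc hac
  have hstT : star T v ⊆ T := fun t ht => (mem_star.1 ht).1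
  have hmem3 : ∀ {a b c x : V}, x ∈ ({a, b, c} : Finset V) ↔ x = a ∨ x = b ∨ x = c := by
    intro a b c x
    simp only [mem_insert, mem_singleton]
  have hvabc : v ∉ ({a, b, c} : Finset V) := by
    rw [hmem3]
    rintro (h3 | h3 | h3)
    · exact F.hva h3
    · exact F.hvb h3
    · exact F.hvc h3
  have hsmall : ∀ (A S : Finset (Finset V)) (t₀ : Finset V), (∀ t ∈ A, t = t₀) →
      A ⊆ S ∨ Disjoint A S := by
    intro A S t₀ ht₀
    by_cases h5 : t₀ ∈ S
    · left
      intro t ht
      rw [ht₀ t ht]; exact h5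
    · right
      rw [Finset.disjoint_left]
      intro t ht
      rw [ht₀ t ht]; exact h5
  apply flip_good_move h hstT F.hN
  · rw [hst]; exact ⟨_, mem_insert_self _ _⟩
  · intro t ht
    rw [mem_singleton] at ht
    rw [ht]
    exact card_eq_three.2 ⟨_, _, _, hab, hac, hbc, rfl⟩
  · intro e he
    rw [hst]
    exact (flip_tdeg_ON3 F.hva F.hvb F.hvc hab hbc hac he).2
  · intro e he
    by_cases h3 : v ∈ e
    · rw [F.t0 e h3]; norm_num
    · rw [F.t1 e he h3]; exact h.le2 e he
  · intro z hz e he hze
    rw [hed, mem_filter] at he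
    rw [F.t1 e (mem_edges.1 he.1).1 he.2]
    exact h.int2 z (mem_of_mem_erase hz) e he.1 hze
  · intro z hz
    obtain ⟨t, ht⟩ := h.ne z (mem_of_mem_erase hz)
    rw [mem_star] at ht
    by_cases h3 : v ∈ t
    · have h4 : t ∈ star T v := mem_star.2 ⟨ht.1, h3⟩
      rw [hst] at h4
      simp only [mem_insert, mem_singleton] at h4
      have hzv : z ≠ v := ne_of_mem_erase hz
      have h5 : z ∈ ({a, b, c} : Finset V) := by
        rw [hmem3]
        rcases h4 with rfl | rfl | rfl
        · rcases hmem3.1 ht.2 with h6 | h6 | h6 <;> tauto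
        · rcases hmem3.1 ht.2 with h6 | h6 | h6 <;> tauto
        · rcases hmem3.1 ht.2 with h6 | h6 | h6 <;> tauto
      exact ⟨{a, b, c}, mem_star.2 ⟨mem_union_right _ (mem_singleton_self _), h5⟩⟩
    · exact ⟨t, mem_star.2 ⟨mem_union_left _ (mem_sdiff.2 ⟨ht.1, fun h4 =>
        h3 (mem_star.1 h4).2⟩), ht.2⟩⟩
  · exact fun z hz => mem_of_mem_erase hz
  · intro z hz
    obtain ⟨t, ht⟩ := hz
    rw [mem_star, mem_singleton] at ht
    obtain ⟨rfl, hzt⟩ := ht
    rw [hmem3] at hzt
    rw [hst]
    rcases hzt with h4 | h4 | h4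
    · exact ⟨{v, a, b}, mem_star.2 ⟨by simp, by rw [hmem3]; tauto⟩⟩
    · exact ⟨{v, a, b}, mem_star.2 ⟨by simp, by rw [hmem3]; tauto⟩⟩
    · exact ⟨{v, b, c}, mem_star.2 ⟨by simp, by rw [hmem3]; tauto⟩⟩
  · intro z hz
    by_cases h3 : z = v
    · right
      rw [h3, Finset.eq_empty_iff_forall_notMem]
      intro t ht
      rw [mem_star] at ht
      rcases mem_union.1 ht.1 with h4 | h4
      · rw [mem_sdiff] at h4
        exact h4.2 (mem_star.2 ⟨h4.1, ht.2⟩)
      · rw [mem_singleton] at h4
        rw [h4] at ht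
        exact hvabc ht.2
    · left
      intro h4
      exact hz (mem_erase.2 ⟨h3, h4⟩)
  · intro z S _ _
    apply hsmall _ _ {a, b, c}
    intro t ht
    exact mem_singleton.1 (mem_star.1 ht).1
  · intro D _ _
    apply hsmall _ _ {a, b, c}
    intro t ht
    exact mem_singleton.1 ht
  · intro C hC _
    refine ⟨∅, empty_subset _, ?_, ?_⟩
    · rw [bdry_empty]
      intro e he
      rw [mem_symmDiff] at he
      rcases he with he | he
      · have h4 := hC he.1
        rw [hed, mem_filter] at h4
        exact h4.1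
      · exact absurd he.1 (notMem_empty _)
    · intro D hD hDb
      have hCD : bdry D = C := by
        rw [hDb, bdry_empty]; exact symmDiff_bot C
      by_cases h3 : (star D v).Nonempty
      · left
        apply (inside h hD _ h3).2
        intro e he
        rw [hCD] at he
        have h4 := hC he
        rw [hed, mem_filter] at h4
        exact h4.2
      · right
        rw [Finset.disjoint_left]
        intro t ht htD
        exact h3 ⟨t, mem_star.2 ⟨htD, (mem_star.1 ht).2⟩⟩

end Pool.Agent.Spl1
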