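import Pool.Agent.Spl1.Defs

/-!
# Mod 2 chains

Paper proof.  `tdeg (D₁ ∆ D₂) e ≡ tdeg D₁ e + tdeg D₂ e (mod 2)` (`card` of a symmetric difference),
so `bdry` is additive (`bdry_symm`).  A triangle `t ∋ v` contains exactly two pairs `{v, u}`, hence
`vdeg (bdry D) v ≡ ∑_{e ∋ v} tdeg D e = 2 |star D v|` is even (`isCyc_bdry`).
`isCyc_symm`: the same for `vdeg`.  `bdry_inj`: `bdry (D₁ ∆ D₂) = ∅` and `H2`.
`three_le_card_of_isCyc`: take `{a,b} ∈ C`; the degree of `a` is even so there is `{a,c} ∈ C`,
`c ≠ b`, and the same at `b`: `{b,d} ∈ C`, `d ≠ a`; these are three different edges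
(`{a,c} ≠ {b,d}` since `a ∉ {b,d}`).
`inside`: `star D w ⊆ star T w` is `LinkEven` at `w` because `{w,u} ∉ bdry D`, so `tdeg D {w,u}` is even
and the triangles of `D` containing `{w,u}` are those of `star D w`.  By `acyc`: `w ∈ I`,
by `conn`: `star D w = star T w`.
`star_card`: double counting of the pairs `(u,t)` with `{v,u} ⊆ t ∈ T`: every `u ∈ nb (edges T) v` is in
two (`int2`), every `t ∈ star T v` has two.
`link_two`: `tdeg T {v,u} = 2`, so there are exactly two triangles `{v,u,w}`, `{v,u,w'}`.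
-/

set_option autoImplicit false

namespace Pool.Agent.Spl1

open Finset

variable {V : Type*} [Fintype V] [DecidableEq V]

omit [Fintype V] in
theorem odd_card_symmDiff {α : Type*} [DecidableEq α] (A B : Finset α) :
    Odd (symmDiff A B).card ↔ ¬ (Odd A.card ↔ Odd B.card) := by
  have h1 : (symmDiff A B).card = (A \ B).card + (B \ A).card := by
    have h2 : symmDiff A B = (A \ B) ∪ (B \ A) := rfl
    rw [h2, Finset.card_union_of_disjoint]
    exact disjoint_sdiff_sdiff
  have h2 := Finset.card_sdiff_add_card_inter A B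
  have h3 := Finset.card_sdiff_add_card_inter B A
  rw [Finset.inter_comm] at h3
  rw [Nat.odd_iff, Nat.odd_iff, Nat.odd_iff]
  omega

theorem filter_symmDiff' {α : Type*} [DecidableEq α] (A B : Finset α) (p : α → Prop)
    [DecidablePred p] : (symmDiff A B).filter p = symmDiff (A.filter p) (B.filter p) := by
  ext x
  simp only [Finset.mem_filter, Finset.mem_symmDiff]
  tauto

theorem tdeg_symm (D₁ D₂ : Finset (Finset V)) (e : Finset V) :
    Odd (tdeg (symmDiff D₁ D₂) e) ↔ ¬ (Odd (tdeg D₁ e) ↔ Odd (tdeg D₂ e)) := by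
  unfold tdeg
  rw [filter_symmDiff', odd_card_symmDiff]

theorem vdeg_symm (C₁ C₂ : Finset (Finset V)) (v : V) :
    Odd (vdeg (symmDiff C₁ C₂) v) ↔ ¬ (Odd (vdeg C₁ v) ↔ Odd (vdeg C₂ v)) := by
  unfold vdeg
  rw [filter_symmDiff', odd_card_symmDiff]

theorem bdry_symm (D₁ D₂ : Finset (Finset V)) :
    bdry (symmDiff D₁ D₂) = symmDiff (bdry D₁) (bdry D₂) := by
  ext e
  rw [Finset.mem_symmDiff, mem_bdry, mem_bdry, mem_bdry, tdeg_symm]
  tauto

theorem bdry_empty : bdry (∅ : Finset (Finset V)) = ∅ := by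
  ext e
  rw [mem_bdry]
  unfold tdeg
  simp

theorem isCyc_symm {C₁ C₂ : Finset (Finset V)} (h₁ : IsCyc C₁) (h₂ : IsCyc C₂) :
    IsCyc (symmDiff C₁ C₂) := by
  constructor
  · intro e he
    rw [Finset.mem_symmDiff] at he
    rcases he with he | he
    · exact h₁.1 e he.1
    · exact h₂.1 e he.1
  · intro v
    rw [← Nat.not_odd_iff_even, vdeg_symm, not_not]
    have a1 := Nat.not_odd_iff_even.2 (h₁.2 v)
    have a2 := Nat.not_odd_iff_even.2 (h₂.2 v)
    tauto

theorem isCyc_empty : IsCyc (∅ : Finset (Finset V)) := by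
  constructor
  · intro e he
    simp at he
  · intro v
    unfold vdeg
    simp

/-- the boundary of one triangle -/
theorem mem_bdry_single {t e : Finset V} (ht : t.card = 3) :
    e ∈ bdry {t} ↔ e.card = 2 ∧ e ⊆ t := by
  rw [mem_bdry]
  unfold tdeg
  rw [Finset.filter_singleton]
  by_cases h : e ⊆ t
  · simp [h]
  · simp [h]

/-- `{x,y}, {y,z}, {x,z}` is a cycle -/
theorem isCyc_triangle {x y z : V} (hxy : x ≠ y) (hyz : y ≠ z) (hxz : x ≠ z) :
    IsCyc ({{x, y}, {y, z}, {x, z}} : Finset (Finset V)) := by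
  constructor
  · intro e he
    simp only [Finset.mem_insert, Finset.mem_singleton] at he
    rcases he with rfl | rfl | rfl
    · exact Finset.card_pair hxy
    · exact Finset.card_pair hyz
    · exact Finset.card_pair hxz
  · intro v
    have e1 : ({x, y} : Finset V) ≠ {y, z} := by
      intro h
      have h1 : x ∈ ({y, z} : Finset V) := h ▸ Finset.mem_insert_self x {y}
      simp only [Finset.mem_insert, Finset.mem_singleton] at h1
      rcases h1 with h1 | h1
      · exact hxy h1
      · exact hxz h1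
    have e2 : ({x, y} : Finset V) ≠ {x, z} := by
      intro h
      have h1 : y ∈ ({x, z} : Finset V) := by
        rw [← h]
        simp
      simp only [Finset.mem_insert, Finset.mem_singleton] at h1
      rcases h1 with h1 | h1
      · exact hxy h1.symm
      · exact hyz h1
    have e3 : ({y, z} : Finset V) ≠ {x, z} := by
      intro h
      have h1 : y ∈ ({x, z} : Finset V) := by
        rw [← h]
        simp
      simp only [Finset.mem_insert, Finset.mem_singleton] at h1
      rcases h1 with h1 | h1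
      · exact hxy h1.symm
      · exact hyz h1
    have h0 : vdeg ({{x, y}, {y, z}, {x, z}} : Finset (Finset V)) v =
        (if v ∈ ({x, y} : Finset V) then 1 else 0) + ((if v ∈ ({y, z} : Finset V) then 1 else 0) +
          (if v ∈ ({x, z} : Finset V) then 1 else 0)) := by
      unfold vdeg
      rw [Finset.card_filter, Finset.sum_insert (by
        simp only [Finset.mem_insert, Finset.mem_singleton, not_or]
        exact ⟨e1, e2⟩), Finset.sum_insert (by
        simp only [Finset.mem_singleton]
        exact e3), Finset.sum_singleton]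
    rw [h0]
    simp only [Finset.mem_insert, Finset.mem_singleton]
    by_cases h1 : v = x
    · subst h1
      simp [hxy, hxz]
    · by_cases h2 : v = y
      · subst h2
        simp [hyz, h1]
      · by_cases h3 : v = z
        · subst h3
          simp [h1, h2]
        · simp [h1, h2, h3]

theorem bdry_single {x y z : V} (hxy : x ≠ y) (hyz : y ≠ z) (hxz : x ≠ z) :
    bdry ({{x, y, z}} : Finset (Finset V)) = {{x, y}, {y, z}, {x, z}} := by
  have ht : ({x, y, z} : Finset V).card = 3 := by
    rw [Finset.card_eq_three]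
    exact ⟨x, y, z, hxy, hxz, hyz, rfl⟩
  ext e
  rw [mem_bdry_single ht]
  simp only [Finset.mem_insert, Finset.mem_singleton]
  constructor
  · rintro ⟨h1, h2⟩
    obtain ⟨a, b, hab, rfl⟩ := Finset.card_eq_two.1 h1
    have ha : a ∈ ({x, y, z} : Finset V) := h2 (by simp)
    have hb : b ∈ ({x, y, z} : Finset V) := h2 (by simp)
    simp only [Finset.mem_insert, Finset.mem_singleton] at ha hb
    rcases ha with rfl | rfl | rfl <;> rcases hb with rfl | rfl | rfl
    · exact absurd rfl hab
    · exact Or.inl rfl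
    · exact Or.inr (Or.inr rfl)
    · exact Or.inl (Finset.pair_comm _ _)
    · exact absurd rfl hab
    · exact Or.inr (Or.inl rfl)
    · exact Or.inr (Or.inr (Finset.pair_comm _ _))
    · exact Or.inr (Or.inl (Finset.pair_comm _ _))
    · exact absurd rfl hab
  · rintro (rfl | rfl | rfl)
    · refine ⟨Finset.card_pair hxy, ?_⟩
      intro a ha
      simp only [Finset.mem_insert, Finset.mem_singleton] at ha ⊢
      tauto
    · refine ⟨Finset.card_pair hyz, ?_⟩
      intro a ha
      simp only [Finset.mem_insert, Finset.mem_singleton] at ha ⊢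
      tauto
    · refine ⟨Finset.card_pair hxz, ?_⟩
      intro a ha
      simp only [Finset.mem_insert, Finset.mem_singleton] at ha ⊢
      tauto

theorem isCyc_bdry {D : Finset (Finset V)} (h3 : ∀ t ∈ D, t.card = 3) : IsCyc (bdry D) := by
  induction D using Finset.induction_on with
  | empty =>
    rw [bdry_empty]
    exact isCyc_empty
  | insert t D ht ih =>
    have h1 : insert t D = symmDiff {t} D := by
      ext s
      rw [Finset.mem_insert, Finset.mem_symmDiff, Finset.mem_singleton]
      constructor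
      · rintro (rfl | h)
        · exact Or.inl ⟨rfl, ht⟩
        · refine Or.inr ⟨h, ?_⟩
          rintro rfl
          exact ht h
      · rintro (h | h)
        · exact Or.inl h.1
        · exact Or.inr h.1
    rw [h1, bdry_symm]
    obtain ⟨x, y, z, hxy, hxz, hyz, rfl⟩ := Finset.card_eq_three.1 (h3 t (Finset.mem_insert_self _ _))
    rw [bdry_single hxy hyz hxz]
    exact isCyc_symm (isCyc_triangle hxy hyz hxz)
      (ih fun s hs => h3 s (Finset.mem_insert_of_mem hs))

theorem exists_other {C : Finset (Finset V)} (h : IsCyc C) {e : Finset V} (he : e ∈ C) {a : V}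
    (ha : a ∈ e) : ∃ e' ∈ C, a ∈ e' ∧ e' ≠ e := by
  have h1 := h.2 a
  have h2 : e ∈ C.filter (fun e => a ∈ e) := Finset.mem_filter.2 ⟨he, ha⟩
  have h3 : 0 < (C.filter (fun e => a ∈ e)).card := Finset.card_pos.2 ⟨e, h2⟩
  have h4 : 1 < (C.filter (fun e => a ∈ e)).card := by
    unfold vdeg at h1
    obtain ⟨k, hk⟩ := h1
    omega
  obtain ⟨e', he', hne⟩ := Finset.exists_mem_ne h4 e
  rw [Finset.mem_filter] at he'
  exact ⟨e', he'.1, he'.2, hne⟩

theorem three_le_card_of_isCyc {C : Finset (Finset V)} (h : IsCyc C) (hne : C.Nonempty) :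
    3 ≤ C.card := by
  obtain ⟨e, he⟩ := hne
  obtain ⟨a, b, hab, rfl⟩ := Finset.card_eq_two.1 (h.1 e he)
  obtain ⟨e1, h1, h2, h3⟩ := exists_other h he (a := a) (by simp)
  obtain ⟨e2, h4, h5, h6⟩ := exists_other h he (a := b) (by simp)
  have h7 : e1 ≠ e2 := by
    rintro rfl
    apply h3
    symm
    apply Finset.eq_of_subset_of_card_le
    · intro x hx
      simp only [Finset.mem_insert, Finset.mem_singleton] at hx
      rcases hx with rfl | rfl
      · exact h2
      · exact h5
    · rw [h.1 e1 h1, Finset.card_pair hab]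
  have h8 : ({{a, b}, e1, e2} : Finset (Finset V)) ⊆ C := by
    intro x hx
    simp only [Finset.mem_insert, Finset.mem_singleton] at hx
    rcases hx with rfl | rfl | rfl
    · exact he
    · exact h1
    · exact h4
  have h9 : ({{a, b}, e1, e2} : Finset (Finset V)).card = 3 := by
    rw [Finset.card_eq_three]
    exact ⟨{a, b}, e1, e2, h3.symm, h6.symm, h7, rfl⟩
  rw [← h9]
  exact Finset.card_le_card h8

theorem bdry_inj {T : Finset (Finset V)} {I : Finset V} (h : Good T I) {D₁ D₂ : Finset (Finset V)}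
    (h₁ : D₁ ⊆ T) (h₂ : D₂ ⊆ T) (hb : bdry D₁ = bdry D₂) : D₁ = D₂ := by
  have h3 : symmDiff D₁ D₂ ⊆ T := by
    intro t ht
    rw [Finset.mem_symmDiff] at ht
    rcases ht with ht | ht
    · exact h₁ ht.1
    · exact h₂ ht.1
  have h4 : bdry (symmDiff D₁ D₂) = ∅ := by
    rw [bdry_symm, hb, symmDiff_self]
    rfl
  have h5 := h.H2 _ h3 h4
  exact symmDiff_eq_bot.1 h5

theorem bdry_subset_edges {T D : Finset (Finset V)} (hD : D ⊆ T) : bdry D ⊆ edges T := by
  intro e he
  rw [mem_bdry] at he
  rw [mem_edges]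
  refine ⟨he.1, ?_⟩
  have h1 : 0 < (D.filter (fun t => e ⊆ t)).card := he.2.pos
  obtain ⟨t, ht⟩ := Finset.card_pos.1 h1
  rw [Finset.mem_filter] at ht
  exact ⟨t, hD ht.1, ht.2⟩

theorem inside {T : Finset (Finset V)} {I : Finset V} (h : Good T I) {D : Finset (Finset V)}
    (hD : D ⊆ T) {w : V} (hw : ∀ e ∈ bdry D, w ∉ e) (hne : (star D w).Nonempty) :
    w ∈ I ∧ star T w ⊆ D := by
  have hS : star D w ⊆ star T w := by
    intro t ht
    rw [mem_star] at ht ⊢
    exact ⟨hD ht.1, ht.2⟩
  have hL : LinkEven (star D w) w := by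
    intro u hu
    have h1 : tdeg (star D w) {w, u} = tdeg D {w, u} := by
      unfold tdeg
      congr 1
      ext t
      simp only [Finset.mem_filter, mem_star]
      constructor
      · rintro ⟨⟨a1, -⟩, a2⟩
        exact ⟨a1, a2⟩
      · rintro ⟨a1, a2⟩
        exact ⟨⟨a1, a2 (by simp)⟩, a2⟩
    rw [h1, ← Nat.not_odd_iff_even]
    intro h2
    exact hw {w, u} (mem_bdry.2 ⟨Finset.card_pair hu.symm, h2⟩) (by simp)
  have hne' : star D w ≠ ∅ := Finset.nonempty_iff_ne_empty.1 hne
  have hI : w ∈ I := by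
    by_contra hI
    exact hne' (h.acyc w hI _ hS hL)
  refine ⟨hI, ?_⟩
  rcases h.conn w hI _ hS hL with h1 | h1
  · exact absurd h1 hne'
  · rw [← h1]
    intro t ht
    rw [mem_star] at ht
    exact ht.1

theorem star_card {T : Finset (Finset V)} {I : Finset V} (h : Good T I) {v : V} (hv : v ∈ I) :
    (nb (edges T) v).card = (star T v).card := by
  have h1 := Finset.card_mul_eq_card_mul (s := nb (edges T) v) (t := star T v)
    (fun (u : V) (t : Finset V) => u ∈ t) (m := 2) (n := 2) ?_ ?_
  · omega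
  · intro u hu
    rw [mem_nb] at hu
    have h2 := h.int2 v hv {v, u} hu.2 (by simp)
    rw [← h2]
    unfold tdeg Finset.bipartiteAbove
    congr 1
    ext t
    simp only [Finset.mem_filter, mem_star]
    constructor
    · rintro ⟨⟨a1, a2⟩, a3⟩
      refine ⟨a1, ?_⟩
      intro x hx
      simp only [Finset.mem_insert, Finset.mem_singleton] at hx
      rcases hx with rfl | rfl
      · exact a2
      · exact a3
    · rintro ⟨a1, a2⟩
      exact ⟨⟨a1, a2 (by simp)⟩, a2 (by simp)⟩
  · intro t ht
    rw [mem_star] at ht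
    have h2 : (nb (edges T) v).bipartiteBelow (fun (u : V) (t : Finset V) => u ∈ t) t = t.erase v := by
      unfold Finset.bipartiteBelow
      ext u
      simp only [Finset.mem_filter, mem_nb, Finset.mem_erase, mem_edges]
      constructor
      · rintro ⟨⟨a1, -⟩, a2⟩
        exact ⟨a1, a2⟩
      · rintro ⟨a1, a2⟩
        refine ⟨⟨a1, Finset.card_pair (Ne.symm a1), t, ht.1, ?_⟩, a2⟩
        intro x hx
        simp only [Finset.mem_insert, Finset.mem_singleton] at hx
        rcases hx with rfl | rfl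
        · exact ht.2
        · exact a2
    rw [h2, Finset.card_erase_of_mem ht.2, h.card3 t ht.1]

/-- a triangle which contains two given vertices -/
theorem exists_third {t : Finset V} (ht : t.card = 3) {v u : V} (hvu : v ≠ u) (hv : v ∈ t)
    (hu : u ∈ t) : ∃ w, w ≠ v ∧ w ≠ u ∧ t = {v, u, w} := by
  have h1 : ((t.erase v).erase u).card = 1 := by
    rw [Finset.card_erase_of_mem (Finset.mem_erase.2 ⟨hvu.symm, hu⟩), Finset.card_erase_of_mem hv, ht]
  obtain ⟨w, hw⟩ := Finset.card_eq_one.1 h1
  have h2 : w ∈ (t.erase v).erase u := by rw [hw]; simp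
  rw [Finset.mem_erase, Finset.mem_erase] at h2
  refine ⟨w, h2.2.1, h2.1, ?_⟩
  ext x
  simp only [Finset.mem_insert, Finset.mem_singleton]
  constructor
  · intro hx
    by_cases a1 : x = v
    · exact Or.inl a1
    · by_cases a2 : x = u
      · exact Or.inr (Or.inl a2)
      · right
        right
        have h3 : x ∈ (t.erase v).erase u := Finset.mem_erase.2 ⟨a2, Finset.mem_erase.2 ⟨a1, hx⟩⟩
        rw [hw, Finset.mem_singleton] at h3
        exact h3
  · rintro (rfl | rfl | rfl)
    · exact hv
    · exact hu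
    · exact h2.2.2

/-- the two triangles at an interior edge -/
theorem link_two {T : Finset (Finset V)} {I : Finset V} (h : Good T I) {v u : V} (hv : v ∈ I)
    (hu : u ∈ nb (edges T) v) :
    ∃ w w' : V, w ≠ w' ∧ w ≠ v ∧ w ≠ u ∧ w' ≠ v ∧ w' ≠ u ∧ v ≠ u ∧
      ({v, u, w} : Finset V) ∈ T ∧ ({v, u, w'} : Finset V) ∈ T ∧
      ∀ t ∈ T, v ∈ t → u ∈ t → t = {v, u, w} ∨ t = {v, u, w'} := by
  rw [mem_nb] at hu
  have h1 := h.int2 v hv {v, u} hu.2 (by simp)
  unfold tdeg at h1
  obtain ⟨t, t', htt, hT⟩ := Finset.card_eq_two.1 h1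
  have ht : t ∈ T.filter (fun t => ({v, u} : Finset V) ⊆ t) := by rw [hT]; simp
  have ht' : t' ∈ T.filter (fun t => ({v, u} : Finset V) ⊆ t) := by rw [hT]; simp
  rw [Finset.mem_filter] at ht ht'
  obtain ⟨w, hw1, hw2, hw3⟩ := exists_third (h.card3 t ht.1) hu.1.symm (ht.2 (by simp)) (ht.2 (by simp))
  obtain ⟨w', hw1', hw2', hw3'⟩ := exists_third (h.card3 t' ht'.1) hu.1.symm (ht'.2 (by simp))
    (ht'.2 (by simp))
  refine ⟨w, w', ?_, hw1, hw2, hw1', hw2', hu.1.symm, ?_, ?_, ?_⟩
  · rintro rfl
    exact htt (hw3.trans hw3'.symm)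
  · rw [← hw3]
    exact ht.1
  · rw [← hw3']
    exact ht'.1
  · intro s hs hvs hus
    have h2 : s ∈ T.filter (fun t => ({v, u} : Finset V) ⊆ t) := by
      rw [Finset.mem_filter]
      refine ⟨hs, ?_⟩
      intro x hx
      simp only [Finset.mem_insert, Finset.mem_singleton] at hx
      rcases hx with rfl | rfl
      · exact hvs
      · exact hus
    rw [hT, Finset.mem_insert, Finset.mem_singleton] at h2
    rcases h2 with rfl | rfl
    · exact Or.inl hw3
    · exact Or.inr hw3'

end Pool.Agent.Spl1
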