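import Pool.Agent.Spl1.Step

/-!
# Enumeration of the link of an interior vertex

Paper proof.  Let `G` be the graph on `V` with `u ~ u'` iff `{v,u,u'} ∈ T` and `v, u, u'` distinct.  By
`link_two` every neighbour of `v` has exactly two `G`-neighbours and the other vertices have none, so
`G.IsCycles` (Mathlib).  Start with a neighbour `u₀` of `v`: Mathlib has
`SimpleGraph.IsCycles.exists_cycle_toSubgraph_verts_eq_connectedComponentSupp` (or build the walk by hand with the
successor map on darts `(u,u') ↦ (u',u'')`, `u'' ≠ u`).  This gives a closed walk `w 0, w 1, ..., w n = w 0`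
with `w i` distinct for `i < n`, `n ≥ 3`; extend `w` periodically.  The set `S = {{v, w i, w (i+1)}}` is a
nonempty `LinkEven` subset of `star T v` (at `w i` the two triangles with `w (i-1)` and `w (i+1)`), so it is
`star T v` (`conn`), so every neighbour of `v` is a `w i`, and `n = |nb (edges T) v|`.
-/

set_option autoImplicit false

namespace Pool.Agent.Spl1

open Finset

variable {V : Type*} [Fintype V] [DecidableEq V]

/-- adjacency in the link of `v` -/
def lkA (T : Finset (Finset V)) (v u u' : V) : Prop :=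
  ({v, u, u'} : Finset V) ∈ T ∧ u ≠ v ∧ u' ≠ v ∧ u ≠ u'

omit [Fintype V] in
theorem lkA.symm {T : Finset (Finset V)} {v u u' : V} (h : lkA T v u u') : lkA T v u' u := by
  obtain ⟨h1, h2, h3, h4⟩ := h
  refine ⟨?_, h3, h2, h4.symm⟩
  rw [Finset.pair_comm u' u]
  exact h1

theorem lkA.nb {T : Finset (Finset V)} {v u u' : V} (h : lkA T v u u') : u ∈ nb (edges T) v := by
  obtain ⟨h1, h2, h3, h4⟩ := h
  refine mem_nb.2 ⟨h2, mem_edges.2 ⟨Finset.card_pair h2.symm, _, h1, ?_⟩⟩
  intro x hx
  simp only [Finset.mem_insert, Finset.mem_singleton] at hx ⊢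
  tauto

theorem lkA_next {T : Finset (Finset V)} {I : Finset V} (h : Good T I) {v : V} (hv : v ∈ I)
    {u u' : V} (hA : lkA T v u u') : ∃ u'', lkA T v u' u'' ∧ u'' ≠ u := by
  obtain ⟨w, w', h1, h2, h3, h4, h5, h6, h7, h8, -⟩ := link_two h hv hA.symm.nb
  by_cases hw : w = u
  · refine ⟨w', ⟨h8, h6.symm, h4, h5.symm⟩, ?_⟩
    rw [← hw]
    exact h1.symm
  · exact ⟨w, ⟨h7, h6.symm, h2, h3.symm⟩, hw⟩

theorem lkA_two {T : Finset (Finset V)} {I : Finset V} (h : Good T I) {v : V} (hv : v ∈ I)
    {u a b c : V} (ha : lkA T v u a) (hb : lkA T v u b) (hc : lkA T v u c) :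
    a = b ∨ a = c ∨ b = c := by
  obtain ⟨w, w', h1, h2, h3, h4, h5, h6, h7, h8, h9⟩ := link_two h hv ha.nb
  have key : ∀ x, lkA T v u x → x = w ∨ x = w' := by
    intro x hx
    obtain ⟨x1, x2, x3, x4⟩ := hx
    have hx5 : x ∈ ({v, u, x} : Finset V) := by simp
    rcases h9 _ x1 (by simp) (by simp) with h10 | h10
    · rw [h10] at hx5
      simp only [Finset.mem_insert, Finset.mem_singleton] at hx5
      rcases hx5 with h11 | h11 | h11
      · exact absurd h11 x3
      · exact absurd h11.symm x4
      · exact Or.inl h11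
    · rw [h10] at hx5
      simp only [Finset.mem_insert, Finset.mem_singleton] at hx5
      rcases hx5 with h11 | h11 | h11
      · exact absurd h11 x3
      · exact absurd h11.symm x4
      · exact Or.inr h11
  rcases key a ha with rfl | rfl <;> rcases key b hb with rfl | rfl <;>
    rcases key c hc with rfl | rfl <;> tauto

theorem lkA_exists {T : Finset (Finset V)} {I : Finset V} (h : Good T I) {v : V} (hv : v ∈ I) :
    ∃ u u', lkA T v u u' := by
  obtain ⟨t, ht⟩ := h.ne v hv
  rw [mem_star] at ht
  have h1 : (t.erase v).card = 2 := by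
    rw [Finset.card_erase_of_mem ht.2, h.card3 t ht.1]
  obtain ⟨a, b, hab, h2⟩ := Finset.card_eq_two.1 h1
  have h3 : t = {v, a, b} := by
    rw [← Finset.insert_erase ht.2, h2]
  have ha : a ∈ t.erase v := by rw [h2]; simp
  have hb : b ∈ t.erase v := by rw [h2]; simp
  exact ⟨a, b, by rw [← h3]; exact ht.1, Finset.ne_of_mem_erase ha, Finset.ne_of_mem_erase hb, hab⟩

/-- the walk around the link -/
theorem lkA_walk {T : Finset (Finset V)} {I : Finset V} (h : Good T I) {v : V} (hv : v ∈ I) :
    ∃ w : ℕ → V, (∀ k, lkA T v (w k) (w (k + 1))) ∧ ∀ k, w (k + 2) ≠ w k := by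
  have h1 : ∀ p : {p : V × V // lkA T v p.1 p.2}, ∃ q : {p : V × V // lkA T v p.1 p.2},
      q.1.1 = p.1.2 ∧ q.1.2 ≠ p.1.1 := by
    intro p
    obtain ⟨u'', h2, h3⟩ := lkA_next h hv p.2
    exact ⟨⟨(p.1.2, u''), h2⟩, rfl, h3⟩
  choose nx hnx using h1
  obtain ⟨u, u', h0⟩ := lkA_exists h hv
  set d : ℕ → {p : V × V // lkA T v p.1 p.2} := fun k => nx^[k] ⟨(u, u'), h0⟩ with hd
  have hd1 : ∀ k, d (k + 1) = nx (d k) := fun k => Function.iterate_succ_apply' nx k _
  have hw : ∀ k, (d (k + 1)).1.1 = (d k).1.2 := fun k => by rw [hd1]; exact (hnx _).1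
  refine ⟨fun k => (d k).1.1, fun k => ?_, fun k => ?_⟩
  · show lkA T v (d k).1.1 (d (k + 1)).1.1
    rw [hw]
    exact (d k).2
  · show (d (k + 1 + 1)).1.1 ≠ (d k).1.1
    rw [hw, hd1]
    exact (hnx _).2

/-- a closed walk around the link without repetitions -/
theorem lkA_cycle {T : Finset (Finset V)} {I : Finset V} (h : Good T I) {v : V} (hv : v ∈ I) :
    ∃ (n : ℕ) (w : ℕ → V), 0 < n ∧ (∀ k, lkA T v (w k) (w (k + 1))) ∧ (∀ k, w (k + 2) ≠ w k) ∧
      (∀ i j, i < n → j < n → w i = w j → i = j) ∧ ∀ k, w (k + n) = w k := by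
  obtain ⟨w, hA, h2⟩ := lkA_walk h hv
  have hex : ∃ n, ∃ i < n, w i = w n := by
    obtain ⟨a, b, hab, hw⟩ := Finite.exists_ne_map_eq_of_infinite w
    rcases lt_or_gt_of_ne hab with h3 | h3
    · exact ⟨b, a, h3, hw⟩
    · exact ⟨a, b, h3, hw.symm⟩
  set n := Nat.find hex with hn
  have hspec : ∃ i < n, w i = w n := Nat.find_spec hex
  have hmin : ∀ m < n, ¬ ∃ i < m, w i = w m := fun m hm => Nat.find_min hex hm
  have hinj : ∀ i j, i < n → j < n → w i = w j → i = j := by
    intro i j hi hj hij
    rcases lt_trichotomy i j with h3 | h3 | h3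
    · exact absurd ⟨i, h3, hij⟩ (hmin j hj)
    · exact h3
    · exact absurd ⟨j, h3, hij.symm⟩ (hmin i hi)
  have hAne : ∀ k, w k ≠ w (k + 1) := fun k => (hA k).2.2.2
  obtain ⟨i, hi, hwi⟩ := hspec
  obtain ⟨m, hm⟩ : ∃ m, n = m + 1 := ⟨n - 1, by omega⟩
  have hi0 : i = 0 := by
    by_contra hi0
    obtain ⟨i', rfl⟩ : ∃ i', i = i' + 1 := ⟨i - 1, by omega⟩
    have e1 : lkA T v (w (i' + 1)) (w i') := (hA i').symm
    have e2 : lkA T v (w (i' + 1)) (w (i' + 2)) := hA (i' + 1)
    have e3 : lkA T v (w (i' + 1)) (w m) := by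
      rw [hwi, hm]
      exact (hA m).symm
    rcases lkA_two h hv e1 e2 e3 with h4 | h4 | h4
    · exact h2 i' h4.symm
    · have h5 := hinj i' m (by omega) (by omega) h4
      omega
    · by_cases h5 : i' + 2 < n
      · have h6 := hinj (i' + 2) m h5 (by omega) h4
        have h7 : n = i' + 1 + 2 := by omega
        rw [h7] at hwi
        exact h2 (i' + 1) hwi.symm
      · have h6 : n = i' + 1 + 1 := by omega
        rw [h6] at hwi
        exact hAne (i' + 1) hwi
  subst hi0
  have hn1 : n ≠ 1 := by
    intro h3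
    rw [h3] at hwi
    exact hAne 0 hwi
  have hn2 : n ≠ 2 := by
    intro h3
    rw [h3] at hwi
    exact h2 0 hwi.symm
  have h1 : w (n + 1) = w 1 := by
    have e1 : lkA T v (w 0) (w 1) := hA 0
    have e2 : lkA T v (w 0) (w m) := by
      rw [hwi, hm]
      exact (hA m).symm
    have e3 : lkA T v (w 0) (w (n + 1)) := by
      rw [hwi]
      exact hA n
    rcases lkA_two h hv e1 e2 e3 with h4 | h4 | h4
    · have h5 := hinj 1 m (by omega) (by omega) h4
      omega
    · exact h4.symm
    · have h5 : n + 1 = m + 2 := by omega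
      rw [h5] at h4
      exact absurd h4.symm (h2 m)
  have hper : ∀ k, w (k + n) = w k ∧ w (k + 1 + n) = w (k + 1) := by
    intro k
    induction k with
    | zero =>
      refine ⟨?_, ?_⟩
      · rw [zero_add]
        exact hwi.symm
      · have e1 : 0 + 1 + n = n + 1 := by ring
        rw [e1]
        exact h1
    | succ k ih =>
      refine ⟨ih.2, ?_⟩
      have e1 : lkA T v (w (k + 1)) (w k) := (hA k).symm
      have e2 : lkA T v (w (k + 1)) (w (k + 2)) := hA (k + 1)
      have e3 : lkA T v (w (k + 1)) (w (k + n + 2)) := by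
        rw [← ih.2]
        have e4 : k + 1 + n = k + n + 1 := by ring
        rw [e4]
        exact hA (k + n + 1)
      have e5 : k + 1 + 1 + n = k + n + 2 := by ring
      rw [e5]
      rcases lkA_two h hv e1 e2 e3 with h4 | h4 | h4
      · exact absurd h4.symm (h2 k)
      · rw [← ih.1] at h4
        exact absurd h4.symm (h2 (k + n))
      · exact h4.symm
  exact ⟨n, w, by omega, hA, h2, hinj, fun k => (hper k).1⟩

/-- `w 0, ..., w (n-1)` is the link of `v` in cyclic order -/
structure Enum (T : Finset (Finset V)) (v : V) (n : ℕ) (w : ℕ → V) : Prop where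
  per : ∀ i, w (i + n) = w i
  inj : ∀ i j, i < n → j < n → w i = w j → i = j
  tri : ∀ i, ({v, w i, w (i + 1)} : Finset V) ∈ T
  cov : ∀ u, u ∈ nb (edges T) v ↔ ∃ i < n, w i = u

theorem link_enum {T : Finset (Finset V)} {I : Finset V} (h : Good T I) {v : V} (hv : v ∈ I)
    {n : ℕ} (hn : (nb (edges T) v).card = n) : ∃ w : ℕ → V, Enum T v n w := by
  obtain ⟨n', w, hn', hA, h2, hinj, hper⟩ := lkA_cycle h hv
  have hmod : ∀ i, w (i % n') = w i := by
    intro i
    have key : ∀ q r, w (r + q * n') = w r := by
      intro q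
      induction q with
      | zero => intro r; simp
      | succ q ih =>
        intro r
        have : r + (q + 1) * n' = (r + q * n') + n' := by ring
        rw [this, hper, ih]
    have h3 := key (i / n') (i % n')
    rw [← h3]
    congr 1
    rw [mul_comm]
    exact Nat.mod_add_div i n'
  set S : Finset (Finset V) := (Finset.range n').image (fun i => ({v, w i, w (i + 1)} : Finset V))
    with hS
  have hmemS : ∀ i, ({v, w i, w (i + 1)} : Finset V) ∈ S := by
    intro i
    rw [hS]
    refine Finset.mem_image.2 ⟨i % n', Finset.mem_range.2 (Nat.mod_lt _ hn'), ?_⟩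
    have h3 : w (i % n' + 1) = w (i + 1) := by
      rw [← hmod (i % n' + 1), ← hmod (i + 1)]
      congr 1
      rw [Nat.mod_add_mod]
    rw [h3, hmod]
  have hSsub : S ⊆ star T v := by
    intro t ht
    obtain ⟨i, -, rfl⟩ := Finset.mem_image.1 ht
    exact mem_star.2 ⟨(hA i).1, by simp⟩
  have hneg : ∀ i, 0 < i → ∃ j, w i = w (j + 1) := fun i hi => ⟨i - 1, by congr 1; omega⟩
  have hwsucc : ∀ i, ∃ j, w i = w (j + 1) := by
    intro i
    obtain ⟨j, hj⟩ := hneg (i + n') (by omega)
    exact ⟨j, by rw [← hper i]; exact hj⟩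
  have hpos : ∀ i j, w i = w j → w (i + 1) = w (j + 1) := by
    intro i j hij
    rw [← hmod i, ← hmod j] at hij
    have h3 := hinj _ _ (Nat.mod_lt i hn') (Nat.mod_lt j hn') hij
    rw [← hmod (i + 1), ← hmod (j + 1), Nat.add_mod, h3, ← Nat.add_mod]
  have heven : LinkEven S v := by
    intro u hu
    by_cases hex : ∃ i, w i = u
    · obtain ⟨i₀, hi₀⟩ := hex
      obtain ⟨i, hi⟩ := hwsucc i₀
      rw [hi₀] at hi
      have h3 : S.filter (fun t => ({v, u} : Finset V) ⊆ t) =
          {({v, w i, w (i + 1)} : Finset V), ({v, w (i + 1), w (i + 2)} : Finset V)} := by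
        ext t
        rw [Finset.mem_filter, Finset.mem_insert, Finset.mem_singleton]
        constructor
        · rintro ⟨ht, hut⟩
          obtain ⟨j, -, rfl⟩ := Finset.mem_image.1 ht
          have hu2 : u ∈ ({v, w j, w (j + 1)} : Finset V) := hut (by simp)
          simp only [Finset.mem_insert, Finset.mem_singleton] at hu2
          rcases hu2 with h4 | h4 | h4
          · exact absurd h4 hu
          · right
            have h5 : w j = w (i + 1) := by rw [← h4, hi]
            rw [h5, hpos j (i + 1) h5]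
          · left
            have h5 : w (j + 1) = w (i + 1) := by rw [← h4, hi]
            have h6 : w j = w i := by
              have h7 := hmod (j + 1)
              have h8 := hmod (i + 1)
              have h9 := hinj _ _ (Nat.mod_lt (j + 1) hn') (Nat.mod_lt (i + 1) hn')
                (by rw [h7, h8]; exact h5)
              have h10 : j ≡ i [MOD n'] := Nat.ModEq.add_right_cancel' 1 h9
              have h11 : j % n' = i % n' := h10
              rw [← hmod j, ← hmod i, h11]
            rw [h5, h6]
        · rintro (rfl | rfl)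
          · refine ⟨hmemS i, ?_⟩
            intro x hx
            rw [hi] at hx
            simp only [Finset.mem_insert, Finset.mem_singleton] at hx ⊢
            tauto
          · refine ⟨hmemS (i + 1), ?_⟩
            intro x hx
            rw [hi] at hx
            simp only [Finset.mem_insert, Finset.mem_singleton] at hx ⊢
            tauto
      unfold tdeg
      rw [h3, Finset.card_pair]
      · exact even_two
      · intro h4
        have h5 : w i ∈ ({v, w (i + 1), w (i + 2)} : Finset V) := by
          rw [← h4]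
          simp
        simp only [Finset.mem_insert, Finset.mem_singleton] at h5
        rcases h5 with h6 | h6 | h6
        · exact (hA i).2.1 h6
        · exact (hA i).2.2.2 h6
        · exact h2 i h6.symm
    · have h3 : S.filter (fun t => ({v, u} : Finset V) ⊆ t) = ∅ := by
        rw [Finset.filter_eq_empty_iff]
        intro t ht hut
        obtain ⟨j, -, rfl⟩ := Finset.mem_image.1 ht
        have hu2 : u ∈ ({v, w j, w (j + 1)} : Finset V) := hut (by simp)
        simp only [Finset.mem_insert, Finset.mem_singleton] at hu2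
        rcases hu2 with h4 | h4 | h4
        · exact hu h4
        · exact hex ⟨j, h4.symm⟩
        · exact hex ⟨j + 1, h4.symm⟩
      unfold tdeg
      rw [h3]
      simp
  have hSeq : S = star T v := by
    rcases h.conn v hv S hSsub heven with h3 | h3
    · have h4 := hmemS 0
      rw [h3] at h4
      exact absurd h4 (Finset.notMem_empty _)
    · exact h3
  have hcov : ∀ u, u ∈ nb (edges T) v ↔ ∃ i < n', w i = u := by
    intro u
    constructor
    · intro hu
      obtain ⟨x, x', -, -, -, -, -, hvu, h7, -, -⟩ := link_two h hv hu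
      have h8 : ({v, u, x} : Finset V) ∈ S := by
        rw [hSeq]
        exact mem_star.2 ⟨h7, by simp⟩
      obtain ⟨j, -, h9⟩ := Finset.mem_image.1 h8
      have h10 : u ∈ ({v, w j, w (j + 1)} : Finset V) := by
        rw [h9]
        simp
      simp only [Finset.mem_insert, Finset.mem_singleton] at h10
      rcases h10 with h11 | h11 | h11
      · exact absurd h11.symm hvu
      · exact ⟨j % n', Nat.mod_lt _ hn', by rw [hmod, h11]⟩
      · exact ⟨(j + 1) % n', Nat.mod_lt _ hn', by rw [hmod, h11]⟩
    · rintro ⟨i, -, rfl⟩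
      exact (hA i).nb
  have hcard : (nb (edges T) v).card = n' := by
    have h3 : nb (edges T) v = (Finset.range n').image w := by
      ext u
      rw [hcov, Finset.mem_image]
      simp only [Finset.mem_range]
    rw [h3, Finset.card_image_of_injOn, Finset.card_range]
    intro i hi j hj hij
    simp only [Finset.coe_range, Set.mem_Iio] at hi hj
    exact hinj i j hi hj hij
  rw [hn] at hcard
  subst hcard
  exact ⟨w, hper, hinj, fun i => (hA i).1, hcov⟩

theorem Enum.mod {T : Finset (Finset V)} {v : V} {n : ℕ} {w : ℕ → V} (h : Enum T v n w) (i : ℕ) :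
    w (i % n) = w i := by
  have key : ∀ q r, w (r + q * n) = w r := by
    intro q
    induction q with
    | zero => intro r; simp
    | succ q ih =>
      intro r
      have : r + (q + 1) * n = (r + q * n) + n := by ring
      rw [this, h.per, ih]
  have := key (i / n) (i % n)
  rw [← this]
  congr 1
  rw [mul_comm]
  exact Nat.mod_add_div i n

theorem Enum.eq_iff {T : Finset (Finset V)} {v : V} {n : ℕ} {w : ℕ → V} (h : Enum T v n w)
    (hn : 0 < n) (i j : ℕ) : w i = w j ↔ i % n = j % n := by
  constructor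
  · intro hij
    rw [← h.mod i, ← h.mod j] at hij
    exact h.inj _ _ (Nat.mod_lt _ hn) (Nat.mod_lt _ hn) hij
  · intro hij
    rw [← h.mod i, ← h.mod j, hij]

theorem Enum.shift {T : Finset (Finset V)} {v : V} {n : ℕ} {w : ℕ → V} (h : Enum T v n w)
    (hn : 0 < n) (a : ℕ) : Enum T v n (fun m => w (m + a)) := by
  refine ⟨fun i => ?_, fun i j hi hj hij => ?_, fun i => ?_, fun u => ?_⟩
  · have : i + n + a = i + a + n := by ring
    simp only [this, h.per]
  · have h1 := (h.eq_iff hn _ _).1 hij
    have h2 : i ≡ j [MOD n] := Nat.ModEq.add_right_cancel' a h1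
    have h3 : i % n = j % n := h2
    rwa [Nat.mod_eq_of_lt hi, Nat.mod_eq_of_lt hj] at h3
  · have := h.tri (i + a)
    have e : i + 1 + a = i + a + 1 := by ring
    simp only [e]
    exact this
  · rw [h.cov]
    constructor
    · rintro ⟨i, hi, rfl⟩
      refine ⟨(i + (n - a % n)) % n, Nat.mod_lt _ hn, ?_⟩
      show w ((i + (n - a % n)) % n + a) = w i
      rw [h.eq_iff hn]
      rw [Nat.add_mod, Nat.mod_mod, ← Nat.add_mod]
      have ha : a % n < n := Nat.mod_lt _ hn
      have e1 : i + (n - a % n) + a = i + n * (a / n + 1) := by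
        have := Nat.mod_add_div a n
        have h4 : a = a % n + n * (a / n) := this.symm
        have h5 : n - a % n + a = n * (a / n + 1) := by
          rw [mul_add, mul_one]
          omega
        omega
      rw [e1, Nat.add_mul_mod_self_left]
    · rintro ⟨i, hi, rfl⟩
      exact ⟨(i + a) % n, Nat.mod_lt _ hn, h.mod _⟩

end Pool.Agent.Spl1
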