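import Pool.Agent.Spl1.Planar
import Pool.Agent.Spl1.Deg

/-!
# Separating 3-cycles

If some 3-cycle of edges is not a triangle of `T` then there is an interior vertex `v` of degree `≤ 5` such
that all 3-cycles through `v` are triangles of `T`.

Paper proof.  For a 3-cycle `{x,y},{y,z},{x,z} ∈ edges T` (`isCyc_triangle`) with `{x,y,z} ∉ T` let `D ⊆ T`
be the set it bounds (`H1`).  `D ≠ ∅`.  Choose the 3-cycle with `|D|` minimal, `C = bdry D`,
`N = {x,y,z}`, `E_D = edges D` (all pairs contained in a triangle of `D`),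
`X` = vertices `w ∉ N` with `star D w ≠ ∅`.

(a) `w ∈ X` implies `w ∈ I` and `star T w ⊆ D` (`inside`; `C` has only the vertices `x,y,z`).

(b) closure: every cycle `C' ⊆ E_D` bounds a set `D' ⊆ D`.  Let `D' ⊆ T` be the set it bounds and
`R = D' \ D`.  If `e ∉ C` is a pair, then `tdeg D e` is `0` or `2`.  If it is `2` then no triangle outside
`D` contains `e` (`le2`) and `tdeg R e = 0`.  If it is `0` then `e ∉ C'`, so
`tdeg R e = tdeg D' e` is even.  So `bdry R ⊆ C`; `bdry R` is a cycle contained in the 3-cycle `C`, so it is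
`∅` or `C` (`three_le_card_of_isCyc`).  If it is `C` then `R = D` (`bdry_inj`), but `R ∩ D = ∅` and
`D ≠ ∅`.  So `bdry R = ∅`, `R = ∅` (`H2`).

(c) Euler: `|E_D| ≥ ...`.  Edges of `D`: the three edges of `C` are in exactly one triangle of `D`
(odd and `≤ 2`), all others in exactly two (even, positive, `≤ 2`).  So `3 |D| = 2 (|E_D| - 3) + 3`.
The number of cycles in `E_D` is at most `2^|D|` by (b), and all edges of `E_D` are contained in `X ∪ N`, so
`cyc_count` gives `|E_D| + 1 ≤ |X| + 3 + |D|`.  With `m = |E_D| - 3`: `3|D| = 2 m + 3`,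
`m + 4 ≤ |X| + 3 + |D|`, so `3m + 3 ≤ 3|X| + 2m + 3`, `m ≤ 3 |X|`.

(d) `X ≠ ∅`: otherwise `m ≤ 0`, `|D| = 1` and `D = {t}` with `bdry {t} = C`, so `t = N ∈ T`, contradiction.

(e) `∑_{w ∈ X} |star T w| = ∑_{w ∈ X} |nb (edges T) w| = ` (number of `e ∈ edges T` meeting `X`) `+` (number
of `e ∈ edges T`, `e ⊆ X`) `≤ m + (3|X| - 3) ≤ 6|X| - 3` (all edges meeting `X` are in `E_D \ C` by (a);
`planar`).  So some `w ∈ X` has `|star T w| ≤ 5`.

(f) every `w ∈ X` is chordless: let `{w,a},{w,b},{a,b} ∈ edges T` and `{w,a,b} ∉ T`.  `{w,a},{w,b} ∈ E_D` by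
(a), and `a, b ∈ X ∪ N`.  If `a ∈ X` or `b ∈ X` then `{a,b} ∈ E_D` by (a); otherwise `a,b ∈ N` and
`{a,b} ∈ C ⊆ E_D`.  By (b) the 3-cycle bounds `D' ⊆ D`, `D' ≠ D` because `{w,a} ∈ bdry D'`, `{w,a} ∉ C`.
So `|D'| < |D|`, contradicting the minimality.
-/

set_option autoImplicit false

namespace Pool.Agent.Spl1

open Finset

variable {V : Type*} [Fintype V] [DecidableEq V]

namespace NonfacAux

/-- closure: cycles of edges of `D` bound subsets of `D` -/
theorem closure {T : Finset (Finset V)} {I : Finset V} (h : Good T I) {D : Finset (Finset V)}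
    (hD : D ⊆ T) (hne : D.Nonempty) (hC3 : (bdry D).card ≤ 3) {C' : Finset (Finset V)}
    (hC' : C' ⊆ edges D) (hcyc : IsCyc C') : ∃ D' ⊆ D, bdry D' = C' := by
  have hET : edges D ⊆ edges T := by
    intro e he
    rw [mem_edges] at he ⊢
    obtain ⟨h1, t, ht, h2⟩ := he
    exact ⟨h1, t, hD ht, h2⟩
  obtain ⟨D', hD'T, hb⟩ := h.H1 C' (hC'.trans hET) hcyc
  have hRT : D' \ D ⊆ T := sdiff_subset.trans hD'T
  have hR : bdry (D' \ D) ⊆ bdry D := by
    intro e he
    rw [mem_bdry] at he
    obtain ⟨h2, hodd⟩ := he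
    rw [mem_bdry]
    refine ⟨h2, ?_⟩
    by_contra heven
    rw [Nat.not_odd_iff_even] at heven
    have hle : tdeg (D' \ D) e + tdeg D e ≤ tdeg T e := by
      unfold tdeg
      rw [← Finset.card_union_of_disjoint]
      · refine Finset.card_le_card ?_
        intro t ht
        rw [mem_union, mem_filter, mem_filter] at ht
        rw [mem_filter]
        rcases ht with ht | ht
        · exact ⟨hRT ht.1, ht.2⟩
        · exact ⟨hD ht.1, ht.2⟩
      · rw [Finset.disjoint_left]
        intro t ht ht2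
        rw [mem_filter, mem_sdiff] at ht
        rw [mem_filter] at ht2
        exact ht.1.2 ht2.1
    have hT2 := h.le2 e h2
    rcases Nat.eq_zero_or_pos (tdeg D e) with h0 | hpos
    · have hnone : ∀ t ∈ D, ¬ e ⊆ t := by
        intro t ht het
        have : t ∈ D.filter (fun t => e ⊆ t) := mem_filter.2 ⟨ht, het⟩
        have h3 := Finset.card_pos.2 ⟨t, this⟩
        unfold tdeg at h0
        omega
      have heC : e ∉ C' := by
        intro heC
        have := hC' heC
        rw [mem_edges] at this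
        obtain ⟨-, t, ht, het⟩ := this
        exact hnone t ht het
      have h4 : ¬ Odd (tdeg D' e) := by
        intro h5
        apply heC
        rw [← hb, mem_bdry]
        exact ⟨h2, h5⟩
      have h6 : tdeg (D' \ D) e = tdeg D' e := by
        unfold tdeg
        congr 1
        ext t
        rw [mem_filter, mem_filter, mem_sdiff]
        constructor
        · rintro ⟨⟨h7, -⟩, h8⟩
          exact ⟨h7, h8⟩
        · rintro ⟨h7, h8⟩
          exact ⟨⟨h7, fun h9 => hnone t h9 h8⟩, h8⟩
      rw [h6] at hodd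
      exact h4 hodd
    · have h10 : tdeg D e = 2 := by
        rcases heven with ⟨k, hk⟩
        omega
      have h11 : tdeg (D' \ D) e = 0 := by omega
      rw [h11] at hodd
      exact absurd hodd (by decide)
  have hRcyc : IsCyc (bdry (D' \ D)) := isCyc_bdry fun t ht => h.card3 t (hRT ht)
  have hR0 : bdry (D' \ D) = ∅ := by
    by_contra hcon
    have h12 := three_le_card_of_isCyc hRcyc (Finset.nonempty_iff_ne_empty.2 hcon)
    have h13 : bdry (D' \ D) = bdry D := Finset.eq_of_subset_of_card_le hR (hC3.trans h12)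
    have h14 := bdry_inj h hRT hD h13
    obtain ⟨t, ht⟩ := hne
    have ht2 := ht
    rw [← h14, mem_sdiff] at ht
    exact ht.2 ht2
  have h15 := h.H2 _ hRT hR0
  rw [Finset.sdiff_eq_empty_iff_subset] at h15
  exact ⟨D', h15, hb⟩

/-- `3 |D| = ∑ tdeg` -/
theorem three_card {D : Finset (Finset V)} (h3 : ∀ t ∈ D, t.card = 3) :
    ∑ e ∈ edges D, tdeg D e = 3 * D.card := by
  unfold tdeg
  simp only [Finset.card_filter]
  rw [Finset.sum_comm]
  have : ∀ t ∈ D, ∑ e ∈ edges D, (if e ⊆ t then 1 else 0) = 3 := by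
    intro t ht
    rw [← Finset.card_filter]
    have h1 : (edges D).filter (fun e => e ⊆ t) = t.powersetCard 2 := by
      ext e
      rw [mem_filter, mem_edges, mem_powersetCard]
      constructor
      · rintro ⟨⟨h2, -⟩, h4⟩
        exact ⟨h4, h2⟩
      · rintro ⟨h4, h2⟩
        exact ⟨⟨h2, t, ht, h4⟩, h4⟩
    rw [h1, Finset.card_powersetCard, h3 t ht]
    rfl
  rw [Finset.sum_congr rfl this, Finset.sum_const, smul_eq_mul, mul_comm]

theorem pair_mem {x y z a b : V} (hab : a ≠ b) (ha : a ∈ ({x, y, z} : Finset V))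
    (hb : b ∈ ({x, y, z} : Finset V)) :
    ({a, b} : Finset V) ∈ ({{x, y}, {y, z}, {x, z}} : Finset (Finset V)) := by
  simp only [mem_insert, mem_singleton] at ha hb ⊢
  rcases ha with rfl | rfl | rfl <;> rcases hb with rfl | rfl | rfl
  · exact absurd rfl hab
  · exact Or.inl rfl
  · exact Or.inr (Or.inr rfl)
  · exact Or.inl (Finset.pair_comm _ _)
  · exact absurd rfl hab
  · exact Or.inr (Or.inl rfl)
  · exact Or.inr (Or.inr (Finset.pair_comm _ _))
  · exact Or.inr (Or.inl (Finset.pair_comm _ _))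
  · exact absurd rfl hab

end NonfacAux

open NonfacAux

theorem nonfac {T : Finset (Finset V)} {I : Finset V} (h : Good T I)
    (hc : ∃ v, ¬ Chordless T v) : ∃ v ∈ I, (star T v).card ≤ 5 ∧ Chordless T v := by
  classical
  obtain ⟨Bad, hBad⟩ : ∃ Bad : Finset (Finset V) → Prop, Bad = fun D => ∃ x y z : V,
    x ≠ y ∧ y ≠ z ∧ x ≠ z ∧ ({x, y} : Finset V) ∈ edges T ∧ ({y, z} : Finset V) ∈ edges T ∧
    ({x, z} : Finset V) ∈ edges T ∧ ({x, y, z} : Finset V) ∉ T ∧
    bdry D = {{x, y}, {y, z}, {x, z}} := ⟨_, rfl⟩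
  have hex : (T.powerset.filter Bad).Nonempty := by
    obtain ⟨v, hv⟩ := hc
    unfold Chordless at hv
    push Not at hv
    obtain ⟨x, y, hxy, hxv, hyv, e1, e2, e3, ht⟩ := hv
    have hsub : ({{v, x}, {x, y}, {v, y}} : Finset (Finset V)) ⊆ edges T := by
      intro e he
      simp only [mem_insert, mem_singleton] at he
      rcases he with rfl | rfl | rfl
      · exact e1
      · exact e3
      · exact e2
    obtain ⟨D, hD, hb⟩ := h.H1 _ hsub (isCyc_triangle hxv.symm hxy hyv.symm)
    refine ⟨D, mem_filter.2 ⟨mem_powerset.2 hD, ?_⟩⟩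
    rw [hBad]
    exact ⟨v, x, y, hxv.symm, hxy, hyv.symm, e1, e3, e2, ht, hb⟩
  obtain ⟨D, hDm, hmin⟩ := Finset.exists_min_image (T.powerset.filter Bad) Finset.card hex
  rw [mem_filter, mem_powerset] at hDm
  obtain ⟨hD, hDB⟩ := hDm
  rw [hBad] at hDB
  obtain ⟨x, y, z, hxy, hyz, hxz, exy, eyz, exz, hxyz, hb⟩ := hDB
  have hCcard : (bdry D).card = 3 := by
    rw [hb, Finset.card_eq_three]
    refine ⟨{x, y}, {y, z}, {x, z}, ?_, ?_, ?_, rfl⟩
    · intro hh
      have : x ∈ ({y, z} : Finset V) := by rw [← hh]; simp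
      simp only [mem_insert, mem_singleton] at this
      rcases this with h1 | h1
      · exact hxy h1
      · exact hxz h1
    · intro hh
      have : y ∈ ({x, z} : Finset V) := by rw [← hh]; simp
      simp only [mem_insert, mem_singleton] at this
      rcases this with h1 | h1
      · exact hxy h1.symm
      · exact hyz h1
    · intro hh
      have : y ∈ ({x, z} : Finset V) := by rw [← hh]; simp
      simp only [mem_insert, mem_singleton] at this
      rcases this with h1 | h1
      · exact hxy h1.symm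
      · exact hyz h1
  have hDne : D.Nonempty := by
    rw [Finset.nonempty_iff_ne_empty]
    intro h0
    rw [h0, bdry_empty, Finset.card_empty] at hCcard
    omega
  have hD3 : ∀ t ∈ D, t.card = 3 := fun t ht => h.card3 t (hD ht)
  have hCN : ∀ e ∈ bdry D, e ⊆ ({x, y, z} : Finset V) := by
    intro e he
    rw [hb] at he
    simp only [mem_insert, mem_singleton] at he
    rcases he with rfl | rfl | rfl <;> intro a ha <;> simp only [mem_insert, mem_singleton] at ha ⊢ <;>
      tauto
  obtain ⟨X, hX⟩ : ∃ X : Finset V, X = univ.filter (fun w => w ∉ ({x, y, z} : Finset V) ∧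
    (star D w).Nonempty) := ⟨_, rfl⟩
  have hXm : ∀ w, w ∈ X ↔ w ∉ ({x, y, z} : Finset V) ∧ (star D w).Nonempty := by
    intro w
    rw [hX]
    simp only [mem_filter, mem_univ, true_and]
  have ha : ∀ w ∈ X, w ∈ I ∧ star T w ⊆ D := by
    intro w hw
    rw [hXm] at hw
    exact inside h hD (fun e he hwe => hw.1 (hCN e he hwe)) hw.2
  have ha' : ∀ e ∈ edges T, ∀ w ∈ X, w ∈ e → e ∈ edges D := by
    intro e he w hw hwe
    rw [mem_edges] at he ⊢
    obtain ⟨h1, t, ht, het⟩ := he
    exact ⟨h1, t, (ha w hw).2 (mem_star.2 ⟨ht, het hwe⟩), het⟩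
  have hEDsub : ∀ e ∈ edges D, ∀ w ∈ e, w ∈ X ∨ w ∈ ({x, y, z} : Finset V) := by
    intro e he w hw
    rw [mem_edges] at he
    obtain ⟨-, t, ht, het⟩ := he
    by_cases h1 : w ∈ ({x, y, z} : Finset V)
    · exact Or.inr h1
    · left
      rw [hXm]
      exact ⟨h1, t, mem_star.2 ⟨ht, het hw⟩⟩
  have hCED : bdry D ⊆ edges D := bdry_subset_edges (Finset.Subset.refl D)
  -- Euler
  have htd : ∀ e ∈ edges D, tdeg D e = if e ∈ bdry D then 1 else 2 := by
    intro e he
    have h1 := he
    rw [mem_edges] at h1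
    obtain ⟨h2, t, ht, het⟩ := h1
    have h3 : 0 < tdeg D e := Finset.card_pos.2 ⟨t, mem_filter.2 ⟨ht, het⟩⟩
    have h4 : tdeg D e ≤ 2 := by
      refine le_trans ?_ (h.le2 e h2)
      exact Finset.card_le_card (Finset.filter_subset_filter _ hD)
    split_ifs with h5
    · rw [mem_bdry] at h5
      obtain ⟨k, hk⟩ := h5.2
      omega
    · rw [mem_bdry] at h5
      have h6 : ¬ Odd (tdeg D e) := fun h7 => h5 ⟨h2, h7⟩
      rw [Nat.not_odd_iff_even] at h6
      obtain ⟨k, hk⟩ := h6
      omega
  have heuler : 3 * D.card + 3 = 2 * (edges D).card := by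
    rw [← three_card hD3, Finset.sum_congr rfl htd, Finset.sum_ite, Finset.sum_const,
      Finset.sum_const]
    have h1 : (edges D).filter (fun e => e ∈ bdry D) = bdry D := by
      ext e
      rw [mem_filter]
      exact ⟨fun hh => hh.2, fun hh => ⟨hCED hh, hh⟩⟩
    have h2 := Finset.card_filter_add_card_filter_not (s := edges D) (fun e => e ∈ bdry D)
    rw [h1, hCcard] at h2
    rw [h1, hCcard, smul_eq_mul, smul_eq_mul]
    omega
  have hcount : (edges D).card + 1 ≤ X.card + 3 + D.card := by
    obtain ⟨W, hW⟩ : ∃ W : Finset V, W = X ∪ {x, y, z} := ⟨_, rfl⟩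
    have hWc : W.card ≤ X.card + 3 := by
      rw [hW]
      exact (Finset.card_union_le _ _).trans (Nat.add_le_add_left Finset.card_le_three _)
    have h1 := cyc_count (E := edges D) (W := W) (fun e he => (mem_edges.1 he).1) (fun e he w hw => by
      rw [hW, mem_union]
      exact hEDsub e he w hw) ⟨x, by rw [hW, mem_union]; right; simp⟩
    have h2 : ((edges D).powerset.filter (fun C => IsCyc C)).card ≤ 2 ^ D.card := by
      have h3 : (edges D).powerset.filter (fun C => IsCyc C) ⊆ D.powerset.image bdry := by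
        intro C' hC'
        rw [mem_filter, mem_powerset] at hC'
        obtain ⟨D', hD', hb'⟩ := closure h hD hDne hCcard.le hC'.1 hC'.2
        exact mem_image.2 ⟨D', mem_powerset.2 hD', hb'⟩
      refine (Finset.card_le_card h3).trans (Finset.card_image_le.trans ?_)
      rw [Finset.card_powerset]
    have h4 : 2 ^ ((edges D).card + 1) ≤ 2 ^ (W.card + D.card) := by
      rw [pow_add 2 W.card D.card]
      exact h1.trans (Nat.mul_le_mul_left _ h2)
    have h5 := (Nat.pow_le_pow_iff_right (by norm_num : 1 < 2)).1 h4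
    omega
  have hE3 : 3 ≤ (edges D).card := by
    rw [← hCcard]
    exact Finset.card_le_card hCED
  have hXne : X.Nonempty := by
    rw [Finset.nonempty_iff_ne_empty]
    intro h0
    rw [h0, Finset.card_empty] at hcount
    have hd1 : D.card = 1 := by omega
    obtain ⟨t, ht⟩ := Finset.card_eq_one.1 hd1
    have htD : t ∈ D := by rw [ht]; simp
    have ht3 := hD3 t htD
    have h1 : ∀ e ∈ bdry D, e ⊆ t := by
      intro e he
      rw [ht, mem_bdry_single ht3] at he
      exact he.2
    have h2 : ({x, y, z} : Finset V) ⊆ t := by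
      have e1 := h1 {x, y} (by rw [hb]; simp)
      have e2 := h1 {y, z} (by rw [hb]; simp)
      intro a haa
      simp only [mem_insert, mem_singleton] at haa
      rcases haa with rfl | rfl | rfl
      · exact e1 (by simp)
      · exact e1 (by simp)
      · exact e2 (by simp)
    have h3 : ({x, y, z} : Finset V).card = 3 := Finset.card_eq_three.2
      ⟨x, y, z, hxy, hxz, hyz, rfl⟩
    have h4 : ({x, y, z} : Finset V) = t := Finset.eq_of_subset_of_card_le h2 (by rw [ht3, h3])
    apply hxyz
    rw [h4]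
    exact hD htD
  -- the degree sum
  have hsum : ∑ w ∈ X, (star T w).card + 3 + 3 ≤ (edges D).card + 3 * X.card := by
    have h1 : ∑ w ∈ X, (star T w).card = ∑ w ∈ X, (nb (edges T) w).card :=
      Finset.sum_congr rfl fun w hw => (star_card h (ha w hw).1).symm
    rw [h1, degsum (fun e he => (mem_edges.1 he).1) X]
    have h2 := planar h (A := X) (fun w hw => (ha w hw).1) hXne
    have h3 : ((edges T).filter (fun e => (e ∩ X).Nonempty)).card + 3 ≤ (edges D).card := by
      have h4 : (edges T).filter (fun e => (e ∩ X).Nonempty) ⊆ edges D \ bdry D := by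
        intro e he
        rw [mem_filter] at he
        obtain ⟨he1, w, hw⟩ := he
        rw [mem_inter] at hw
        rw [mem_sdiff]
        refine ⟨ha' e he1 w hw.2 hw.1, fun he2 => ?_⟩
        exact ((hXm w).1 hw.2).1 (hCN e he2 hw.1)
      have h5 := Finset.card_le_card h4
      rw [Finset.card_sdiff_of_subset hCED, hCcard] at h5
      omega
    omega
  have hsmall : ∃ w ∈ X, (star T w).card ≤ 5 := by
    by_contra hcon
    push Not at hcon
    have h1 : ∑ _w ∈ X, 6 ≤ ∑ w ∈ X, (star T w).card := Finset.sum_le_sum fun w hw => hcon w hw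
    rw [Finset.sum_const, smul_eq_mul] at h1
    have h2 := hXne.card_pos
    omega
  obtain ⟨w, hwX, hw5⟩ := hsmall
  refine ⟨w, (ha w hwX).1, hw5, ?_⟩
  intro a b hab haw hbw e1 e2 e3
  by_contra hT
  have hwN := ((hXm w).1 hwX).1
  have f1 : ({w, a} : Finset V) ∈ edges D := ha' _ e1 w hwX (by simp)
  have f2 : ({w, b} : Finset V) ∈ edges D := ha' _ e2 w hwX (by simp)
  have f3 : ({a, b} : Finset V) ∈ edges D := by
    rcases hEDsub _ f1 a (by simp) with h1 | h1
    · exact ha' _ e3 a h1 (by simp)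
    · rcases hEDsub _ f2 b (by simp) with h2 | h2
      · exact ha' _ e3 b h2 (by simp)
      · apply hCED
        rw [hb]
        exact pair_mem hab h1 h2
  have hsub : ({{w, a}, {a, b}, {w, b}} : Finset (Finset V)) ⊆ edges D := by
    intro e he
    simp only [mem_insert, mem_singleton] at he
    rcases he with rfl | rfl | rfl
    · exact f1
    · exact f3
    · exact f2
  obtain ⟨D', hD', hb'⟩ := closure h hD hDne hCcard.le hsub
    (isCyc_triangle haw.symm hab hbw.symm)
  have hne : D' ≠ D := by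
    intro hh
    have h1 : ({w, a} : Finset V) ∈ bdry D := by
      rw [← hh, hb']
      simp
    exact hwN (hCN _ h1 (by simp))
  have hlt : D'.card < D.card := Finset.card_lt_card (Finset.ssubset_iff_subset_ne.2 ⟨hD', hne⟩)
  have hmem : D' ∈ T.powerset.filter Bad := by
    rw [mem_filter, mem_powerset, hBad]
    exact ⟨hD'.trans hD, w, a, b, haw.symm, hab, hbw.symm, e1, e3, e2, hT, hb'⟩
  exact absurd (hmin D' hmem) (not_le.2 hlt)

end Pool.Agent.Spl1
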