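import Pool.Agent.Spl1.Red
import Pool.Agent.Spl1.Nonfac

/-!
# The count condition is sufficient on a disc (assembly, proved from the stubs)
-/

set_option autoImplicit false

namespace Pool.Agent.Spl1

open Finset

variable {V : Type*} [Fintype V] [DecidableEq V]

/-- if every vertex of small degree outside `X` is blocked then there is no vertex outside `X` -/
theorem no_sector {D : ℕ} {T F : Finset (Finset V)} {I : Finset V} (hG : Good T I)
    (hF : F ⊆ edges T) (hA : Adm F I) (hS : Sparse D F I) {X : Finset V} (hX : X ⊆ I)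
    (hXt : Tight D F I X)
    (hB : ∀ v ∈ I, v ∉ X → (nb F v).card ≤ D + 2 → Blocked F I X v) :
    ∀ n, ∀ K ⊆ I \ X, K.card = n → K.Nonempty → ∀ v ∈ I \ X, v ∉ K →
      (∀ e ∈ F, (e ∩ K).Nonempty → e ∩ I ⊆ insert v (X ∪ K)) →
      (F.filter (fun e => (e ∩ K).Nonempty ∧ v ∈ e)).card ≤ 1 → False := by
  intro n
  induction n using Nat.strong_induction_on with
  | _ n ih =>
  intro K hK hKn hne v hv hvK hcl h1
  have h1' : (F.filter (fun e => (e ∩ K).Nonempty ∧ ¬ e ∩ I ⊆ X ∪ K)).card ≤ 1 := by
    refine le_trans (card_le_card ?_) h1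
    intro e he
    rw [mem_filter] at he ⊢
    refine ⟨he.1, he.2.1, ?_⟩
    by_contra hve
    apply he.2.2
    intro z hz
    have := hcl e he.1 he.2.1 hz
    rw [mem_insert] at this
    rcases this with rfl | h
    · exact absurd (mem_inter.1 hz).1 hve
    · exact h
  obtain ⟨w, hw, hwd⟩ := deg_small hG hF hA hS hX hXt hK hne h1'
  have hwIX := hK hw
  rw [mem_sdiff] at hwIX
  obtain ⟨⟨y, hy, hyI, hyX, z, hz, hzI, hzX, hyz⟩, hsep⟩ := hB w hwIX.1 hwIX.2 hwd
  set B := (I \ X).erase w with hBdef
  have memB : ∀ u ∈ nb F w, u ∈ I → u ∉ X → u ∈ B := by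
    intro u hu huI huX
    rw [hBdef, mem_erase, mem_sdiff]
    exact ⟨(mem_nb.1 hu).1, huI, huX⟩
  have hyB := memB y hy hyI hyX
  have hzB := memB z hz hzI hzX
  have hdisj := cls_disjoint hzB (hsep y hy hyI hyX z hz hzI hzX hyz)
  -- choose the class which does not contain v
  have key : ∀ y ∈ nb F w, y ∈ I → y ∉ X → v ∉ Cls F B y → False := by
    intro y hy hyI hyX hvy
    have hyB := memB y hy hyI hyX
    set R := Cls F B y with hR
    have hRB : R ⊆ B := cls_subset F B y
    have hyR : y ∈ R := mem_cls_self hyB
    have hwR : w ∉ R := fun h => (mem_erase.1 (hRB h)).1 rfl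
    -- neighbours of R
    have hRcl : ∀ e ∈ F, (e ∩ R).Nonempty → e ∩ I ⊆ insert w (X ∪ R) := by
      intro e he hne' u hu
      rw [mem_inter] at hu
      rw [mem_insert, mem_union]
      by_cases huw : u = w
      · exact Or.inl huw
      by_cases huX : u ∈ X
      · exact Or.inr (Or.inl huX)
      right; right
      have huB : u ∈ B := by
        rw [hBdef, mem_erase, mem_sdiff]; exact ⟨huw, hu.2, huX⟩
      obtain ⟨r, hr⟩ := hne'
      rw [mem_inter] at hr
      by_cases hur : u = r
      · rw [hur]; exact hr.2
      have heB : e ⊆ B := by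
        intro q hq
        have h2 := (hA e he).1
        have : q = u ∨ q = r := by
          by_contra hcon
          push Not at hcon
          have h3 : ({q, u, r} : Finset V) ⊆ e := by
            intro a ha
            simp only [mem_insert, mem_singleton] at ha
            rcases ha with rfl | rfl | rfl
            · exact hq
            · exact hu.1
            · exact hr.1
          have h4 := card_le_card h3
          rw [card_eq_three.2 ⟨q, u, r, hcon.1, hcon.2, hur, rfl⟩, h2] at h4
          omega
        rcases this with rfl | rfl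
        · exact huB
        · exact hRB hr.2
      exact cls_closed he heB ⟨r, mem_inter.2 hr⟩ hu.1
    -- R is contained in K
    have hRK : R ⊆ K := by
      have hZ : R ⊆ R ∩ K := by
        refine cls_min (inter_subset_left.trans hRB) ?_ ?_
        · rw [mem_inter]
          refine ⟨hyR, ?_⟩
          have h3 := hcl {w, y} (mem_nb.1 hy).2 ⟨w, mem_inter.2 ⟨mem_insert_self _ _, hw⟩⟩
            (mem_inter.2 ⟨mem_insert_of_mem (mem_singleton_self _), hyI⟩)
          rw [mem_insert, mem_union] at h3
          rcases h3 with h3 | h3 | h3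
          · exact absurd (h3 ▸ hyR) hvy
          · exact absurd h3 hyX
          · exact h3
        · intro e he heB hne'
          obtain ⟨r, hr⟩ := hne'
          rw [mem_inter, mem_inter] at hr
          have heR : e ⊆ R := cls_closed he heB ⟨r, mem_inter.2 ⟨hr.1, hr.2.1⟩⟩
          intro q hq
          rw [mem_inter]
          refine ⟨heR hq, ?_⟩
          have hqB := heB hq
          rw [hBdef, mem_erase, mem_sdiff] at hqB
          have h3 := hcl e he ⟨r, mem_inter.2 ⟨hr.1, hr.2.2⟩⟩ (mem_inter.2 ⟨hq, hqB.2.1⟩)
          rw [mem_insert, mem_union] at h3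
          rcases h3 with h3 | h3 | h3
          · exact absurd (h3 ▸ heR hq) hvy
          · exact absurd h3 hqB.2.2
          · exact h3
      exact hZ.trans inter_subset_right
    have hlt : R.card < n := by
      rw [← hKn]
      exact card_lt_card ⟨hRK, fun h => hwR (h hw)⟩
    refine ih R.card hlt R (hRK.trans hK) rfl ⟨y, hyR⟩ w (hK hw) hwR hRcl ?_
    rw [card_le_one]
    have aux : ∀ e ∈ F.filter (fun e => (e ∩ R).Nonempty ∧ w ∈ e), e = {w, y} := by
      intro e he
      rw [mem_filter] at he
      obtain ⟨r, hr⟩ := he.2.1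
      rw [mem_inter] at hr
      have hrw : r ≠ w := fun h => hwR (h ▸ hr.2)
      have heq : e = {w, r} := by
        symm
        apply eq_of_subset_of_card_le
        · intro a ha
          simp only [mem_insert, mem_singleton] at ha
          rcases ha with rfl | rfl
          · exact he.2.2
          · exact hr.1
        · rw [(hA e he.1).1, card_pair hrw.symm]
      have hrB := hRB hr.2
      rw [hBdef, mem_erase, mem_sdiff] at hrB
      by_contra hcon
      have hry : y ≠ r := by
        rintro rfl
        exact hcon heq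
      exact hsep y hy hyI hyX r (mem_nb.2 ⟨hrw, heq ▸ he.1⟩) hrB.2.1 hrB.2.2 hry hr.2
    intro e he e' he'
    rw [aux e he, aux e' he']
  by_cases hv1 : v ∈ Cls F B y
  · exact key z hz hzI hzX (fun h => (Finset.disjoint_left.1 hdisj) hv1 h)
  · exact key y hy hyI hyX hv1

/-- the case where every 3-cycle is a triangle -/
theorem main_step {D : ℕ} (hD : 4 ≤ D) {T F : Finset (Finset V)} {I : Finset V} (hG : Good T I)
    (hF : F ⊆ edges T) (hA : Adm F I) (hS : Sparse D F I) (hI : I.Nonempty)
    (hIH : ∀ v ∈ I, IHyp D (I.erase v)) (hc : ∀ v, Chordless T v) : GI D F I := by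
  by_contra hGI
  obtain ⟨X, hX, hXI, hmax⟩ := exists_maxcard hA hS hI
  have hXt : ∃ v ∈ I, v ∉ X := by
    by_contra h
    push Not at h
    exact hXI (Subset.antisymm hX h)
  obtain ⟨u, hu, huX⟩ := hXt
  have hXt := (hmax u hu huX).tight
  have hB : ∀ v ∈ I, v ∉ X → (nb F v).card ≤ D + 2 → Blocked F I X v := by
    intro v hv hvX hd
    rcases Nat.lt_or_ge (nb F v).card (D + 1) with h | h
    · exact absurd (red1 hG hF hA hS hv (hc v) (hIH v hv) (by omega)) hGI
    rcases Nat.lt_or_ge (nb F v).card (D + 2) with h' | h'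
    · exact absurd (red2 hD hG hF hA hS hv (hc v) (hIH v hv) (by omega)) hGI
    · rcases red3 hD hG hF hA hS hv (hc v) (hIH v hv) (by omega) (hmax v hv hvX) with h3 | h3
      · exact absurd h3 hGI
      · exact h3
  -- a vertex of small degree
  have hKne : (I \ X).Nonempty := ⟨u, mem_sdiff.2 ⟨hu, huX⟩⟩
  obtain ⟨v, hv, hvd⟩ := deg_small hG hF hA hS hX hXt (Subset.refl (I \ X)) hKne (by
    rw [filter_eq_empty_iff.2]
    · simp
    · intro e he hcon
      apply hcon.2
      intro z hz
      rw [mem_union, mem_sdiff]
      by_cases h : z ∈ X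
      · exact Or.inl h
      · exact Or.inr ⟨(mem_inter.1 hz).2, h⟩)
  have hv' := mem_sdiff.1 hv
  obtain ⟨⟨y, hy, hyI, hyX, _⟩, hsep⟩ := hB v hv'.1 hv'.2 hvd
  set B := (I \ X).erase v with hBdef
  have hyB : y ∈ B := by
    rw [hBdef, mem_erase, mem_sdiff]
    exact ⟨(mem_nb.1 hy).1, hyI, hyX⟩
  have hRB : Cls F B y ⊆ B := cls_subset F B y
  have hvR : v ∉ Cls F B y := fun h => (mem_erase.1 (hRB h)).1 rfl
  refine no_sector hG hF hA hS hX hXt hB (Cls F B y).card (Cls F B y)
    (hRB.trans (erase_subset _ _)) rfl ⟨y, mem_cls_self hyB⟩ v hv hvR ?_ ?_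
  · intro e he hne' z hz
    rw [mem_inter] at hz
    rw [mem_insert, mem_union]
    by_cases hzv : z = v
    · exact Or.inl hzv
    by_cases hzX : z ∈ X
    · exact Or.inr (Or.inl hzX)
    right; right
    have hzB : z ∈ B := by
      rw [hBdef, mem_erase, mem_sdiff]; exact ⟨hzv, hz.2, hzX⟩
    obtain ⟨r, hr⟩ := hne'
    rw [mem_inter] at hr
    by_cases hzr : z = r
    · rw [hzr]; exact hr.2
    have heq : e = {z, r} := by
      symm
      apply eq_of_subset_of_card_le
      · intro a ha
        simp only [mem_insert, mem_singleton] at ha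
        rcases ha with rfl | rfl
        · exact hz.1
        · exact hr.1
      · rw [(hA e he).1, card_pair hzr]
    have heB : e ⊆ B := by
      rw [heq]
      intro a ha
      simp only [mem_insert, mem_singleton] at ha
      rcases ha with rfl | rfl
      · exact hzB
      · exact hRB hr.2
    exact cls_closed he heB ⟨r, mem_inter.2 hr⟩ hz.1
  · rw [card_le_one]
    have aux : ∀ e ∈ F.filter (fun e => (e ∩ Cls F B y).Nonempty ∧ v ∈ e), e = {v, y} := by
      intro e he
      rw [mem_filter] at he
      obtain ⟨r, hr⟩ := he.2.1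
      rw [mem_inter] at hr
      have hrv : r ≠ v := fun h => hvR (h ▸ hr.2)
      have heq : e = {v, r} := by
        symm
        apply eq_of_subset_of_card_le
        · intro a ha
          simp only [mem_insert, mem_singleton] at ha
          rcases ha with rfl | rfl
          · exact he.2.2
          · exact hr.1
        · rw [(hA e he.1).1, card_pair hrv.symm]
      have hrB := hRB hr.2
      rw [hBdef, mem_erase, mem_sdiff] at hrB
      by_contra hcon
      have hry : y ≠ r := by
        rintro rfl
        exact hcon heq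
      exact hsep y hy hyI hyX r (mem_nb.2 ⟨hrv, heq ▸ he.1⟩) hrB.2.1 hrB.2.2 hry hr.2
    intro e he e' he'
    rw [aux e he, aux e' he']

/-- MAIN THEOREM: on a disc the count condition implies generic independence -/
theorem main {D : ℕ} (hD : 4 ≤ D) : ∀ n, ∀ I : Finset V, I.card = n → IHyp D I := by
  intro n
  induction n with
  | zero =>
    intro I hI T F hG hF hA hS
    have hI0 : I = ∅ := card_eq_zero.1 hI
    apply GI_of_exists
    refine ⟨0, fun ω hω u v => ?_⟩
    by_contra h
    have h1 := (hω.supp u v h).2
    have h2 := (hA _ h1).2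
    rw [hI0] at h2
    simp at h2
  | succ n ih =>
    intro I hI T F hG hF hA hS
    have hIH : ∀ v ∈ I, IHyp D (I.erase v) := by
      intro v hv
      apply ih
      rw [card_erase_of_mem hv, hI]
      rfl
    have hne : I.Nonempty := by
      rw [← card_pos, hI]; omega
    by_cases hc : ∃ v, ¬ Chordless T v
    · obtain ⟨v, hv, h5, hcv⟩ := nonfac hG hc
      have hd : (nb F v).card ≤ 5 :=
        (card_le_card (nb_subset hF v)).trans (by rw [star_card hG hv]; exact h5)
      rcases Nat.lt_or_ge D (nb F v).card with h | h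
      · exact red2 hD hG hF hA hS hv hcv (hIH v hv) (by omega)
      · exact red1 hG hF hA hS hv hcv (hIH v hv) h
    · push Not at hc
      exact main_step hD hG hF hA hS hne hIH hc

end Pool.Agent.Spl1
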