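import Pool.Agent.Spl1.Cyc

/-!
# The planar bound

`A ⊆ I` nonempty, `E' = {e ∈ edges T | e ⊆ A}`.  Claim `|E'| + 3 ≤ 3 |A|`.

Paper proof.  Let `𝒟 = {D ⊆ T | bdry D ⊆ E'}`.  If `D ∈ 𝒟` and `e` is a pair not in `E'` then `tdeg D e` is
even; since `tdeg T e ≤ 2`, `D` contains all the triangles of `T` at `e` or none of them (and none if
`tdeg T e = 1`).  Hence `𝒟` is closed under `∩`, `∪`, `\` (check it on each `e ∉ E'`).
Atoms: the minimal nonempty members of `𝒟`.  Two different atoms are disjoint, every `D ∈ 𝒟` is the union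
of the atoms contained in it (strong induction on `|D|`: if `D ≠ ∅` it contains an atom `K`, `D \ K ∈ 𝒟`).
So `|𝒟| ≤ 2^m`, `m` the number of atoms.
By `H1` every cycle `C ⊆ E'` is the boundary of a member of `𝒟`, so `#{C ⊆ E' | IsCyc C} ≤ 2^m`, and
`cyc_count` with `W = A` gives `|E'| + 1 ≤ |A| + m`.
For each atom `K`: `bdry K ≠ ∅` by `H2`, and it is a cycle, so `|bdry K| ≥ 3` (`three_le_card_of_isCyc`).
Each `e ∈ E'` is in at most two of the sets `bdry K` (it is in at most two triangles and atoms are disjoint,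
`e ∈ bdry K` implies that some triangle of `K` contains `e`).  So `3 m ≤ 2 |E'|`.  Together
`3|E'| + 3 ≤ 3|A| + 3m ≤ 3|A| + 2|E'|`.
-/

set_option autoImplicit false

namespace Pool.Agent.Spl1

open Finset

variable {V : Type*} [Fintype V] [DecidableEq V]

/-- `D` contains all or none of the triangles at each pair outside `E'` -/
def Sat (T E' D : Finset (Finset V)) : Prop :=
  ∀ e : Finset V, e.card = 2 → e ∉ E' →
    (∀ t ∈ D, ¬ e ⊆ t) ∨ ((∀ t ∈ T, e ⊆ t → t ∈ D) ∧ tdeg T e = 2)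

theorem sat_iff {T E' D : Finset (Finset V)} (h2 : ∀ e : Finset V, e.card = 2 → tdeg T e ≤ 2)
    (hD : D ⊆ T) : bdry D ⊆ E' ↔ Sat T E' D := by
  constructor
  · intro h e he heE
    have h1 : ¬ Odd (tdeg D e) := fun h' => heE (h (mem_bdry.2 ⟨he, h'⟩))
    have h3 : D.filter (fun t => e ⊆ t) ⊆ T.filter (fun t => e ⊆ t) := Finset.filter_subset_filter _ hD
    have h4 : tdeg D e ≤ tdeg T e := Finset.card_le_card h3
    have h5 := h2 e he
    rw [Nat.not_odd_iff_even] at h1
    obtain ⟨r, hr⟩ := h1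
    have h6 : tdeg D e = 0 ∨ tdeg D e = 2 := by omega
    rcases h6 with h6 | h6
    · left
      intro t ht het
      unfold tdeg at h6
      rw [Finset.card_eq_zero, Finset.filter_eq_empty_iff] at h6
      exact h6 ht het
    · right
      have h7 : tdeg T e = 2 := by omega
      refine ⟨fun t ht het => ?_, h7⟩
      have h8 : D.filter (fun t => e ⊆ t) = T.filter (fun t => e ⊆ t) := by
        apply Finset.eq_of_subset_of_card_le h3
        unfold tdeg at h6 h7
        omega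
      have h9 : t ∈ T.filter (fun t => e ⊆ t) := Finset.mem_filter.2 ⟨ht, het⟩
      rw [← h8] at h9
      exact (Finset.mem_filter.1 h9).1
  · intro h e he
    rw [mem_bdry] at he
    by_contra heE
    rcases h e he.1 heE with h1 | ⟨h1, h3⟩
    · have h4 : tdeg D e = 0 := by
        unfold tdeg
        rw [Finset.card_eq_zero, Finset.filter_eq_empty_iff]
        intro t ht
        exact h1 t ht
      rw [h4] at he
      exact absurd he.2 (by decide)
    · have h4 : tdeg D e = tdeg T e := by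
        unfold tdeg
        congr 1
        ext t
        rw [Finset.mem_filter, Finset.mem_filter]
        exact ⟨fun h5 => ⟨hD h5.1, h5.2⟩, fun h5 => ⟨h1 t h5.1 h5.2, h5.2⟩⟩
      rw [h4, h3] at he
      exact absurd he.2 (by decide)

theorem sat_sdiff {T E' D₁ D₂ : Finset (Finset V)} (hD : D₁ ⊆ T) (h₁ : Sat T E' D₁) (h₂ : Sat T E' D₂) :
    Sat T E' (D₁ \ D₂) := by
  intro e he heE
  rcases h₁ e he heE with h1 | ⟨h1, h3⟩
  · left
    intro t ht
    exact h1 t (Finset.mem_sdiff.1 ht).1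
  · rcases h₂ e he heE with h2 | ⟨h2, _⟩
    · right
      refine ⟨fun t ht het => Finset.mem_sdiff.2 ⟨h1 t ht het, fun h4 => h2 t h4 het⟩, h3⟩
    · left
      intro t ht het
      rw [Finset.mem_sdiff] at ht
      exact ht.2 (h2 t (hD ht.1) het)

open Classical in
/-- the sets of triangles with boundary in `E'` -/
noncomputable def DD (T E' : Finset (Finset V)) : Finset (Finset (Finset V)) :=
  T.powerset.filter (fun D => bdry D ⊆ E')

theorem mem_DD {T E' D : Finset (Finset V)} : D ∈ DD T E' ↔ D ⊆ T ∧ bdry D ⊆ E' := by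
  unfold DD
  rw [Finset.mem_filter, Finset.mem_powerset]

theorem DD_sdiff {T E' D₁ D₂ : Finset (Finset V)} (h2 : ∀ e : Finset V, e.card = 2 → tdeg T e ≤ 2)
    (h₁ : D₁ ∈ DD T E') (h₂ : D₂ ∈ DD T E') : D₁ \ D₂ ∈ DD T E' := by
  rw [mem_DD] at h₁ h₂ ⊢
  refine ⟨Finset.sdiff_subset.trans h₁.1, ?_⟩
  rw [sat_iff h2 (Finset.sdiff_subset.trans h₁.1)]
  exact sat_sdiff h₁.1 ((sat_iff h2 h₁.1).1 h₁.2) ((sat_iff h2 h₂.1).1 h₂.2)

theorem DD_inter {T E' D₁ D₂ : Finset (Finset V)} (h2 : ∀ e : Finset V, e.card = 2 → tdeg T e ≤ 2)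
    (h₁ : D₁ ∈ DD T E') (h₂ : D₂ ∈ DD T E') : D₁ ∩ D₂ ∈ DD T E' := by
  have h := DD_sdiff h2 h₁ (DD_sdiff h2 h₁ h₂)
  have h3 : D₁ \ (D₁ \ D₂) = D₁ ∩ D₂ := by
    ext t
    simp only [Finset.mem_sdiff, Finset.mem_inter]
    tauto
  rwa [h3] at h

open Classical in
/-- the atoms -/
noncomputable def Atoms (T E' : Finset (Finset V)) : Finset (Finset (Finset V)) :=
  (DD T E').filter (fun K => K.Nonempty ∧ ∀ D ∈ DD T E', D ⊆ K → D.Nonempty → D = K)

theorem mem_Atoms {T E' K : Finset (Finset V)} : K ∈ Atoms T E' ↔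
    K ∈ DD T E' ∧ K.Nonempty ∧ ∀ D ∈ DD T E', D ⊆ K → D.Nonempty → D = K := by
  unfold Atoms
  rw [Finset.mem_filter]

theorem atoms_eq {T E' K₁ K₂ : Finset (Finset V)} (h2 : ∀ e : Finset V, e.card = 2 → tdeg T e ≤ 2)
    (h₁ : K₁ ∈ Atoms T E') (h₂ : K₂ ∈ Atoms T E') {t : Finset V} (ht₁ : t ∈ K₁) (ht₂ : t ∈ K₂) :
    K₁ = K₂ := by
  rw [mem_Atoms] at h₁ h₂
  have h := DD_inter h2 h₁.1 h₂.1
  have hne : (K₁ ∩ K₂).Nonempty := ⟨t, Finset.mem_inter.2 ⟨ht₁, ht₂⟩⟩
  rw [← h₁.2.2 _ h Finset.inter_subset_left hne]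
  exact h₂.2.2 _ h Finset.inter_subset_right hne

/-- every nonempty member contains an atom -/
theorem exists_atom {T E' : Finset (Finset V)} : ∀ (n : ℕ) (D : Finset (Finset V)), D.card = n →
    D ∈ DD T E' → D.Nonempty → ∃ K ∈ Atoms T E', K ⊆ D := by
  intro n
  induction n using Nat.strong_induction_on with
  | _ n ih =>
  intro D hn hD hne
  by_cases h : ∀ D' ∈ DD T E', D' ⊆ D → D'.Nonempty → D' = D
  · exact ⟨D, mem_Atoms.2 ⟨hD, hne, h⟩, Finset.Subset.refl _⟩
  · push Not at h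
    obtain ⟨D', h1, h3, h4, h5⟩ := h
    have h6 : D'.card < n := by
      rw [← hn]
      exact Finset.card_lt_card (Finset.ssubset_iff_subset_ne.2 ⟨h3, h5⟩)
    obtain ⟨K, hK, hKD⟩ := ih _ h6 D' rfl h1 h4
    exact ⟨K, hK, hKD.trans h3⟩

/-- every member is the union of its atoms -/
theorem cover_atoms {T E' : Finset (Finset V)} (h2 : ∀ e : Finset V, e.card = 2 → tdeg T e ≤ 2) :
    ∀ (n : ℕ) (D : Finset (Finset V)), D.card = n → D ∈ DD T E' → ∀ t ∈ D,
      ∃ K ∈ Atoms T E', K ⊆ D ∧ t ∈ K := by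
  intro n
  induction n using Nat.strong_induction_on with
  | _ n ih =>
  intro D hn hD t ht
  obtain ⟨K, hK, hKD⟩ := exists_atom D.card D rfl hD ⟨t, ht⟩
  by_cases htK : t ∈ K
  · exact ⟨K, hK, hKD, htK⟩
  · have hK' := mem_Atoms.1 hK
    have h1 := DD_sdiff h2 hD hK'.1
    have h3 : (D \ K).card < n := by
      rw [← hn]
      apply Finset.card_lt_card
      rw [Finset.ssubset_iff_subset_ne]
      refine ⟨Finset.sdiff_subset, fun h4 => ?_⟩
      obtain ⟨s, hs⟩ := hK'.2.1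
      have h5 : s ∈ D \ K := by
        rw [h4]
        exact hKD hs
      exact (Finset.mem_sdiff.1 h5).2 hs
    obtain ⟨K₂, hK₂, hK₂D, htK₂⟩ := ih _ h3 (D \ K) rfl h1 t (Finset.mem_sdiff.2 ⟨ht, htK⟩)
    exact ⟨K₂, hK₂, hK₂D.trans Finset.sdiff_subset, htK₂⟩

theorem card_DD_le {T E' : Finset (Finset V)} (h2 : ∀ e : Finset V, e.card = 2 → tdeg T e ≤ 2) :
    (DD T E').card ≤ 2 ^ (Atoms T E').card := by
  classical
  rw [← Finset.card_powerset]
  apply Finset.card_le_card_of_injOn (fun D => (Atoms T E').filter (fun K => K ⊆ D))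
  · intro D _
    rw [Finset.mem_coe, Finset.mem_powerset]
    exact Finset.filter_subset _ _
  · have key : ∀ D₁ ∈ DD T E', ∀ D₂ ∈ DD T E',
        (Atoms T E').filter (fun K => K ⊆ D₁) = (Atoms T E').filter (fun K => K ⊆ D₂) → D₁ ⊆ D₂ := by
      intro D₁ h₁ D₂ h₂ heq t ht
      obtain ⟨K, hK, hKD, htK⟩ := cover_atoms h2 D₁.card D₁ rfl h₁ t ht
      have h3 : K ∈ (Atoms T E').filter (fun K => K ⊆ D₁) := Finset.mem_filter.2 ⟨hK, hKD⟩
      rw [heq, Finset.mem_filter] at h3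
      exact h3.2 htK
    intro D₁ h₁ D₂ h₂ heq
    exact Finset.Subset.antisymm (key D₁ h₁ D₂ h₂ heq) (key D₂ h₂ D₁ h₁ heq.symm)

/-- an edge is in the boundary of at most two atoms -/
theorem card_atoms_at {T E' : Finset (Finset V)} (h2 : ∀ e : Finset V, e.card = 2 → tdeg T e ≤ 2)
    {e : Finset V} (he : e.card = 2) :
    ((Atoms T E').filter (fun K => e ∈ bdry K)).card ≤ 2 := by
  classical
  refine le_trans ?_ (h2 e he)
  have h : ∀ K : Finset (Finset V), ∃ t : Finset V, e ∈ bdry K → t ∈ K ∧ e ⊆ t := by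
    intro K
    by_cases hK : e ∈ bdry K
    · rw [mem_bdry] at hK
      have h1 := hK.2.pos
      unfold tdeg at h1
      rw [Finset.card_pos] at h1
      obtain ⟨t, ht⟩ := h1
      rw [Finset.mem_filter] at ht
      exact ⟨t, fun _ => ht⟩
    · exact ⟨∅, fun h' => absurd h' hK⟩
  choose f hf using h
  unfold tdeg
  apply Finset.card_le_card_of_injOn f
  · intro K hK
    rw [Finset.mem_coe, Finset.mem_filter] at hK
    rw [Finset.mem_coe, Finset.mem_filter]
    have h1 := hf K hK.2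
    exact ⟨(mem_DD.1 (mem_Atoms.1 hK.1).1).1 h1.1, h1.2⟩
  · intro K hK K' hK' heq
    rw [Finset.mem_coe, Finset.mem_filter] at hK hK'
    have h1 := (hf K hK.2).1
    have h3 := (hf K' hK'.2).1
    rw [← heq] at h3
    exact atoms_eq h2 hK.1 hK'.1 h1 h3

theorem planar {T : Finset (Finset V)} {I : Finset V} (h : Good T I) {A : Finset V} (hA : A ⊆ I)
    (hne : A.Nonempty) : ((edges T).filter (fun e => e ⊆ A)).card + 3 ≤ 3 * A.card := by
  classical
  set E' := (edges T).filter (fun e => e ⊆ A) with hE'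
  have hE2 : ∀ e ∈ E', e.card = 2 := by
    intro e he
    rw [hE', Finset.mem_filter, mem_edges] at he
    exact he.1.1
  have hEA : ∀ e ∈ E', e ⊆ A := by
    intro e he
    rw [hE', Finset.mem_filter] at he
    exact he.2
  have h1 := cyc_count hE2 hEA hne
  have h3 : (E'.powerset.filter (fun C => IsCyc C)).card ≤ (DD T E').card := by
    apply Finset.card_le_card_of_surjOn (fun D => bdry D)
    intro C hC
    rw [Finset.mem_coe, Finset.mem_filter, Finset.mem_powerset] at hC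
    obtain ⟨D, hD, hDC⟩ := h.H1 C (hC.1.trans (Finset.filter_subset _ _)) hC.2
    refine ⟨D, ?_, hDC⟩
    rw [Finset.mem_coe, mem_DD, hDC]
    exact ⟨hD, hC.1⟩
  have h4 := card_DD_le (E' := E') h.le2
  set m := (Atoms T E').card with hm
  have h5 : 2 ^ (E'.card + 1) ≤ 2 ^ (A.card + m) := by
    rw [pow_add 2 A.card m]
    exact h1.trans (Nat.mul_le_mul_left _ (h3.trans h4))
  have h6 : E'.card + 1 ≤ A.card + m := (Nat.pow_le_pow_iff_right (by norm_num)).1 h5
  have h7 : 3 * m ≤ 2 * E'.card := by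
    have h8 : ∑ K ∈ Atoms T E', (bdry K).card = ∑ e ∈ E', ((Atoms T E').filter (fun K => e ∈ bdry K)).card := by
      have h9 : ∀ K ∈ Atoms T E', (bdry K).card = (E'.filter (fun e => e ∈ bdry K)).card := by
        intro K hK
        congr 1
        ext e
        rw [Finset.mem_filter]
        exact ⟨fun h' => ⟨(mem_DD.1 (mem_Atoms.1 hK).1).2 h', h'⟩, fun h' => h'.2⟩
      rw [Finset.sum_congr rfl h9]
      exact Finset.sum_card_bipartiteAbove_eq_sum_card_bipartiteBelow (fun K e => e ∈ bdry K)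
    have h9 : ∑ K ∈ Atoms T E', 3 ≤ ∑ K ∈ Atoms T E', (bdry K).card := by
      apply Finset.sum_le_sum
      intro K hK
      have hK' := mem_Atoms.1 hK
      have hKT := (mem_DD.1 hK'.1).1
      apply three_le_card_of_isCyc (isCyc_bdry (fun t ht => h.card3 t (hKT ht)))
      rw [Finset.nonempty_iff_ne_empty]
      intro h10
      exact hK'.2.1.ne_empty (h.H2 K hKT h10)
    have h10 : ∑ e ∈ E', ((Atoms T E').filter (fun K => e ∈ bdry K)).card ≤ ∑ e ∈ E', 2 := by
      apply Finset.sum_le_sum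
      intro e he
      exact card_atoms_at h.le2 (hE2 e he)
    rw [Finset.sum_const, smul_eq_mul] at h9 h10
    omega
  omega

end Pool.Agent.Spl1
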