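import Pool.Agent.Spl1.Main

/-!
# The generic rank

`Stress D p F I` is the space of stresses, `defi D F I = max_{A ⊆ I} (cnt F I A - D |A|)` (`A = ∅` gives a
nonnegative number: the edges of `F` which do not meet `I`).

Paper proofs.
`hall_def` (deficiency version of Hall's theorem): let `δ = defi D F I`.  Relation between `F` and
`(I × Fin D) ⊕ Fin δ`: `e` is related to `(u, j)` if `u ∈ e`, and to every dummy.  For a nonempty `S ⊆ F` with
`A = ⋃_{e ∈ S} (e ∩ I)`: `|S| ≤ cnt F I A ≤ D |A| + δ` = number of elements related to `S`.  Hall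
(`Finset.all_card_le_biUnion_card_iff_exists_injective`) gives an injective `f`; `F₀` = the edges not mapped
to a dummy.  `|F \ F₀| ≤ δ`.  `Sparse`: the edges of `F₀` counted in `A` are mapped injectively into
`A × Fin D`.  `Adm`: an edge of `F₀` contains the vertex `u ∈ I` of its image.

`le_finrank`: fix `A ⊆ I`.  Choose an orientation `(a_e, b_e)` of every `e ∈ F` with `e ∩ I ⊆ A`.  A function
`x` on these edges defines `ω` (`ω a_e b_e = x e`, `ω b_e a_e = (-1)^D x e`, all others `0`); the equations at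
`u ∈ I \ A` hold trivially, those at `u ∈ A` are `D |A|` linear conditions.  So the kernel of the linear map
`(edges → ℝ) → (A × Fin D → ℝ)` embeds in `Stress`, its dimension is at least `cnt F I A - D |A|`.

`finrank_le`: if `Indep D p F₀ I` then restriction of `ω` to (one orientation of) the edges of `F \ F₀` is
injective on `Stress D p F I`: if `ω` vanishes there, it is a stress of `F₀`, so it is `0`.

`gen_rank`: `hall_def`, `main` for `F₀`, `finrank_le`, `le_finrank`.
-/

set_option autoImplicit false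

namespace Pool.Agent.Spl1

open Finset

variable {V : Type*} [Fintype V] [DecidableEq V]

/-- the space of stresses -/
def Stress (D : ℕ) (p : V × Fin 2 → ℝ) (F : Finset (Finset V)) (I : Finset V) :
    Submodule ℝ (V → V → ℝ) where
  carrier := {ω | IsStress D p F I ω}
  add_mem' := by
    intro a b ha hb
    refine ⟨fun u v h => ?_, fun u v => ?_, fun u hu j => ?_⟩
    · by_cases h1 : a u v = 0
      · have h2 : b u v ≠ 0 := by
          intro h2; apply h; simp [h1, h2]
        exact hb.supp u v h2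
      · exact ha.supp u v h1
    · simp only [Pi.add_apply]
      rw [ha.symm u v, hb.symm u v]; ring
    · simp only [Pi.add_apply, add_mul, sum_add_distrib]
      rw [ha.eq u hu j, hb.eq u hu j, add_zero]
  zero_mem' := by
    refine ⟨fun u v h => absurd rfl h, fun u v => by simp, fun u hu j => by simp⟩
  smul_mem' := by
    intro c a ha
    refine ⟨fun u v h => ?_, fun u v => ?_, fun u hu j => ?_⟩
    · apply ha.supp u v
      intro h1; apply h; simp [h1]
    · simp only [Pi.smul_apply, smul_eq_mul]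
      rw [ha.symm u v]; ring
    · simp only [Pi.smul_apply, smul_eq_mul, mul_assoc, ← mul_sum]
      rw [ha.eq u hu j, mul_zero]

/-- the maximal deficiency -/
def defi (D : ℕ) (F : Finset (Finset V)) (I : Finset V) : ℕ :=
  I.powerset.sup (fun A => cnt F I A - D * A.card)

omit [Fintype V] in
theorem cnt_le_defi (D : ℕ) (F : Finset (Finset V)) {I A : Finset V} (hA : A ⊆ I) :
    cnt F I A ≤ D * A.card + defi D F I := by
  have h : cnt F I A - D * A.card ≤ defi D F I :=
    Finset.le_sup (f := fun A => cnt F I A - D * A.card) (mem_powerset.2 hA)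
  omega

/-- the neighbourhoods in the bipartite graph of the deficiency version of Hall's theorem -/
def hnb (D δ : ℕ) (I e : Finset V) : Finset ((V × Fin D) ⊕ Fin δ) :=
  ((e ∩ I) ×ˢ (univ : Finset (Fin D))).disjSum univ

theorem hall_def (D : ℕ) (F : Finset (Finset V)) (I : Finset V) (h2 : ∀ e ∈ F, e.card = 2) :
    ∃ F₀ ⊆ F, Adm F₀ I ∧ Sparse D F₀ I ∧ F.card ≤ F₀.card + defi D F I := by
  classical
  set δ := defi D F I with hδ
  have hall : ∀ s : Finset {e // e ∈ F}, s.card ≤
      (s.biUnion (fun e => hnb D δ I e.1)).card := by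
    intro s
    rcases s.eq_empty_or_nonempty with hs | hs
    · simp [hs]
    set A : Finset V := s.biUnion (fun e => e.1 ∩ I) with hA
    have hAI : A ⊆ I := by
      rw [hA, biUnion_subset]
      intro e _
      exact inter_subset_right
    have h1 : s.card ≤ cnt F I A := by
      unfold cnt
      rw [← card_image_of_injective s (Subtype.val_injective)]
      refine card_le_card ?_
      intro e he
      rw [mem_image] at he
      obtain ⟨e', he', rfl⟩ := he
      rw [mem_filter]
      refine ⟨e'.2, ?_⟩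
      rw [hA]
      exact subset_biUnion_of_mem (fun e : {e // e ∈ F} => e.1 ∩ I) he'
    have h3 : (s.biUnion (fun e => hnb D δ I e.1)) =
        (A ×ˢ (univ : Finset (Fin D))).disjSum (univ : Finset (Fin δ)) := by
      ext z
      rw [mem_biUnion]
      cases z with
      | inl z =>
        obtain ⟨u, j⟩ := z
        simp only [hnb, inl_mem_disjSum, mem_product, mem_univ, and_true, hA, mem_biUnion]
      | inr z =>
        simp only [hnb, inr_mem_disjSum, mem_univ, and_true, iff_true]
        obtain ⟨e, he⟩ := hs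
        exact ⟨e, he⟩
    rw [h3, card_disjSum, card_product, card_univ, card_univ, Fintype.card_fin, Fintype.card_fin]
    have h4 := cnt_le_defi D F hAI
    calc s.card ≤ cnt F I A := h1
      _ ≤ D * A.card + δ := h4
      _ = A.card * D + δ := by ring
  obtain ⟨f, hf, hf'⟩ := (Finset.all_card_le_biUnion_card_iff_exists_injective _).1 hall
  -- the edges which are not mapped to a dummy
  set P : {e // e ∈ F} → Prop := fun e => (f e).isLeft = true with hP
  set F₀ : Finset (Finset V) := (univ.filter P).image Subtype.val with hF₀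
  have hmem : ∀ e, e ∈ F₀ → ∃ h : e ∈ F, ∃ u ∈ e ∩ I, ∃ j : Fin D, f ⟨e, h⟩ = Sum.inl (u, j) := by
    intro e he
    rw [hF₀, mem_image] at he
    obtain ⟨e', he', rfl⟩ := he
    refine ⟨e'.2, ?_⟩
    have h3 : (f e').isLeft = true := (mem_filter.1 he').2
    obtain ⟨z, hz⟩ := Sum.isLeft_iff.1 h3
    have h4 := hf' e'
    rw [hz] at h4
    obtain ⟨u, j⟩ := z
    simp only [hnb, inl_mem_disjSum, mem_product, mem_univ, and_true] at h4
    exact ⟨u, h4, j, hz⟩
  refine ⟨F₀, ?_, ?_, ?_, ?_⟩
  · intro e he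
    exact (hmem e he).1
  · intro e he
    obtain ⟨h, u, hu, -⟩ := hmem e he
    exact ⟨h2 e h, ⟨u, hu⟩⟩
  · intro A _
    have h5 : (F₀.filter (fun e => e ∩ I ⊆ A)).card ≤
        (univ.filter (fun e : {e // e ∈ F} => P e ∧ e.1 ∩ I ⊆ A)).card := by
      refine le_trans (card_le_card ?_) (card_image_le (f := Subtype.val))
      intro e he
      rw [mem_filter, hF₀, mem_image] at he
      obtain ⟨⟨e', he', rfl⟩, h⟩ := he
      rw [mem_image]
      exact ⟨e', mem_filter.2 ⟨mem_univ _, (mem_filter.1 he').2, h⟩, rfl⟩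
    have h6 : (univ.filter (fun e : {e // e ∈ F} => P e ∧ e.1 ∩ I ⊆ A)).card ≤
        ((A ×ˢ (univ : Finset (Fin D))).image (Sum.inl : V × Fin D → (V × Fin D) ⊕ Fin δ)).card := by
      rw [← card_image_of_injective _ hf]
      refine card_le_card ?_
      intro z hz
      rw [mem_image] at hz
      obtain ⟨e, he, rfl⟩ := hz
      obtain ⟨-, h7, h8⟩ := mem_filter.1 he
      obtain ⟨z, hz⟩ := Sum.isLeft_iff.1 h7
      have h4 := hf' e
      rw [hz] at h4 ⊢
      obtain ⟨u, j⟩ := z
      simp only [hnb, inl_mem_disjSum, mem_product, mem_univ, and_true] at h4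
      rw [mem_image]
      exact ⟨(u, j), mem_product.2 ⟨h8 h4, mem_univ _⟩, rfl⟩
    rw [card_image_of_injective _ Sum.inl_injective, card_product, card_univ,
      Fintype.card_fin] at h6
    calc cnt F₀ I A = (F₀.filter (fun e => e ∩ I ⊆ A)).card := rfl
      _ ≤ A.card * D := h5.trans h6
      _ = D * A.card := mul_comm _ _
  · have h5 : F.card = (univ.filter P).card + (univ.filter (fun e => ¬ P e)).card := by
      rw [card_filter_add_card_filter_not, card_univ, Fintype.card_coe]
    have h6 : F₀.card = (univ.filter P).card := by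
      rw [hF₀, card_image_of_injective _ Subtype.val_injective]
    have h7 : (univ.filter (fun e => ¬ P e)).card ≤
        ((univ : Finset (Fin δ)).image (Sum.inr : Fin δ → (V × Fin D) ⊕ Fin δ)).card := by
      rw [← card_image_of_injective _ hf]
      refine card_le_card ?_
      intro z hz
      rw [mem_image] at hz
      obtain ⟨e, he, rfl⟩ := hz
      have h8 : ¬ (f e).isLeft = true := (mem_filter.1 he).2
      rw [mem_image]
      cases h9 : f e with
      | inl z => rw [h9] at h8; simp at h8
      | inr z => exact ⟨z, mem_univ _, rfl⟩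
    rw [card_image_of_injective _ Sum.inr_injective, card_univ, Fintype.card_fin] at h7
    omega

/-- signs of an orientation -/
noncomputable def sgo (D : ℕ) (u v : V) : ℝ :=
  if (Fintype.equivFin V) u < (Fintype.equivFin V) v then 1
  else if (Fintype.equivFin V) v < (Fintype.equivFin V) u then (-1) ^ D else 0

omit [DecidableEq V] in
theorem sgo_symm (D : ℕ) (u v : V) : sgo D v u = (-1) ^ D * sgo D u v := by
  unfold sgo
  have h1 : ((-1 : ℝ) ^ D) * (-1) ^ D = 1 := by
    rw [← mul_pow]
    norm_num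
  rcases lt_trichotomy ((Fintype.equivFin V) u) ((Fintype.equivFin V) v) with h | h | h
  · rw [if_pos h, if_neg (not_lt.2 h.le), if_pos h, mul_one]
  · rw [if_neg (not_lt.2 h.le), if_neg (not_lt.2 h.ge), if_neg (not_lt.2 h.ge),
      if_neg (not_lt.2 h.le), mul_zero]
  · rw [if_pos h, if_neg (not_lt.2 h.le), if_pos h, h1]

omit [DecidableEq V] in
theorem sgo_ne_zero {D : ℕ} {u v : V} (h : u ≠ v) : sgo D u v ≠ 0 := by
  unfold sgo
  rcases lt_trichotomy ((Fintype.equivFin V) u) ((Fintype.equivFin V) v) with h1 | h1 | h1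
  · rw [if_pos h1]
    exact one_ne_zero
  · exact absurd ((Fintype.equivFin V).injective h1) h
  · rw [if_neg (not_lt.2 h1.le), if_pos h1]
    exact pow_ne_zero _ (by norm_num)

omit [DecidableEq V] in
theorem sgo_self (D : ℕ) (u : V) : sgo D u u = 0 := by
  unfold sgo
  rw [if_neg (lt_irrefl _), if_neg (lt_irrefl _)]

/-- the function on ordered pairs defined by a function on edges -/
noncomputable def omg (D : ℕ) (E : Finset (Finset V)) :
    ({e // e ∈ E} → ℝ) →ₗ[ℝ] (V → V → ℝ) where
  toFun x := fun u v => sgo D u v * (if h : ({u, v} : Finset V) ∈ E then x ⟨_, h⟩ else 0)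
  map_add' x y := by
    funext u v
    simp only [Pi.add_apply]
    split_ifs
    · ring
    · ring
  map_smul' c x := by
    funext u v
    simp only [Pi.smul_apply, smul_eq_mul, RingHom.id_apply]
    split_ifs
    · ring
    · ring

theorem omg_symm (D : ℕ) (E : Finset (Finset V)) (x : {e // e ∈ E} → ℝ) (u v : V) :
    omg D E x v u = (-1) ^ D * omg D E x u v := by
  show sgo D v u * (if h : ({v, u} : Finset V) ∈ E then x ⟨_, h⟩ else 0) =
    (-1) ^ D * (sgo D u v * (if h : ({u, v} : Finset V) ∈ E then x ⟨_, h⟩ else 0))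
  have h : ({v, u} : Finset V) = {u, v} := Finset.pair_comm v u
  simp only [h]
  rw [sgo_symm D u v]
  ring

theorem omg_supp (D : ℕ) (E : Finset (Finset V)) (x : {e // e ∈ E} → ℝ) (u v : V)
    (h : omg D E x u v ≠ 0) : u ≠ v ∧ ({u, v} : Finset V) ∈ E := by
  have h1 : sgo D u v * (if h : ({u, v} : Finset V) ∈ E then x ⟨_, h⟩ else 0) ≠ 0 := h
  refine ⟨?_, ?_⟩
  · rintro rfl
    apply h1
    rw [sgo_self, zero_mul]
  · by_contra h2
    apply h1
    rw [dif_neg h2, mul_zero]

theorem omg_inj (D : ℕ) (E : Finset (Finset V)) (h2 : ∀ e ∈ E, e.card = 2) :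
    Function.Injective (omg D E) := by
  rw [injective_iff_map_eq_zero]
  intro x hx
  funext e
  obtain ⟨a, b, hab, he⟩ := card_eq_two.1 (h2 e.1 e.2)
  have h3 : omg D E x a b = 0 := by rw [hx]; rfl
  have h4 : sgo D a b * (if h : ({a, b} : Finset V) ∈ E then x ⟨_, h⟩ else 0) = 0 := h3
  have h5 : ({a, b} : Finset V) ∈ E := he ▸ e.2
  rw [dif_pos h5] at h4
  have h6 := (mul_eq_zero.1 h4).resolve_left (sgo_ne_zero hab)
  have h7 : e = ⟨{a, b}, h5⟩ := Subtype.ext he
  rw [h7]
  exact h6

/-- the equations at `A` -/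
noncomputable def eqs (D : ℕ) (p : V × Fin 2 → ℝ) (A : Finset V) :
    (V → V → ℝ) →ₗ[ℝ] ({u // u ∈ A} × Fin D → ℝ) where
  toFun ω := fun z => ∑ v, ω z.1 v * mon D (p (v, 0) - p (z.1, 0)) (p (v, 1) - p (z.1, 1)) z.2
  map_add' x y := by
    funext z
    simp only [Pi.add_apply, add_mul, sum_add_distrib]
  map_smul' c x := by
    funext z
    simp only [Pi.smul_apply, smul_eq_mul, RingHom.id_apply, mul_sum, mul_assoc]

theorem le_finrank_aux (D : ℕ) (p : V × Fin 2 → ℝ) (F : Finset (Finset V)) (I A : Finset V)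
    (h2 : ∀ e ∈ F, e.card = 2) :
    cnt F I A - D * A.card ≤ Module.finrank ℝ (Stress D p F I) := by
  set E := F.filter (fun e => e ∩ I ⊆ A) with hE
  have hE2 : ∀ e ∈ E, e.card = 2 := fun e he => h2 e (mem_filter.1 he).1
  set L := (eqs D p A).comp (omg D E) with hL
  have h3 : Module.finrank ℝ (LinearMap.range L) + Module.finrank ℝ (LinearMap.ker L) =
      Module.finrank ℝ ({e // e ∈ E} → ℝ) := L.finrank_range_add_finrank_ker
  have h4 : Module.finrank ℝ (LinearMap.range L) ≤ Module.finrank ℝ ({u // u ∈ A} × Fin D → ℝ) :=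
    Submodule.finrank_le _
  rw [Module.finrank_fintype_fun_eq_card] at h3 h4
  rw [Fintype.card_coe] at h3
  rw [Fintype.card_prod, Fintype.card_coe, Fintype.card_fin] at h4
  have h5 : ∀ x : LinearMap.ker L, omg D E x.1 ∈ Stress D p F I := by
    intro x
    refine ⟨fun u v h => ?_, fun u v => omg_symm D E x.1 u v, fun u hu j => ?_⟩
    · obtain ⟨h6, h7⟩ := omg_supp D E x.1 u v h
      exact ⟨h6, (mem_filter.1 h7).1⟩
    · by_cases huA : u ∈ A
      · have h6 : L x.1 (⟨u, huA⟩, j) = 0 := by
          rw [LinearMap.mem_ker.1 x.2]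
          rfl
        exact h6
      · refine sum_eq_zero fun v _ => ?_
        have h6 : omg D E x.1 u v = 0 := by
          by_contra h
          obtain ⟨-, h7⟩ := omg_supp D E x.1 u v h
          exact huA ((mem_filter.1 h7).2 (mem_inter.2 ⟨mem_insert_self _ _, hu⟩))
        rw [h6, zero_mul]
  set M : LinearMap.ker L →ₗ[ℝ] Stress D p F I :=
    ((omg D E).comp (LinearMap.ker L).subtype).codRestrict (Stress D p F I) (fun x => h5 x) with hM
  have h6 : Function.Injective M := by
    intro x y hxy
    have h7 : omg D E x.1 = omg D E y.1 := congrArg Subtype.val hxy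
    exact Subtype.ext (omg_inj D E hE2 h7)
  have h7 := LinearMap.finrank_le_finrank_of_injective h6
  have h8 : cnt F I A = E.card := rfl
  rw [h8]
  have h9 : A.card * D = D * A.card := mul_comm _ _
  omega

theorem le_finrank (D : ℕ) (p : V × Fin 2 → ℝ) (F : Finset (Finset V)) (I : Finset V)
    (h2 : ∀ e ∈ F, e.card = 2) : defi D F I ≤ Module.finrank ℝ (Stress D p F I) := by
  unfold defi
  refine Finset.sup_le fun A _ => ?_
  exact le_finrank_aux D p F I A h2

theorem finrank_le (D : ℕ) (p : V × Fin 2 → ℝ) {F F₀ : Finset (Finset V)} {I : Finset V}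
    (h2 : ∀ e ∈ F, e.card = 2) (h0 : F₀ ⊆ F) (hi : Indep D p F₀ I) :
    Module.finrank ℝ (Stress D p F I) + F₀.card ≤ F.card := by
  classical
  have hch : ∀ e : {e // e ∈ F \ F₀}, ∃ z : V × V, z.1 ≠ z.2 ∧ e.1 = {z.1, z.2} := by
    intro e
    obtain ⟨a, b, hab, he⟩ := card_eq_two.1 (h2 e.1 (mem_sdiff.1 e.2).1)
    exact ⟨(a, b), hab, he⟩
  choose z hz1 hz2 using hch
  set R : Stress D p F I →ₗ[ℝ] ({e // e ∈ F \ F₀} → ℝ) :=
    { toFun := fun ω e => ω.1 (z e).1 (z e).2
      map_add' := fun x y => rfl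
      map_smul' := fun c x => rfl } with hR
  have hinj : Function.Injective R := by
    rw [injective_iff_map_eq_zero]
    intro ω hω
    have hst : IsStress D p F₀ I ω.1 := by
      refine ⟨fun u v h => ?_, ω.2.symm, ω.2.eq⟩
      obtain ⟨h3, h4⟩ := ω.2.supp u v h
      refine ⟨h3, ?_⟩
      by_contra h5
      have h6 : ({u, v} : Finset V) ∈ F \ F₀ := mem_sdiff.2 ⟨h4, h5⟩
      have h7 : ω.1 (z ⟨_, h6⟩).1 (z ⟨_, h6⟩).2 = 0 := congrFun hω ⟨_, h6⟩
      have h8 : ({u, v} : Finset V) = {(z ⟨_, h6⟩).1, (z ⟨_, h6⟩).2} := hz2 ⟨_, h6⟩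
      have h9 := hz1 ⟨_, h6⟩
      generalize (z ⟨_, h6⟩).1 = a at h7 h8 h9
      generalize (z ⟨_, h6⟩).2 = b at h7 h8 h9
      have ha : u = a ∨ u = b := by
        have : u ∈ ({a, b} : Finset V) := h8 ▸ mem_insert_self u {v}
        simpa using this
      have hb : v = a ∨ v = b := by
        have : v ∈ ({a, b} : Finset V) := h8 ▸ (mem_insert_of_mem (mem_singleton_self v))
        simpa using this
      rcases ha with ha | ha <;> rcases hb with hb | hb
      · exact h3 (ha.trans hb.symm)
      · rw [ha, hb] at h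
        exact h h7
      · rw [ha, hb] at h
        apply h
        rw [ω.2.symm a b, h7, mul_zero]
      · exact h3 (ha.trans hb.symm)
    ext u v
    exact hi ω.1 hst u v
  have h3 := LinearMap.finrank_le_finrank_of_injective hinj
  rw [Module.finrank_fintype_fun_eq_card, Fintype.card_coe, card_sdiff_of_subset h0] at h3
  have h4 := card_le_card h0
  omega

theorem gen_rank {D : ℕ} (hD : 4 ≤ D) {T F : Finset (Finset V)} {I : Finset V} (hG : Good T I)
    (hF : F ⊆ edges T) :
    ∃ Q : MvPolynomial (V × Fin 2) ℝ, Q ≠ 0 ∧ ∀ p : V × Fin 2 → ℝ, MvPolynomial.eval p Q ≠ 0 →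
      Module.finrank ℝ (Stress D p F I) = defi D F I := by
  have h2 : ∀ e ∈ F, e.card = 2 := fun e he => (mem_edges.1 (hF he)).1
  obtain ⟨F₀, h0, hA, hS, hc⟩ := hall_def D F I h2
  obtain ⟨Q, hQ, hQ'⟩ := main hD I.card I rfl T F₀ hG (h0.trans hF) hA hS
  refine ⟨Q, hQ, fun p hp => ?_⟩
  have h3 := finrank_le D p h2 h0 (hQ' p hp)
  have h4 := le_finrank D p F I h2
  omega

end Pool.Agent.Spl1
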