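import Pool.Agent.Spl1.Cnt
import Pool.Agent.Spl1.Cls
import Pool.Agent.Spl1.Link

/-!
# Two live neighbours separated by dead ones are not connected

`w 0, ..., w (n-1)` is the link of `v` in cyclic order, `X` is tight, `B = (I \ X).erase v`.  The vertices `w 0`
and `w i` are in `B`, `w j` (`0 < j < i`) and `w k` (`i < k < n`) are not in `I \ X`.  Claim:
`w i ∉ Cls F B (w 0)`.

Paper proof.  Otherwise `cls_chain` gives `Q ⊆ F` (edges inside `B`) with odd vertices `w 0, w i`.  Let
`C = Q ∪ {{v, w 0}, {v, w i}}` (disjoint since `v ∉ B`); it is a cycle of edges of `T`; let `D' ⊆ T`,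
`bdry D' = C` (`H1`).  For `0 < l < n`, `l ≠ i`, `{v, w l} ∉ C`, and the triangles of `T` at `{v, w l}` are
`{v, w (l-1), w l}` and `{v, w l, w (l+1)}` (`tdeg = 2`), so both or none are in `D'`.  At `l = i` exactly one
of the two is in `D'`.  So either the triangles `{v, w l, w (l+1)}`, `0 ≤ l < i`, are in `D'` or those with
`i ≤ l < n` are.  Hence one of `a = w j`, `a = w k` has `star D' a ≠ ∅`.  All vertices of `C` are in
`B ∪ {v} ⊆ I \ X`, so `a` is not on `C`, and `inside` gives `a ∈ I` (so `a ∈ X`) and `star T a ⊆ D'`.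
Let `Z = {u ∈ X | star T u ⊆ D'}`, `a ∈ Z`.  If `e ∈ F`, `e ∩ I ⊆ X` meets `Z` in `u` then `e ⊆ Z`: let
`e = {u,u'}`; `u' ∉ I \ X`, so `u'` is not on `C`; a triangle `t ⊇ e` of `T` is in `star T u ⊆ D'`, so
`star D' u' ≠ ∅` and `inside` gives `u' ∈ I`, `star T u' ⊆ D'`; so `u' ∈ X` and `u' ∈ Z`.
Therefore `cnt X ≤ cnt (X \ Z) + #{e ∈ F | e ⊆ Z} ≤ D |X \ Z| + 3|Z| - 3 < D |X|` (`planar`, `D ≥ 3`),
contradiction to `cnt X = D |X|`.
-/

set_option autoImplicit false

namespace Pool.Agent.Spl1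

open Finset

variable {V : Type*} [Fintype V] [DecidableEq V]

theorem sep_ne {T : Finset (Finset V)} {v : V} {n : ℕ} {w : ℕ → V} (hw : Enum T v n w)
    (hn : 0 < n) (l : ℕ) : w l ≠ v ∧ ({v, w l} : Finset V) ∈ edges T := by
  have h : w (l % n) ∈ nb (edges T) v := (hw.cov _).2 ⟨l % n, Nat.mod_lt _ hn, rfl⟩
  rw [hw.mod l, mem_nb] at h
  exact h

theorem sep_tri {T : Finset (Finset V)} {I : Finset V} (hG : Good T I) {v : V} (hv : v ∈ I)
    {n : ℕ} {w : ℕ → V} (hw : Enum T v n w) (hn : 3 ≤ n) {D' : Finset (Finset V)} (hD' : D' ⊆ T)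
    (l : ℕ) : Odd (tdeg D' {v, w (l + 1)}) ↔
      ¬ (({v, w l, w (l + 1)} : Finset V) ∈ D' ↔ ({v, w (l + 1), w (l + 1 + 1)} : Finset V) ∈ D') := by
  have hn0 : 0 < n := by omega
  have e1 := sep_ne hw hn0 l
  have e2 := sep_ne hw hn0 (l + 1)
  have e3 := sep_ne hw hn0 (l + 1 + 1)
  have hcard : tdeg T {v, w (l + 1)} = 2 := hG.int2 v hv _ e2.2 (by simp)
  have hd1 : w l ≠ w (l + 1) := by
    intro h
    rw [hw.eq_iff hn0] at h
    have h1 : l ≡ l + 1 [MOD n] := h
    have h2 := (Nat.modEq_iff_dvd' (by omega)).1 h1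
    have h3 : l + 1 - l = 1 := by omega
    rw [h3] at h2
    have := Nat.le_of_dvd (by norm_num) h2
    omega
  have hd2 : w l ≠ w (l + 1 + 1) := by
    intro h
    rw [hw.eq_iff hn0] at h
    have h1 : l ≡ l + 1 + 1 [MOD n] := h
    have h2 := (Nat.modEq_iff_dvd' (by omega)).1 h1
    have h3 : l + 1 + 1 - l = 2 := by omega
    rw [h3] at h2
    have := Nat.le_of_dvd (by norm_num) h2
    omega
  set t1 : Finset V := {v, w l, w (l + 1)} with ht1
  set t2 : Finset V := {v, w (l + 1), w (l + 1 + 1)} with ht2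
  have hne : t1 ≠ t2 := by
    intro h
    have h1 : w l ∈ t2 := by rw [← h, ht1]; simp
    rw [ht2] at h1
    simp only [mem_insert, mem_singleton] at h1
    rcases h1 with h1 | h1 | h1
    · exact e1.1 h1
    · exact hd1 h1
    · exact hd2 h1
  have hs1 : ({v, w (l + 1)} : Finset V) ⊆ t1 := by
    rw [ht1]
    intro x hx
    simp only [mem_insert, mem_singleton] at hx ⊢
    tauto
  have hs2 : ({v, w (l + 1)} : Finset V) ⊆ t2 := by
    rw [ht2]
    intro x hx
    simp only [mem_insert, mem_singleton] at hx ⊢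
    tauto
  have hT : ({t1, t2} : Finset (Finset V)) = T.filter (fun t => ({v, w (l + 1)} : Finset V) ⊆ t) := by
    refine Finset.eq_of_subset_of_card_le ?_ ?_
    · intro t ht
      rw [mem_insert, mem_singleton] at ht
      rw [mem_filter]
      rcases ht with rfl | rfl
      · exact ⟨hw.tri l, hs1⟩
      · exact ⟨hw.tri (l + 1), hs2⟩
    · rw [card_pair hne]
      exact le_of_eq hcard
  have hD : D'.filter (fun t => ({v, w (l + 1)} : Finset V) ⊆ t) =
      ({t1, t2} : Finset (Finset V)).filter (fun t => t ∈ D') := by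
    ext t
    rw [hT]
    simp only [mem_filter]
    constructor
    · rintro ⟨h1, h2⟩
      exact ⟨⟨hD' h1, h2⟩, h1⟩
    · rintro ⟨⟨h1, h2⟩, h3⟩
      exact ⟨h3, h2⟩
  unfold tdeg
  rw [hD, filter_insert, filter_singleton]
  by_cases h1 : t1 ∈ D'
  · by_cases h2 : t2 ∈ D'
    · simp only [h1, h2, if_true]
      rw [card_pair hne]
      simp
    · simp only [h1, h2, if_true, if_false]
      simp
  · by_cases h2 : t2 ∈ D'
    · simp only [h1, h2, if_true, if_false]
      simp
    · simp only [h1, h2, if_false]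
      simp

theorem sep_pair {v x y : V} (hx : x ≠ v) (hy : y ≠ v) (hxy : x ≠ y) (z : V) :
    Odd (vdeg ({{v, x}, {v, y}} : Finset (Finset V)) z) ↔ ¬ (z = x ↔ z = y) := by
  have hne : ({v, x} : Finset V) ≠ {v, y} := by
    intro h
    have h1 : x ∈ ({v, y} : Finset V) := by rw [← h]; simp
    simp only [mem_insert, mem_singleton] at h1
    rcases h1 with h1 | h1
    · exact hx h1
    · exact hxy h1
  unfold vdeg
  rw [filter_insert, filter_singleton]
  by_cases hzv : z = v
  · subst hzv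
    have h1 : z ∈ ({z, x} : Finset V) := by simp
    have h2 : z ∈ ({z, y} : Finset V) := by simp
    simp only [h1, h2, if_true]
    rw [card_pair hne]
    have h3 : z ≠ x := Ne.symm hx
    have h4 : z ≠ y := Ne.symm hy
    simp [h3, h4]
  · by_cases hzx : z = x
    · subst hzx
      have h1 : z ∈ ({v, z} : Finset V) := by simp
      have h2 : z ∉ ({v, y} : Finset V) := by simp [hzv, hxy]
      simp only [h1, h2, if_true, if_false]
      simp [hxy]
    · by_cases hzy : z = y
      · subst hzy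
        have h1 : z ∉ ({v, x} : Finset V) := by simp [hzv, hzx]
        have h2 : z ∈ ({v, z} : Finset V) := by simp
        simp only [h1, h2, if_true, if_false]
        simp [hzx]
      · have h1 : z ∉ ({v, x} : Finset V) := by simp [hzv, hzx]
        have h2 : z ∉ ({v, y} : Finset V) := by simp [hzv, hzy]
        simp only [h1, h2, if_false]
        simp [hzx, hzy]

theorem sep {D : ℕ} (hD : 4 ≤ D) {T F : Finset (Finset V)} {I : Finset V} (hG : Good T I)
    (hF : F ⊆ edges T) (hA : Adm F I) (hS : Sparse D F I) {X : Finset V} (hX : X ⊆ I)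
    (hXt : Tight D F I X) {v : V} (hv : v ∈ I) (hvX : v ∉ X) {n : ℕ} {w : ℕ → V}
    (hw : Enum T v n w)
    {i j k : ℕ} (hj : 0 < j) (hji : j < i) (hik : i < k) (hk : k < n)
    (h0 : w 0 ∈ I \ X) (hi : w i ∈ I \ X) (hjd : w j ∉ I \ X) (hkd : w k ∉ I \ X) :
    w i ∉ Cls F ((I \ X).erase v) (w 0) := by
  intro hcls
  have hn0 : 0 < n := by omega
  set B : Finset V := (I \ X).erase v with hB
  have hvB : v ∉ B := by rw [hB]; simp
  have h0B : w 0 ∈ B := mem_erase.2 ⟨(sep_ne hw hn0 0).1, h0⟩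
  have hiB : w i ∈ B := mem_erase.2 ⟨(sep_ne hw hn0 i).1, hi⟩
  have hBI : ∀ x ∈ B, x ∈ I \ X := fun x hx => mem_of_mem_erase hx
  have h0i : w 0 ≠ w i := by
    intro h
    have := hw.inj 0 i hn0 (by omega) h
    omega
  obtain ⟨Q, hQ, hQodd⟩ := cls_chain (fun e he => (hA e he).1) h0B hcls
  set P : Finset (Finset V) := {{v, w 0}, {v, w i}} with hP
  have hPodd : ∀ z, Odd (vdeg P z) ↔ ¬ (z = w 0 ↔ z = w i) :=
    sep_pair (sep_ne hw hn0 0).1 (sep_ne hw hn0 i).1 h0i
  set C : Finset (Finset V) := symmDiff Q P with hC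
  have hCmem : ∀ e ∈ C, e ∈ Q ∨ e ∈ P := by
    intro e he
    rw [hC, mem_symmDiff] at he
    tauto
  have hQF : ∀ e ∈ Q, e ∈ F ∧ e ⊆ B := fun e he => mem_filter.1 (hQ he)
  have hCcyc : IsCyc C := by
    refine ⟨fun e he => ?_, fun z => ?_⟩
    · rcases hCmem e he with h | h
      · exact (hA e (hQF e h).1).1
      · rw [hP, mem_insert, mem_singleton] at h
        rcases h with rfl | rfl
        · exact card_pair (sep_ne hw hn0 0).1.symm
        · exact card_pair (sep_ne hw hn0 i).1.symm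
    · rw [← Nat.not_odd_iff_even, hC, vdeg_symm, hQodd, hPodd]
      tauto
  have hCe : C ⊆ edges T := by
    intro e he
    rcases hCmem e he with h | h
    · exact hF (hQF e h).1
    · rw [hP, mem_insert, mem_singleton] at h
      rcases h with rfl | rfl
      · exact (sep_ne hw hn0 0).2
      · exact (sep_ne hw hn0 i).2
  obtain ⟨D', hD', hbd⟩ := hG.H1 C hCe hCcyc
  have hCB : ∀ e ∈ C, ∀ x ∈ e, x ∈ B ∨ x = v := by
    intro e he x hx
    rcases hCmem e he with h | h
    · exact Or.inl ((hQF e h).2 hx)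
    · rw [hP, mem_insert, mem_singleton] at h
      rcases h with rfl | rfl
      · simp only [mem_insert, mem_singleton] at hx
        rcases hx with rfl | rfl
        · exact Or.inr rfl
        · exact Or.inl h0B
      · simp only [mem_insert, mem_singleton] at hx
        rcases hx with rfl | rfl
        · exact Or.inr rfl
        · exact Or.inl hiB
  -- vertices off the cycle
  have hoff : ∀ x, x ∉ I \ X → (star D' x).Nonempty → x ∈ I ∧ star T x ⊆ D' := by
    intro x hx hne
    refine inside hG hD' ?_ hne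
    intro e he hxe
    rw [hbd] at he
    rcases hCB e he x hxe with h | h
    · exact hx (hBI x h)
    · rw [h] at hx
      exact hx (mem_sdiff.2 ⟨hv, hvX⟩)
  -- parity along the link
  have hmem : ∀ l, 0 < l → l < n → (Odd (tdeg D' {v, w l}) ↔ l = i) := by
    intro l hl hln
    have h1 : Odd (tdeg D' {v, w l}) ↔ ({v, w l} : Finset V) ∈ C := by
      rw [← hbd, mem_bdry]
      constructor
      · intro h
        exact ⟨card_pair (sep_ne hw hn0 l).1.symm, h⟩
      · intro h
        exact h.2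
    rw [h1, hC, mem_symmDiff]
    have h2 : ({v, w l} : Finset V) ∉ Q := fun h => hvB ((hQF _ h).2 (by simp))
    have h3 : ({v, w l} : Finset V) ∈ P ↔ l = i := by
      rw [hP, mem_insert, mem_singleton]
      constructor
      · rintro (h | h)
        · exfalso
          have : w l ∈ ({v, w 0} : Finset V) := by rw [← h]; simp
          simp only [mem_insert, mem_singleton] at this
          rcases this with h4 | h4
          · exact (sep_ne hw hn0 l).1 h4
          · have := hw.inj l 0 hln hn0 h4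
            omega
        · have : w l ∈ ({v, w i} : Finset V) := by rw [← h]; simp
          simp only [mem_insert, mem_singleton] at this
          rcases this with h4 | h4
          · exact absurd h4 (sep_ne hw hn0 l).1
          · exact hw.inj l i hln (by omega) h4
      · rintro rfl
        exact Or.inr rfl
    rw [h3]
    tauto
  have hstep : ∀ l, l + 1 < n → (l + 1 ≠ i →
      (({v, w l, w (l + 1)} : Finset V) ∈ D' ↔ ({v, w (l + 1), w (l + 1 + 1)} : Finset V) ∈ D')) ∧
      (l + 1 = i → ¬ (({v, w l, w (l + 1)} : Finset V) ∈ D' ↔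
        ({v, w (l + 1), w (l + 1 + 1)} : Finset V) ∈ D')) := by
    intro l hl
    have h1 := sep_tri hG hv hw (by omega) hD' l
    rw [hmem (l + 1) (by omega) hl] at h1
    constructor
    · intro hne
      by_contra hcon
      exact hne (h1.2 hcon)
    · intro he
      exact h1.1 he
  have hup : ∀ a m, (∀ l, a ≤ l → l < a + m → l + 1 < n ∧ l + 1 ≠ i) →
      (({v, w a, w (a + 1)} : Finset V) ∈ D' ↔
        ({v, w (a + m), w (a + m + 1)} : Finset V) ∈ D') := by
    intro a m
    induction m with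
    | zero => intro _; simp
    | succ m ih =>
      intro h
      have h1 := h (a + m) (by omega) (by omega)
      have h2 := (hstep (a + m) h1.1).1 h1.2
      have h3 := ih fun l hl hl2 => h l hl (by omega)
      have e : a + (m + 1) = a + m + 1 := by omega
      rw [e]
      exact h3.trans h2
  obtain ⟨a, had, hane⟩ : ∃ a, a ∉ I \ X ∧ (star D' a).Nonempty := by
    obtain ⟨i', rfl⟩ : ∃ i', i = i' + 1 := ⟨i - 1, by omega⟩
    have h1 := (hstep i' (by omega)).2 rfl
    by_cases h2 : ({v, w i', w (i' + 1)} : Finset V) ∈ D'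
    · refine ⟨w j, hjd, ⟨{v, w j, w (j + 1)}, mem_star.2 ⟨?_, by simp⟩⟩⟩
      have h3 := hup j (i' - j) (fun l hl hl2 => by omega)
      have e : j + (i' - j) = i' := by omega
      rw [e] at h3
      exact h3.2 h2
    · have h3 : ({v, w (i' + 1), w (i' + 1 + 1)} : Finset V) ∈ D' := by
        by_contra h4
        exact h1 (iff_of_false h2 h4)
      refine ⟨w k, hkd, ⟨{v, w k, w (k + 1)}, mem_star.2 ⟨?_, by simp⟩⟩⟩
      have h5 := hup (i' + 1) (k - (i' + 1)) (fun l hl hl2 => by omega)
      have e : i' + 1 + (k - (i' + 1)) = k := by omega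
      rw [e] at h5
      exact h5.1 h3
  obtain ⟨haI, haD⟩ := hoff a had hane
  have haX : a ∈ X := by
    by_contra h
    exact had (mem_sdiff.2 ⟨haI, h⟩)
  set Z : Finset V := X.filter (fun u => star T u ⊆ D') with hZ
  have haZ : a ∈ Z := mem_filter.2 ⟨haX, haD⟩
  have hZX : Z ⊆ X := filter_subset _ _
  have hclosed : ∀ e ∈ F, e ∩ I ⊆ X → (e ∩ Z).Nonempty → e ⊆ Z := by
    rintro e he heX ⟨u, hu⟩ u' hu'
    rw [mem_inter] at hu
    obtain ⟨hcard, t, ht, het⟩ := mem_edges.1 (hF he)
    have htD : t ∈ D' := (mem_filter.1 hu.2).2 (mem_star.2 ⟨ht, het hu.1⟩)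
    have h1 : u' ∉ I \ X := by
      intro h
      rw [mem_sdiff] at h
      exact h.2 (heX (mem_inter.2 ⟨hu', h.1⟩))
    obtain ⟨h2, h3⟩ := hoff u' h1 ⟨t, mem_star.2 ⟨htD, het hu'⟩⟩
    exact mem_filter.2 ⟨heX (mem_inter.2 ⟨hu', h2⟩), h3⟩
  have hsub : F.filter (fun e => e ∩ I ⊆ X) ⊆
      F.filter (fun e => e ∩ I ⊆ X \ Z) ∪ (edges T).filter (fun e => e ⊆ Z) := by
    intro e he
    rw [mem_filter] at he
    rw [mem_union, mem_filter, mem_filter]
    by_cases hne : (e ∩ Z).Nonempty
    · exact Or.inr ⟨hF he.1, hclosed e he.1 he.2 hne⟩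
    · refine Or.inl ⟨he.1, fun x hx => mem_sdiff.2 ⟨he.2 hx, fun hxZ => hne ⟨x, ?_⟩⟩⟩
      exact mem_inter.2 ⟨(mem_inter.1 hx).1, hxZ⟩
  have hcard1 := (card_le_card hsub).trans (card_union_le _ _)
  have hpl := planar hG (hZX.trans hX) ⟨a, haZ⟩
  have hsp := hS (X \ Z) (sdiff_subset.trans hX)
  have hXc : (F.filter (fun e => e ∩ I ⊆ X)).card = D * X.card := hXt
  have hsp' : (F.filter (fun e => e ∩ I ⊆ X \ Z)).card ≤ D * (X \ Z).card := hsp
  have hcardX : (X \ Z).card + Z.card = X.card := card_sdiff_add_card_eq_card hZX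
  have hZpos : 0 < Z.card := card_pos.2 ⟨a, haZ⟩
  have h5 : D * X.card = D * (X \ Z).card + D * Z.card := by rw [← hcardX, mul_add]
  have h6 : 4 * Z.card ≤ D * Z.card := Nat.mul_le_mul_right _ hD
  omega

end Pool.Agent.Spl1
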