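import Pool.Agent.Spl1.Chord
import Pool.Agent.Spl1.Sep
import Pool.Agent.Spl1.Alg3

/-!
# Reductions at a chordless vertex (assembly, proved from the stubs)
-/

set_option autoImplicit false

namespace Pool.Agent.Spl1

open Finset

variable {V : Type*} [Fintype V] [DecidableEq V]

/-- the induction hypothesis -/
def IHyp (D : ℕ) (I : Finset V) : Prop :=
  ∀ T F : Finset (Finset V), Good T I → F ⊆ edges T → Adm F I → Sparse D F I → GI D F I

theorem nb_subset {F G : Finset (Finset V)} (h : F ⊆ G) (v : V) : nb F v ⊆ nb G v := by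
  intro u hu
  rw [mem_nb] at hu ⊢
  exact ⟨hu.1, h hu.2⟩

theorem pair_mem_dl {F : Finset (Finset V)} {v x b : V} (hx : x ≠ v) (hb : b ≠ v)
    (h : ({x, b} : Finset V) ∈ F) : ({x, b} : Finset V) ∈ dl F v := by
  rw [dl, mem_filter]
  refine ⟨h, ?_⟩
  simp only [mem_insert, mem_singleton, not_or]
  exact ⟨hx.symm, hb.symm⟩

theorem red1 {D : ℕ} {T F : Finset (Finset V)} {I : Finset V} (hG : Good T I)
    (hF : F ⊆ edges T) (hA : Adm F I) (hS : Sparse D F I) {v : V} (hv : v ∈ I)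
    (hc : Chordless T v) (hIH : IHyp D (I.erase v)) (hd : (nb F v).card ≤ D) : GI D F I := by
  obtain ⟨T', hG', hsub⟩ := delv hG hv hc
  obtain ⟨hA', hS'⟩ := sparse_dl hA hS hv
  exact gi_del hv hd (hIH T' _ hG' ((filter_subset_filter _ hF).trans hsub) hA' hS')

/-- there is a live neighbour -/
theorem exists_live {D : ℕ} {F : Finset (Finset V)} {I : Finset V} (hA : Adm F I)
    (hS : Sparse D F I) {v : V} (hv : v ∈ I) {M : Finset V} (hM : MaxTight D F I v M)
    (hd : D < (nb F v).card) : ∃ x ∈ nb F v, x ∈ I ∧ x ∉ M := by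
  by_contra hcon
  push Not at hcon
  have h1 := dead_le hA hS hv hM
  have h2 : (nb F v).filter (fun w => w ∉ I ∨ w ∈ M) = nb F v := by
    apply filter_true_of_mem
    intro w hw
    by_cases hwI : w ∈ I
    · exact Or.inr (hcon w hw hwI)
    · exact Or.inl hwI
  rw [h2] at h1
  omega

theorem red2 {D : ℕ} (hD : 4 ≤ D) {T F : Finset (Finset V)} {I : Finset V} (hG : Good T I)
    (hF : F ⊆ edges T) (hA : Adm F I) (hS : Sparse D F I) {v : V} (hv : v ∈ I)
    (hc : Chordless T v) (hIH : IHyp D (I.erase v)) (hd : (nb F v).card = D + 1) : GI D F I := by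
  obtain ⟨M, hM⟩ := exists_max hA hS v
  obtain ⟨x, hx, hxI, hxM⟩ := exists_live hA hS hv hM (by omega)
  obtain ⟨T1, hG1, hc1, hnb1, hsub1⟩ := reduce hG hv hc (nb_subset hF v) (by omega)
  have hx1 : x ∈ nb (edges T1) v := by rw [hnb1]; exact hx
  obtain ⟨b, hb, hxb, hne, T', hG', hsub', hch⟩ := one_chord hG1 hv hc1 (by rw [hnb1]; omega) hx1
  have hdl : dl F v ⊆ edges T1 := (filter_subset_filter _ hF).trans hsub1
  have hb' : b ∈ nb F v := by rw [← hnb1]; exact hb
  have hxv : x ≠ v := (mem_nb.1 hx).1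
  have hbv : b ≠ v := (mem_nb.1 hb').1
  have hdl' : dl F v ⊆ edges T' := by
    intro e he
    apply hsub'
    rw [mem_filter]
    exact ⟨hdl he, (mem_filter.1 he).2⟩
  obtain ⟨hA', hS'⟩ := sparse_ext1 hA hS hv hM hxI hxv hxM hxb
  refine gi_ext1 hv hx hb' hxb hd (fun h => hne (hdl (pair_mem_dl hxv hbv h))) ?_
  refine hIH T' _ hG' ?_ hA' hS'
  exact insert_subset hch hdl'

/-- a far pair of live neighbours at the ends of two disjoint arcs -/
theorem red3a {D : ℕ} {T F : Finset (Finset V)} {I : Finset V} (hG : Good T I)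
    (hA : Adm F I) (hS : Sparse D F I) {v : V} (hv : v ∈ I)
    (hc : Chordless T v) (hIH : IHyp D (I.erase v)) (hd : (nb F v).card = D + 2)
    (hnb : nb (edges T) v = nb F v) (hdl : dl F v ⊆ edges T)
    {M : Finset V} (hM : MaxTight D F I v M) {w : ℕ → V} (hw : Enum T v (D + 2) w)
    {i j : ℕ} (hij : i + 3 ≤ j) (hji : j + 3 ≤ i + (D + 2))
    {x y : V} (hx : x = w i ∨ x = w (i + 2)) (hy : y = w j ∨ y = w (j + 2))
    (hxI : x ∈ I) (hxM : x ∉ M) (hyI : y ∈ I) (hyM : y ∉ M) (hf : Far D F I v x y) :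
    GI D F I := by
  obtain ⟨n1, n2, n3, n4, n5, n6, e1, e2, T', hG', hsub', c1, c2⟩ :=
    two_chords hG hv hc (n := D + 2) (by rw [hnb, hd]) hw hij hji
  have hmem : ∀ l, w l ∈ nb F v := by
    intro l
    rw [← hnb, hw.cov]
    exact ⟨l % (D + 2), Nat.mod_lt _ (by omega), hw.mod l⟩
  have hwv : ∀ l, w l ≠ v := fun l => (mem_nb.1 (hmem l)).1
  have hdl' : dl F v ⊆ edges T' := by
    intro e he
    apply hsub'
    rw [mem_filter]
    exact ⟨hdl he, (mem_filter.1 he).2⟩
  have f1 : ({w i, w (i + 2)} : Finset V) ∉ F := fun h => e1 (hdl (pair_mem_dl (hwv _) (hwv _) h))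
  have f2 : ({w j, w (j + 2)} : Finset V) ∉ F := fun h => e2 (hdl (pair_mem_dl (hwv _) (hwv _) h))
  have key : ∀ x a y b : V, ({x, a} : Finset V) = {w i, w (i + 2)} →
      ({y, b} : Finset V) = {w j, w (j + 2)} → x ∈ nb F v → a ∈ nb F v → y ∈ nb F v →
      b ∈ nb F v → x ≠ a → y ≠ b → x ≠ y → x ≠ b → a ≠ y → a ≠ b → x ∈ I → x ∉ M →
      y ∈ I → y ∉ M → Far D F I v x y → GI D F I := by
    intro x a y b q1 q2 hx ha hy hb hxa hyb hxy hxb hay hab hxI hxM hyI hyM hf
    obtain ⟨hA', hS'⟩ := sparse_ext2 hA hS hv hM hxI (mem_nb.1 hx).1 hxM hyI (mem_nb.1 hy).1 hyM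
      hf hxa hyb
    refine gi_ext2 hv hx ha hy hb hxa hyb hxy hxb hay hab hd (by rw [q1]; exact f1)
      (by rw [q2]; exact f2) ?_
    refine hIH T' _ hG' ?_ hA' hS'
    apply insert_subset
    · rw [q1]; exact c1
    · apply insert_subset
      · rw [q2]; exact c2
      · exact hdl'
  rcases hx with rfl | rfl <;> rcases hy with rfl | rfl
  · exact key _ (w (i + 2)) _ (w (j + 2)) rfl rfl (hmem _) (hmem _) (hmem _) (hmem _)
      n1 n2 n3 n4 n5 n6 hxI hxM hyI hyM hf
  · exact key _ (w (i + 2)) _ (w j) rfl (pair_comm _ _) (hmem _) (hmem _) (hmem _) (hmem _)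
      n1 n2.symm n4 n3 n6 n5 hxI hxM hyI hyM hf
  · exact key _ (w i) _ (w (j + 2)) (pair_comm _ _) rfl (hmem _) (hmem _) (hmem _) (hmem _)
      n1.symm n2 n5 n6 n3 n4 hxI hxM hyI hyM hf
  · exact key _ (w i) _ (w j) (pair_comm _ _) (pair_comm _ _) (hmem _) (hmem _) (hmem _) (hmem _)
      n1.symm n2.symm n6 n5 n4 n3 hxI hxM hyI hyM hf

/-- the same, in terms of the distance on the link -/
theorem red3b {D : ℕ} (hD : 4 ≤ D) {T F : Finset (Finset V)} {I : Finset V} (hG : Good T I)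
    (hA : Adm F I) (hS : Sparse D F I) {v : V} (hv : v ∈ I)
    (hc : Chordless T v) (hIH : IHyp D (I.erase v)) (hd : (nb F v).card = D + 2)
    (hnb : nb (edges T) v = nb F v) (hdl : dl F v ⊆ edges T)
    {M : Finset V} (hM : MaxTight D F I v M) {w : ℕ → V} (hw : Enum T v (D + 2) w)
    {d : ℕ} (hd0 : 0 < d) (hdn : d < D + 2) (hodd : 5 ≤ D ∨ Odd d)
    (hxI : w 0 ∈ I) (hxM : w 0 ∉ M) (hyI : w d ∈ I) (hyM : w d ∉ M)
    (hf : Far D F I v (w 0) (w d)) : GI D F I := by
  obtain ⟨i, j, hij, hji, hi, hj⟩ := arc (n := D + 2) (d := d) (by omega) hd0 hdn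
    (by rcases hodd with h | h
        · left; omega
        · right; exact h)
  have h0 : w (D + 2) = w 0 := by have := hw.per 0; rwa [Nat.zero_add] at this
  refine red3a hG hA hS hv hc hIH hd hnb hdl hM hw hij hji ?_ ?_ hxI hxM hyI hyM hf
  · rcases hi with rfl | h
    · left; rfl
    · right; rw [h, h0]
  · rcases hj with rfl | h | rfl
    · left; rfl
    · right; rw [h]
    · left; exact (hw.per d).symm

/-- `v` is blocked: at least two live neighbours, and they are in different classes -/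
def Blocked (F : Finset (Finset V)) (I M : Finset V) (v : V) : Prop :=
  (∃ y ∈ nb F v, y ∈ I ∧ y ∉ M ∧ ∃ z ∈ nb F v, z ∈ I ∧ z ∉ M ∧ y ≠ z) ∧
  ∀ y ∈ nb F v, y ∈ I → y ∉ M → ∀ z ∈ nb F v, z ∈ I → z ∉ M → y ≠ z →
    z ∉ Cls F ((I \ M).erase v) y

theorem red3 {D : ℕ} (hD : 4 ≤ D) {T F : Finset (Finset V)} {I : Finset V} (hG : Good T I)
    (hF : F ⊆ edges T) (hA : Adm F I) (hS : Sparse D F I) {v : V} (hv : v ∈ I)
    (hc : Chordless T v) (hIH : IHyp D (I.erase v)) (hd : (nb F v).card = D + 2)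
    {M : Finset V} (hM : MaxTight D F I v M) : GI D F I ∨ Blocked F I M v := by
  by_cases hGI : GI D F I
  · exact Or.inl hGI
  right
  obtain ⟨T1, hG1, hc1, hnb1, hsub1⟩ := reduce hG hv hc (nb_subset hF v) (by omega)
  have hdl : dl F v ⊆ edges T1 := (filter_subset_filter _ hF).trans hsub1
  have hF1 : F ⊆ edges T1 := by
    intro e he
    by_cases hve : v ∈ e
    · obtain ⟨a, b, hab, rfl⟩ := Finset.card_eq_two.1 (hA e he).1
      rw [mem_insert, mem_singleton] at hve
      rcases hve with rfl | rfl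
      · have : b ∈ nb (edges T1) v := by
          rw [hnb1, mem_nb]; exact ⟨hab.symm, he⟩
        exact (mem_nb.1 this).2
      · have : a ∈ nb (edges T1) v := by
          rw [hnb1, mem_nb]; exact ⟨hab, by rw [pair_comm]; exact he⟩
        rw [pair_comm]
        exact (mem_nb.1 this).2
    · exact hdl (mem_filter.2 ⟨he, hve⟩)
  obtain ⟨w, hw⟩ := link_enum hG1 hv (n := D + 2) (by rw [hnb1, hd])
  have hn0 : 0 < D + 2 := by omega
  have hcov : ∀ u, u ∈ nb F v ↔ ∃ i < D + 2, w i = u := by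
    intro u; rw [← hnb1]; exact hw.cov u
  have hmem : ∀ l, w l ∈ nb F v := by
    intro l
    rw [hcov]
    exact ⟨l % (D + 2), Nat.mod_lt _ hn0, hw.mod l⟩
  have hvM : v ∉ M := fun h => (mem_erase.1 (hM.sub h)).1 rfl
  -- far pairs of live neighbours are at even distance, and D = 4
  have hfar : ∀ a b, a < b → b < a + (D + 2) → w a ∈ I → w a ∉ M → w b ∈ I → w b ∉ M →
      Far D F I v (w a) (w b) → D = 4 ∧ Even (b - a) := by
    intro a b hab hba haI haM hbI hbM hf
    by_contra hcon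
    apply hGI
    have e0 : w (0 + a) = w a := by rw [Nat.zero_add]
    have eb : w (b - a + a) = w b := by congr 1; omega
    refine red3b hD hG1 hA hS hv hc1 hIH hd hnb1 hdl hM (hw.shift hn0 a) (d := b - a)
      (by omega) (by omega) ?_ ?_ ?_ ?_ ?_ ?_
    · by_contra h
      push Not at h
      apply hcon
      exact ⟨by omega, by rw [← Nat.not_odd_iff_even]; exact h.2⟩
    · simpa only [e0] using haI
    · simpa only [e0] using haM
    · simpa only [eb] using hbI
    · simpa only [eb] using hbM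
    · simpa only [e0, eb] using hf
  obtain ⟨x, hx, hxI, hxM⟩ := exists_live hA hS hv hM (by omega)
  obtain ⟨y, hy, hyI, hyM, hyx, hxy⟩ := exists_far hA hS hv hM hd hx hxI hxM
  obtain ⟨p, hp, rfl⟩ := (hcov x).1 hx
  obtain ⟨q, hq, rfl⟩ := (hcov y).1 hy
  have hpq : D = 4 ∧ (Even p ↔ Even q) := by
    rcases lt_trichotomy p q with h | h | h
    · obtain ⟨h1, h2⟩ := hfar p q h (by omega) hxI hxM hyI hyM hxy
      refine ⟨h1, ?_⟩
      rw [Nat.even_sub h.le] at h2
      exact h2.symm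
    · subst h; exact absurd rfl hyx
    · obtain ⟨h1, h2⟩ := hfar q p h (by omega) hyI hyM hxI hxM (far_symm hxy)
      refine ⟨h1, ?_⟩
      rw [Nat.even_sub h.le] at h2
      exact h2
  obtain ⟨rfl, hpq⟩ := hpq
  -- all live neighbours have the parity of p
  have hlive : ∀ l < 6, w l ∈ I → w l ∉ M → (Even l ↔ Even p) := by
    intro l hl hlI hlM
    have gen : ∀ r < 6, w r ∈ I → w r ∉ M → Far 4 F I v (w l) (w r) → (Even l ↔ Even r) := by
      intro r hr hrI hrM hf
      rcases lt_trichotomy l r with h | h | h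
      · obtain ⟨_, h2⟩ := hfar l r h (by omega) hlI hlM hrI hrM hf
        rw [Nat.even_sub h.le] at h2
        exact h2.symm
      · subst h; rfl
      · obtain ⟨_, h2⟩ := hfar r l h (by omega) hrI hrM hlI hlM (far_symm hf)
        rw [Nat.even_sub h.le] at h2
        exact h2
    rcases far_third hS hM hxy hlM with h | h
    · exact gen p hp hxI hxM (far_symm h)
    · rw [gen q hq hyI hyM h]; exact hpq.symm
  have hsub : M ⊆ I := hM.sub.trans (erase_subset _ _)
  refine ⟨⟨w p, hx, hxI, hxM, w q, hy, hyI, hyM, hyx.symm⟩, ?_⟩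
  intro y' hy' hy'I hy'M z hz hzI hzM hyz
  obtain ⟨a, ha, rfl⟩ := (hcov y').1 hy'
  obtain ⟨b, hb, rfl⟩ := (hcov z).1 hz
  have ea := hlive a ha hy'I hy'M
  have eb := hlive b hb hzI hzM
  have dead : ∀ l < 6, ¬ (Even l ↔ Even p) → w l ∉ I \ M := by
    intro l hl hne hmem'
    rw [mem_sdiff] at hmem'
    exact hne (hlive l hl hmem'.1 hmem'.2)
  have hdead : ∀ m, Odd m → w (m + a) ∉ I \ M := by
    intro m hm
    rw [← hw.mod (m + a)]
    apply dead _ (Nat.mod_lt _ hn0)
    rw [← ea]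
    have h6 : Even ((m + a) % (4 + 2)) ↔ Even (m + a) := by
      rw [Nat.even_iff, Nat.even_iff]
      omega
    rw [h6, Nat.even_add]
    rw [← Nat.not_even_iff_odd] at hm
    tauto
  -- the position of z relative to a
  have hwa := hw.shift hn0 a
  have main : ∀ m, m = 2 ∨ m = 4 → w (m + a) = w b →
      w b ∉ Cls F ((I \ M).erase v) (w a) := by
    intro m hm hmb
    have e0 : w (0 + a) = w a := by rw [Nat.zero_add]
    have h := sep (i := m) (j := 1) (k := m + 1) hD hG1 hF1 hA hS hsub hM.tight hv hvM hwa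
      one_pos (by omega) (by omega) (by omega)
      (by show w (0 + a) ∈ I \ M; rw [e0, mem_sdiff]; exact ⟨hy'I, hy'M⟩)
      (by show w (m + a) ∈ I \ M; rw [hmb, mem_sdiff]; exact ⟨hzI, hzM⟩)
      (by show w (1 + a) ∉ I \ M; exact hdead 1 (by decide))
      (by show w (m + 1 + a) ∉ I \ M
          apply hdead
          rcases hm with rfl | rfl <;> decide)
    have h' : w (m + a) ∉ Cls F ((I \ M).erase v) (w (0 + a)) := h
    rwa [e0, hmb] at h'
  have hab : a ≠ b := by rintro rfl; exact hyz rfl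
  have hpar : Even a ↔ Even b := ea.trans eb.symm
  have hwper : ∀ l, w (l + 6) = w l := hw.per
  rcases lt_or_gt_of_ne hab with h | h
  · apply main (b - a)
    · rw [Nat.even_iff, Nat.even_iff] at hpar
      omega
    · congr 1; omega
  · apply main (b + 6 - a)
    · rw [Nat.even_iff, Nat.even_iff] at hpar
      omega
    · have : b + 6 - a + a = b + 6 := by omega
      rw [this, hwper]

end Pool.Agent.Spl1
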