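import Pool.Agent.Spl1.Flip

/-!
# Reducing the degree of a chordless vertex

Paper proof of `flip_step`.  `v ∈ I`, `Chordless T v`, at least four neighbours, `{v,u,w},{v,u,w'} ∈ T`,
`w ≠ w'`.  If `{w,w'} ∈ edges T` then `{v,w,w'} ∈ T` by `Chordless`, and the three triangles
`{v,u,w},{v,u,w'},{v,w,w'}` are a nonempty `LinkEven` subset of `star T v`, so they are all of `star T v` (`conn`)
and `v` has only three neighbours (`star_card`), contradiction.  So the flip is possible (`good_flip`,
`edges_flip`).  `nb` at `v`: `{w,w'}` is not an edge at `v`, so only `u` is removed.  `Chordless` for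
`T' = flipT T v u w w'`: let `{v,x},{v,y},{x,y} ∈ edges T'`; `x, y ≠ u`.  If `{x,y} = {w,w'}` then
`{v,x,y} ∈ T'`.  Otherwise `{x,y} ∈ edges T`, so `{v,x,y} ∈ T`, and it does not contain `u`, so it is in `T'`.
The triangles of `T` at `v` not containing `u` are in `T'`.

`delv`: strong induction on `|nb (edges T) v|` (which is `≥ 3`: `nb_card_ge`).  If it is at least `4` take any
neighbour `u` (`link_two`) and flip; every edge of `T` not at `v` is still there.  If it is `3`,
`nb (edges T) v = {a,b,c}`: `link_two` at `a` gives the triangles `{v,a,b},{v,a,c}`, at `b` the triangles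
`{v,b,a},{v,b,c}`; `star_card` says that there are three, apply `good_del3`.

`nb_card_ge`: `star T v ≠ ∅` (`ne`), so there is `u ∈ nb (edges T) v`; `link_two` gives `w ≠ w'`, and
`u, w, w'` are neighbours of `v`.

`reduce`: induction on `|nb (edges T) v \ S|`: if there is `u ∈ nb (edges T) v \ S` then `v` has at least
`|S| + 1 ≥ 4` neighbours and `flip_step` removes `u`.
-/

set_option autoImplicit false

namespace Pool.Agent.Spl1

open Finset

variable {V : Type*} [Fintype V] [DecidableEq V]

theorem step_nb_of_tri {T : Finset (Finset V)} {v x y : V} (h : ({v, x, y} : Finset V) ∈ T)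
    (hx : x ≠ v) : x ∈ nb (edges T) v := by
  rw [mem_nb, mem_edges]
  refine ⟨hx, Finset.card_pair hx.symm, _, h, ?_⟩
  intro a ha
  simp only [mem_insert, mem_singleton] at ha ⊢
  tauto

theorem step_tri_comm {v x y : V} : ({v, x, y} : Finset V) = {v, y, x} := by
  ext a
  simp only [mem_insert, mem_singleton]
  tauto

theorem step_tri_ne {v x y : V} (h : ({v, x, y} : Finset V).card = 3) : v ≠ x ∧ v ≠ y ∧ x ≠ y := by
  refine ⟨?_, ?_, ?_⟩
  · rintro rfl
    have : ({v, v, y} : Finset V).card ≤ 2 := by
      rw [Finset.insert_eq_of_mem (Finset.mem_insert_self _ _)]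
      exact Finset.card_le_two
    omega
  · rintro rfl
    have : ({v, x, v} : Finset V).card ≤ 2 := by
      rw [Finset.insert_eq_of_mem (by simp)]
      exact Finset.card_le_two
    omega
  · rintro rfl
    have : ({v, x, x} : Finset V).card ≤ 2 := by
      have e : ({v, x, x} : Finset V) = {v, x} := by
        ext a; simp
      rw [e]
      exact Finset.card_le_two
    omega

theorem nb_card_ge {T : Finset (Finset V)} {I : Finset V} (h : Good T I) {v : V} (hv : v ∈ I) :
    3 ≤ (nb (edges T) v).card := by
  obtain ⟨t, ht⟩ := h.ne v hv
  rw [mem_star] at ht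
  have h3 := h.card3 t ht.1
  obtain ⟨u, hut, huv⟩ : ∃ u ∈ t, u ≠ v := by
    by_contra hcon
    push Not at hcon
    have : t ⊆ {v} := by
      intro x hx
      rw [mem_singleton]
      exact hcon x hx
    have := Finset.card_le_card this
    rw [card_singleton] at this
    omega
  have hu : u ∈ nb (edges T) v := by
    rw [mem_nb, mem_edges]
    refine ⟨huv, Finset.card_pair huv.symm, t, ht.1, ?_⟩
    intro a ha
    simp only [mem_insert, mem_singleton] at ha
    rcases ha with rfl | rfl
    · exact ht.2
    · exact hut
  obtain ⟨w, w', hww, hwv, hwu, hwv', hwu', hvu, h1, h2, -⟩ := link_two h hv hu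
  have hs : ({u, w, w'} : Finset V) ⊆ nb (edges T) v := by
    intro a ha
    simp only [mem_insert, mem_singleton] at ha
    rcases ha with rfl | rfl | rfl
    · exact hu
    · rw [step_tri_comm] at h1
      exact step_nb_of_tri h1 hwv
    · rw [step_tri_comm] at h2
      exact step_nb_of_tri h2 hwv'
  have hc : ({u, w, w'} : Finset V).card = 3 := by
    rw [Finset.card_eq_three]
    exact ⟨u, w, w', hwu.symm, hwu'.symm, hww, rfl⟩
  calc 3 = ({u, w, w'} : Finset V).card := hc.symm
    _ ≤ _ := Finset.card_le_card hs

/-- in a link with at least four vertices, the two neighbours of `u` are not adjacent -/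
theorem skip_not_edge {T : Finset (Finset V)} {I : Finset V} (h : Good T I) {v u w w' : V}
    (hv : v ∈ I) (hc : Chordless T v) (hn : 4 ≤ (nb (edges T) v).card)
    (h1 : ({v, u, w} : Finset V) ∈ T) (h2 : ({v, u, w'} : Finset V) ∈ T) (hww : w ≠ w') :
    ({w, w'} : Finset V) ∉ edges T := by
  intro he
  obtain ⟨hvu, hvw, huw⟩ := step_tri_ne (h.card3 _ h1)
  obtain ⟨-, hvw', huw'⟩ := step_tri_ne (h.card3 _ h2)
  have e1 : ({v, w} : Finset V) ∈ edges T := by
    rw [step_tri_comm] at h1
    exact (mem_nb.1 (step_nb_of_tri h1 hvw.symm)).2
  have e2 : ({v, w'} : Finset V) ∈ edges T := by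
    rw [step_tri_comm] at h2
    exact (mem_nb.1 (step_nb_of_tri h2 hvw'.symm)).2
  have h3 : ({v, w, w'} : Finset V) ∈ T := hc w w' hww hvw.symm hvw'.symm e1 e2 he
  have n12 : ({v, u, w} : Finset V) ≠ {v, u, w'} := by
    intro e
    have : w ∈ ({v, u, w'} : Finset V) := by rw [← e]; simp
    simp only [mem_insert, mem_singleton] at this
    rcases this with h | h | h
    · exact hvw h.symm
    · exact huw h.symm
    · exact hww h
  have n13 : ({v, u, w} : Finset V) ≠ {v, w, w'} := by
    intro e
    have : u ∈ ({v, w, w'} : Finset V) := by rw [← e]; simp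
    simp only [mem_insert, mem_singleton] at this
    rcases this with h | h | h
    · exact hvu h.symm
    · exact huw h
    · exact huw' h
  have n23 : ({v, u, w'} : Finset V) ≠ {v, w, w'} := by
    intro e
    have : u ∈ ({v, w, w'} : Finset V) := by rw [← e]; simp
    simp only [mem_insert, mem_singleton] at this
    rcases this with h | h | h
    · exact hvu h.symm
    · exact huw h
    · exact huw' h
  set S : Finset (Finset V) := {{v, u, w}, {v, u, w'}, {v, w, w'}} with hS
  have hsub : S ⊆ star T v := by
    intro t ht
    simp only [hS, mem_insert, mem_singleton] at ht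
    rw [mem_star]
    rcases ht with rfl | rfl | rfl
    · exact ⟨h1, by simp⟩
    · exact ⟨h2, by simp⟩
    · exact ⟨h3, by simp⟩
  have hcard : S.card = 3 := by
    rw [Finset.card_eq_three]
    exact ⟨_, _, _, n12, n13, n23, rfl⟩
  have hev : LinkEven S v := by
    intro a hav
    unfold tdeg
    by_cases hau : a = u
    · subst hau
      have : S.filter (fun t => ({v, a} : Finset V) ⊆ t) = {{v, a, w}, {v, a, w'}} := by
        ext t
        simp only [hS, mem_filter, mem_insert, mem_singleton]
        constructor
        · rintro ⟨rfl | rfl | rfl, ht⟩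
          · exact Or.inl rfl
          · exact Or.inr rfl
          · exfalso
            have : a ∈ ({v, w, w'} : Finset V) := ht (by simp)
            simp only [mem_insert, mem_singleton] at this
            rcases this with h | h | h
            · exact hvu h.symm
            · exact huw h
            · exact huw' h
        · rintro (rfl | rfl)
          · refine ⟨Or.inl rfl, ?_⟩
            intro b hb
            simp only [mem_insert, mem_singleton] at hb ⊢
            tauto
          · refine ⟨Or.inr (Or.inl rfl), ?_⟩
            intro b hb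
            simp only [mem_insert, mem_singleton] at hb ⊢
            tauto
      rw [this, Finset.card_pair n12]
      exact even_two
    by_cases haw : a = w
    · subst haw
      have : S.filter (fun t => ({v, a} : Finset V) ⊆ t) = {{v, u, a}, {v, a, w'}} := by
        ext t
        simp only [hS, mem_filter, mem_insert, mem_singleton]
        constructor
        · rintro ⟨rfl | rfl | rfl, ht⟩
          · exact Or.inl rfl
          · exfalso
            have : a ∈ ({v, u, w'} : Finset V) := ht (by simp)
            simp only [mem_insert, mem_singleton] at this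
            rcases this with h | h | h
            · exact hvw h.symm
            · exact huw h.symm
            · exact hww h
          · exact Or.inr rfl
        · rintro (rfl | rfl)
          · refine ⟨Or.inl rfl, ?_⟩
            intro b hb
            simp only [mem_insert, mem_singleton] at hb ⊢
            tauto
          · refine ⟨Or.inr (Or.inr rfl), ?_⟩
            intro b hb
            simp only [mem_insert, mem_singleton] at hb ⊢
            tauto
      rw [this, Finset.card_pair n13]
      exact even_two
    by_cases haw' : a = w'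
    · subst haw'
      have : S.filter (fun t => ({v, a} : Finset V) ⊆ t) = {{v, u, a}, {v, w, a}} := by
        ext t
        simp only [hS, mem_filter, mem_insert, mem_singleton]
        constructor
        · rintro ⟨rfl | rfl | rfl, ht⟩
          · exfalso
            have : a ∈ ({v, u, w} : Finset V) := ht (by simp)
            simp only [mem_insert, mem_singleton] at this
            rcases this with h | h | h
            · exact hvw' h.symm
            · exact huw' h.symm
            · exact hww h.symm
          · exact Or.inl rfl
          · exact Or.inr rfl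
        · rintro (rfl | rfl)
          · refine ⟨Or.inr (Or.inl rfl), ?_⟩
            intro b hb
            simp only [mem_insert, mem_singleton] at hb ⊢
            tauto
          · refine ⟨Or.inr (Or.inr rfl), ?_⟩
            intro b hb
            simp only [mem_insert, mem_singleton] at hb ⊢
            tauto
      rw [this, Finset.card_pair n23]
      exact even_two
    · have : S.filter (fun t => ({v, a} : Finset V) ⊆ t) = ∅ := by
        rw [Finset.filter_eq_empty_iff]
        intro t ht hsub'
        have hat : a ∈ t := hsub' (by simp)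
        simp only [hS, mem_insert, mem_singleton] at ht
        rcases ht with rfl | rfl | rfl <;> simp only [mem_insert, mem_singleton] at hat <;> tauto
      rw [this]
      simp
  have hstar := star_card h hv
  rcases h.conn v hv S hsub hev with h0 | h0
  · rw [h0] at hcard
    simp at hcard
  · rw [← h0, hcard] at hstar
    omega

theorem flip_step {T : Finset (Finset V)} {I : Finset V} (h : Good T I) {v u w w' : V}
    (hv : v ∈ I) (hc : Chordless T v) (hn : 4 ≤ (nb (edges T) v).card)
    (h1 : ({v, u, w} : Finset V) ∈ T) (h2 : ({v, u, w'} : Finset V) ∈ T) (hww : w ≠ w') :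
    Good (flipT T v u w w') I ∧ Chordless (flipT T v u w w') v ∧
      nb (edges (flipT T v u w w')) v = (nb (edges T) v).erase u ∧
      edges (flipT T v u w w') = insert {w, w'} ((edges T).erase {v, u}) ∧
      ∀ t ∈ T, u ∉ t → t ∈ flipT T v u w w' := by
  obtain ⟨hvu, hvw, huw⟩ := step_tri_ne (h.card3 _ h1)
  obtain ⟨-, hvw', huw'⟩ := step_tri_ne (h.card3 _ h2)
  have hne := skip_not_edge h hv hc hn h1 h2 hww
  have hE := edges_flip h h1 h2 hww hne
  have hG := good_flip h h1 h2 hww hne
  have hT : ∀ t ∈ T, u ∉ t → t ∈ flipT T v u w w' := by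
    intro t ht hut
    unfold flipT
    rw [mem_union, mem_sdiff]
    left
    refine ⟨ht, ?_⟩
    simp only [mem_insert, mem_singleton]
    rintro (rfl | rfl)
    · apply hut; simp
    · apply hut; simp
  have hnb : ∀ x, ({v, x} : Finset V) ∈ edges (flipT T v u w w') → x ≠ v →
      x ≠ u ∧ ({v, x} : Finset V) ∈ edges T := by
    intro x hx hxv
    rw [hE, mem_insert, mem_erase] at hx
    rcases hx with hx | hx
    · exfalso
      have : v ∈ ({w, w'} : Finset V) := by rw [← hx]; simp
      simp only [mem_insert, mem_singleton] at this
      rcases this with h | h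
      · exact hvw h
      · exact hvw' h
    · refine ⟨?_, hx.2⟩
      rintro rfl
      exact hx.1 rfl
  refine ⟨hG, ?_, ?_, hE, hT⟩
  · intro x y hxy hxv hyv hx hy hxy'
    obtain ⟨hxu, hx⟩ := hnb x hx hxv
    obtain ⟨hyu, hy⟩ := hnb y hy hyv
    rw [hE, mem_insert, mem_erase] at hxy'
    rcases hxy' with he | he
    · have : ({v, x, y} : Finset V) = {v, w, w'} := by
        have e : ({v, x, y} : Finset V) = insert v ({x, y} : Finset V) := rfl
        rw [e, he]
      rw [this]
      unfold flipT
      simp
    · have := hc x y hxy hxv hyv hx hy he.2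
      apply hT _ this
      simp only [mem_insert, mem_singleton]
      rintro (h | h | h)
      · exact hvu h.symm
      · exact hxu h.symm
      · exact hyu h.symm
  · ext x
    rw [mem_erase, mem_nb, mem_nb]
    constructor
    · rintro ⟨hxv, hx⟩
      obtain ⟨hxu, hx'⟩ := hnb x hx hxv
      exact ⟨hxu, hxv, hx'⟩
    · rintro ⟨hxu, hxv, hx⟩
      refine ⟨hxv, ?_⟩
      rw [hE, mem_insert, mem_erase]
      right
      refine ⟨?_, hx⟩
      intro he
      have : x ∈ ({v, u} : Finset V) := by rw [← he]; simp
      simp only [mem_insert, mem_singleton] at this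
      rcases this with h | h
      · exact hxv h
      · exact hxu h

theorem step_filter_flip {T T' : Finset (Finset V)} {v u w w' : V}
    (hE : edges T' = insert {w, w'} ((edges T).erase {v, u})) :
    (edges T).filter (fun e => v ∉ e) ⊆ (edges T').filter (fun e => v ∉ e) := by
  intro e he
  rw [mem_filter] at he ⊢
  refine ⟨?_, he.2⟩
  rw [hE, mem_insert, mem_erase]
  right
  refine ⟨?_, he.1⟩
  rintro rfl
  apply he.2
  simp

theorem delv {T : Finset (Finset V)} {I : Finset V} (h : Good T I) {v : V} (hv : v ∈ I)
    (hc : Chordless T v) :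
    ∃ T', Good T' (I.erase v) ∧ (edges T).filter (fun e => v ∉ e) ⊆ edges T' := by
  obtain ⟨n, hn⟩ : ∃ n, (nb (edges T) v).card = n + 3 := by
    have := nb_card_ge h hv
    exact ⟨(nb (edges T) v).card - 3, by omega⟩
  induction n generalizing T with
  | zero =>
    rw [zero_add, Finset.card_eq_three] at hn
    obtain ⟨a, b, c, hab, hac, hbc, hnb⟩ := hn
    have tri : ∀ x y z : V, x ≠ y → x ≠ z → y ≠ z → nb (edges T) v = {x, y, z} →
        ({v, x, y} : Finset V) ∈ T ∧ ({v, x, z} : Finset V) ∈ T := by
      intro x y z hxy hxz hyz hxyz
      have hx : x ∈ nb (edges T) v := by rw [hxyz]; simp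
      obtain ⟨w, w', hww, hwv, hwu, hwv', hwu', hvu, h1, h2, -⟩ := link_two h hv hx
      have m1 : w ∈ nb (edges T) v := by
        have h1' := h1
        rw [step_tri_comm] at h1'
        exact step_nb_of_tri h1' hwv
      have m2 : w' ∈ nb (edges T) v := by
        have h2' := h2
        rw [step_tri_comm] at h2'
        exact step_nb_of_tri h2' hwv'
      rw [hxyz] at m1 m2
      simp only [mem_insert, mem_singleton] at m1 m2
      rcases m1 with m1 | m1 | m1
      · exact absurd m1 hwu
      · rcases m2 with m2 | m2 | m2
        · exact absurd m2 hwu'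
        · exact absurd (m1.trans m2.symm) hww
        · subst m1; subst m2
          exact ⟨h1, h2⟩
      · rcases m2 with m2 | m2 | m2
        · exact absurd m2 hwu'
        · subst m1; subst m2
          exact ⟨h2, h1⟩
        · exact absurd (m1.trans m2.symm) hww
    obtain ⟨t1, t3⟩ := tri a b c hab hac hbc hnb
    obtain ⟨-, t2⟩ := tri b a c hab.symm hbc hac (by rw [hnb]; ext x; simp; tauto)
    obtain ⟨hva, hvb, -⟩ := step_tri_ne (h.card3 _ t1)
    obtain ⟨-, hvc, -⟩ := step_tri_ne (h.card3 _ t3)
    have n12 : ({v, a, b} : Finset V) ≠ {v, b, c} := by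
      intro e
      have : a ∈ ({v, b, c} : Finset V) := by rw [← e]; simp
      simp only [mem_insert, mem_singleton] at this
      rcases this with h | h | h
      · exact hva h.symm
      · exact hab h
      · exact hac h
    have n13 : ({v, a, b} : Finset V) ≠ {v, a, c} := by
      intro e
      have : b ∈ ({v, a, c} : Finset V) := by rw [← e]; simp
      simp only [mem_insert, mem_singleton] at this
      rcases this with h | h | h
      · exact hvb h.symm
      · exact hab h.symm
      · exact hbc h
    have n23 : ({v, b, c} : Finset V) ≠ {v, a, c} := by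
      intro e
      have : b ∈ ({v, a, c} : Finset V) := by rw [← e]; simp
      simp only [mem_insert, mem_singleton] at this
      rcases this with h | h | h
      · exact hvb h.symm
      · exact hab h.symm
      · exact hbc h
    have hS : ({{v, a, b}, {v, b, c}, {v, a, c}} : Finset (Finset V)) ⊆ star T v := by
      intro t ht
      simp only [mem_insert, mem_singleton] at ht
      rw [mem_star]
      rcases ht with rfl | rfl | rfl
      · exact ⟨t1, by simp⟩
      · exact ⟨t2, by simp⟩
      · exact ⟨t3, by simp⟩
    have hS3 : ({{v, a, b}, {v, b, c}, {v, a, c}} : Finset (Finset V)).card = 3 := by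
      rw [Finset.card_eq_three]
      exact ⟨_, _, _, n12, n13, n23, rfl⟩
    have hnb3 : (nb (edges T) v).card = 3 := by
      rw [hnb, Finset.card_eq_three]
      exact ⟨_, _, _, hab, hac, hbc, rfl⟩
    have hst : star T v = {{v, a, b}, {v, b, c}, {v, a, c}} := by
      symm
      apply Finset.eq_of_subset_of_card_le hS
      rw [hS3, ← star_card h hv, hnb3]
    refine ⟨_, good_del3 h hv hst hab hbc hac, ?_⟩
    rw [edges_del3 h hv hst hab hbc hac]
  | succ n ih =>
    have h4 : 4 ≤ (nb (edges T) v).card := by omega
    obtain ⟨u, hu⟩ : (nb (edges T) v).Nonempty := by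
      rw [← Finset.card_pos]; omega
    obtain ⟨w, w', hww, hwv, hwu, hwv', hwu', hvu, h1, h2, -⟩ := link_two h hv hu
    obtain ⟨hG, hC, hN, hE, -⟩ := flip_step h hv hc h4 h1 h2 hww
    obtain ⟨T', hT', hsub⟩ := ih hG hC (by
      rw [hN, Finset.card_erase_of_mem hu, hn]
      omega)
    exact ⟨T', hT', (step_filter_flip hE).trans hsub⟩

theorem reduce {T : Finset (Finset V)} {I : Finset V} (h : Good T I) {v : V} (hv : v ∈ I)
    (hc : Chordless T v) {S : Finset V} (hS : S ⊆ nb (edges T) v) (h3 : 3 ≤ S.card) :
    ∃ T', Good T' I ∧ Chordless T' v ∧ nb (edges T') v = S ∧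
      (edges T).filter (fun e => v ∉ e) ⊆ edges T' := by
  obtain ⟨n, hn⟩ : ∃ n, (nb (edges T) v \ S).card = n := ⟨_, rfl⟩
  induction n generalizing T with
  | zero =>
    rw [Finset.card_eq_zero, Finset.sdiff_eq_empty_iff_subset] at hn
    exact ⟨T, h, hc, Finset.Subset.antisymm hn hS, Finset.filter_subset _ _⟩
  | succ n ih =>
    obtain ⟨u, hu⟩ : (nb (edges T) v \ S).Nonempty := by
      rw [← Finset.card_pos]; omega
    rw [mem_sdiff] at hu
    have h4 : 4 ≤ (nb (edges T) v).card := by
      have : insert u S ⊆ nb (edges T) v := by
        intro x hx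
        rw [mem_insert] at hx
        rcases hx with rfl | hx
        · exact hu.1
        · exact hS hx
      have := Finset.card_le_card this
      rw [Finset.card_insert_of_notMem hu.2] at this
      omega
    obtain ⟨w, w', hww, hwv, hwu, hwv', hwu', hvu, h1, h2, -⟩ := link_two h hv hu.1
    obtain ⟨hG, hC, hN, hE, -⟩ := flip_step h hv hc h4 h1 h2 hww
    obtain ⟨T', hT', hC', hN', hsub⟩ := ih hG hC (by
      rw [hN]
      intro x hx
      rw [mem_erase]
      refine ⟨?_, hS hx⟩
      rintro rfl
      exact hu.2 hx) (by
      rw [hN]
      have e : (nb (edges T) v).erase u \ S = (nb (edges T) v \ S).erase u := by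
        ext x
        simp only [mem_sdiff, mem_erase]
        tauto
      rw [e, Finset.card_erase_of_mem (by rw [mem_sdiff]; exact hu), hn]
      omega)
    exact ⟨T', hT', hC', hN', (step_filter_flip hE).trans hsub⟩

end Pool.Agent.Spl1
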