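import Pool.Agent.Spl1.Defs

/-!
# Geometric triangulations and spline spaces: definitions

`V` is the (finite) set of vertices, `p : V × Fin 2 → ℝ` their coordinates, `T` the set of triangles.

* `IsTriang p T`: the triangles are nondegenerate and two of them meet exactly in the convex hull of their
  common vertices (edge-to-edge), every vertex is used.
* `Disc T`: two triangles can always be joined by a chain of triangles with common edges, and
  `|V| - |E| + |T| = 1`.  For a triangulation in the plane this says that `Ω = Omega p T` is a closed disc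
  (a simply connected polygonal domain).
* `intV T`, `intE T`: interior vertices (no boundary edge at the vertex) and interior edges (in two triangles).
* `SplineFn r k p T`: the space `S^r_k` of functions on `Ω` which are `C^r` in the interior of `Ω` and
  polynomials of degree `≤ k` on every triangle.
* `SplineAlg r k p T`: the same space in terms of the polynomial pieces: for every edge `e` of two triangles
  the difference of the pieces is divisible by `ℓ_e^(r+1)`.
* `CofSys r d p T`: the space of smoothing cofactors: a polynomial `g u v` of degree `≤ d` for every oriented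
  interior edge with `g v u = (-1)^r g u v` and `∑_v g u v ℓ_{uv}^(r+1) = 0` for all interior `u`
  (`k = r + 1 + d`).
* `gdim r T`: the number `binom(r+3,2) + max_A (|E_I(A)| - (r+2)|A|)`, `A` a set of interior vertices and
  `E_I(A)` the set of interior edges all of whose interior ends are in `A`.
-/

set_option autoImplicit false

namespace Pool.Agent.Spl1

open Finset

variable {V : Type*} [Fintype V] [DecidableEq V]

/-- the position of `v` -/
def pt (p : V × Fin 2 → ℝ) (v : V) : Fin 2 → ℝ := fun k => p (v, k)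

/-- the closed triangle (segment, point) with vertices `t` -/
def hull (p : V × Fin 2 → ℝ) (t : Finset V) : Set (Fin 2 → ℝ) :=
  convexHull ℝ (pt p '' (t : Set V))

/-- the triangulated region -/
def Omega (p : V × Fin 2 → ℝ) (T : Finset (Finset V)) : Set (Fin 2 → ℝ) := ⋃ t ∈ T, hull p t

/-- cross product of `p_a - p_v` and `p_b - p_v` -/
def crs (p : V × Fin 2 → ℝ) (v a b : V) : ℝ :=
  (p (a, 0) - p (v, 0)) * (p (b, 1) - p (v, 1)) - (p (a, 1) - p (v, 1)) * (p (b, 0) - p (v, 0))

/-- geometric triangulations -/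
structure IsTriang (p : V × Fin 2 → ℝ) (T : Finset (Finset V)) : Prop where
  card3 : ∀ t ∈ T, t.card = 3
  used : ∀ v, ∃ t ∈ T, v ∈ t
  nondeg : ∀ u v w, ({u, v, w} : Finset V) ∈ T → crs p u v w ≠ 0
  inter : ∀ s ∈ T, ∀ t ∈ T, hull p s ∩ hull p t = hull p (s ∩ t)

/-- `T` is strongly connected and has Euler characteristic one -/
structure Disc (T : Finset (Finset V)) : Prop where
  ne : T.Nonempty
  dconn : ∀ S ⊆ T, S.Nonempty → (∀ s ∈ S, ∀ t ∈ T, (s ∩ t).card = 2 → t ∈ S) → S = T
  euler : Fintype.card V + T.card = (edges T).card + 1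

/-- interior vertices -/
def intV (T : Finset (Finset V)) : Finset V :=
  univ.filter (fun v => ∀ e ∈ edges T, v ∈ e → tdeg T e = 2)

/-- interior edges -/
def intE (T : Finset (Finset V)) : Finset (Finset V) := (edges T).filter (fun e => tdeg T e = 2)

/-- the affine form which vanishes on the line `u v` -/
noncomputable def lin (p : V × Fin 2 → ℝ) (u v : V) : MvPolynomial (Fin 2) ℝ :=
  MvPolynomial.C (p (v, 0) - p (u, 0)) * (MvPolynomial.X 1 - MvPolynomial.C (p (u, 1))) -
    MvPolynomial.C (p (v, 1) - p (u, 1)) * (MvPolynomial.X 0 - MvPolynomial.C (p (u, 0)))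

/-- the spline space `S^r_k` as a space of functions (extended by `0` outside `Ω`) -/
def SplineFn (r k : ℕ) (p : V × Fin 2 → ℝ) (T : Finset (Finset V)) :
    Submodule ℝ ((Fin 2 → ℝ) → ℝ) where
  carrier := {s | (∀ z, z ∉ Omega p T → s z = 0) ∧
    (∀ t ∈ T, ∃ P : MvPolynomial (Fin 2) ℝ, P.totalDegree ≤ k ∧
      ∀ z ∈ hull p t, s z = MvPolynomial.eval z P) ∧
    ContDiffOn ℝ r s (interior (Omega p T))}
  add_mem' := by
    intro a b ha hb
    refine ⟨fun z hz => ?_, fun t ht => ?_, ha.2.2.add hb.2.2⟩
    · simp [ha.1 z hz, hb.1 z hz]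
    · obtain ⟨P, hP, hP'⟩ := ha.2.1 t ht
      obtain ⟨Q, hQ, hQ'⟩ := hb.2.1 t ht
      refine ⟨P + Q, (MvPolynomial.totalDegree_add P Q).trans (max_le hP hQ), fun z hz => ?_⟩
      simp [hP' z hz, hQ' z hz]
  zero_mem' := by
    refine ⟨fun z hz => rfl, fun t ht => ⟨0, by simp, fun z hz => by simp⟩, ?_⟩
    exact contDiffOn_const
  smul_mem' := by
    intro c a ha
    refine ⟨fun z hz => ?_, fun t ht => ?_, ?_⟩
    · simp [ha.1 z hz]
    · obtain ⟨P, hP, hP'⟩ := ha.2.1 t ht
      refine ⟨c • P, (MvPolynomial.totalDegree_smul_le c P).trans hP, fun z hz => ?_⟩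
      simp [hP' z hz]
    · exact ha.2.2.const_smul c

/-- the spline space `S^r_k` in terms of the polynomial pieces -/
def SplineAlg (r k : ℕ) (p : V × Fin 2 → ℝ) (T : Finset (Finset V)) :
    Submodule ℝ (Finset V → MvPolynomial (Fin 2) ℝ) where
  carrier := {f | (∀ t, t ∉ T → f t = 0) ∧ (∀ t ∈ T, (f t).totalDegree ≤ k) ∧
    ∀ s ∈ T, ∀ t ∈ T, ∀ u v, u ≠ v → u ∈ s → v ∈ s → u ∈ t → v ∈ t →
      lin p u v ^ (r + 1) ∣ f s - f t}
  add_mem' := by
    intro a b ha hb
    refine ⟨fun t ht => ?_, fun t ht => ?_, fun s hs t ht u v huv h1 h2 h3 h4 => ?_⟩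
    · simp [ha.1 t ht, hb.1 t ht]
    · exact (MvPolynomial.totalDegree_add _ _).trans (max_le (ha.2.1 t ht) (hb.2.1 t ht))
    · have := dvd_add (ha.2.2 s hs t ht u v huv h1 h2 h3 h4) (hb.2.2 s hs t ht u v huv h1 h2 h3 h4)
      convert this using 1
      simp only [Pi.add_apply]
      ring
  zero_mem' := by
    refine ⟨fun t ht => rfl, fun t ht => by simp, fun s hs t ht u v huv h1 h2 h3 h4 => by simp⟩
  smul_mem' := by
    intro c a ha
    refine ⟨fun t ht => ?_, fun t ht => ?_, fun s hs t ht u v huv h1 h2 h3 h4 => ?_⟩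
    · simp [ha.1 t ht]
    · exact (MvPolynomial.totalDegree_smul_le c _).trans (ha.2.1 t ht)
    · have := (ha.2.2 s hs t ht u v huv h1 h2 h3 h4).mul_left (MvPolynomial.C c)
      convert this using 1
      simp only [Pi.smul_apply, MvPolynomial.smul_eq_C_mul]
      ring

/-- smoothing cofactors of degree `≤ d` -/
structure IsCof (r d : ℕ) (p : V × Fin 2 → ℝ) (T : Finset (Finset V))
    (g : V → V → MvPolynomial (Fin 2) ℝ) : Prop where
  supp : ∀ u v, g u v ≠ 0 → u ≠ v ∧ ({u, v} : Finset V) ∈ intE T
  deg : ∀ u v, (g u v).totalDegree ≤ d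
  symm : ∀ u v, g v u = (-1) ^ r * g u v
  eq : ∀ u ∈ intV T, ∑ v, g u v * lin p u v ^ (r + 1) = 0

/-- the space of smoothing cofactors -/
def CofSys (r d : ℕ) (p : V × Fin 2 → ℝ) (T : Finset (Finset V)) :
    Submodule ℝ (V → V → MvPolynomial (Fin 2) ℝ) where
  carrier := {g | IsCof r d p T g}
  add_mem' := by
    intro a b ha hb
    refine ⟨fun u v h => ?_, fun u v => ?_, fun u v => ?_, fun u hu => ?_⟩
    · by_cases h1 : a u v = 0
      · have h2 : b u v ≠ 0 := by
          intro h2; apply h; simp [h1, h2]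
        exact hb.supp u v h2
      · exact ha.supp u v h1
    · exact (MvPolynomial.totalDegree_add _ _).trans (max_le (ha.deg u v) (hb.deg u v))
    · simp only [Pi.add_apply]
      rw [ha.symm u v, hb.symm u v]; ring
    · simp only [Pi.add_apply, add_mul, sum_add_distrib]
      rw [ha.eq u hu, hb.eq u hu, add_zero]
  zero_mem' := by
    refine ⟨fun u v h => absurd rfl h, fun u v => by simp, fun u v => by simp, fun u hu => by simp⟩
  smul_mem' := by
    intro c a ha
    refine ⟨fun u v h => ?_, fun u v => ?_, fun u v => ?_, fun u hu => ?_⟩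
    · apply ha.supp u v
      intro h1; apply h; simp [h1]
    · exact (MvPolynomial.totalDegree_smul_le c _).trans (ha.deg u v)
    · simp only [Pi.smul_apply]
      rw [ha.symm u v, mul_smul_comm]
    · simp only [Pi.smul_apply, smul_mul_assoc, ← smul_sum]
      rw [ha.eq u hu, smul_zero]

/-- the generic dimension of `S^r_(r+1)` -/
def gdim (r : ℕ) (T : Finset (Finset V)) : ℕ :=
  (r + 3).choose 2 +
    (intV T).powerset.sup (fun A => cnt (intE T) (intV T) A - (r + 2) * A.card)

end Pool.Agent.Spl1
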