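import Pool.Agent.Spl1.TriGeo2
import Pool.Agent.Spl1.Cyc

/-!
# Geometric discs are combinatorial discs

Paper proof of `good_of_disc`, `I = intV T`.  `card3`, `le2` (`tdeg_le_two`), `int2` (definition), `ne`
(`used`), `conn` (`star_full`).  `acyc`: `v ∉ intV T` means that some edge `e = {v,u}` has `tdeg T e ≠ 2`,
so `tdeg T e = 1`; if `S ≠ ∅` then `S = star T v` (`star_full`) and `tdeg S {v,u} = 1` is odd.
`H2`: `no_closed`.  `H1`: the graph `(univ, edges T)` is connected: let `Z ≠ ∅` be closed under
`edges T`, `S` = triangles meeting `Z`; a triangle meeting `Z` is contained in `Z`; a triangle sharing an edge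
with it meets `Z`; so `S = T` (`dconn`; `S ≠ ∅` by `used`), and every vertex is in a triangle, so in `Z`.
`cyc_count_le` gives `2^|V| c ≤ 2^(|E|+1) = 2^(|V|+|T|)`, so the number `c` of cycles in `edges T` is at most
`2^|T|`.  By `H2` the map `D ↦ bdry D` from subsets of `T` to cycles in `edges T` is injective, so it is
surjective.
-/

set_option autoImplicit false

namespace Pool.Agent.Spl1

open Finset

variable {V : Type*} [Fintype V] [DecidableEq V]

theorem connected_of_disc {p : V × Fin 2 → ℝ} {T : Finset (Finset V)} (hp : IsTriang p T)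
    (hT : Disc T) : ∀ Z : Finset V, Z.Nonempty →
      (∀ e ∈ edges T, (e ∩ Z).Nonempty → e ⊆ Z) → Z = univ := by
  intro Z hZ hcl
  have h1 : ∀ t ∈ T, (t ∩ Z).Nonempty → t ⊆ Z := by
    intro t ht hne x hx
    obtain ⟨z, hz⟩ := hne
    rw [mem_inter] at hz
    by_cases hxz : x = z
    · rw [hxz]
      exact hz.2
    · have he : ({z, x} : Finset V) ∈ edges T := by
        rw [mem_edges]
        refine ⟨card_pair (Ne.symm hxz), t, ht, ?_⟩
        intro y hy
        rw [mem_insert, mem_singleton] at hy
        rcases hy with rfl | rfl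
        · exact hz.1
        · exact hx
      exact hcl _ he ⟨z, mem_inter.2 ⟨mem_insert_self _ _, hz.2⟩⟩
        (mem_insert_of_mem (mem_singleton_self _))
  have h2 : T.filter (fun t => (t ∩ Z).Nonempty) = T := by
    refine hT.dconn _ (filter_subset _ _) ?_ ?_
    · obtain ⟨z, hz⟩ := hZ
      obtain ⟨t, ht, hzt⟩ := hp.used z
      exact ⟨t, mem_filter.2 ⟨ht, z, mem_inter.2 ⟨hzt, hz⟩⟩⟩
    · intro s hs t ht hst
      rw [mem_filter] at hs ⊢
      refine ⟨ht, ?_⟩
      have h3 : (s ∩ t).Nonempty := by
        rw [← card_pos, hst]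
        norm_num
      obtain ⟨x, hx⟩ := h3
      rw [mem_inter] at hx
      exact ⟨x, mem_inter.2 ⟨hx.2, h1 s hs.1 hs.2 hx.1⟩⟩
  rw [eq_univ_iff_forall]
  intro v
  obtain ⟨t, ht, hvt⟩ := hp.used v
  have h3 := ht
  rw [← h2, mem_filter] at h3
  exact h1 t ht h3.2 hvt

theorem good_of_disc {p : V × Fin 2 → ℝ} {T : Finset (Finset V)} (hp : IsTriang p T)
    (hT : Disc T) : Good T (intV T) := by
  have hinj : ∀ D₁ ⊆ T, ∀ D₂ ⊆ T, bdry D₁ = bdry D₂ → D₁ = D₂ := by
    intro D₁ h₁ D₂ h₂ hb
    have h3 : bdry (symmDiff D₁ D₂) = ∅ := by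
      rw [bdry_symm, hb]
      exact symmDiff_self _
    have h4 : symmDiff D₁ D₂ ⊆ T := by
      intro t ht
      rw [mem_symmDiff] at ht
      rcases ht with ht | ht
      · exact h₁ ht.1
      · exact h₂ ht.1
    have h5 := no_closed hp h4 h3
    exact symmDiff_eq_bot.1 h5
  refine ⟨hp.card3, fun e he => tdeg_le_two hp he, fun v hv => (mem_filter.1 hv).2, ?_, ?_, ?_, ?_,
    fun D hD hb => no_closed hp hD hb⟩
  · intro v _
    obtain ⟨t, ht, hvt⟩ := hp.used v
    exact ⟨t, mem_star.2 ⟨ht, hvt⟩⟩
  · intro v _ S hS hl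
    rcases S.eq_empty_or_nonempty with h | h
    · exact Or.inl h
    · exact Or.inr (star_full hp hS hl h)
  · intro v hv S hS hl
    rw [← not_nonempty_iff_eq_empty]
    intro hne
    have hfull := star_full hp hS hl hne
    rw [intV, mem_filter, not_and] at hv
    have hv' := hv (mem_univ v)
    push Not at hv'
    obtain ⟨e, he, hve, hne2⟩ := hv'
    have he2 := (mem_edges.1 he).1
    have h1 := tdeg_le_two hp he2
    have h0 : 0 < tdeg T e := (mem_filter.1 he).2.2
    obtain ⟨x, y, hxy, hexy⟩ := card_eq_two.1 he2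
    have hu : ∃ u, u ≠ v ∧ e = {v, u} := by
      rw [hexy, mem_insert, mem_singleton] at hve
      rcases hve with h | h
      · exact ⟨y, by rw [h]; exact hxy.symm, by rw [hexy, h]⟩
      · exact ⟨x, by rw [h]; exact hxy, by rw [hexy, h, pair_comm]⟩
    obtain ⟨u, huv, heu⟩ := hu
    have h3 := hl u huv
    rw [hfull] at h3
    have h4 : tdeg (star T v) {v, u} = tdeg T e := by
      unfold tdeg star
      rw [heu, filter_filter]
      congr 1
      apply filter_congr
      intro t _
      constructor
      · exact fun h => h.2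
      · exact fun h => ⟨h (mem_insert_self _ _), h⟩
    rw [h4] at h3
    have h5 : tdeg T e = 1 := by omega
    rw [h5] at h3
    exact absurd h3 (by decide)
  · classical
    intro C hC hCc
    have hne : (univ : Finset V).Nonempty := by
      obtain ⟨t, ht⟩ := hT.ne
      have h3 := hp.card3 t ht
      have h4 : t.Nonempty := by
        rw [← card_pos, h3]
        norm_num
      obtain ⟨v, _⟩ := h4
      exact ⟨v, mem_univ v⟩
    have h1 := cyc_count_le (E := edges T) (W := univ) (fun e he => (mem_edges.1 he).1)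
      (fun e _ => subset_univ e) hne (fun Z _ hZ hcl => connected_of_disc hp hT Z hZ hcl)
    have h2 : T.powerset.image bdry ⊆ (edges T).powerset.filter (fun C => IsCyc C) := by
      intro B hB
      rw [mem_image] at hB
      obtain ⟨D, hD, rfl⟩ := hB
      have hD' := mem_powerset.1 hD
      rw [mem_filter, mem_powerset]
      exact ⟨bdry_subset_edges hD', isCyc_bdry fun t ht => hp.card3 t (hD' ht)⟩
    have h3 : ((edges T).powerset.filter (fun C => IsCyc C)).card ≤
        (T.powerset.image bdry).card := by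
      rw [card_image_of_injOn, card_powerset]
      · rw [card_univ, ← hT.euler, pow_add] at h1
        exact Nat.le_of_mul_le_mul_left h1 (by positivity)
      · intro D₁ h₁ D₂ h₂ hb
        exact hinj D₁ (mem_powerset.1 h₁) D₂ (mem_powerset.1 h₂) hb
    have h4 := eq_of_subset_of_card_le h2 h3
    have h5 : C ∈ (edges T).powerset.filter (fun C => IsCyc C) :=
      mem_filter.2 ⟨mem_powerset.2 hC, hCc⟩
    rw [← h4, mem_image] at h5
    obtain ⟨D, hD, hDC⟩ := h5
    exact ⟨D, mem_powerset.1 hD, hDC⟩

end Pool.Agent.Spl1
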