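import Pool.Agent.Spl1.TriExact
import Pool.Agent.Spl1.TriGood

/-!
# Splines and smoothing cofactors

`ori p t u v` is the sign of `crs p u v w`, `w` the third vertex of `t` (written as a sum over the one-element
set `t \ {u,v}`).  `ori_ori`: `crs p v u w = - crs p u v w`, `crs p u w v = - crs p u v w`, `opp`.

`finrank_polys`: the monomials `X₀^a X₁^b`, `a + b ≤ k`, are a basis (`MvPolynomial.basisRestrictSupport` or
a linear equivalence with `Finsupp.supported`), and there are `binom(k+2,2)` of them.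

`finrank_splineAlg`, `k = r + 1 + d`.  Let `W = V → V → MvPolynomial (Fin 2) ℝ` and
`Ψ : SplineAlg r k p T → W`, `(Ψ f) u v = ∑_{t ⊇ {u,v}} ori p t u v • f t` if `u ≠ v` and `{u,v} ∈ intE T`,
and `0` otherwise; `Θ : CofSys r d p T → W`, `(Θ g) u v = g u v * lin p u v ^ (r+1)`.  Both are linear, `Θ` is
injective (`lin p u v ≠ 0` for `u ≠ v` because `pt p` is injective).
* `range Ψ ⊆ range Θ`: at an interior edge there are two triangles `s, t`, `ori p s u v = - ori p t u v`, so
  `(Ψ f) u v = ± (f s - f t)` is divisible by `lin p u v ^ (r+1)`; let `g u v` be the quotient (`0` for the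
  other pairs).  Degree: `totalDegree (g * lin^(r+1)) = totalDegree g + (r+1) ≤ k`
  (`MvPolynomial.totalDegree_mul_of_isDomain`, `totalDegree (lin p u v) = 1`).  `(Ψ f) v u = - (Ψ f) u v` and
  `lin p v u = - lin p u v` give `g v u = (-1)^r g u v`.  For `u ∈ intV T`: all edges at `u` are interior and
  `∑_v (Ψ f) u v = ∑_{t ∋ u} (∑_{v ∈ t \ u} ori p t u v) • f t = 0`.
* `range Θ ⊆ range Ψ`: for every monomial `m` the numbers `J u v = coeff m (g u v * lin p u v ^ (r+1))` satisfy
  the hypotheses of `exact_real`; let `f_m` be the solution (`0` if `|m| > k`: then all `J = 0`); put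
  `f t = ∑_{|m| ≤ k} monomial m (f_m t)` for `t ∈ T` and `0` otherwise.  `Ψ f = Θ g`; for two triangles `s ≠ t`
  at an edge `{u,v}`, `tdeg T {u,v} = 2`, and `f s - f t = ± (Θ g) u v` is divisible by `lin^(r+1)`.
* `ker Ψ`: by `const_of_cob` the `f` which are constant on `T`: isomorphic to the polynomials of degree `≤ k`.
So `finrank SplineAlg = finrank ker Ψ + finrank range Ψ = binom(k+2,2) + finrank CofSys` (everything is finite
dimensional: `SplineAlg` embeds into a finite product of spaces of polynomials of bounded degree).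
-/

set_option autoImplicit false

namespace Pool.Agent.Spl1

open Finset

variable {V : Type*} [Fintype V] [DecidableEq V]

/-- the orientation of a triangle seen from the oriented edge `u v` -/
noncomputable def ori (p : V × Fin 2 → ℝ) (t : Finset V) (u v : V) : ℝ :=
  ∑ w ∈ (t.erase u).erase v, (SignType.sign (crs p u v w) : ℝ)

private theorem tc_third {t : Finset V} (ht : t.card = 3) {u v : V} (huv : u ≠ v) (hu : u ∈ t)
    (hv : v ∈ t) : ∃ w, w ≠ u ∧ w ≠ v ∧ t = {u, v, w} ∧ (t.erase u).erase v = {w} := by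
  have h1 : ((t.erase u).erase v).card = 1 := by
    rw [card_erase_of_mem (mem_erase.2 ⟨huv.symm, hv⟩), card_erase_of_mem hu, ht]
  obtain ⟨w, hw⟩ := card_eq_one.1 h1
  have hw' : w ∈ (t.erase u).erase v := by rw [hw]; exact mem_singleton_self w
  have h2 := mem_erase.1 hw'
  have h3 := mem_erase.1 h2.2
  refine ⟨w, h3.1, h2.1, ?_, hw⟩
  ext x
  simp only [mem_insert, mem_singleton]
  constructor
  · intro hx
    by_contra hc
    push Not at hc
    have : x ∈ (t.erase u).erase v := mem_erase.2 ⟨hc.2.1, mem_erase.2 ⟨hc.1, hx⟩⟩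
    rw [hw] at this
    exact hc.2.2 (mem_singleton.1 this)
  · rintro (h | h | h)
    · rw [h]; exact hu
    · rw [h]; exact hv
    · rw [h]; exact h3.2

private theorem tc_erase {u v w : V} (huv : u ≠ v) (hwu : w ≠ u) (hwv : w ≠ v) :
    ((({u, v, w} : Finset V)).erase u).erase v = {w} := by
  ext x
  simp only [mem_erase, mem_insert, mem_singleton]
  constructor
  · rintro ⟨h1, h2, h3 | h3 | h3⟩
    · exact absurd h3 h2
    · exact absurd h3 h1
    · exact h3
  · intro h
    rw [h]
    exact ⟨hwv, hwu, Or.inr (Or.inr rfl)⟩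

private theorem tc_ori_eq (p : V × Fin 2 → ℝ) {u v w : V} (huv : u ≠ v) (hwu : w ≠ u)
    (hwv : w ≠ v) : ori p {u, v, w} u v = (SignType.sign (crs p u v w) : ℝ) := by
  rw [ori, tc_erase huv hwu hwv, sum_singleton]

private theorem tc_crs_swap (p : V × Fin 2 → ℝ) (u v w : V) : crs p v u w = - crs p u v w := by
  unfold crs; ring

private theorem tc_crs_swap' (p : V × Fin 2 → ℝ) (u v w : V) : crs p u w v = - crs p u v w := by
  unfold crs; ring

private theorem tc_sign_neg (x : ℝ) :
    ((SignType.sign (-x) : SignType) : ℝ) = - ((SignType.sign x : SignType) : ℝ) := by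
  rw [Left.sign_neg]
  simp

private theorem tc_sign_pm {x : ℝ} (hx : x ≠ 0) :
    ((SignType.sign x : SignType) : ℝ) = 1 ∨ ((SignType.sign x : SignType) : ℝ) = -1 := by
  rcases lt_or_gt_of_ne hx with h | h
  · right; rw [sign_neg h]; simp
  · left; rw [sign_pos h]; simp

private theorem tc_card3 {t : Finset V} (ht : t.card = 3) {u v w : V} (h : t = {u, v, w}) :
    u ≠ v ∧ w ≠ u ∧ w ≠ v := by
  refine ⟨?_, ?_, ?_⟩
  · rintro rfl
    rw [h] at ht
    simp only [insert_eq_of_mem, mem_insert_self] at ht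
    have := card_le_two (a := u) (b := w)
    omega
  · rintro rfl
    rw [h] at ht
    have h2 : ({w, v, w} : Finset V) = {v, w} := by
      ext x; simp only [mem_insert, mem_singleton]; tauto
    rw [h2] at ht
    have := card_le_two (a := v) (b := w)
    omega
  · rintro rfl
    rw [h] at ht
    have h2 : ({u, w, w} : Finset V) = {u, w} := by
      ext x; simp only [mem_insert, mem_singleton]; tauto
    rw [h2] at ht
    have := card_le_two (a := u) (b := w)
    omega

theorem ori_ori {p : V × Fin 2 → ℝ} {T : Finset (Finset V)} (hp : IsTriang p T) :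
    Ori T (ori p) := by
  refine ⟨?_, ?_, ?_, ?_⟩
  · intro t ht u v huv hu hv
    obtain ⟨w, hwu, hwv, hte, -⟩ := tc_third (hp.card3 t ht) huv hu hv
    subst hte
    rw [tc_ori_eq p huv hwu hwv]
    exact tc_sign_pm (hp.nondeg u v w ht)
  · intro t ht u v huv hu hv
    obtain ⟨w, hwu, hwv, hte, -⟩ := tc_third (hp.card3 t ht) huv hu hv
    subst hte
    rw [tc_ori_eq p huv hwu hwv]
    have h2 : ({u, v, w} : Finset V) = {v, u, w} := by
      ext x; simp only [mem_insert, mem_singleton]; tauto
    rw [h2, tc_ori_eq p huv.symm hwv hwu, tc_crs_swap, tc_sign_neg]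
  · intro u v w ht
    obtain ⟨huv, hwu, hwv⟩ := tc_card3 (hp.card3 _ ht) rfl
    have h2 : ({u, v, w} : Finset V) = {u, w, v} := by
      ext x; simp only [mem_insert, mem_singleton]; tauto
    rw [tc_ori_eq p huv hwu hwv, h2, tc_ori_eq p hwu.symm huv.symm hwv.symm, tc_crs_swap',
      tc_sign_neg]
  · intro s hs t ht hst u v huv hus hvs hut hvt
    obtain ⟨a, hau, hav, hse, -⟩ := tc_third (hp.card3 s hs) huv hus hvs
    obtain ⟨b, hbu, hbv, hte, -⟩ := tc_third (hp.card3 t ht) huv hut hvt
    subst hse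
    subst hte
    have hab : a ≠ b := by
      rintro rfl
      exact hst rfl
    have h := opp hp hs ht hab
    rw [tc_ori_eq p huv hau hav, tc_ori_eq p huv hbu hbv]
    rcases mul_neg_iff.1 h with ⟨h1, h2⟩ | ⟨h1, h2⟩
    · rw [sign_pos h1, sign_neg h2]; simp
    · rw [sign_neg h1, sign_pos h2]; simp

private noncomputable def tcF (q : ℕ × ℕ) : Fin 2 →₀ ℕ := Finsupp.equivFunOnFinite.symm ![q.1, q.2]

private theorem tcF_zero (q : ℕ × ℕ) : tcF q 0 = q.1 := by simp [tcF]
private theorem tcF_one (q : ℕ × ℕ) : tcF q 1 = q.2 := by simp [tcF]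

private theorem tcF_inj : Function.Injective tcF := by
  intro q q' h
  have h0 : tcF q 0 = tcF q' 0 := by rw [h]
  have h1 : tcF q 1 = tcF q' 1 := by rw [h]
  rw [tcF_zero, tcF_zero] at h0
  rw [tcF_one, tcF_one] at h1
  exact Prod.ext h0 h1

private theorem tcF_sum (n : Fin 2 →₀ ℕ) : (n.sum fun _ e => e) = n 0 + n 1 := by
  rw [Finsupp.sum_fintype _ _ (fun _ => rfl), Fin.sum_univ_two]

private theorem tc_set (k : ℕ) : {n : Fin 2 →₀ ℕ | (n.sum fun _ e => e) ≤ k} =
    ↑(((range (k + 1)).biUnion (fun m => antidiagonal m)).image tcF) := by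
  ext n
  simp only [Set.mem_ofPred_eq, coe_image, Set.mem_image, mem_coe, mem_biUnion, mem_range,
    HasAntidiagonal.mem_antidiagonal, tcF_sum]
  constructor
  · intro h
    refine ⟨(n 0, n 1), ⟨n 0 + n 1, by omega, rfl⟩, ?_⟩
    ext i
    fin_cases i
    · exact tcF_zero _
    · exact tcF_one _
  · rintro ⟨q, ⟨m, hm, hq⟩, rfl⟩
    rw [tcF_zero, tcF_one]
    omega

private theorem tc_count (k : ℕ) : ∑ m ∈ range (k + 1), (m + 1) = (k + 2).choose 2 := by
  induction k with
  | zero => simp
  | succ k ih =>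
    have h := Nat.choose_succ_succ' (k + 2) 1
    rw [Nat.choose_one_right] at h
    norm_num at h
    rw [sum_range_succ, ih, show k + 1 + 2 = k + 2 + 1 by ring, h]
    omega

theorem finrank_polys (k : ℕ) :
    Module.finrank ℝ (MvPolynomial.restrictTotalDegree (Fin 2) ℝ k) = (k + 2).choose 2 := by
  have h1 := Module.finrank_eq_nat_card_basis
    (MvPolynomial.basisRestrictSupport ℝ {n : Fin 2 →₀ ℕ | (n.sum fun _ e => e) ≤ k})
  have h2 : Module.finrank ℝ (MvPolynomial.restrictTotalDegree (Fin 2) ℝ k) =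
      Nat.card ↑{n : Fin 2 →₀ ℕ | (n.sum fun _ e => e) ≤ k} := h1
  rw [h2, tc_set, Nat.card_coe_set_eq, Set.ncard_coe_finset, card_image_of_injective _ tcF_inj,
    card_biUnion, ← tc_count]
  · apply sum_congr rfl
    intro m _
    exact Finset.Nat.card_antidiagonal m
  · intro a _ b _ hab
    rw [Function.onFun, disjoint_left]
    intro x hx hy
    rw [HasAntidiagonal.mem_antidiagonal] at hx hy
    exact hab (hx.symm.trans hy)

private theorem tc_pair (u v : V) : ({v, u} : Finset V) = {u, v} := pair_comm v u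

/-- the coboundary map -/
private noncomputable def tcPsi (p : V × Fin 2 → ℝ) (T : Finset (Finset V)) :
    (Finset V → MvPolynomial (Fin 2) ℝ) →ₗ[ℝ] (V → V → MvPolynomial (Fin 2) ℝ) where
  toFun f u v := if u ≠ v ∧ ({u, v} : Finset V) ∈ intE T then
    ∑ t ∈ T.filter (fun t => {u, v} ⊆ t), ori p t u v • f t else 0
  map_add' f g := by
    funext u v
    simp only [Pi.add_apply]
    split_ifs with h
    · simp only [smul_add, sum_add_distrib]
    · simp
  map_smul' c f := by
    funext u v
    simp only [Pi.smul_apply, RingHom.id_apply]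
    split_ifs with h
    · rw [smul_sum]
      apply sum_congr rfl
      intro t _
      rw [smul_comm]
    · simp

private theorem tcPsi_pos {p : V × Fin 2 → ℝ} {T : Finset (Finset V)}
    (f : Finset V → MvPolynomial (Fin 2) ℝ) {u v : V} (huv : u ≠ v)
    (he : ({u, v} : Finset V) ∈ intE T) :
    tcPsi p T f u v = ∑ t ∈ T.filter (fun t => {u, v} ⊆ t), ori p t u v • f t :=
  if_pos ⟨huv, he⟩

private theorem tcPsi_neg {p : V × Fin 2 → ℝ} {T : Finset (Finset V)}
    (f : Finset V → MvPolynomial (Fin 2) ℝ) {u v : V}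
    (he : ¬ (u ≠ v ∧ ({u, v} : Finset V) ∈ intE T)) :
    tcPsi p T f u v = 0 :=
  if_neg he

/-- multiplication with the powers of the linear forms -/
private noncomputable def tcTh (p : V × Fin 2 → ℝ) (r : ℕ) :
    (V → V → MvPolynomial (Fin 2) ℝ) →ₗ[ℝ] (V → V → MvPolynomial (Fin 2) ℝ) where
  toFun g u v := g u v * lin p u v ^ (r + 1)
  map_add' f g := by
    funext u v
    simp only [Pi.add_apply, add_mul]
  map_smul' c f := by
    funext u v
    simp only [Pi.smul_apply, RingHom.id_apply, smul_mul_assoc]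

private theorem tcTh_apply (p : V × Fin 2 → ℝ) (r : ℕ) (g : V → V → MvPolynomial (Fin 2) ℝ)
    (u v : V) : tcTh p r g u v = g u v * lin p u v ^ (r + 1) := rfl

private theorem tc_two {T : Finset (Finset V)} {u v : V} (he : ({u, v} : Finset V) ∈ intE T) :
    ∃ s t, s ≠ t ∧ s ∈ T ∧ t ∈ T ∧ u ∈ s ∧ v ∈ s ∧ u ∈ t ∧ v ∈ t ∧
      T.filter (fun t => {u, v} ⊆ t) = {s, t} := by
  have h : (T.filter (fun t => {u, v} ⊆ t)).card = 2 := (mem_filter.1 he).2
  obtain ⟨s, t, hst, h2⟩ := card_eq_two.1 h
  have hs : s ∈ T.filter (fun t => {u, v} ⊆ t) := by rw [h2]; simp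
  have ht : t ∈ T.filter (fun t => {u, v} ⊆ t) := by rw [h2]; simp
  rw [mem_filter, insert_subset_iff, singleton_subset_iff] at hs ht
  exact ⟨s, t, hst, hs.1, ht.1, hs.2.1, hs.2.2, ht.2.1, ht.2.2, h2⟩

private theorem tc_intE {p : V × Fin 2 → ℝ} {T : Finset (Finset V)} (hp : IsTriang p T)
    {s t : Finset V} (hs : s ∈ T) (ht : t ∈ T) (hst : s ≠ t) {u v : V} (huv : u ≠ v)
    (hus : u ∈ s) (hvs : v ∈ s) (hut : u ∈ t) (hvt : v ∈ t) :
    ({u, v} : Finset V) ∈ intE T ∧ T.filter (fun t => {u, v} ⊆ t) = {s, t} := by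
  have hc : ({u, v} : Finset V).card = 2 := card_pair huv
  have hsub : ({s, t} : Finset (Finset V)) ⊆ T.filter (fun t => {u, v} ⊆ t) := by
    intro x hx
    rw [mem_insert, mem_singleton] at hx
    rw [mem_filter, insert_subset_iff, singleton_subset_iff]
    rcases hx with rfl | rfl
    · exact ⟨hs, hus, hvs⟩
    · exact ⟨ht, hut, hvt⟩
  have hle : (T.filter (fun t => {u, v} ⊆ t)).card ≤ 2 := tdeg_le_two hp hc
  have h2 : ({s, t} : Finset (Finset V)).card = 2 := card_pair hst
  have heq : T.filter (fun t => {u, v} ⊆ t) = {s, t} :=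
    (eq_of_subset_of_card_le hsub (by rw [h2]; exact hle)).symm
  refine ⟨mem_filter.2 ⟨mem_edges.2 ⟨hc, s, hs, ?_⟩, ?_⟩, heq⟩
  · rw [insert_subset_iff, singleton_subset_iff]; exact ⟨hus, hvs⟩
  · unfold tdeg
    rw [heq, h2]

private theorem tcPsi_two {p : V × Fin 2 → ℝ} {T : Finset (Finset V)} (hp : IsTriang p T)
    (f : Finset V → MvPolynomial (Fin 2) ℝ) {s t : Finset V} (hs : s ∈ T) (ht : t ∈ T)
    (hst : s ≠ t) {u v : V} (huv : u ≠ v) (hus : u ∈ s) (hvs : v ∈ s) (hut : u ∈ t) (hvt : v ∈ t) :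
    tcPsi p T f u v = ori p s u v • (f s - f t) := by
  obtain ⟨he, hf⟩ := tc_intE hp hs ht hst huv hus hvs hut hvt
  rw [tcPsi_pos f huv he, hf, sum_pair hst, (ori_ori hp).opp s hs t ht hst u v huv hus hvs hut hvt,
    neg_smul, neg_smul, smul_sub]
  abel

private theorem tc_lin_swap (p : V × Fin 2 → ℝ) (u v : V) : lin p v u = - lin p u v := by
  unfold lin
  simp only [map_sub]
  ring

private theorem tc_lin_pow (p : V × Fin 2 → ℝ) (r : ℕ) (u v : V) :
    lin p v u ^ (r + 1) = - ((-1) ^ r * lin p u v ^ (r + 1)) := by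
  rw [tc_lin_swap, neg_pow, pow_succ]
  ring

private theorem tc_lin_ne {p : V × Fin 2 → ℝ} {T : Finset (Finset V)} (hp : IsTriang p T)
    {u v : V} (huv : u ≠ v) : lin p u v ≠ 0 := by
  intro h
  have h1 := congrArg (MvPolynomial.eval ![p (u, 0) - (p (v, 1) - p (u, 1)),
    p (u, 1) + (p (v, 0) - p (u, 0))]) h
  unfold lin at h1
  simp at h1
  apply huv
  apply pt_injective hp
  funext k
  have h2 : (p (v, 0) - p (u, 0)) = 0 := by
    have : (p (v, 0) - p (u, 0)) ^ 2 = 0 := by
      nlinarith [sq_nonneg (p (v, 0) - p (u, 0)), sq_nonneg (p (v, 1) - p (u, 1))]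
    exact pow_eq_zero_iff (two_ne_zero) |>.1 this
  have h3 : (p (v, 1) - p (u, 1)) = 0 := by
    have : (p (v, 1) - p (u, 1)) ^ 2 = 0 := by
      nlinarith [sq_nonneg (p (v, 0) - p (u, 0)), sq_nonneg (p (v, 1) - p (u, 1))]
    exact pow_eq_zero_iff (two_ne_zero) |>.1 this
  fin_cases k
  · show p (u, 0) = p (v, 0)
    linarith
  · show p (u, 1) = p (v, 1)
    linarith

private theorem tc_lin_deg {p : V × Fin 2 → ℝ} {T : Finset (Finset V)} (hp : IsTriang p T)
    {u v : V} (huv : u ≠ v) : 1 ≤ (lin p u v).totalDegree := by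
  by_contra hc
  have h0 : (lin p u v).totalDegree = 0 := by omega
  rw [MvPolynomial.totalDegree_eq_zero_iff_eq_C] at h0
  have h1 : MvPolynomial.eval (pt p u) (lin p u v) = 0 := by
    unfold lin pt
    simp
  have h2 := tc_lin_ne hp huv
  rw [h0, MvPolynomial.eval_C] at h1
  rw [h0, h1] at h2
  exact h2 (map_zero _)

private theorem tc_lin_deg_le (p : V × Fin 2 → ℝ) (u v : V) : (lin p u v).totalDegree ≤ 1 := by
  unfold lin
  have hX : ∀ (i : Fin 2) (c : ℝ),
      (MvPolynomial.X i - MvPolynomial.C c : MvPolynomial (Fin 2) ℝ).totalDegree ≤ 1 := by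
    intro i c
    refine (MvPolynomial.totalDegree_sub _ _).trans (max_le ?_ ?_)
    · rw [MvPolynomial.totalDegree_X]
    · rw [MvPolynomial.totalDegree_C]; omega
  refine (MvPolynomial.totalDegree_sub _ _).trans (max_le ?_ ?_)
  · refine (MvPolynomial.totalDegree_mul _ _).trans ?_
    rw [MvPolynomial.totalDegree_C, zero_add]
    exact hX _ _
  · refine (MvPolynomial.totalDegree_mul _ _).trans ?_
    rw [MvPolynomial.totalDegree_C, zero_add]
    exact hX _ _

private theorem tc_deg_mul_pow {q l : MvPolynomial (Fin 2) ℝ} (hq : q ≠ 0) (hl : l ≠ 0)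
    (hd : 1 ≤ l.totalDegree) (n : ℕ) : q.totalDegree + n ≤ (q * l ^ n).totalDegree := by
  induction n with
  | zero => simp
  | succ n ih =>
    rw [pow_succ, ← mul_assoc, MvPolynomial.totalDegree_mul_of_isDomain
      (mul_ne_zero hq (pow_ne_zero _ hl)) hl]
    omega

private theorem tcPsi_anti {p : V × Fin 2 → ℝ} {T : Finset (Finset V)} (hp : IsTriang p T)
    (f : Finset V → MvPolynomial (Fin 2) ℝ) (u v : V) : tcPsi p T f v u = - tcPsi p T f u v := by
  by_cases h : u ≠ v ∧ ({u, v} : Finset V) ∈ intE T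
  · have h' : ({v, u} : Finset V) ∈ intE T := by rw [tc_pair]; exact h.2
    rw [tcPsi_pos f h.1 h.2, tcPsi_pos f h.1.symm h', tc_pair u v, ← sum_neg_distrib]
    apply sum_congr rfl
    intro t ht
    rw [mem_filter, insert_subset_iff, singleton_subset_iff] at ht
    rw [(ori_ori hp).anti t ht.1 u v h.1 ht.2.1 ht.2.2, neg_smul]
  · have h' : ¬ (v ≠ u ∧ ({v, u} : Finset V) ∈ intE T) := by
      rw [tc_pair]
      exact fun hh => h ⟨hh.1.symm, hh.2⟩
    rw [tcPsi_neg f h, tcPsi_neg f h', neg_zero]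

private theorem tcPsi_vert {p : V × Fin 2 → ℝ} {T : Finset (Finset V)} (hp : IsTriang p T)
    (f : Finset V → MvPolynomial (Fin 2) ℝ) {u : V} (hu : u ∈ intV T) :
    ∑ v, tcPsi p T f u v = 0 := by
  have h1 : ∀ v, tcPsi p T f u v =
      ∑ t ∈ T, if u ∈ t ∧ v ∈ t.erase u then ori p t u v • f t else 0 := by
    intro v
    by_cases huv : u = v
    · subst huv
      rw [tcPsi_neg f (fun h => h.1 rfl)]
      symm
      apply sum_eq_zero
      intro t _
      rw [if_neg]
      rintro ⟨-, h⟩
      exact (mem_erase.1 h).1 rfl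
    · by_cases he : ({u, v} : Finset V) ∈ intE T
      · rw [tcPsi_pos f huv he, sum_filter]
        apply sum_congr rfl
        intro t _
        congr 1
        rw [insert_subset_iff, singleton_subset_iff, mem_erase]
        apply propext
        constructor
        · rintro ⟨a, b⟩; exact ⟨a, fun h => huv h.symm, b⟩
        · rintro ⟨a, -, b⟩; exact ⟨a, b⟩
      · rw [tcPsi_neg f (fun h => he h.2)]
        symm
        apply sum_eq_zero
        intro t ht
        rw [if_neg]
        rintro ⟨h2, h3⟩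
        apply he
        have hm : ({u, v} : Finset V) ∈ edges T := by
          rw [mem_edges]
          refine ⟨card_pair huv, t, ht, ?_⟩
          rw [insert_subset_iff, singleton_subset_iff]
          exact ⟨h2, (mem_erase.1 h3).2⟩
        exact mem_filter.2 ⟨hm, (mem_filter.1 hu).2 _ hm (by simp)⟩
  simp only [h1]
  rw [sum_comm]
  apply sum_eq_zero
  intro t ht
  by_cases hut : u ∈ t
  · have h2 : ∀ v, (if u ∈ t ∧ v ∈ t.erase u then ori p t u v • f t else 0) =
        if v ∈ t.erase u then ori p t u v • f t else 0 := by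
      intro v
      simp only [hut, true_and]
    simp only [h2]
    rw [← sum_filter]
    have h3 : (univ.filter (fun v => v ∈ t.erase u)) = t.erase u := by
      ext x; simp
    rw [h3]
    have hc : (t.erase u).card = 2 := by rw [card_erase_of_mem hut, hp.card3 t ht]
    obtain ⟨a, b, hab, hte⟩ := card_eq_two.1 hc
    have ht2 : t = {u, a, b} := by
      rw [← hte, insert_erase hut]
    rw [hte, sum_pair hab, ht2, (ori_ori hp).tri u a b (ht2 ▸ ht), neg_smul, add_neg_cancel]
  · apply sum_eq_zero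
    intro v _
    rw [if_neg]
    exact fun h => hut h.1

private theorem tc_mem_alg {r k : ℕ} {p : V × Fin 2 → ℝ} {T : Finset (Finset V)}
    {f : Finset V → MvPolynomial (Fin 2) ℝ} : f ∈ SplineAlg r k p T ↔
    (∀ t, t ∉ T → f t = 0) ∧ (∀ t ∈ T, (f t).totalDegree ≤ k) ∧
    ∀ s ∈ T, ∀ t ∈ T, ∀ u v, u ≠ v → u ∈ s → v ∈ s → u ∈ t → v ∈ t →
      lin p u v ^ (r + 1) ∣ f s - f t := Iff.rfl

private theorem tc_mem_cof {r d : ℕ} {p : V × Fin 2 → ℝ} {T : Finset (Finset V)}
    {g : V → V → MvPolynomial (Fin 2) ℝ} : g ∈ CofSys r d p T ↔ IsCof r d p T g := Iff.rfl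

private theorem tc_map_le {p : V × Fin 2 → ℝ} {T : Finset (Finset V)} (hp : IsTriang p T)
    (r d : ℕ) : Submodule.map (tcPsi p T) (SplineAlg r (r + 1 + d) p T) ≤
      Submodule.map (tcTh p r) (CofSys r d p T) := by
  rintro _ ⟨f, hf, rfl⟩
  have hf' := tc_mem_alg.1 hf
  have key : ∀ u v, ∃ q : MvPolynomial (Fin 2) ℝ, tcPsi p T f u v = q * lin p u v ^ (r + 1) ∧
      (q ≠ 0 → u ≠ v ∧ ({u, v} : Finset V) ∈ intE T) ∧ q.totalDegree ≤ d := by
    intro u v
    by_cases h : u ≠ v ∧ ({u, v} : Finset V) ∈ intE T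
    · obtain ⟨s, t, hst, hs, ht, hus, hvs, hut, hvt, -⟩ := tc_two h.2
      have h1 := tcPsi_two hp f hs ht hst h.1 hus hvs hut hvt
      obtain ⟨q, hq⟩ := hf'.2.2 s hs t ht u v h.1 hus hvs hut hvt
      refine ⟨ori p s u v • q, ?_, fun _ => h, ?_⟩
      · rw [h1, hq, smul_mul_assoc, mul_comm q]
      · refine (MvPolynomial.totalDegree_smul_le _ _).trans ?_
        by_cases hq0 : q = 0
        · rw [hq0]; simp
        · have h2 := tc_deg_mul_pow hq0 (tc_lin_ne hp h.1) (tc_lin_deg hp h.1) (r + 1)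
          rw [mul_comm q, ← hq] at h2
          have h3 := (MvPolynomial.totalDegree_sub (f s) (f t)).trans
            (max_le (hf'.2.1 s hs) (hf'.2.1 t ht))
          omega
    · refine ⟨0, ?_, fun hh => absurd rfl hh, by simp⟩
      rw [tcPsi_neg f h, zero_mul]
  choose g hg1 hg2 hg3 using key
  refine ⟨g, ?_, ?_⟩
  · refine ⟨hg2, hg3, ?_, ?_⟩
    · intro u v
      by_cases h : u ≠ v ∧ ({u, v} : Finset V) ∈ intE T
      · have h1 := tcPsi_anti hp f u v
        rw [hg1, hg1, tc_lin_pow] at h1
        have hne : lin p u v ^ (r + 1) ≠ 0 := pow_ne_zero _ (tc_lin_ne hp h.1)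
        have h2 : (g v u * (-1) ^ r - g u v) * lin p u v ^ (r + 1) = 0 := by
          linear_combination (-1 : MvPolynomial (Fin 2) ℝ) * h1
        rcases mul_eq_zero.1 h2 with h3 | h3
        · have h4 : ((-1 : MvPolynomial (Fin 2) ℝ) ^ r) * (-1) ^ r = 1 := by
            rw [← mul_pow]; simp
          have h5 : g u v = g v u * (-1) ^ r := (sub_eq_zero.1 h3).symm
          rw [h5]
          linear_combination (- g v u) * h4
        · exact absurd h3 hne
      · have h1 : g u v = 0 := by
          by_contra hc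
          exact h (hg2 u v hc)
        have h2 : g v u = 0 := by
          by_contra hc
          have := hg2 v u hc
          rw [tc_pair] at this
          exact h ⟨this.1.symm, this.2⟩
        rw [h1, h2, mul_zero]
    · intro u hu
      rw [← tcPsi_vert hp f hu]
      apply sum_congr rfl
      intro v _
      exact (hg1 u v).symm
  · funext u v
    rw [tcTh_apply]
    exact (hg1 u v).symm

private theorem tc_coeff_smul_sum {ι : Type*} (S : Finset ι) (c : ι → ℝ)
    (f : ι → MvPolynomial (Fin 2) ℝ) (m : Fin 2 →₀ ℕ) :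
    MvPolynomial.coeff m (∑ t ∈ S, c t • f t) = ∑ t ∈ S, c t * MvPolynomial.coeff m (f t) := by
  rw [MvPolynomial.coeff_sum]
  apply sum_congr rfl
  intro t _
  rw [MvPolynomial.coeff_smul, smul_eq_mul]

private theorem tc_le_map {p : V × Fin 2 → ℝ} {T : Finset (Finset V)} (hp : IsTriang p T)
    (hT : Disc T) (r d : ℕ) : Submodule.map (tcTh p r) (CofSys r d p T) ≤
      Submodule.map (tcPsi p T) (SplineAlg r (r + 1 + d) p T) := by
  rintro _ ⟨g, hg, rfl⟩
  have hg' := tc_mem_cof.1 hg
  have hsw : ∀ u v, tcTh p r g v u = - tcTh p r g u v := by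
    intro u v
    rw [tcTh_apply, tcTh_apply, hg'.symm u v, tc_lin_pow p r u v]
    have h4 : ((-1 : MvPolynomial (Fin 2) ℝ) ^ r) * (-1) ^ r = 1 := by
      rw [← mul_pow]; simp
    linear_combination (- g u v * lin p u v ^ (r + 1)) * h4
  have key : ∀ m : Fin 2 →₀ ℕ, ∃ f : Finset V → ℝ, ∀ u v, u ≠ v →
      ({u, v} : Finset V) ∈ intE T → MvPolynomial.coeff m (tcTh p r g u v) =
        ∑ t ∈ T.filter (fun t => {u, v} ⊆ t), ori p t u v * f t := by
    intro m
    refine exact_real (good_of_disc hp hT) hT hp.used (ori_ori hp)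
      (J := fun u v => MvPolynomial.coeff m (tcTh p r g u v)) ?_ ?_ ?_
    · intro u v
      rw [hsw u v, MvPolynomial.coeff_neg]
    · intro u v h
      apply hg'.supp u v
      intro h0
      apply h
      simp only [tcTh_apply, h0, zero_mul, MvPolynomial.coeff_zero]
    · intro u hu
      have h1 := hg'.eq u hu
      rw [← MvPolynomial.coeff_sum]
      have h2 : ∑ v, tcTh p r g u v = 0 := h1
      rw [h2, MvPolynomial.coeff_zero]
  choose F hF using key
  set S : Finset (Fin 2 →₀ ℕ) :=
    univ.biUnion (fun u => univ.biUnion (fun v => (tcTh p r g u v).support)) with hS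
  have hSdeg : ∀ m ∈ S, (m.sum fun _ e => e) ≤ r + 1 + d := by
    intro m hm
    rw [hS, mem_biUnion] at hm
    obtain ⟨u, -, hm⟩ := hm
    rw [mem_biUnion] at hm
    obtain ⟨v, -, hm⟩ := hm
    have h1 := MvPolynomial.le_totalDegree hm
    have h2 : (tcTh p r g u v).totalDegree ≤ d + (r + 1) := by
      rw [tcTh_apply]
      refine (MvPolynomial.totalDegree_mul _ _).trans (add_le_add (hg'.deg u v) ?_)
      refine (MvPolynomial.totalDegree_pow _ _).trans ?_
      calc (r + 1) * (lin p u v).totalDegree ≤ (r + 1) * 1 :=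
            Nat.mul_le_mul_left _ (tc_lin_deg_le p u v)
        _ = r + 1 := mul_one _
    omega
  have hSz : ∀ m, m ∉ S → ∀ u v, MvPolynomial.coeff m (tcTh p r g u v) = 0 := by
    intro m hm u v
    by_contra hc
    apply hm
    rw [hS, mem_biUnion]
    refine ⟨u, mem_univ _, mem_biUnion.2 ⟨v, mem_univ _, ?_⟩⟩
    exact MvPolynomial.mem_support_iff.2 hc
  have hmain : ∀ f : Finset V → MvPolynomial (Fin 2) ℝ,
      (∀ t ∈ T, f t = ∑ m ∈ S, MvPolynomial.monomial m (F m t)) →
      tcPsi p T f = tcTh p r g := by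
    intro f hf
    funext u v
    by_cases h : u ≠ v ∧ ({u, v} : Finset V) ∈ intE T
    · rw [tcPsi_pos f h.1 h.2]
      ext m
      rw [tc_coeff_smul_sum]
      by_cases hm : m ∈ S
      · rw [hF m u v h.1 h.2]
        apply sum_congr rfl
        intro t ht
        rw [hf t (mem_filter.1 ht).1, MvPolynomial.coeff_sum]
        congr 1
        simp only [MvPolynomial.coeff_monomial]
        rw [sum_ite_eq' S m (fun x => F x t), if_pos hm]
      · rw [hSz m hm u v]
        apply sum_eq_zero
        intro t ht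
        rw [hf t (mem_filter.1 ht).1, MvPolynomial.coeff_sum]
        simp only [MvPolynomial.coeff_monomial]
        rw [sum_ite_eq' S m (fun x => F x t), if_neg hm, mul_zero]
    · rw [tcPsi_neg f h, tcTh_apply]
      have h1 : g u v = 0 := by
        by_contra hc
        exact h (hg'.supp u v hc)
      rw [h1, zero_mul]
  set f : Finset V → MvPolynomial (Fin 2) ℝ := fun t =>
    if t ∈ T then ∑ m ∈ S, MvPolynomial.monomial m (F m t) else 0 with hfdef
  have hfT : ∀ t ∈ T, f t = ∑ m ∈ S, MvPolynomial.monomial m (F m t) := by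
    intro t ht
    simp only [hfdef, if_pos ht]
  have hP := hmain f hfT
  refine ⟨f, ?_, hP⟩
  refine tc_mem_alg.2 ⟨?_, ?_, ?_⟩
  · intro t ht
    simp only [hfdef, if_neg ht]
  · intro t ht
    rw [hfT t ht]
    apply MvPolynomial.totalDegree_finsetSum_le
    intro m hm
    exact (MvPolynomial.totalDegree_monomial_le _ _).trans (hSdeg m hm)
  · intro s hs t ht u v huv hus hvs hut hvt
    by_cases hst : s = t
    · rw [hst, sub_self]
      exact dvd_zero _
    · have h1 := tcPsi_two hp f hs ht hst huv hus hvs hut hvt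
      rw [hP, tcTh_apply] at h1
      rcases (ori_ori hp).pm s hs u v huv hus hvs with h2 | h2
      · rw [h2, one_smul] at h1
        rw [← h1]
        exact Dvd.intro_left _ rfl
      · rw [h2, neg_smul, one_smul] at h1
        have h3 : f s - f t = - (g u v * lin p u v ^ (r + 1)) := by
          rw [h1, neg_neg]
        rw [h3]
        exact (Dvd.intro_left _ rfl).neg_right

/-- constant splines -/
private noncomputable def tcK (T : Finset (Finset V)) :
    MvPolynomial (Fin 2) ℝ →ₗ[ℝ] (Finset V → MvPolynomial (Fin 2) ℝ) where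
  toFun P t := if t ∈ T then P else 0
  map_add' P Q := by
    funext t
    simp only [Pi.add_apply]
    split_ifs <;> simp
  map_smul' c P := by
    funext t
    simp only [Pi.smul_apply, RingHom.id_apply]
    split_ifs <;> simp

private theorem tcK_pos {T : Finset (Finset V)} {t : Finset V} (ht : t ∈ T)
    (P : MvPolynomial (Fin 2) ℝ) : tcK T P t = P := if_pos ht

private theorem tcK_neg {T : Finset (Finset V)} {t : Finset V} (ht : t ∉ T)
    (P : MvPolynomial (Fin 2) ℝ) : tcK T P t = 0 := if_neg ht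

private theorem tc_ker {p : V × Fin 2 → ℝ} {T : Finset (Finset V)} (hp : IsTriang p T)
    (hT : Disc T) (r k : ℕ) :
    Submodule.map (tcK T) (MvPolynomial.restrictTotalDegree (Fin 2) ℝ k) =
      SplineAlg r k p T ⊓ LinearMap.ker (tcPsi p T) := by
  apply le_antisymm
  · rintro _ ⟨P, hP, rfl⟩
    have hP' : P.totalDegree ≤ k := (MvPolynomial.mem_restrictTotalDegree _ _ _).1 hP
    refine ⟨tc_mem_alg.2 ⟨?_, ?_, ?_⟩, ?_⟩
    · intro t ht
      exact tcK_neg ht P
    · intro t ht
      rw [tcK_pos ht]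
      exact hP'
    · intro s hs t ht u v _ _ _ _ _
      rw [tcK_pos hs, tcK_pos ht, sub_self]
      exact dvd_zero _
    · rw [SetLike.mem_coe, LinearMap.mem_ker]
      funext u v
      by_cases h : u ≠ v ∧ ({u, v} : Finset V) ∈ intE T
      · obtain ⟨s, t, hst, hs, ht, hus, hvs, hut, hvt, -⟩ := tc_two h.2
        rw [tcPsi_two hp _ hs ht hst h.1 hus hvs hut hvt, tcK_pos hs, tcK_pos ht, sub_self,
          smul_zero]
        rfl
      · rw [tcPsi_neg _ h]
        rfl
  · rintro f ⟨hf, hk⟩
    have hf' := tc_mem_alg.1 hf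
    rw [SetLike.mem_coe, LinearMap.mem_ker] at hk
    obtain ⟨t₀, ht₀⟩ := hT.ne
    have hc := const_of_cob (good_of_disc hp hT) hT (ori_ori hp) (f := f) (by
      intro u v huv he
      rw [← tcPsi_pos f huv he, hk]
      rfl)
    refine ⟨f t₀, (MvPolynomial.mem_restrictTotalDegree _ _ _).2 (hf'.2.1 t₀ ht₀), ?_⟩
    funext t
    by_cases ht : t ∈ T
    · rw [tcK_pos ht]
      exact hc t₀ ht₀ t ht
    · rw [tcK_neg ht]
      exact (hf'.1 t ht).symm

private theorem tc_finite (r k : ℕ) (p : V × Fin 2 → ℝ) (T : Finset (Finset V)) :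
    Module.Finite ℝ (SplineAlg r k p T) := by
  have hmem : ∀ (t : Finset V) (f : SplineAlg r k p T),
      (f : Finset V → MvPolynomial (Fin 2) ℝ) t ∈
        MvPolynomial.restrictTotalDegree (Fin 2) ℝ k := by
    intro t f
    rw [MvPolynomial.mem_restrictTotalDegree]
    have hf := tc_mem_alg.1 f.2
    by_cases ht : t ∈ T
    · exact hf.2.1 t ht
    · rw [hf.1 t ht]
      simp
  let Φ : SplineAlg r k p T →ₗ[ℝ] (Finset V → MvPolynomial.restrictTotalDegree (Fin 2) ℝ k) :=
    LinearMap.pi (fun t => LinearMap.codRestrict (MvPolynomial.restrictTotalDegree (Fin 2) ℝ k)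
      ((LinearMap.proj t) ∘ₗ (SplineAlg r k p T).subtype) (hmem t))
  apply Module.Finite.of_injective Φ
  intro f g h
  apply Subtype.ext
  funext t
  have h1 := congrFun h t
  exact congrArg Subtype.val h1

theorem finrank_splineAlg {p : V × Fin 2 → ℝ} {T : Finset (Finset V)} (hp : IsTriang p T)
    (hT : Disc T) (r d : ℕ) :
    Module.finrank ℝ (SplineAlg r (r + 1 + d) p T) =
      (r + 1 + d + 2).choose 2 + Module.finrank ℝ (CofSys r d p T) := by
  have := tc_finite r (r + 1 + d) p T
  have h1 := LinearMap.finrank_range_add_finrank_ker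
    ((tcPsi p T).domRestrict (SplineAlg r (r + 1 + d) p T))
  rw [LinearMap.range_domRestrict, le_antisymm (tc_map_le hp r d) (tc_le_map hp hT r d),
    LinearMap.ker_domRestrict] at h1
  have h2 : Module.finrank ℝ (Submodule.map (tcTh p r) (CofSys r d p T)) =
      Module.finrank ℝ (CofSys r d p T) := by
    have hinj : Function.Injective ((tcTh p r).domRestrict (CofSys r d p T)) := by
      intro a b hab
      apply Subtype.ext
      funext u v
      have h3 := congrFun (congrFun hab u) v
      have h4 : (a : V → V → MvPolynomial (Fin 2) ℝ) u v * lin p u v ^ (r + 1) =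
          (b : V → V → MvPolynomial (Fin 2) ℝ) u v * lin p u v ^ (r + 1) := h3
      by_cases huv : u = v
      · have ha : (a : V → V → MvPolynomial (Fin 2) ℝ) u v = 0 := by
          by_contra hc
          exact ((tc_mem_cof.1 a.2).supp u v hc).1 huv
        have hb : (b : V → V → MvPolynomial (Fin 2) ℝ) u v = 0 := by
          by_contra hc
          exact ((tc_mem_cof.1 b.2).supp u v hc).1 huv
        rw [ha, hb]
      · exact mul_right_cancel₀ (pow_ne_zero _ (tc_lin_ne hp huv)) h4
    rw [← LinearMap.range_domRestrict]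
    exact LinearMap.finrank_range_of_inj hinj
  have h3 : Module.finrank ℝ ((LinearMap.ker (tcPsi p T)).comap
      (SplineAlg r (r + 1 + d) p T).subtype) = (r + 1 + d + 2).choose 2 := by
    rw [← finrank_polys (r + 1 + d)]
    have e1 : Module.finrank ℝ ((LinearMap.ker (tcPsi p T)).comap
        (SplineAlg r (r + 1 + d) p T).subtype) =
        Module.finrank ℝ (((LinearMap.ker (tcPsi p T)).comap
          (SplineAlg r (r + 1 + d) p T).subtype).map (SplineAlg r (r + 1 + d) p T).subtype) :=
      (LinearEquiv.finrank_eq (Submodule.equivMapOfInjective _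
        (Submodule.injective_subtype _) _))
    rw [e1, Submodule.map_comap_subtype, ← tc_ker hp hT]
    have hinj : Function.Injective (tcK T) := by
      intro P Q h
      obtain ⟨t₀, ht₀⟩ := hT.ne
      have := congrFun h t₀
      rwa [tcK_pos ht₀, tcK_pos ht₀] at this
    exact (LinearEquiv.finrank_eq (Submodule.equivMapOfInjective _ hinj _)).symm
  rw [h2, h3] at h1
  omega

end Pool.Agent.Spl1
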