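import Pool.Agent.Spl1.Tri
import Pool.Agent.Spl1.Hom

/-!
# Exactness at the interior edges

`o t u v = ±1` for `u ≠ v` in `t ∈ T` is an orientation of the triangles (`o t u v = 1` if `t` is on the left of
the oriented edge `u v`).

`const_of_cob`: if `∑_{t ⊇ {u,v}} o t u v f t = 0` for all interior edges then `f` is constant on `T`: the two
triangles `t, t'` at an interior edge have `o t u v = - o t' u v`, so `f t = f t'`; the set of triangles with
`f t = f t₀` is closed under adjacency (`(s ∩ t).card = 2` for `s ≠ t` implies that `s ∩ t` is an edge with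
`tdeg = 2` by `le2`), so it is `T` (`dconn`).

`exact_real`: consider `A : (T → ℝ) → X₁`, `(A f) u v = ∑_{t ⊇ {u,v}} o t u v f t`, where `X₁` is the space of
the `J : V → V → ℝ` with `J v u = - J u v` supported on interior edges (dimension `|E_I|`), and
`B : X₁ → (I → ℝ)`, `(B J) u = ∑_v J u v`, `I = intV T`.
1. `B A = 0`: for `u ∈ I` all edges at `u` are interior, and `∑_{v ∈ t \ u} o t u v = 0` for `t ∋ u`.
2. `dim ker A = 1` (`const_of_cob`), so `dim im A = |T| - 1`.
3. `B` is surjective: otherwise there is `λ : I → ℝ`, `λ ≠ 0`, with `∑_u λ_u (B J) u = 0` for all `J ∈ X₁`.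
   Test with `J` = indicator of an interior edge `{u,v}` with one orientation: `λ_u = λ_v` if `u, v ∈ I`, and
   `λ_u = 0` if `u ∈ I`, `v ∉ I`.  `Z = {u ∈ I | λ_u ≠ 0}` is nonempty and every edge at a vertex of `Z` has
   both ends in `Z`.  The triangles meeting `Z` are contained in `Z` and are closed under adjacency, so they are
   all the triangles (`dconn`), so `Z` contains all vertices of triangles, all edges have `tdeg = 2`
   (`Z ⊆ intV T`), `bdry T = ∅`, `T = ∅` by `H2`, contradiction to `Disc.ne`.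
4. So `|T| - 1 ≤ dim ker B = |E_I| - |I|`.
5. `|E_b| ≥ |V_b|` where `E_b` = edges with `tdeg = 1`, `V_b = univ \ I`: `E_b = bdry T` is a cycle
   (`isCyc_bdry`), a vertex `v ∉ I` is on an edge of `E_b`, so on at least two of them; `∑_v vdeg E_b v = 2|E_b|`.
   With `|V| + |T| = |E| + 1`, `|E| = |E_I| + |E_b|`, `|V| = |I| + |V_b|`:
   `|T| - 1 = |E_I| - |I| + (|E_b| - |V_b|) ≥ |E_I| - |I|`.
6. Equality holds in 4., so `im A = ker B`.

`bdeg_two`: equality in 5. as well: `|E_b| = |V_b|`, every `v ∈ V_b` is on at least two edges of `bdry T` and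
the sum of these numbers is `2|E_b| = 2|V_b|`.

`star_conn`: let `S ⊆ star T v` be nonempty and closed under adjacency across edges at `v`, and
`S' = star T v \ S ≠ ∅`.  `S'` is closed as well.  If `{v,u}` is an edge with `tdeg T {v,u} = 2` then both
triangles are in `S` or none, so `tdeg S {v,u}` is even.  If `v ∈ intV T`, `S` is `LinkEven`, so `S = star T v`
(`conn`).  If `v ∉ intV T`, `S` and `S'` are not `LinkEven` (`acyc`), and the number of `u` with
`tdeg S {v,u}` odd is even (`∑_u tdeg S {v,u} = 2 |S|`), so at least two; the same for `S'`; these are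
different edges of `bdry T` at `v`, at least four, contradiction to `bdeg_two`.
-/

set_option autoImplicit false

namespace Pool.Agent.Spl1

open Finset

variable {V : Type*} [Fintype V] [DecidableEq V]

/-- an orientation of the triangles -/
structure Ori (T : Finset (Finset V)) (o : Finset V → V → V → ℝ) : Prop where
  pm : ∀ t ∈ T, ∀ u v, u ≠ v → u ∈ t → v ∈ t → o t u v = 1 ∨ o t u v = -1
  anti : ∀ t ∈ T, ∀ u v, u ≠ v → u ∈ t → v ∈ t → o t v u = - o t u v
  tri : ∀ u v w, ({u, v, w} : Finset V) ∈ T → o {u, v, w} u w = - o {u, v, w} u v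
  opp : ∀ s ∈ T, ∀ t ∈ T, s ≠ t → ∀ u v, u ≠ v → u ∈ s → v ∈ s → u ∈ t → v ∈ t →
    o s u v = - o t u v

theorem tx_pair {T : Finset (Finset V)} {I : Finset V} (hG : Good T I) {u v : V} {s t : Finset V}
    (huv : u ≠ v) (hs : s ∈ T) (ht : t ∈ T) (hst : s ≠ t) (h1 : ({u, v} : Finset V) ⊆ s)
    (h2 : ({u, v} : Finset V) ⊆ t) :
    T.filter (fun t => ({u, v} : Finset V) ⊆ t) = {s, t} ∧ ({u, v} : Finset V) ∈ intE T := by
  have h3 : ({s, t} : Finset (Finset V)) ⊆ T.filter (fun t => ({u, v} : Finset V) ⊆ t) := by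
    intro x hx
    simp only [Finset.mem_insert, Finset.mem_singleton] at hx
    rcases hx with rfl | rfl
    · exact Finset.mem_filter.2 ⟨hs, h1⟩
    · exact Finset.mem_filter.2 ⟨ht, h2⟩
  have h4 : (T.filter (fun t => ({u, v} : Finset V) ⊆ t)).card ≤ 2 :=
    hG.le2 _ (Finset.card_pair huv)
  have h5 : ({s, t} : Finset (Finset V)).card = 2 := Finset.card_pair hst
  have h6 := Finset.eq_of_subset_of_card_le h3 (by rw [h5]; exact h4)
  refine ⟨h6.symm, Finset.mem_filter.2 ⟨mem_edges.2 ⟨Finset.card_pair huv, s, hs, h1⟩, ?_⟩⟩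
  unfold tdeg
  rw [← h6, h5]

theorem const_of_cob {T : Finset (Finset V)} {I : Finset V} (hG : Good T I) (hT : Disc T)
    {o : Finset V → V → V → ℝ} (ho : Ori T o) {M : Type*} [AddCommGroup M] [Module ℝ M]
    {f : Finset V → M}
    (hf : ∀ u v, u ≠ v → ({u, v} : Finset V) ∈ intE T →
      ∑ t ∈ T.filter (fun t => {u, v} ⊆ t), o t u v • f t = 0) :
    ∀ s ∈ T, ∀ t ∈ T, f s = f t := by
  classical
  have key : ∀ s ∈ T, ∀ t ∈ T, (s ∩ t).card = 2 → f s = f t := by
    intro s hs t ht hst
    have hne : s ≠ t := by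
      rintro rfl
      rw [Finset.inter_self, hG.card3 s hs] at hst
      omega
    obtain ⟨u, v, huv, h1⟩ := Finset.card_eq_two.1 hst
    have h2 : ({u, v} : Finset V) ⊆ s := by
      rw [← h1]
      exact Finset.inter_subset_left
    have h3 : ({u, v} : Finset V) ⊆ t := by
      rw [← h1]
      exact Finset.inter_subset_right
    obtain ⟨h4, h5⟩ := tx_pair hG huv hs ht hne h2 h3
    have h6 := hf u v huv h5
    rw [h4, Finset.sum_pair hne] at h6
    have h7 := ho.opp s hs t ht hne u v huv (h2 (by simp)) (h2 (by simp)) (h3 (by simp))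
      (h3 (by simp))
    rw [h7] at h6
    rcases ho.pm t ht u v huv (h3 (by simp)) (h3 (by simp)) with h8 | h8
    · rw [h8, one_smul, neg_smul, one_smul, neg_add_eq_zero] at h6
      exact h6
    · rw [h8, neg_neg, one_smul, neg_smul, one_smul, ← sub_eq_add_neg, sub_eq_zero] at h6
      exact h6
  intro s hs t ht
  have h1 := hT.dconn (T.filter (fun x => f x = f s)) (Finset.filter_subset _ _)
    ⟨s, by simp [hs]⟩ (by
      intro a ha b hb hab
      rw [Finset.mem_filter] at ha ⊢
      exact ⟨hb, (key a ha.1 b hb hab).symm.trans ha.2⟩)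
  have h2 : t ∈ T.filter (fun x => f x = f s) := by
    rw [h1]
    exact ht
  exact ((Finset.mem_filter.1 h2).2).symm

/-- antisymmetric functions on the interior edges -/
def X1 (T : Finset (Finset V)) : Submodule ℝ (V → V → ℝ) where
  carrier := {J | (∀ u v, J v u = - J u v) ∧
    ∀ u v, J u v ≠ 0 → u ≠ v ∧ ({u, v} : Finset V) ∈ intE T}
  add_mem' := by
    intro a b ha hb
    refine ⟨fun u v => ?_, fun u v h => ?_⟩
    · simp only [Pi.add_apply]
      rw [ha.1 u v, hb.1 u v]
      ring
    · by_cases h1 : a u v = 0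
      · have h2 : b u v ≠ 0 := by
          intro h2
          apply h
          simp [h1, h2]
        exact hb.2 u v h2
      · exact ha.2 u v h1
  zero_mem' := ⟨fun u v => by simp, fun u v h => absurd rfl h⟩
  smul_mem' := by
    intro c a ha
    refine ⟨fun u v => ?_, fun u v h => ?_⟩
    · simp only [Pi.smul_apply, smul_eq_mul]
      rw [ha.1 u v]
      ring
    · apply ha.2 u v
      intro h1
      apply h
      simp [h1]

/-- the coboundary of a function on the triangles -/
noncomputable def valA (T : Finset (Finset V)) (o : Finset V → V → V → ℝ) (f : ↥T → ℝ)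
    (u v : V) : ℝ :=
  if u ≠ v ∧ ({u, v} : Finset V) ∈ intE T then
    ∑ t : T, (if ({u, v} : Finset V) ⊆ t.1 then o t.1 u v * f t else 0) else 0

theorem valA_mem {T : Finset (Finset V)} {o : Finset V → V → V → ℝ} (ho : Ori T o)
    (f : ↥T → ℝ) : valA T o f ∈ X1 T := by
  refine ⟨fun u v => ?_, fun u v h => ?_⟩
  · unfold valA
    by_cases h : u ≠ v ∧ ({u, v} : Finset V) ∈ intE T
    · have h' : v ≠ u ∧ ({v, u} : Finset V) ∈ intE T :=
        ⟨h.1.symm, by rw [Finset.pair_comm]; exact h.2⟩
      rw [if_pos h, if_pos h', ← Finset.sum_neg_distrib]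
      refine Finset.sum_congr rfl fun t _ => ?_
      rw [Finset.pair_comm v u]
      split_ifs with h1
      · rw [ho.anti t.1 t.2 u v h.1 (h1 (by simp)) (h1 (by simp))]
        ring
      · simp
    · have h' : ¬ (v ≠ u ∧ ({v, u} : Finset V) ∈ intE T) := by
        rintro ⟨h1, h2⟩
        exact h ⟨h1.symm, by rw [Finset.pair_comm]; exact h2⟩
      rw [if_neg h, if_neg h']
      simp
  · by_contra h1
    apply h
    unfold valA
    exact if_neg h1

/-- the coboundary as a linear map -/
noncomputable def mapA {T : Finset (Finset V)} {o : Finset V → V → V → ℝ} (ho : Ori T o) :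
    (↥T → ℝ) →ₗ[ℝ] X1 T where
  toFun f := ⟨valA T o f, valA_mem ho f⟩
  map_add' f g := by
    apply Subtype.ext
    funext u v
    show valA T o (f + g) u v = valA T o f u v + valA T o g u v
    unfold valA
    split_ifs with h
    · rw [← Finset.sum_add_distrib]
      refine Finset.sum_congr rfl fun t _ => ?_
      split_ifs
      · rw [Pi.add_apply]
        ring
      · simp
    · simp
  map_smul' c f := by
    apply Subtype.ext
    funext u v
    show valA T o (c • f) u v = c * valA T o f u v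
    unfold valA
    split_ifs with h
    · rw [Finset.mul_sum]
      refine Finset.sum_congr rfl fun t _ => ?_
      split_ifs
      · rw [Pi.smul_apply, smul_eq_mul]
        ring
      · simp
    · simp

/-- the sums at the interior vertices -/
noncomputable def mapB (T : Finset (Finset V)) : X1 T →ₗ[ℝ] (↥(intV T) → ℝ) where
  toFun J u := ∑ v, J.1 u.1 v
  map_add' J K := by
    funext u
    show ∑ v, (J.1 u.1 v + K.1 u.1 v) = ∑ v, J.1 u.1 v + ∑ v, K.1 u.1 v
    rw [Finset.sum_add_distrib]
  map_smul' c J := by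
    funext u
    show ∑ v, c * J.1 u.1 v = c * ∑ v, J.1 u.1 v
    rw [Finset.mul_sum]

theorem tx_intV {T : Finset (Finset V)} {u v : V} {t : Finset V} (hu : u ∈ intV T) (ht : t ∈ T)
    (huv : u ≠ v) (h : ({u, v} : Finset V) ⊆ t) : ({u, v} : Finset V) ∈ intE T := by
  have h4 : ({u, v} : Finset V) ∈ edges T := mem_edges.2 ⟨Finset.card_pair huv, t, ht, h⟩
  have h5 : tdeg T {u, v} = 2 := (Finset.mem_filter.1 hu).2 _ h4 (by simp)
  exact Finset.mem_filter.2 ⟨h4, h5⟩

theorem tx_BA {T : Finset (Finset V)} (hG : Good T (intV T)) {o : Finset V → V → V → ℝ}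
    (ho : Ori T o) (f : ↥T → ℝ) : mapB T (mapA ho f) = 0 := by
  funext u
  show ∑ v, valA T o f u.1 v = 0
  have h1 : ∀ v, valA T o f u.1 v = ∑ t : T,
      (if u.1 ≠ v ∧ ({u.1, v} : Finset V) ⊆ t.1 then o t.1 u.1 v * f t else 0) := by
    intro v
    unfold valA
    by_cases huv : u.1 = v
    · rw [if_neg (fun h => h.1 huv)]
      symm
      apply Finset.sum_eq_zero
      intro t _
      rw [if_neg (fun h => h.1 huv)]
    · by_cases h2 : ({u.1, v} : Finset V) ∈ intE T
      · rw [if_pos ⟨huv, h2⟩]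
        refine Finset.sum_congr rfl fun t _ => ?_
        by_cases h3 : ({u.1, v} : Finset V) ⊆ t.1
        · rw [if_pos h3, if_pos ⟨huv, h3⟩]
        · rw [if_neg h3, if_neg (fun h => h3 h.2)]
      · rw [if_neg (fun h => h2 h.2)]
        symm
        apply Finset.sum_eq_zero
        intro t _
        rw [if_neg]
        rintro ⟨-, h3⟩
        exact h2 (tx_intV u.2 t.2 huv h3)
  simp_rw [h1]
  rw [Finset.sum_comm]
  apply Finset.sum_eq_zero
  intro t _
  by_cases hut : u.1 ∈ t.1
  · have h2 : (t.1.erase u.1).card = 2 := by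
      rw [Finset.card_erase_of_mem hut, hG.card3 _ t.2]
    obtain ⟨a, b, hab, h3⟩ := Finset.card_eq_two.1 h2
    have h4 : t.1 = {u.1, a, b} := by
      rw [← Finset.insert_erase hut, h3]
    have h5 : ∑ v, (if u.1 ≠ v ∧ ({u.1, v} : Finset V) ⊆ t.1 then o t.1 u.1 v * f t else 0) =
        ∑ v ∈ t.1.erase u.1, o t.1 u.1 v * f t := by
      rw [← Finset.sum_filter]
      apply Finset.sum_congr _ (fun _ _ => rfl)
      ext v
      simp only [Finset.mem_filter, Finset.mem_univ, true_and, Finset.mem_erase,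
        Finset.insert_subset_iff, Finset.singleton_subset_iff]
      constructor
      · rintro ⟨h6, -, h7⟩
        exact ⟨fun h => h6 h.symm, h7⟩
      · rintro ⟨h6, h7⟩
        exact ⟨fun h => h6 h.symm, hut, h7⟩
    rw [h5, h3, Finset.sum_pair hab, ← add_mul]
    have h6 := ho.tri u.1 a b (by rw [← h4]; exact t.2)
    rw [← h4] at h6
    rw [h6]
    ring
  · apply Finset.sum_eq_zero
    intro v _
    rw [if_neg]
    rintro ⟨-, h3⟩
    exact hut (h3 (by simp))

/-- extension by zero -/
noncomputable def extT (T : Finset (Finset V)) (f : ↥T → ℝ) (t : Finset V) : ℝ :=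
  if h : t ∈ T then f ⟨t, h⟩ else 0

omit [Fintype V] in
theorem extT_eq {T : Finset (Finset V)} (f : ↥T → ℝ) (t : T) : extT T f t.1 = f t :=
  dif_pos t.2

theorem tx_conv {T : Finset (Finset V)} {o : Finset V → V → V → ℝ} (f : ↥T → ℝ)
    (F : Finset V → ℝ) (hF : ∀ t : T, F t.1 = f t) {u v : V} (huv : u ≠ v)
    (he : ({u, v} : Finset V) ∈ intE T) :
    ∑ t ∈ T.filter (fun t => ({u, v} : Finset V) ⊆ t), o t u v * F t = valA T o f u v := by
  unfold valA
  rw [if_pos ⟨huv, he⟩, Finset.sum_filter, ← Finset.sum_coe_sort]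
  refine Finset.sum_congr rfl fun t _ => ?_
  rw [hF]

theorem tx_kerA {T : Finset (Finset V)} (hG : Good T (intV T)) (hT : Disc T)
    {o : Finset V → V → V → ℝ} (ho : Ori T o) :
    Module.finrank ℝ (LinearMap.ker (mapA ho)) ≤ 1 := by
  classical
  have h1 : LinearMap.ker (mapA ho) ≤ Submodule.span ℝ {(fun _ => 1 : ↥T → ℝ)} := by
    intro f hf
    rw [LinearMap.mem_ker] at hf
    obtain ⟨t₀, ht₀⟩ := hT.ne
    rw [Submodule.mem_span_singleton]
    refine ⟨f ⟨t₀, ht₀⟩, ?_⟩
    funext t
    simp only [Pi.smul_apply, smul_eq_mul, mul_one]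
    have h2 : ∀ u v, u ≠ v → ({u, v} : Finset V) ∈ intE T →
        ∑ t ∈ T.filter (fun t => {u, v} ⊆ t), o t u v • extT T f t = 0 := by
      intro u v huv he
      have h3 : valA T o f u v = 0 := congrArg (fun J : X1 T => J.1 u v) hf
      rw [← h3, ← tx_conv f (extT T f) (extT_eq f) huv he]
      rfl
    have h3 := const_of_cob hG hT ho h2 t₀ ht₀ t.1 t.2
    rw [extT_eq f t] at h3
    rw [← h3]
    exact (extT_eq f ⟨t₀, ht₀⟩).symm
  refine (Submodule.finrank_mono h1).trans ((finrank_span_le_card _).trans ?_)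
  simp

theorem tx_X1 (T : Finset (Finset V)) : Module.finrank ℝ (X1 T) ≤ (intE T).card := by
  classical
  have h0 : ∀ e : ↥(intE T), ∃ a b, a ≠ b ∧ e.1 = {a, b} := by
    intro e
    have h1 : e.1.card = 2 := (mem_edges.1 (Finset.mem_filter.1 e.2).1).1
    exact Finset.card_eq_two.1 h1
  choose a b hab he using h0
  let Φ : X1 T →ₗ[ℝ] (↥(intE T) → ℝ) :=
    { toFun := fun J e => J.1 (a e) (b e)
      map_add' := fun _ _ => rfl
      map_smul' := fun _ _ => rfl }
  have hΦ : Function.Injective Φ := by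
    rw [injective_iff_map_eq_zero]
    intro J hJ
    apply Subtype.ext
    funext u v
    by_contra h1
    have h1' : J.1 u v ≠ 0 := h1
    obtain ⟨huv, h2⟩ := J.2.2 u v h1'
    have h3 : J.1 (a ⟨_, h2⟩) (b ⟨_, h2⟩) = 0 := congrFun hJ ⟨_, h2⟩
    have h4 := he ⟨_, h2⟩
    have h5 := hab ⟨_, h2⟩
    have ha : a ⟨_, h2⟩ ∈ ({u, v} : Finset V) := by
      have : a ⟨_, h2⟩ ∈ ({a ⟨_, h2⟩, b ⟨_, h2⟩} : Finset V) := by simp
      rwa [← h4] at this
    have hb : b ⟨_, h2⟩ ∈ ({u, v} : Finset V) := by
      have : b ⟨_, h2⟩ ∈ ({a ⟨_, h2⟩, b ⟨_, h2⟩} : Finset V) := by simp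
      rwa [← h4] at this
    simp only [Finset.mem_insert, Finset.mem_singleton] at ha hb
    rcases ha with ha | ha <;> rcases hb with hb | hb
    · exact h5 (by rw [ha, hb])
    · rw [ha, hb] at h3
      exact h1' h3
    · rw [ha, hb] at h3
      have h6 := J.2.1 u v
      rw [h3] at h6
      apply h1'
      linarith
    · exact h5 (by rw [ha, hb])
  have h1 := LinearMap.finrank_le_finrank_of_injective hΦ
  rwa [Module.finrank_fintype_fun_eq_card, Fintype.card_coe] at h1

theorem tx_surj {T : Finset (Finset V)} (hG : Good T (intV T)) (hT : Disc T)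
    (hu : ∀ v, ∃ t ∈ T, v ∈ t) : LinearMap.range (mapB T) = ⊤ := by
  classical
  by_contra hne
  obtain ⟨φ, hφ0, hφ⟩ := Submodule.exists_le_ker_of_lt_top _ (lt_top_iff_ne_top.2 hne)
  set g : V → (↥(intV T) → ℝ) := fun w x => if x.1 = w then 1 else 0 with hg
  set lam : V → ℝ := fun w => φ (g w) with hlam
  have hout : ∀ w, lam w ≠ 0 → w ∈ intV T := by
    intro w hw
    by_contra h
    apply hw
    have h1 : g w = 0 := by
      funext x
      rw [hg]
      simp only
      rw [if_neg]
      · rfl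
      · intro h2
        exact h (h2 ▸ x.2)
    rw [hlam]
    simp only
    rw [h1, map_zero]
  have hedge : ∀ u v, u ≠ v → ({u, v} : Finset V) ∈ intE T → lam u = lam v := by
    intro u v huv he
    set J : V → V → ℝ := fun x y =>
      (if x = u then (if y = v then (1 : ℝ) else 0) else 0) -
        (if x = v then (if y = u then (1 : ℝ) else 0) else 0) with hJdef
    have hJ : J ∈ X1 T := by
      refine ⟨fun x y => ?_, fun x y h => ?_⟩
      · rw [hJdef]
        simp only
        split_ifs <;> norm_num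
      · by_cases h1 : x = u ∧ y = v
        · obtain ⟨rfl, rfl⟩ := h1
          exact ⟨huv, he⟩
        · by_cases h2 : x = v ∧ y = u
          · obtain ⟨rfl, rfl⟩ := h2
            exact ⟨huv.symm, by rw [Finset.pair_comm]; exact he⟩
          · exfalso
            apply h
            rw [hJdef]
            simp only
            have e1 : (if x = u then (if y = v then (1 : ℝ) else 0) else 0) = 0 := by
              by_cases h3 : x = u
              · rw [if_pos h3, if_neg (fun h4 => h1 ⟨h3, h4⟩)]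
              · rw [if_neg h3]
            have e2 : (if x = v then (if y = u then (1 : ℝ) else 0) else 0) = 0 := by
              by_cases h3 : x = v
              · rw [if_pos h3, if_neg (fun h4 => h2 ⟨h3, h4⟩)]
              · rw [if_neg h3]
            rw [e1, e2, sub_zero]
    have h1 : φ (mapB T ⟨J, hJ⟩) = 0 := hφ (LinearMap.mem_range_self _ _)
    have h2 : mapB T ⟨J, hJ⟩ = g u - g v := by
      funext x
      show ∑ y, J x.1 y = (if x.1 = u then (1 : ℝ) else 0) - (if x.1 = v then (1 : ℝ) else 0)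
      rw [hJdef]
      simp only
      rw [Finset.sum_sub_distrib]
      congr 1
      · by_cases h3 : x.1 = u
        · simp [h3]
        · simp [h3]
      · by_cases h3 : x.1 = v
        · simp [h3]
        · simp [h3]
    rw [h2, map_sub, sub_eq_zero] at h1
    exact h1
  obtain ⟨w, hw⟩ : ∃ w, lam w ≠ 0 := by
    by_contra hall
    push Not at hall
    apply hφ0
    apply LinearMap.ext
    intro y
    rw [LinearMap.pi_apply_eq_sum_univ φ y, LinearMap.zero_apply]
    apply Finset.sum_eq_zero
    intro i _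
    have h1 : (fun j : ↥(intV T) => if i = j then (1 : ℝ) else 0) = g i.1 := by
      funext j
      rw [hg]
      simp only
      by_cases h2 : i = j
      · rw [if_pos h2, if_pos (by rw [h2])]
      · rw [if_neg h2, if_neg (fun h3 => h2 (Subtype.ext h3.symm))]
    rw [h1]
    have h2 : φ (g i.1) = 0 := hall i.1
    rw [h2, smul_zero]
  have hall : ∀ t ∈ T, ∀ u ∈ t, lam u ≠ 0 → ∀ v ∈ t, lam v ≠ 0 := by
    intro t ht u hut hlu v hvt
    by_cases huv : u = v
    · rw [← huv]
      exact hlu
    · have h1 : ({u, v} : Finset V) ⊆ t := by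
        intro x hx
        simp only [Finset.mem_insert, Finset.mem_singleton] at hx
        rcases hx with rfl | rfl
        · exact hut
        · exact hvt
      rw [← hedge u v huv (tx_intV (hout u hlu) ht huv h1)]
      exact hlu
  have hST : T.filter (fun t => ∃ u ∈ t, lam u ≠ 0) = T := by
    apply hT.dconn _ (Finset.filter_subset _ _)
    · obtain ⟨t, ht, hwt⟩ := hu w
      exact ⟨t, Finset.mem_filter.2 ⟨ht, w, hwt, hw⟩⟩
    · intro s hs t ht hst
      rw [Finset.mem_filter] at hs ⊢
      obtain ⟨hs1, u, hus, hlu⟩ := hs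
      obtain ⟨x, hx⟩ : (s ∩ t).Nonempty := by
        rw [← Finset.card_pos]
        omega
      rw [Finset.mem_inter] at hx
      exact ⟨ht, x, hx.2, hall s hs1 u hus hlu x hx.1⟩
  have hb : bdry T = ∅ := by
    rw [Finset.eq_empty_iff_forall_notMem]
    intro e he
    rw [mem_bdry] at he
    obtain ⟨he2, hodd⟩ := he
    have h1 : 0 < tdeg T e := hodd.pos
    unfold tdeg at h1
    rw [Finset.card_pos] at h1
    obtain ⟨t, ht⟩ := h1
    rw [Finset.mem_filter] at ht
    have h2 : t ∈ T.filter (fun t => ∃ u ∈ t, lam u ≠ 0) := by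
      rw [hST]
      exact ht.1
    obtain ⟨-, u, hut, hlu⟩ := Finset.mem_filter.1 h2
    obtain ⟨x, hx⟩ : e.Nonempty := by
      rw [← Finset.card_pos]
      omega
    have h3 := hout x (hall t ht.1 u hut hlu x (ht.2 hx))
    have h4 : tdeg T e = 2 :=
      (Finset.mem_filter.1 h3).2 e (mem_edges.2 ⟨he2, t, ht.1, ht.2⟩) hx
    rw [h4] at hodd
    exact absurd hodd (by decide)
  have h1 := hG.H2 T (Finset.Subset.refl T) hb
  have h2 := hT.ne
  rw [h1] at h2
  exact Finset.not_nonempty_empty h2

theorem tx_edges {T : Finset (Finset V)} {I : Finset V} (hG : Good T I) :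
    (edges T).card = (intE T).card + (bdry T).card := by
  have h1 : edges T = intE T ∪ bdry T := by
    ext e
    rw [Finset.mem_union]
    constructor
    · intro he
      have h2 := (Finset.mem_filter.1 he).2
      have h3 := hG.le2 e h2.1
      by_cases h4 : tdeg T e = 2
      · exact Or.inl (Finset.mem_filter.2 ⟨he, h4⟩)
      · right
        rw [mem_bdry]
        have h5 : tdeg T e = 1 := by
          have := h2.2
          omega
        exact ⟨h2.1, by rw [h5]; exact odd_one⟩
    · rintro (he | he)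
      · exact (Finset.mem_filter.1 he).1
      · exact bdry_subset_edges (Finset.Subset.refl T) he
  rw [h1, Finset.card_union_of_disjoint]
  rw [Finset.disjoint_left]
  intro e he he'
  have h2 : tdeg T e = 2 := (Finset.mem_filter.1 he).2
  rw [mem_bdry, h2] at he'
  exact absurd he'.2 (by decide)

theorem tx_vb {T : Finset (Finset V)} {I : Finset V} (hG : Good T I) {v : V} (hv : v ∉ intV T) :
    2 ≤ vdeg (bdry T) v := by
  have h1 : ∃ e ∈ edges T, v ∈ e ∧ tdeg T e ≠ 2 := by
    by_contra h
    push Not at h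
    exact hv (Finset.mem_filter.2 ⟨Finset.mem_univ _, h⟩)
  obtain ⟨e, he, hve, h2⟩ := h1
  have h3 := (Finset.mem_filter.1 he).2
  have h4 := hG.le2 e h3.1
  have h5 : tdeg T e = 1 := by
    have := h3.2
    omega
  have h6 : e ∈ (bdry T).filter (fun e => v ∈ e) :=
    Finset.mem_filter.2 ⟨mem_bdry.2 ⟨h3.1, by rw [h5]; exact odd_one⟩, hve⟩
  have h7 : 0 < vdeg (bdry T) v := Finset.card_pos.2 ⟨e, h6⟩
  have h8 := (isCyc_bdry hG.card3).2 v
  obtain ⟨k, hk⟩ := h8
  omega

theorem tx_sum {C : Finset (Finset V)} (h : ∀ e ∈ C, e.card = 2) :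
    ∑ v, vdeg C v = 2 * C.card := by
  unfold vdeg
  simp_rw [Finset.card_filter]
  rw [Finset.sum_comm]
  have h1 : ∀ e ∈ C, ∑ v, (if v ∈ e then 1 else 0) = 2 := by
    intro e he
    rw [← Finset.card_filter, ← h e he]
    congr 1
    ext v
    simp
  rw [Finset.sum_congr rfl h1, Finset.sum_const, smul_eq_mul, mul_comm]

theorem tx_vbcard {T : Finset (Finset V)} {I : Finset V} (hG : Good T I) :
    ((intV T)ᶜ).card ≤ (bdry T).card := by
  have h1 := tx_sum (isCyc_bdry hG.card3).1
  have h2 : ∑ v ∈ (intV T)ᶜ, 2 ≤ ∑ v ∈ (intV T)ᶜ, vdeg (bdry T) v :=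
    Finset.sum_le_sum fun v hv => tx_vb hG (Finset.mem_compl.1 hv)
  have h3 : ∑ v ∈ (intV T)ᶜ, vdeg (bdry T) v ≤ ∑ v, vdeg (bdry T) v :=
    Finset.sum_le_sum_of_subset (Finset.subset_univ _)
  rw [Finset.sum_const, smul_eq_mul] at h2
  omega

theorem tx_range {T : Finset (Finset V)} (hG : Good T (intV T)) (hT : Disc T)
    {o : Finset V → V → V → ℝ} (ho : Ori T o) :
    T.card ≤ Module.finrank ℝ (LinearMap.range (mapA ho)) + 1 := by
  have h1 := LinearMap.finrank_range_add_finrank_ker (mapA ho)
  rw [Module.finrank_fintype_fun_eq_card, Fintype.card_coe] at h1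
  have h2 := tx_kerA hG hT ho
  omega

theorem tx_kerB {T : Finset (Finset V)} (hG : Good T (intV T)) (hT : Disc T)
    (hu : ∀ v, ∃ t ∈ T, v ∈ t) :
    Module.finrank ℝ (LinearMap.ker (mapB T)) + (intV T).card ≤ (intE T).card := by
  have h1 := LinearMap.finrank_range_add_finrank_ker (mapB T)
  rw [tx_surj hG hT hu, finrank_top, Module.finrank_fintype_fun_eq_card, Fintype.card_coe] at h1
  have h2 := tx_X1 T
  omega

theorem tx_le {T : Finset (Finset V)} (hG : Good T (intV T))
    {o : Finset V → V → V → ℝ} (ho : Ori T o) :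
    LinearMap.range (mapA ho) ≤ LinearMap.ker (mapB T) := by
  rintro _ ⟨f, rfl⟩
  exact tx_BA hG ho f

theorem tx_eul {T : Finset (Finset V)} (hG : Good T (intV T)) (hT : Disc T) :
    (intV T).card + ((intV T)ᶜ).card + T.card = (intE T).card + (bdry T).card + 1 := by
  have h1 := hT.euler
  rw [tx_edges hG] at h1
  have h2 := Finset.card_add_card_compl (intV T)
  omega

theorem exact_real {T : Finset (Finset V)} (hG : Good T (intV T)) (hT : Disc T)
    (hu : ∀ v, ∃ t ∈ T, v ∈ t) {o : Finset V → V → V → ℝ} (ho : Ori T o) {J : V → V → ℝ}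
    (h1 : ∀ u v, J v u = - J u v) (h2 : ∀ u v, J u v ≠ 0 → u ≠ v ∧ ({u, v} : Finset V) ∈ intE T)
    (h3 : ∀ u ∈ intV T, ∑ v, J u v = 0) :
    ∃ f : Finset V → ℝ, ∀ u v, u ≠ v → ({u, v} : Finset V) ∈ intE T →
      J u v = ∑ t ∈ T.filter (fun t => {u, v} ⊆ t), o t u v * f t := by
  classical
  have h4 := tx_range hG hT ho
  have h5 := tx_kerB hG hT hu
  have h6 := tx_eul hG hT
  have h7 := tx_vbcard hG
  have h8 : LinearMap.range (mapA ho) = LinearMap.ker (mapB T) :=
    Submodule.eq_of_le_of_finrank_le (tx_le hG ho) (by omega)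
  have h9 : (⟨J, h1, h2⟩ : X1 T) ∈ LinearMap.ker (mapB T) := by
    rw [LinearMap.mem_ker]
    funext u
    exact h3 u.1 u.2
  rw [← h8] at h9
  obtain ⟨f, hf⟩ := h9
  refine ⟨extT T f, fun u v huv he => ?_⟩
  have h10 : valA T o f u v = J u v := congrArg (fun J : X1 T => J.1 u v) hf
  rw [← h10]
  exact (tx_conv f _ (extT_eq f) huv he).symm

theorem bdeg_two {T : Finset (Finset V)} (hG : Good T (intV T)) (hT : Disc T)
    (hu : ∀ v, ∃ t ∈ T, v ∈ t) {o : Finset V → V → V → ℝ} (ho : Ori T o) {v : V}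
    (hv : v ∉ intV T) : vdeg (bdry T) v = 2 := by
  have h4 := tx_range hG hT ho
  have h5 := tx_kerB hG hT hu
  have h6 := tx_eul hG hT
  have h7 := tx_vbcard hG
  have h8 := Submodule.finrank_mono (tx_le hG ho)
  have h9 : ((intV T)ᶜ).card = (bdry T).card := by omega
  have h1 := tx_sum (isCyc_bdry hG.card3).1
  have h3 : ∑ v ∈ (intV T)ᶜ, vdeg (bdry T) v ≤ ∑ v, vdeg (bdry T) v :=
    Finset.sum_le_sum_of_subset (Finset.subset_univ _)
  have h2 : vdeg (bdry T) v + ∑ w ∈ ((intV T)ᶜ).erase v, vdeg (bdry T) w =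
      ∑ v ∈ (intV T)ᶜ, vdeg (bdry T) v :=
    Finset.add_sum_erase _ _ (Finset.mem_compl.2 hv)
  have h10 : ∑ w ∈ ((intV T)ᶜ).erase v, 2 ≤ ∑ w ∈ ((intV T)ᶜ).erase v, vdeg (bdry T) w :=
    Finset.sum_le_sum fun w hw => tx_vb hG (Finset.mem_compl.1 (Finset.mem_of_mem_erase hw))
  rw [Finset.sum_const, smul_eq_mul, Finset.card_erase_of_mem (Finset.mem_compl.2 hv)] at h10
  have h11 := tx_vb hG hv
  have h12 : 0 < ((intV T)ᶜ).card := Finset.card_pos.2 ⟨v, Finset.mem_compl.2 hv⟩
  omega

/-- the number of vertices with an odd number of triangles of `S` in the link is even -/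
theorem tx_par {S : Finset (Finset V)} {v : V} (h3 : ∀ t ∈ S, t.card = 3) (hv : ∀ t ∈ S, v ∈ t) :
    Even (((univ : Finset V).erase v).filter (fun u => Odd (tdeg S {v, u}))).card := by
  rw [← Finset.even_sum_iff_even_card_odd]
  have h1 : ∑ u ∈ (univ : Finset V).erase v, tdeg S {v, u} = 2 * S.card := by
    unfold tdeg
    simp_rw [Finset.card_filter]
    rw [Finset.sum_comm]
    have h2 : ∀ t ∈ S, ∑ u ∈ (univ : Finset V).erase v,
        (if ({v, u} : Finset V) ⊆ t then 1 else 0) = 2 := by
      intro t ht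
      rw [← Finset.card_filter]
      have h4 : ((univ : Finset V).erase v).filter (fun u => ({v, u} : Finset V) ⊆ t) =
          t.erase v := by
        ext u
        simp only [Finset.mem_filter, Finset.mem_erase, Finset.mem_univ, and_true,
          Finset.insert_subset_iff, Finset.singleton_subset_iff]
        constructor
        · rintro ⟨h5, -, h6⟩
          exact ⟨h5, h6⟩
        · rintro ⟨h5, h6⟩
          exact ⟨h5, hv t ht, h6⟩
      rw [h4, Finset.card_erase_of_mem (hv t ht), h3 t ht]
    rw [Finset.sum_congr rfl h2, Finset.sum_const, smul_eq_mul, mul_comm]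
  rw [h1]
  exact even_two_mul _

/-- a closed part of the star has all or none of the triangles at an edge -/
theorem tx_closed {T S : Finset (Finset V)} {v : V} (hS : S ⊆ star T v)
    (hc : ∀ s ∈ S, ∀ t ∈ T, ∀ u, u ≠ v → v ∈ t → u ∈ s → u ∈ t → t ∈ S) {u : V} (hu : u ≠ v) :
    tdeg S {v, u} = 0 ∨ tdeg S {v, u} = tdeg T {v, u} := by
  by_cases h : ∃ s ∈ S, ({v, u} : Finset V) ⊆ s
  · right
    obtain ⟨s, hs, hs2⟩ := h
    unfold tdeg
    congr 1
    ext t
    rw [Finset.mem_filter, Finset.mem_filter]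
    constructor
    · rintro ⟨h1, h2⟩
      exact ⟨(mem_star.1 (hS h1)).1, h2⟩
    · rintro ⟨h1, h2⟩
      exact ⟨hc s hs t h1 u hu (h2 (by simp)) (hs2 (by simp)) (h2 (by simp)), h2⟩
  · left
    push Not at h
    unfold tdeg
    rw [Finset.card_eq_zero, Finset.filter_eq_empty_iff]
    intro t ht
    exact h t ht

theorem star_conn {T : Finset (Finset V)} (hG : Good T (intV T)) (hT : Disc T)
    (hu : ∀ v, ∃ t ∈ T, v ∈ t) {o : Finset V → V → V → ℝ} (ho : Ori T o) {v : V}
    {S : Finset (Finset V)} (hS : S ⊆ star T v) (hne : S.Nonempty)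
    (hc : ∀ s ∈ S, ∀ t ∈ T, ∀ u, u ≠ v → v ∈ t → u ∈ s → u ∈ t → t ∈ S) : S = star T v := by
  classical
  have hstar3 : ∀ R : Finset (Finset V), R ⊆ star T v → ∀ t ∈ R, t.card = 3 := fun R hR t ht =>
    hG.card3 t (mem_star.1 (hR ht)).1
  have hstarv : ∀ R : Finset (Finset V), R ⊆ star T v → ∀ t ∈ R, v ∈ t := fun R hR t ht =>
    (mem_star.1 (hR ht)).2
  by_contra hSne
  by_cases hv : v ∈ intV T
  · have hLE : LinkEven S v := by
      intro u hu'
      rcases tx_closed hS hc hu' with h1 | h1
      · rw [h1]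
        exact Even.zero
      · rw [h1]
        by_cases h2 : tdeg T {v, u} = 0
        · rw [h2]
          exact Even.zero
        · have h3 : ({v, u} : Finset V) ∈ edges T :=
            Finset.mem_filter.2 ⟨Finset.mem_univ _, Finset.card_pair hu'.symm,
              Nat.pos_of_ne_zero h2⟩
          rw [(Finset.mem_filter.1 hv).2 _ h3 (by simp)]
          exact even_two
    rcases hG.conn v hv S hS hLE with h1 | h1
    · rw [h1] at hne
      exact Finset.not_nonempty_empty hne
    · exact hSne h1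
  · set S' := star T v \ S with hS'
    have hS'sub : S' ⊆ star T v := Finset.sdiff_subset
    have hS'ne : S'.Nonempty := by
      rw [hS', Finset.sdiff_nonempty]
      intro h1
      exact hSne (Finset.Subset.antisymm hS h1)
    have hc' : ∀ s ∈ S', ∀ t ∈ T, ∀ u, u ≠ v → v ∈ t → u ∈ s → u ∈ t → t ∈ S' := by
      intro s hs t ht u huv hvt hus hut
      rw [hS', Finset.mem_sdiff] at hs ⊢
      refine ⟨mem_star.2 ⟨ht, hvt⟩, fun htS => hs.2 ?_⟩
      exact hc t htS s (mem_star.1 hs.1).1 u huv (mem_star.1 hs.1).2 hut hus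
    have key : ∀ R : Finset (Finset V), R ⊆ star T v → R.Nonempty →
        2 ≤ (((univ : Finset V).erase v).filter (fun u => Odd (tdeg R {v, u}))).card := by
      intro R hR hRne
      have h1 : ¬ LinkEven R v := by
        intro h2
        have h3 := hG.acyc v hv R hR h2
        rw [h3] at hRne
        exact Finset.not_nonempty_empty hRne
      unfold LinkEven at h1
      push Not at h1
      obtain ⟨u, hu1, hu2⟩ := h1
      have h4 : 0 < (((univ : Finset V).erase v).filter (fun u => Odd (tdeg R {v, u}))).card :=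
        Finset.card_pos.2 ⟨u, Finset.mem_filter.2
          ⟨Finset.mem_erase.2 ⟨hu1, Finset.mem_univ _⟩, Nat.not_even_iff_odd.1 hu2⟩⟩
      obtain ⟨k, hk⟩ := tx_par (hstar3 R hR) (hstarv R hR)
      omega
    have hA := key S hS hne
    have hB := key S' hS'sub hS'ne
    set A := ((univ : Finset V).erase v).filter (fun u => Odd (tdeg S {v, u})) with hAdef
    set B := ((univ : Finset V).erase v).filter (fun u => Odd (tdeg S' {v, u})) with hBdef
    have hdis : Disjoint A B := by
      rw [Finset.disjoint_left]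
      intro u huA huB
      rw [hAdef, Finset.mem_filter] at huA
      rw [hBdef, Finset.mem_filter] at huB
      have h1 : 0 < tdeg S {v, u} := huA.2.pos
      have h2 : 0 < tdeg S' {v, u} := huB.2.pos
      unfold tdeg at h1 h2
      obtain ⟨s, hs⟩ := Finset.card_pos.1 h1
      obtain ⟨s', hs'⟩ := Finset.card_pos.1 h2
      rw [Finset.mem_filter] at hs hs'
      have h3 := hc' s' hs'.1 s (mem_star.1 (hS hs.1)).1 u (Finset.mem_erase.1 huA.1).1
        (hs.2 (by simp)) (hs'.2 (by simp)) (hs.2 (by simp))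
      rw [hS', Finset.mem_sdiff] at h3
      exact h3.2 hs.1
    have hmap : ∀ R : Finset (Finset V), R ⊆ star T v →
        (∀ s ∈ R, ∀ t ∈ T, ∀ u, u ≠ v → v ∈ t → u ∈ s → u ∈ t → t ∈ R) → ∀ u,
        u ∈ ((univ : Finset V).erase v).filter (fun u => Odd (tdeg R {v, u})) →
        ({v, u} : Finset V) ∈ (bdry T).filter (fun e => v ∈ e) := by
      intro R hR hRc u hu'
      rw [Finset.mem_filter] at hu'
      have huv : u ≠ v := (Finset.mem_erase.1 hu'.1).1
      rw [Finset.mem_filter, mem_bdry]
      refine ⟨⟨Finset.card_pair huv.symm, ?_⟩, by simp⟩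
      rcases tx_closed hR hRc huv with h1 | h1
      · have h2 := hu'.2.pos
        omega
      · rw [← h1]
        exact hu'.2
    have hcard : (A ∪ B).card ≤ vdeg (bdry T) v := by
      unfold vdeg
      refine Finset.card_le_card_of_injOn (fun u => ({v, u} : Finset V)) ?_ ?_
      · intro u hu'
        rcases Finset.mem_union.1 hu' with h1 | h1
        · exact hmap S hS hc u h1
        · exact hmap S' hS'sub hc' u h1
      · intro x hx y hy hxy
        have hxv : x ≠ v := by
          rcases Finset.mem_union.1 hx with h1 | h1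
          · exact (Finset.mem_erase.1 (Finset.mem_filter.1 h1).1).1
          · exact (Finset.mem_erase.1 (Finset.mem_filter.1 h1).1).1
        have h1 : x ∈ ({v, y} : Finset V) := by
          have h2 : ({v, x} : Finset V) = {v, y} := hxy
          rw [← h2]
          simp
        simp only [Finset.mem_insert, Finset.mem_singleton] at h1
        exact h1.resolve_left hxv
    rw [Finset.card_union_of_disjoint hdis, bdeg_two hG hT hu ho hv] at hcard
    omega

end Pool.Agent.Spl1
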