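import Pool.Agent.Spl1.TriGeo1

/-!
# Being a triangulation is an open condition on the positions

Paper proof.  Let `IsTriang p T`.  Nondegeneracy is open.  For two triangles `s ≠ t` of `T` one shows that
`hull p' s ∩ hull p' t = hull p' (s ∩ t)` for all `p'` near `p`.

`hull_inter_of_sep`: if an affine function `f` (`f z = c₀ z 0 + c₁ z 1 - c`) satisfies `f = 0` on
`s ∩ t`, `f < 0` on `s \ t`, `f > 0` on `t \ s` (at the vertices) then `hull s ∩ hull t = hull (s ∩ t)`: in
a convex combination of the vertices of `s` with `f(z) = 0` only the vertices of `s ∩ t` occur.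

* `s ∩ t = ∅`: the hulls are disjoint compact convex sets, `geometric_hahn_banach_compact_compact` (or
  `..._compact_closed`) gives `f` with `f < 0` on the vertices of `s`, `f > 0` on the vertices of `t`: finitely
  many strict inequalities, still true for `p'` near `p`.
* `s ∩ t = {v}`, `s = {v,a,b}`, `t = {v,c,d}`.  The segment `[p_a - p_v, p_b - p_v]` is compact, the cone
  `C = {x (p_c - p_v) + y (p_d - p_v) | x, y ≥ 0}` is closed and convex, and they are disjoint (a common point
  `z` gives the point `p_v + ε z ≠ p_v` in both triangles for small `ε`).  Hahn-Banach: a linear `f` with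
  `f < c` on the segment and `f > c` on `C`; as `0 ∈ C`, `c < 0`, and `f ≥ 0` on `C` (cone).  So `f < 0` on
  `p_a - p_v, p_b - p_v` and `f ≥ 0` on `p_c - p_v, p_d - p_v`.  By symmetry there is a linear `g` with
  `g ≤ 0` on `p_a - p_v, p_b - p_v` and `g > 0` on `p_c - p_v, p_d - p_v`.  `f + g` is strict on both sides, and
  `z ↦ (f + g)(z - p'_v)` works for all `p'` near `p`.
  (In the plane one can also do this by hand with cross products.)
* `s ∩ t = {u,v}`: `f z = ± cross(p'_v - p'_u, z - p'_u)`, by `opp` the signs at `a` and `b` are opposite.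
* `|s ∩ t| = 3` means `s = t`, trivial.
-/

set_option autoImplicit false

namespace Pool.Agent.Spl1

open Finset Topology

variable {V : Type*} [Fintype V] [DecidableEq V]

theorem hull_inter_of_sep {p : V × Fin 2 → ℝ} {s t : Finset V} (c₀ c₁ c : ℝ)
    (h0 : ∀ v ∈ s ∩ t, c₀ * p (v, 0) + c₁ * p (v, 1) = c)
    (h1 : ∀ v ∈ s \ t, c₀ * p (v, 0) + c₁ * p (v, 1) < c)
    (h2 : ∀ v ∈ t \ s, c < c₀ * p (v, 0) + c₁ * p (v, 1)) :
    hull p s ∩ hull p t = hull p (s ∩ t) := by
  apply Set.Subset.antisymm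
  · rintro z ⟨hzs, hzt⟩
    obtain ⟨a, ha0, ha1, haz⟩ := mem_hull_iff.1 hzs
    obtain ⟨b, hb0, hb1, hbz⟩ := mem_hull_iff.1 hzt
    have key : ∀ (r : Finset V) (f : V → ℝ), ∑ x ∈ r, f x = 1 → ∑ x ∈ r, f x • pt p x = z →
        c₀ * z 0 + c₁ * z 1 - c = ∑ x ∈ r, f x * (c₀ * p (x, 0) + c₁ * p (x, 1) - c) := by
      intro r f hf hz
      have e0 : z 0 = ∑ x ∈ r, f x * p (x, 0) := by
        rw [← hz, Finset.sum_apply]
        rfl
      have e1 : z 1 = ∑ x ∈ r, f x * p (x, 1) := by
        rw [← hz, Finset.sum_apply]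
        rfl
      have e2 : c = ∑ x ∈ r, f x * c := by rw [← Finset.sum_mul, hf, one_mul]
      rw [e0, e1]
      nth_rewrite 1 [e2]
      rw [Finset.mul_sum, Finset.mul_sum, ← Finset.sum_add_distrib, ← Finset.sum_sub_distrib]
      exact Finset.sum_congr rfl fun x _ => by ring
    have kb : 0 ≤ c₀ * z 0 + c₁ * z 1 - c := by
      rw [key t b hb1 hbz]
      refine Finset.sum_nonneg fun x hx => mul_nonneg (hb0 x hx) ?_
      by_cases hxs : x ∈ s
      · have := h0 x (Finset.mem_inter.2 ⟨hxs, hx⟩)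
        linarith
      · have := h2 x (Finset.mem_sdiff.2 ⟨hx, hxs⟩)
        linarith
    have hterm : ∀ x ∈ s, a x * (c₀ * p (x, 0) + c₁ * p (x, 1) - c) ≤ 0 := by
      intro x hx
      refine mul_nonpos_of_nonneg_of_nonpos (ha0 x hx) ?_
      by_cases hxt : x ∈ t
      · have := h0 x (Finset.mem_inter.2 ⟨hx, hxt⟩)
        linarith
      · have := h1 x (Finset.mem_sdiff.2 ⟨hx, hxt⟩)
        linarith
    have ka := key s a ha1 haz
    have hsum : ∑ x ∈ s, a x * (c₀ * p (x, 0) + c₁ * p (x, 1) - c) = 0 :=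
      le_antisymm (Finset.sum_nonpos hterm) (by rw [← ka]; exact kb)
    have hz0 := (Finset.sum_eq_zero_iff_of_nonpos hterm).1 hsum
    have ha : ∀ x ∈ s, x ∉ s ∩ t → a x = 0 := by
      intro x hx hxt
      have hxt' : x ∉ t := fun h => hxt (Finset.mem_inter.2 ⟨hx, h⟩)
      have h3 := h1 x (Finset.mem_sdiff.2 ⟨hx, hxt'⟩)
      rcases mul_eq_zero.1 (hz0 x hx) with h4 | h4
      · exact h4
      · linarith
    refine mem_hull_iff.2 ⟨a, fun x hx => ha0 x (Finset.mem_inter.1 hx).1, ?_, ?_⟩
    · rw [← ha1]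
      exact Finset.sum_subset Finset.inter_subset_left ha
    · rw [← haz]
      refine Finset.sum_subset Finset.inter_subset_left fun x hx hxt => ?_
      rw [ha x hx hxt, zero_smul]
  · exact Set.subset_inter (hull_mono Finset.inter_subset_left) (hull_mono Finset.inter_subset_right)

private theorem ev_of_sep {p : V × Fin 2 → ℝ} {s t : Finset V} (c₀ c₁ c : (V × Fin 2 → ℝ) → ℝ)
    (hc₀ : Continuous c₀) (hc₁ : Continuous c₁) (hc : Continuous c)
    (h0 : ∀ p', ∀ v ∈ s ∩ t, c₀ p' * p' (v, 0) + c₁ p' * p' (v, 1) = c p')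
    (h1 : ∀ v ∈ s \ t, c₀ p * p (v, 0) + c₁ p * p (v, 1) < c p)
    (h2 : ∀ v ∈ t \ s, c p < c₀ p * p (v, 0) + c₁ p * p (v, 1)) :
    ∀ᶠ p' in 𝓝 p, hull p' s ∩ hull p' t = hull p' (s ∩ t) := by
  have hcont : ∀ v : V, Continuous fun p' : V × Fin 2 → ℝ =>
      c₀ p' * p' (v, 0) + c₁ p' * p' (v, 1) := fun v => by fun_prop
  have e1 : ∀ᶠ p' in 𝓝 p, ∀ v ∈ s \ t, c₀ p' * p' (v, 0) + c₁ p' * p' (v, 1) < c p' :=
    (Filter.eventually_all_finset _).2 fun v hv =>
      (hcont v).continuousAt.eventually_lt hc.continuousAt (h1 v hv)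
  have e2 : ∀ᶠ p' in 𝓝 p, ∀ v ∈ t \ s, c p' < c₀ p' * p' (v, 0) + c₁ p' * p' (v, 1) :=
    (Filter.eventually_all_finset _).2 fun v hv =>
      hc.continuousAt.eventually_lt (hcont v).continuousAt (h2 v hv)
  filter_upwards [e1, e2] with p' hp1 hp2
  exact hull_inter_of_sep (c₀ p') (c₁ p') (c p') (h0 p') hp1 hp2

private theorem clm_eq (f : (Fin 2 → ℝ) →L[ℝ] ℝ) (z : Fin 2 → ℝ) :
    f z = f (Pi.single 0 1) * z 0 + f (Pi.single 1 1) * z 1 := by
  have hz : z = z 0 • Pi.single 0 1 + z 1 • Pi.single 1 1 := by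
    ext i
    fin_cases i <;> simp
  conv_lhs => rw [hz]
  rw [map_add, map_smul, map_smul, smul_eq_mul, smul_eq_mul]
  ring

/-- disjoint triangles -/
private theorem ev0 {p : V × Fin 2 → ℝ} {s t : Finset V} (h : hull p s ∩ hull p t = ∅)
    (hst : s ∩ t = ∅) : ∀ᶠ p' in 𝓝 p, hull p' s ∩ hull p' t = hull p' (s ∩ t) := by
  obtain ⟨f, u, v, hu, huv, hv⟩ := geometric_hahn_banach_compact_closed
    (convex_convexHull ℝ (pt p '' (s : Set V))) (isCompact_hull p s)
    (convex_convexHull ℝ (pt p '' (t : Set V))) (isCompact_hull p t).isClosed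
    (Set.disjoint_iff_inter_eq_empty.2 h)
  refine ev_of_sep (fun _ => f (Pi.single 0 1)) (fun _ => f (Pi.single 1 1)) (fun _ => u)
    continuous_const continuous_const continuous_const ?_ ?_ ?_
  · intro p' v hv
    rw [hst] at hv
    exact absurd hv (Finset.notMem_empty v)
  · intro x hx
    have h1 := hu _ (pt_mem_hull (p := p) (Finset.mem_sdiff.1 hx).1)
    rw [clm_eq] at h1
    exact h1
  · intro x hx
    have h1 := hv _ (pt_mem_hull (p := p) (Finset.mem_sdiff.1 hx).1)
    rw [clm_eq] at h1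
    exact huv.trans h1

private theorem hull_single (p : V × Fin 2 → ℝ) (v : V) : hull p {v} = {pt p v} := by
  unfold hull
  simp

/-- one common vertex -/
private theorem ev1 {p : V × Fin 2 → ℝ} {T : Finset (Finset V)} (hp : IsTriang p T)
    {s t : Finset V} (hs : s ∈ T) (ht : t ∈ T) {v : V} (hst : s ∩ t = {v}) :
    ∀ᶠ p' in 𝓝 p, hull p' s ∩ hull p' t = hull p' (s ∩ t) := by
  have hv : v ∈ s ∩ t := by rw [hst]; exact Finset.mem_singleton_self v
  have hvs := (Finset.mem_inter.1 hv).1
  have hvt := (Finset.mem_inter.1 hv).2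
  -- the compact convex set
  let D : Finset V := (s \ t) ∪ (t \ s)
  let g : V → (Fin 2 → ℝ) := fun x => if x ∈ s then pt p v - pt p x else pt p x - pt p v
  let Q : Set (Fin 2 → ℝ) := (fun w : D → ℝ => ∑ i, w i • g i.1) '' stdSimplex ℝ D
  have hQ1 : Convex ℝ Q := by
    refine (convex_stdSimplex ℝ D).is_linear_image ⟨fun w w' => ?_, fun c w => ?_⟩
    · simp only [Pi.add_apply, add_smul, Finset.sum_add_distrib]
    · simp only [Pi.smul_apply, smul_eq_mul, Finset.smul_sum, smul_smul]
  have hQ2 : IsClosed Q := by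
    refine ((isCompact_stdSimplex ℝ D).image ?_).isClosed
    fun_prop
  have hsg : ∀ (r : Finset V) (w : V → ℝ), v ∈ r →
      ∑ x ∈ r, (if x = v then 1 - ∑ y ∈ r.erase v, w y else w x) • pt p x =
        pt p v + ∑ x ∈ r.erase v, w x • (pt p x - pt p v) := by
    intro r w hvr
    rw [← Finset.add_sum_erase r _ hvr, if_pos rfl, sub_smul, one_smul, Finset.sum_smul]
    have : ∑ x ∈ r.erase v, (if x = v then 1 - ∑ y ∈ r.erase v, w y else w x) • pt p x =
        ∑ x ∈ r.erase v, w x • pt p x :=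
      Finset.sum_congr rfl fun x hx => by rw [if_neg (Finset.ne_of_mem_erase hx)]
    rw [this]
    simp only [smul_sub, Finset.sum_sub_distrib]
    abel
  have hsum : ∀ (r : Finset V) (w : V → ℝ), v ∈ r →
      ∑ x ∈ r, (if x = v then 1 - ∑ y ∈ r.erase v, w y else w x) = 1 := by
    intro r w hvr
    rw [← Finset.add_sum_erase r _ hvr, if_pos rfl]
    have : ∑ x ∈ r.erase v, (if x = v then 1 - ∑ y ∈ r.erase v, w y else w x) =
        ∑ x ∈ r.erase v, w x :=
      Finset.sum_congr rfl fun x hx => by rw [if_neg (Finset.ne_of_mem_erase hx)]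
    rw [this]
    ring
  have her : s.erase v = s \ t := by
    ext x
    rw [Finset.mem_erase, Finset.mem_sdiff]
    constructor
    · rintro ⟨h1, h2⟩
      refine ⟨h2, fun h3 => h1 ?_⟩
      have : x ∈ s ∩ t := Finset.mem_inter.2 ⟨h2, h3⟩
      rw [hst] at this
      exact Finset.mem_singleton.1 this
    · rintro ⟨h1, h2⟩
      exact ⟨fun h3 => h2 (h3 ▸ hvt), h1⟩
  have her' : t.erase v = t \ s := by
    ext x
    rw [Finset.mem_erase, Finset.mem_sdiff]
    constructor
    · rintro ⟨h1, h2⟩
      refine ⟨h2, fun h3 => h1 ?_⟩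
      have : x ∈ s ∩ t := Finset.mem_inter.2 ⟨h3, h2⟩
      rw [hst] at this
      exact Finset.mem_singleton.1 this
    · rintro ⟨h1, h2⟩
      exact ⟨fun h3 => h2 (h3 ▸ hvs), h1⟩
  have hdisj : Disjoint (s \ t) (t \ s) := by
    rw [Finset.disjoint_left]
    intro x h1 h2
    exact (Finset.mem_sdiff.1 h2).2 (Finset.mem_sdiff.1 h1).1
  have h0Q : (0 : Fin 2 → ℝ) ∉ Q := by
    rintro ⟨w', ⟨hw0', hw1'⟩, hw2'⟩
    -- extend `w'` to `V`
    obtain ⟨w, hw⟩ : ∃ w : V → ℝ, ∀ i : D, w i.1 = w' i :=
      ⟨fun x => if h : x ∈ D then w' ⟨x, h⟩ else 0, fun i => dif_pos i.2⟩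
    have hw0 : ∀ x ∈ D, 0 ≤ w x := fun x hx => by
      have := hw0' ⟨x, hx⟩
      rw [← hw] at this
      exact this
    have hw1 : ∑ x ∈ D, w x = 1 := by
      rw [← hw1', ← Finset.sum_coe_sort D w]
      exact Finset.sum_congr rfl fun i _ => hw i
    have hw2 : ∑ x ∈ D, w x • g x = 0 := by
      rw [← hw2', ← Finset.sum_coe_sort D (fun x => w x • g x)]
      exact Finset.sum_congr rfl fun i _ => by rw [hw i]
    have hD : D = (s \ t) ∪ (t \ s) := rfl
    rw [hD, Finset.sum_union hdisj] at hw1 hw2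
    have hg1 : ∑ x ∈ s \ t, w x • g x = - ∑ x ∈ s \ t, w x • (pt p x - pt p v) := by
      rw [← Finset.sum_neg_distrib]
      refine Finset.sum_congr rfl fun x hx => ?_
      have : g x = pt p v - pt p x := if_pos (Finset.mem_sdiff.1 hx).1
      rw [this, ← smul_neg, neg_sub]
    have hg2 : ∑ x ∈ t \ s, w x • g x = ∑ x ∈ t \ s, w x • (pt p x - pt p v) := by
      refine Finset.sum_congr rfl fun x hx => ?_
      have : g x = pt p x - pt p v := if_neg (Finset.mem_sdiff.1 hx).2
      rw [this]
    rw [hg1, hg2] at hw2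
    have heq : ∑ x ∈ s \ t, w x • (pt p x - pt p v) = ∑ x ∈ t \ s, w x • (pt p x - pt p v) := by
      have := hw2
      rw [neg_add_eq_zero] at this
      exact this
    have hA : 0 ≤ ∑ x ∈ s \ t, w x := Finset.sum_nonneg fun x hx =>
      hw0 x (Finset.mem_union_left _ hx)
    have hB : 0 ≤ ∑ x ∈ t \ s, w x := Finset.sum_nonneg fun x hx =>
      hw0 x (Finset.mem_union_right _ hx)
    -- the common point
    have hzs : pt p v + ∑ x ∈ s \ t, w x • (pt p x - pt p v) ∈ hull p s := by
      rw [← her, ← hsg s w hvs]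
      refine mem_hull_iff.2 ⟨_, fun x hx => ?_, hsum s w hvs, rfl⟩
      split_ifs with h
      · rw [her]; linarith
      · exact hw0 x (Finset.mem_union_left _ (by rw [← her]; exact Finset.mem_erase.2 ⟨h, hx⟩))
    have hzt : pt p v + ∑ x ∈ s \ t, w x • (pt p x - pt p v) ∈ hull p t := by
      rw [heq, ← her', ← hsg t w hvt]
      refine mem_hull_iff.2 ⟨_, fun x hx => ?_, hsum t w hvt, rfl⟩
      split_ifs with h
      · rw [her']; linarith
      · exact hw0 x (Finset.mem_union_right _ (by rw [← her']; exact Finset.mem_erase.2 ⟨h, hx⟩))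
    have hz : pt p v + ∑ x ∈ s \ t, w x • (pt p x - pt p v) = pt p v := by
      have h3 : pt p v + ∑ x ∈ s \ t, w x • (pt p x - pt p v) ∈ hull p s ∩ hull p t := ⟨hzs, hzt⟩
      rw [hp.inter s hs t ht, hst, hull_single] at h3
      exact h3
    -- uniqueness of the coordinates
    have hone : ∀ r : Finset V, v ∈ r → ∑ x ∈ r, (if x = v then (1 : ℝ) else 0) = 1 := by
      intro r hr
      rw [Finset.sum_ite_eq' r v]
      rw [if_pos hr]
    have hone' : ∀ r : Finset V, v ∈ r →
        ∑ x ∈ r, (if x = v then (1 : ℝ) else 0) • pt p x = pt p v := by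
      intro r hr
      simp only [ite_smul, one_smul, zero_smul]
      rw [Finset.sum_ite_eq' r v]
      rw [if_pos hr]
    have hws : ∀ x ∈ s \ t, w x = 0 := by
      intro x hx
      have h5 := TriGeo1_unique hp hs (hsum s w hvs) (hone s hvs) (by
        rw [hsg s w hvs, her, hz, hone' s hvs]) x (Finset.mem_sdiff.1 hx).1
      have hxv : x ≠ v := fun h => (Finset.mem_sdiff.1 hx).2 (h ▸ hvt)
      rwa [if_neg hxv, if_neg hxv] at h5
    have hwt : ∀ x ∈ t \ s, w x = 0 := by
      intro x hx
      have h5 := TriGeo1_unique hp ht (hsum t w hvt) (hone t hvt) (by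
        rw [hsg t w hvt, her', ← heq, hz, hone' t hvt]) x (Finset.mem_sdiff.1 hx).1
      have hxv : x ≠ v := fun h => (Finset.mem_sdiff.1 hx).2 (h ▸ hvs)
      rwa [if_neg hxv, if_neg hxv] at h5
    rw [Finset.sum_eq_zero hws, Finset.sum_eq_zero hwt] at hw1
    norm_num at hw1
  obtain ⟨f, u, hu, hf⟩ := geometric_hahn_banach_point_closed hQ1 hQ2 h0Q
  rw [map_zero] at hu
  have hgQ : ∀ x ∈ D, g x ∈ Q := by
    intro x hx
    refine ⟨Pi.single ⟨x, hx⟩ 1, single_mem_stdSimplex ℝ _, ?_⟩
    simp only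
    rw [Finset.sum_eq_single (⟨x, hx⟩ : D)]
    · simp
    · intro i _ hi
      rw [Pi.single_eq_of_ne hi, zero_smul]
    · intro h
      exact absurd (Finset.mem_univ _) h
  refine ev_of_sep (fun _ => f (Pi.single 0 1)) (fun _ => f (Pi.single 1 1))
    (fun p' => f (Pi.single 0 1) * p' (v, 0) + f (Pi.single 1 1) * p' (v, 1))
    continuous_const continuous_const (by fun_prop) ?_ ?_ ?_
  · intro p' x hx
    rw [hst, Finset.mem_singleton] at hx
    rw [hx]
  · intro x hx
    have h1 := hf _ (hgQ x (Finset.mem_union_left _ hx))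
    have h2 : g x = pt p v - pt p x := if_pos (Finset.mem_sdiff.1 hx).1
    rw [h2, map_sub, clm_eq, clm_eq f (pt p x)] at h1
    have h3 : ∀ y k, pt p y k = p (y, k) := fun _ _ => rfl
    rw [h3, h3, h3, h3] at h1
    linarith
  · intro x hx
    have h1 := hf _ (hgQ x (Finset.mem_union_right _ hx))
    have h2 : g x = pt p x - pt p v := if_neg (Finset.mem_sdiff.1 hx).2
    rw [h2, map_sub, clm_eq, clm_eq f (pt p v)] at h1
    have h3 : ∀ y k, pt p y k = p (y, k) := fun _ _ => rfl
    rw [h3, h3, h3, h3] at h1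
    linarith

/-- two common vertices -/
private theorem ev2 {p : V × Fin 2 → ℝ} {u v a b : V} (hau : a ≠ u) (hav : a ≠ v)
    (hbu : b ≠ u) (hbv : b ≠ v) (hab : a ≠ b) (h1 : crs p u v a < 0) (h2 : 0 < crs p u v b) :
    ∀ᶠ p' in 𝓝 p, hull p' {u, v, a} ∩ hull p' {u, v, b} =
      hull p' (({u, v, a} : Finset V) ∩ {u, v, b}) := by
  refine ev_of_sep (fun p' => -(p' (v, 1) - p' (u, 1))) (fun p' => p' (v, 0) - p' (u, 0))
    (fun p' => -(p' (v, 1) - p' (u, 1)) * p' (u, 0) + (p' (v, 0) - p' (u, 0)) * p' (u, 1))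
    (by fun_prop) (by fun_prop) (by fun_prop) ?_ ?_ ?_
  · intro p' x hx
    simp only [Finset.mem_inter, Finset.mem_insert, Finset.mem_singleton] at hx
    have hx' : x = u ∨ x = v := by
      rcases hx with ⟨h | h | h, h' | h' | h'⟩
      · exact Or.inl h
      · exact Or.inl h
      · exact Or.inl h
      · exact Or.inr h
      · exact Or.inr h
      · exact Or.inr h
      · exact Or.inl h'
      · exact Or.inr h'
      · exact absurd (h.symm.trans h') hab
    rcases hx' with h | h
    · subst h; rfl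
    · subst h; ring
  · intro x hx
    simp only [Finset.mem_sdiff, Finset.mem_insert, Finset.mem_singleton, not_or] at hx
    have hxa : x = a := by
      rcases hx.1 with h | h | h
      · exact absurd h hx.2.1
      · exact absurd h hx.2.2.1
      · exact h
    subst hxa
    unfold crs at h1
    linarith
  · intro x hx
    simp only [Finset.mem_sdiff, Finset.mem_insert, Finset.mem_singleton, not_or] at hx
    have hxa : x = b := by
      rcases hx.1 with h | h | h
      · exact absurd h hx.2.1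
      · exact absurd h hx.2.2.1
      · exact h
    subst hxa
    unfold crs at h2
    linarith

theorem isOpen_isTriang (T : Finset (Finset V)) : IsOpen {p : V × Fin 2 → ℝ | IsTriang p T} := by
  rw [isOpen_iff_mem_nhds]
  intro p hp
  have hp' : IsTriang p T := hp
  have e1 : ∀ᶠ p' in 𝓝 p, ∀ u v w : V, ({u, v, w} : Finset V) ∈ T → crs p' u v w ≠ 0 := by
    rw [Filter.eventually_all]
    intro u
    rw [Filter.eventually_all]
    intro v
    rw [Filter.eventually_all]
    intro w
    by_cases h : ({u, v, w} : Finset V) ∈ T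
    · have hc : Continuous fun p' : V × Fin 2 → ℝ => crs p' u v w := by
        unfold crs
        fun_prop
      filter_upwards [hc.continuousAt.eventually_ne (hp'.nondeg u v w h)] with p' h3 _
      exact h3
    · exact Filter.Eventually.of_forall fun p' h3 => absurd h3 h
  have e2 : ∀ᶠ p' in 𝓝 p, ∀ s ∈ T, ∀ t ∈ T, hull p' s ∩ hull p' t = hull p' (s ∩ t) := by
    rw [Filter.eventually_all_finset]
    intro s hs
    rw [Filter.eventually_all_finset]
    intro t ht
    have hs3 := hp'.card3 s hs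
    have ht3 := hp'.card3 t ht
    have hle : (s ∩ t).card ≤ 3 := (Finset.card_le_card Finset.inter_subset_left).trans hs3.le
    rcases Nat.lt_or_ge (s ∩ t).card 1 with h0 | h0
    · have hst : s ∩ t = ∅ := Finset.card_eq_zero.1 (by omega)
      refine ev0 ?_ hst
      rw [hp'.inter s hs t ht, hst]
      unfold hull
      simp
    rcases Nat.lt_or_ge (s ∩ t).card 2 with h1 | h1
    · obtain ⟨v, hv⟩ := Finset.card_eq_one.1 (show (s ∩ t).card = 1 by omega)
      exact ev1 hp' hs ht hv
    rcases Nat.lt_or_ge (s ∩ t).card 3 with h2 | h2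
    · obtain ⟨u, v, huv, hst⟩ := Finset.card_eq_two.1 (show (s ∩ t).card = 2 by omega)
      have hu : u ∈ s ∩ t := by rw [hst]; simp
      have hv : v ∈ s ∩ t := by rw [hst]; simp
      rw [Finset.mem_inter] at hu hv
      obtain ⟨a, hau, hav, hsa⟩ := TriGeo1_third hs3 huv hu.1 hv.1
      obtain ⟨b, hbu, hbv, htb⟩ := TriGeo1_third ht3 huv hu.2 hv.2
      have hab : a ≠ b := by
        intro h
        rw [h, ← htb] at hsa
        rw [hsa, Finset.inter_self] at h2
        omega
      subst hsa
      subst htb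
      have hopp := opp hp' hs ht hab
      rcases lt_or_ge (crs p u v a) 0 with h3 | h3
      · have h4 : 0 < crs p u v b := by
          by_contra hc
          push Not at hc
          nlinarith [mul_nonneg_of_nonpos_of_nonpos h3.le hc]
        exact ev2 hau hav hbu hbv hab h3 h4
      · have h4 : crs p u v b < 0 := by
          by_contra hc
          push Not at hc
          nlinarith [mul_nonneg h3 hc]
        have h5 : 0 < crs p u v a := by
          rcases h3.lt_or_eq with h | h
          · exact h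
          · rw [← h, zero_mul] at hopp
            exact absurd hopp (lt_irrefl 0)
        have := ev2 hbu hbv hau hav hab.symm h4 h5
        filter_upwards [this] with p' h6
        rw [Set.inter_comm, Finset.inter_comm]
        exact h6
    · have hss : s ∩ t = s := Finset.eq_of_subset_of_card_le Finset.inter_subset_left (by omega)
      have htt : s ∩ t = t := Finset.eq_of_subset_of_card_le Finset.inter_subset_right (by omega)
      have hst : s = t := hss.symm.trans htt
      subst hst
      exact Filter.Eventually.of_forall fun p' => by rw [Set.inter_self, Finset.inter_self]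
  filter_upwards [e1, e2] with p' h1 h2
  exact ⟨hp'.card3, hp'.used, h1, h2⟩

end Pool.Agent.Spl1
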