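import Pool.Agent.Spl1.Tri
import Pool.Agent.Spl1.Rank

/-!
# Constant cofactors are stresses

Paper proof.  `ω ↦ (fun u v => C (ω u v))` is a linear equivalence from `Stress (r+2) p (intE T) (intV T)` to
`CofSys r 0 p T` (`totalDegree ≤ 0` means constant: `MvPolynomial.totalDegree_eq_zero_iff_eq_C`).  The equation at `u`:
with `(a_v, b_v) = p_v - p_u`, `X = X₀ - x_u`, `Y = X₁ - y_u`,
`∑_v ω u v (a_v Y - b_v X)^(r+1) = ∑_j binom(r+1,j) (-1)^(r+1-j) (∑_v ω u v a_v^j b_v^(r+1-j)) Y^j X^(r+1-j)`, and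
the polynomials `Y^j X^(r+1-j)` are linearly independent (evaluate at `(x_u + 1, y_u + t)`).  `(-1)^(r+2) = (-1)^r`.
-/

set_option autoImplicit false

namespace Pool.Agent.Spl1

open Finset

variable {V : Type*} [Fintype V] [DecidableEq V]

omit [DecidableEq V] in
theorem sum_sub_pow_expand {R : Type*} [CommRing R] (w a b : V → R) (x y : R) (n : ℕ) :
    ∑ v, w v * (a v * y - b v * x) ^ n =
      ∑ j ∈ range (n + 1), ((n.choose j : ℕ) : R) * (-1) ^ (n - j) *
        (∑ v, w v * (a v ^ j * b v ^ (n - j))) * (y ^ j * x ^ (n - j)) := by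
  have h1 : ∀ v, w v * (a v * y - b v * x) ^ n = ∑ j ∈ range (n + 1),
      ((n.choose j : ℕ) : R) * (-1) ^ (n - j) * (w v * (a v ^ j * b v ^ (n - j))) *
        (y ^ j * x ^ (n - j)) := by
    intro v
    rw [sub_eq_add_neg, add_pow, mul_sum]
    refine sum_congr rfl fun j _ => ?_
    rw [neg_pow, mul_pow, mul_pow]
    ring
  rw [sum_congr rfl fun v _ => h1 v, sum_comm]
  refine sum_congr rfl fun j _ => ?_
  rw [mul_sum, sum_mul]

omit [DecidableEq V] in
/-- the equation at a vertex, for constant cofactors -/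
theorem cof_eq_iff (r : ℕ) (p : V × Fin 2 → ℝ) (u : V) (w : V → ℝ) :
    (∑ v, MvPolynomial.C (w v) * lin p u v ^ (r + 1) = 0) ↔
      ∀ j : Fin (r + 2), ∑ v, w v *
        mon (r + 2) (p (v, 0) - p (u, 0)) (p (v, 1) - p (u, 1)) j = 0 := by
  have hmon : ∀ (j : Fin (r + 2)), (∑ v, w v *
      mon (r + 2) (p (v, 0) - p (u, 0)) (p (v, 1) - p (u, 1)) j) =
      ∑ v, w v * ((p (v, 0) - p (u, 0)) ^ (j : ℕ) * (p (v, 1) - p (u, 1)) ^ (r + 1 - (j : ℕ))) :=
    fun j => rfl
  constructor
  · intro h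
    have h1 : ∀ t : ℝ, ∑ v, w v * ((p (v, 0) - p (u, 0)) * t - (p (v, 1) - p (u, 1)) * 1) ^ (r + 1) = 0 := by
      intro t
      have h2 := congrArg (MvPolynomial.eval (![p (u, 0) + 1, p (u, 1) + t] : Fin 2 → ℝ)) h
      rw [map_sum, map_zero] at h2
      rw [← h2]
      refine sum_congr rfl fun v _ => ?_
      simp only [lin, map_mul, map_pow, map_sub, MvPolynomial.eval_C, MvPolynomial.eval_X,
        Matrix.cons_val_zero, Matrix.cons_val_one]
      ring
    have h3 : (∑ j ∈ range (r + 1 + 1), Polynomial.C ((((r + 1).choose j : ℕ) : ℝ) * (-1) ^ (r + 1 - j) *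
        (∑ v, w v * ((p (v, 0) - p (u, 0)) ^ j * (p (v, 1) - p (u, 1)) ^ (r + 1 - j)))) *
          Polynomial.X ^ j : Polynomial ℝ) = 0 := by
      apply Polynomial.funext
      intro t
      rw [Polynomial.eval_finset_sum, Polynomial.eval_zero, ← h1 t, sum_sub_pow_expand]
      refine sum_congr rfl fun j _ => ?_
      rw [Polynomial.eval_mul, Polynomial.eval_C, Polynomial.eval_pow, Polynomial.eval_X, one_pow,
        mul_one]
    intro j
    rw [hmon]
    have h4 := congrArg (fun q => Polynomial.coeff q (j : ℕ)) h3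
    simp only [Polynomial.finset_sum_coeff, Polynomial.coeff_C_mul_X_pow, Polynomial.coeff_zero] at h4
    rw [Finset.sum_ite_eq] at h4
    rw [if_pos (by rw [mem_range]; exact j.2)] at h4
    have h5 : (((r + 1).choose (j : ℕ) : ℕ) : ℝ) * (-1) ^ (r + 1 - (j : ℕ)) ≠ 0 := by
      apply mul_ne_zero
      · have := Nat.choose_pos (n := r + 1) (k := (j : ℕ)) (by omega)
        positivity
      · exact pow_ne_zero _ (by norm_num)
    exact (mul_eq_zero.1 h4).resolve_left h5
  · intro h
    have h1 := sum_sub_pow_expand (V := V) (R := MvPolynomial (Fin 2) ℝ)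
      (fun v => MvPolynomial.C (w v)) (fun v => MvPolynomial.C (p (v, 0) - p (u, 0)))
      (fun v => MvPolynomial.C (p (v, 1) - p (u, 1)))
      (MvPolynomial.X 0 - MvPolynomial.C (p (u, 0))) (MvPolynomial.X 1 - MvPolynomial.C (p (u, 1)))
      (r + 1)
    have h2 : (∑ v, MvPolynomial.C (w v) * lin p u v ^ (r + 1)) =
        ∑ v, MvPolynomial.C (w v) *
        (MvPolynomial.C (p (v, 0) - p (u, 0)) * (MvPolynomial.X 1 - MvPolynomial.C (p (u, 1))) -
        MvPolynomial.C (p (v, 1) - p (u, 1)) * (MvPolynomial.X 0 - MvPolynomial.C (p (u, 0)))) ^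
          (r + 1) := rfl
    rw [h2, h1]
    apply sum_eq_zero
    intro j hj
    rw [mem_range] at hj
    have h3 : (∑ v, (MvPolynomial.C (w v) * (MvPolynomial.C (p (v, 0) - p (u, 0)) ^ j *
        MvPolynomial.C (p (v, 1) - p (u, 1)) ^ (r + 1 - j)) : MvPolynomial (Fin 2) ℝ)) = 0 := by
      have h4 := h ⟨j, hj⟩
      rw [hmon] at h4
      simp only at h4
      have h5 := congrArg (MvPolynomial.C (σ := Fin 2)) h4
      rw [map_sum, map_zero] at h5
      rw [← h5]
      refine sum_congr rfl fun v _ => ?_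
      rw [map_mul, map_mul, map_pow, map_pow]
    rw [h3, mul_zero, zero_mul]

theorem isCof_iff (r : ℕ) (p : V × Fin 2 → ℝ) (T : Finset (Finset V)) (w : V → V → ℝ) :
    IsCof r 0 p T (fun u v => MvPolynomial.C (w u v)) ↔
      IsStress (r + 2) p (intE T) (intV T) w := by
  have hsgn : ((-1 : ℝ)) ^ (r + 2) = (-1) ^ r := by rw [pow_add]; norm_num
  constructor
  · intro h
    refine ⟨fun u v huv => ?_, fun u v => ?_, fun u hu => ?_⟩
    · apply h.supp u v
      intro h0
      exact huv ((MvPolynomial.C_eq_zero).1 h0)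
    · have h1 := h.symm u v
      rw [hsgn]
      apply MvPolynomial.C_injective (Fin 2) ℝ
      rw [h1, map_mul, map_pow, map_neg, map_one]
    · exact (cof_eq_iff r p u (w u)).1 (h.eq u hu)
  · intro h
    refine ⟨fun u v huv => ?_, fun u v => ?_, fun u v => ?_, fun u hu => ?_⟩
    · apply h.supp u v
      intro h0
      apply huv
      rw [h0, map_zero]
    · rw [MvPolynomial.totalDegree_C]
    · have h1 := h.symm u v
      rw [hsgn] at h1
      rw [h1, map_mul, map_pow, map_neg, map_one]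
    · exact (cof_eq_iff r p u (w u)).2 (h.eq u hu)

theorem cof_const {r : ℕ} {p : V × Fin 2 → ℝ} {T : Finset (Finset V)}
    {g : V → V → MvPolynomial (Fin 2) ℝ} (h : IsCof r 0 p T g) :
    g = fun u v => MvPolynomial.C (MvPolynomial.coeff 0 (g u v)) := by
  funext u v
  exact MvPolynomial.totalDegree_eq_zero_iff_eq_C.1 (Nat.le_zero.1 (h.deg u v))

/-- constant cofactors and stresses -/
noncomputable def cofEquiv (r : ℕ) (p : V × Fin 2 → ℝ) (T : Finset (Finset V)) :
    Stress (r + 2) p (intE T) (intV T) ≃ₗ[ℝ] CofSys r 0 p T where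
  toFun w := ⟨fun u v => MvPolynomial.C (w.1 u v), (isCof_iff r p T w.1).2 w.2⟩
  map_add' a b := by
    apply Subtype.ext
    funext u v
    exact map_add MvPolynomial.C _ _
  map_smul' c a := by
    apply Subtype.ext
    funext u v
    change MvPolynomial.C (c * a.1 u v) = c • MvPolynomial.C (a.1 u v)
    rw [MvPolynomial.smul_eq_C_mul, map_mul]
  invFun g := ⟨fun u v => MvPolynomial.coeff 0 (g.1 u v), by
    have h1 : IsCof r 0 p T g.1 := g.2
    have h2 := cof_const h1
    rw [h2] at h1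
    exact (isCof_iff r p T _).1 h1⟩
  left_inv w := by
    apply Subtype.ext
    funext u v
    exact MvPolynomial.coeff_zero_C _
  right_inv g := by
    apply Subtype.ext
    exact (cof_const g.2).symm

theorem finrank_cofSys_zero (r : ℕ) (p : V × Fin 2 → ℝ) (T : Finset (Finset V)) :
    Module.finrank ℝ (CofSys r 0 p T) =
      Module.finrank ℝ (Stress (r + 2) p (intE T) (intV T)) :=
  (cofEquiv r p T).finrank_eq.symm

end Pool.Agent.Spl1
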