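import Pool.Agent.Spl1.TriSmooth
import Pool.Agent.Spl1.TriStress
import Pool.Agent.Spl1.TriOpen

/-!
# The generic dimension of `S^r_(r+1)` (assembly, proved from the stubs)
-/

set_option autoImplicit false

namespace Pool.Agent.Spl1

open Finset

variable {V : Type*} [Fintype V] [DecidableEq V]

theorem intE_subset (T : Finset (Finset V)) : intE T ⊆ edges T := filter_subset _ _

theorem finrank_eq {p : V × Fin 2 → ℝ} {T : Finset (Finset V)} (hp : IsTriang p T)
    (hT : Disc T) (r : ℕ) :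
    Module.finrank ℝ (SplineFn r (r + 1) p T) =
      (r + 3).choose 2 + Module.finrank ℝ (Stress (r + 2) p (intE T) (intV T)) := by
  rw [finrank_splineFn hp hT, ← finrank_cofSys_zero]
  exact finrank_splineAlg hp hT r 0

theorem gdim_eq (r : ℕ) (T : Finset (Finset V)) :
    gdim r T = (r + 3).choose 2 + defi (r + 2) (intE T) (intV T) := rfl

/-- lower bound for every triangulation -/
theorem gdim_le {p : V × Fin 2 → ℝ} {T : Finset (Finset V)} (hp : IsTriang p T)
    (hT : Disc T) (r : ℕ) : gdim r T ≤ Module.finrank ℝ (SplineFn r (r + 1) p T) := by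
  rw [finrank_eq hp hT, gdim_eq]
  have := le_finrank (r + 2) p (intE T) (intV T)
    (fun e he => (mem_edges.1 (intE_subset T he)).1)
  omega

/-- outside a proper algebraic set of positions the dimension is `gdim r T` -/
theorem finrank_generic {T : Finset (Finset V)} (hT : Disc T) {r : ℕ} (hr : 2 ≤ r) :
    ∃ Q : MvPolynomial (V × Fin 2) ℝ, Q ≠ 0 ∧ ∀ p : V × Fin 2 → ℝ, IsTriang p T →
      MvPolynomial.eval p Q ≠ 0 → Module.finrank ℝ (SplineFn r (r + 1) p T) = gdim r T := by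
  by_cases hex : ∃ p : V × Fin 2 → ℝ, IsTriang p T
  · obtain ⟨p₀, hp₀⟩ := hex
    obtain ⟨Q, hQ, hQ'⟩ := gen_rank (D := r + 2) (by omega) (good_of_disc hp₀ hT) (intE_subset T)
    refine ⟨Q, hQ, fun p hp hpQ => ?_⟩
    rw [finrank_eq hp hT, hQ' p hpQ, gdim_eq]
  · refine ⟨1, one_ne_zero, fun p hp _ => absurd ⟨p, hp⟩ hex⟩

/-- an arbitrarily small perturbation of the vertices gives the dimension `gdim r T` -/
theorem exists_perturbation {p : V × Fin 2 → ℝ} {T : Finset (Finset V)} (hp : IsTriang p T)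
    (hT : Disc T) {r : ℕ} (hr : 2 ≤ r) {ε : ℝ} (hε : 0 < ε) :
    ∃ p' : V × Fin 2 → ℝ, dist p' p < ε ∧ IsTriang p' T ∧
      Module.finrank ℝ (SplineFn r (r + 1) p' T) = gdim r T := by
  obtain ⟨Q, hQ, hQ'⟩ := finrank_generic hT hr
  obtain ⟨p', hp', hp'Q⟩ := exists_eval_ne_of_open hQ
    ((isOpen_isTriang T).inter Metric.isOpen_ball) ⟨p, hp, Metric.mem_ball_self hε⟩
  exact ⟨p', hp'.2, hp'.1, hQ' p' hp'.1 hp'Q⟩

end Pool.Agent.Spl1
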