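import Pool.Agent.Spl1.Tri

/-!
# Two triangles at an edge lie on opposite sides; neighbourhoods

Barycentric coordinates.  For `t = {u,v,a}` with `crs p u v a ≠ 0` every point `z` of the plane is
`α p_u + β p_v + γ p_a` with unique `α + β + γ = 1` (continuous affine functions of `z`;
`γ = cross(p_v - p_u, z - p_u) / crs p u v a` and similarly the others), and `z ∈ hull p t` iff
`α, β, γ ≥ 0`; `z ∈ hull p {u,v}` iff `γ = 0` and `α, β ≥ 0`.

`opp`: let `s = {u,v,a} ≠ t = {u,v,b}` be triangles and suppose that `crs p u v a`, `crs p u v b` have the same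
sign.  Write `p_a = α p_u + β p_v + γ p_b`, `γ = crs p u v a / crs p u v b > 0`.  For small `ε > 0` the point
`z = (1-ε) (p_u + p_v)/2 + ε p_a ∈ hull p s` has the coordinates `(1-ε)/2 + εα, (1-ε)/2 + εβ, εγ > 0` with
respect to `t`, so `z ∈ hull p s ∩ hull p t = hull p {u,v}` (`s ∩ t = {u,v}`), but its cross product with the
line `u v` is `ε crs p u v a ≠ 0`.

`tdeg_le_two`: three triangles at `{u,v}` would be pairwise on opposite sides.

`pt_injective`: if `p_v = p_w`, `v ≠ w`, `v ∈ s`, `w ∈ t`: `w ∉ s` (nondegenerate), and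
`p_v ∈ hull p s ∩ hull p t = hull p (s ∩ t)`, `s ∩ t` does not contain `v` or not... : since `w ∉ s`, and if
`v ∈ t` then `t` is degenerate; so `v ∉ s ∩ t` and `p_v` would be a convex combination of the other vertices
of `s`.

`mem_inter_of_pos`: if `z` has only positive barycentric coordinates on `c ⊆ s` (`z ∈ hull p s`) and
`z ∈ hull p t` then `c ⊆ t` (as `z ∈ hull p (s ∩ t)` and coordinates in `s` are unique).  It is stated with
`z = ∑ x ∈ c, a x • pt p x`.

`hull_nhds`: let `D ⊆ T`, `z ∈ hull p t`, `t ∈ D`, `z` not a vertex, and `tdeg D {u,v}` even for all edges with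
`z ∈ hull p {u,v}`.  Then `⋃_{t ∈ D} hull p t` is a neighbourhood of `z`.  If all coordinates of `z` in `t`
are positive, `hull p t` is.  Otherwise exactly one is zero, `t = {u,v,a}`, `z = α p_u + β p_v`, `α, β > 0`.
`tdeg D {u,v} ≥ 1` is even, so there is `t' = {u,v,b} ∈ D`, and `crs p u v b` has the other sign (`opp`).  For
`y` near `z`: if `cross(p_v - p_u, y - p_u)` has the sign of `crs p u v a` (or is `0`) then all coordinates of
`y` in `t` are `≥ 0`, otherwise those in `t'` are.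
-/

set_option autoImplicit false

namespace Pool.Agent.Spl1

open Finset Topology

variable {V : Type*} [Fintype V] [DecidableEq V]

/-- cross product of `p_v - p_u` and `z - p_u` -/
def TriGeo1_cz (p : V × Fin 2 → ℝ) (u v : V) (z : Fin 2 → ℝ) : ℝ :=
  (p (v, 0) - p (u, 0)) * (z 1 - p (u, 1)) - (p (v, 1) - p (u, 1)) * (z 0 - p (u, 0))

theorem TriGeo1_cz_continuous (p : V × Fin 2 → ℝ) (u v : V) :
    Continuous (TriGeo1_cz p u v) := by
  unfold TriGeo1_cz
  fun_prop

theorem hull_mono {p : V × Fin 2 → ℝ} {s t : Finset V} (h : s ⊆ t) : hull p s ⊆ hull p t :=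
  convexHull_mono (Set.image_mono (Finset.coe_subset.2 h))

theorem isCompact_hull (p : V × Fin 2 → ℝ) (t : Finset V) : IsCompact (hull p t) :=
  (t.finite_toSet.image _).isCompact_convexHull ℝ

theorem isClosed_Omega (p : V × Fin 2 → ℝ) (T : Finset (Finset V)) : IsClosed (Omega p T) := by
  unfold Omega
  exact T.finite_toSet.isClosed_biUnion (fun t _ => (isCompact_hull p t).isClosed)

theorem pt_mem_hull {p : V × Fin 2 → ℝ} {t : Finset V} {v : V} (h : v ∈ t) : pt p v ∈ hull p t :=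
  subset_convexHull ℝ _ (Set.mem_image_of_mem _ (Finset.mem_coe.2 h))

theorem mem_hull_iff {p : V × Fin 2 → ℝ} {t : Finset V} {z : Fin 2 → ℝ} :
    z ∈ hull p t ↔ ∃ a : V → ℝ, (∀ x ∈ t, 0 ≤ a x) ∧ ∑ x ∈ t, a x = 1 ∧ ∑ x ∈ t, a x • pt p x = z := by
  constructor
  · intro hz
    have hsub : hull p t ⊆ {z | ∃ a : V → ℝ, (∀ x ∈ t, 0 ≤ a x) ∧ ∑ x ∈ t, a x = 1 ∧
        ∑ x ∈ t, a x • pt p x = z} := by
      apply convexHull_min
      · rintro _ ⟨v, hv, rfl⟩
        have hv' : v ∈ t := hv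
        refine ⟨fun x => if x = v then 1 else 0, fun x _ => ?_, ?_, ?_⟩
        · dsimp only
          split_ifs <;> norm_num
        · simp [Finset.sum_ite_eq', hv']
        · simp [Finset.sum_ite_eq', hv']
      · rintro _ ⟨a, ha, ha1, rfl⟩ _ ⟨b, hb, hb1, rfl⟩ r s hr hs hrs
        refine ⟨fun x => r * a x + s * b x, fun x hx => ?_, ?_, ?_⟩
        · exact add_nonneg (mul_nonneg hr (ha x hx)) (mul_nonneg hs (hb x hx))
        · rw [Finset.sum_add_distrib, ← Finset.mul_sum, ← Finset.mul_sum, ha1, hb1]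
          linarith
        · rw [Finset.smul_sum, Finset.smul_sum, ← Finset.sum_add_distrib]
          refine Finset.sum_congr rfl (fun x _ => ?_)
          rw [add_smul, mul_smul, mul_smul]
    exact hsub hz
  · rintro ⟨a, ha, ha1, rfl⟩
    exact (convex_convexHull ℝ _).sum_mem ha ha1 (fun x hx => pt_mem_hull hx)

/-- the third vertex -/
theorem TriGeo1_third {t : Finset V} (ht : t.card = 3) {u v : V} (huv : u ≠ v) (hu : u ∈ t)
    (hv : v ∈ t) : ∃ a, a ≠ u ∧ a ≠ v ∧ t = {u, v, a} := by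
  have hsub : ({u, v} : Finset V) ⊆ t := by
    intro x hx
    simp only [Finset.mem_insert, Finset.mem_singleton] at hx
    rcases hx with rfl | rfl <;> assumption
  have hc : (t \ {u, v}).card = 1 := by
    rw [Finset.card_sdiff_of_subset hsub, ht, Finset.card_pair huv]
  obtain ⟨a, ha⟩ := Finset.card_eq_one.1 hc
  have ha' : a ∈ t \ {u, v} := by rw [ha]; exact Finset.mem_singleton_self a
  simp only [Finset.mem_sdiff, Finset.mem_insert, Finset.mem_singleton, not_or] at ha'
  refine ⟨a, ha'.2.1, ha'.2.2, ?_⟩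
  ext x
  constructor
  · intro hx
    by_cases h1 : x ∈ ({u, v} : Finset V)
    · simp only [Finset.mem_insert, Finset.mem_singleton] at h1 ⊢
      rcases h1 with h1 | h1
      · exact Or.inl h1
      · exact Or.inr (Or.inl h1)
    · have : x ∈ t \ {u, v} := Finset.mem_sdiff.2 ⟨hx, h1⟩
      rw [ha, Finset.mem_singleton] at this
      simp [this]
  · intro hx
    simp only [Finset.mem_insert, Finset.mem_singleton] at hx
    rcases hx with rfl | rfl | rfl
    · exact hu
    · exact hv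
    · exact ha'.1

theorem TriGeo1_ne {p : V × Fin 2 → ℝ} {u v a : V} (h : crs p u v a ≠ 0) :
    u ≠ v ∧ u ≠ a ∧ v ≠ a := by
  refine ⟨?_, ?_, ?_⟩ <;> rintro rfl <;> apply h <;> unfold crs <;> ring

theorem TriGeo1_sum3 {M : Type*} [AddCommMonoid M] {u v a : V} (h1 : u ≠ v) (h2 : u ≠ a)
    (h3 : v ≠ a) (f : V → M) : ∑ x ∈ ({u, v, a} : Finset V), f x = f u + (f v + f a) := by
  rw [Finset.sum_insert (by simp [h1, h2]), Finset.sum_pair h3]

/-- a point of the plane given by its coordinates -/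
theorem TriGeo1_cz_comb {p : V × Fin 2 → ℝ} {u v a : V} {z : Fin 2 → ℝ} {x y w : ℝ}
    (h1 : x + (y + w) = 1) (hz : x • pt p u + (y • pt p v + w • pt p a) = z) :
    TriGeo1_cz p v a z = x * crs p u v a ∧ TriGeo1_cz p a u z = y * crs p u v a ∧
      TriGeo1_cz p u v z = w * crs p u v a := by
  have hz0 : z 0 = x * p (u, 0) + (y * p (v, 0) + w * p (a, 0)) := by
    rw [← hz]; rfl
  have hz1 : z 1 = x * p (u, 1) + (y * p (v, 1) + w * p (a, 1)) := by
    rw [← hz]; rfl
  have hx : x = 1 - y - w := by linarith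
  unfold TriGeo1_cz crs
  rw [hz0, hz1, hx]
  refine ⟨?_, ?_, ?_⟩ <;> ring

/-- every point is a combination -/
theorem TriGeo1_bary {p : V × Fin 2 → ℝ} {u v a : V} (h : crs p u v a ≠ 0) (z : Fin 2 → ℝ) :
    TriGeo1_cz p v a z / crs p u v a + (TriGeo1_cz p a u z / crs p u v a +
      TriGeo1_cz p u v z / crs p u v a) = 1 ∧
    (TriGeo1_cz p v a z / crs p u v a) • pt p u + ((TriGeo1_cz p a u z / crs p u v a) • pt p v +
      (TriGeo1_cz p u v z / crs p u v a) • pt p a) = z := by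
  constructor
  · field_simp
    unfold TriGeo1_cz crs
    ring
  · funext k
    have : ∀ k : Fin 2, TriGeo1_cz p v a z / crs p u v a * p (u, k) +
        (TriGeo1_cz p a u z / crs p u v a * p (v, k) +
          TriGeo1_cz p u v z / crs p u v a * p (a, k)) = z k := by
      intro k
      field_simp
      unfold TriGeo1_cz crs
      fin_cases k
      · simp only [Fin.zero_eta, Fin.isValue]
        ring
      · simp only [Fin.mk_one, Fin.isValue]
        ring
    exact this k

theorem TriGeo1_mem_hull3 {p : V × Fin 2 → ℝ} {u v a : V} (h : crs p u v a ≠ 0)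
    {z : Fin 2 → ℝ} (h1 : 0 ≤ TriGeo1_cz p v a z / crs p u v a)
    (h2 : 0 ≤ TriGeo1_cz p a u z / crs p u v a) (h3 : 0 ≤ TriGeo1_cz p u v z / crs p u v a) :
    z ∈ hull p {u, v, a} := by
  obtain ⟨n1, n2, n3⟩ := TriGeo1_ne h
  obtain ⟨b1, b2⟩ := TriGeo1_bary h z
  rw [mem_hull_iff]
  refine ⟨fun x => if x = u then TriGeo1_cz p v a z / crs p u v a else
    if x = v then TriGeo1_cz p a u z / crs p u v a else TriGeo1_cz p u v z / crs p u v a,
    fun x _ => ?_, ?_, ?_⟩
  · dsimp only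
    split_ifs <;> assumption
  · rw [TriGeo1_sum3 n1 n2 n3]
    simp only [if_true, if_neg n1.symm, if_neg n2.symm, if_neg n3.symm]
    exact b1
  · rw [TriGeo1_sum3 n1 n2 n3]
    simp only [if_true, if_neg n1.symm, if_neg n2.symm, if_neg n3.symm]
    exact b2

theorem TriGeo1_cz_of_mem_pair {p : V × Fin 2 → ℝ} {u v : V} (huv : u ≠ v) {z : Fin 2 → ℝ}
    (hz : z ∈ hull p {u, v}) : TriGeo1_cz p u v z = 0 := by
  obtain ⟨a, _, ha1, rfl⟩ := mem_hull_iff.1 hz
  rw [Finset.sum_pair huv] at ha1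
  rw [Finset.sum_pair huv]
  have h0 : (a u • pt p u + a v • pt p v) 0 = a u * p (u, 0) + a v * p (v, 0) := rfl
  have h1 : (a u • pt p u + a v • pt p v) 1 = a u * p (u, 1) + a v * p (v, 1) := rfl
  unfold TriGeo1_cz
  rw [h0, h1]
  have : a u = 1 - a v := by linarith
  rw [this]
  ring

/-- uniqueness of coordinates -/
theorem TriGeo1_unique {p : V × Fin 2 → ℝ} {T : Finset (Finset V)} (hp : IsTriang p T)
    {s : Finset V} (hs : s ∈ T) {f g : V → ℝ} (h1 : ∑ x ∈ s, f x = 1) (h2 : ∑ x ∈ s, g x = 1)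
    (h3 : ∑ x ∈ s, f x • pt p x = ∑ x ∈ s, g x • pt p x) : ∀ x ∈ s, f x = g x := by
  obtain ⟨u, v, w, -, -, -, rfl⟩ := Finset.card_eq_three.1 (hp.card3 s hs)
  have hc := hp.nondeg u v w hs
  obtain ⟨n1, n2, n3⟩ := TriGeo1_ne hc
  rw [TriGeo1_sum3 n1 n2 n3] at h1 h2
  rw [TriGeo1_sum3 n1 n2 n3, TriGeo1_sum3 n1 n2 n3] at h3
  obtain ⟨a1, a2, a3⟩ := TriGeo1_cz_comb h1 rfl (p := p) (u := u) (v := v) (a := w)
  obtain ⟨b1, b2, b3⟩ := TriGeo1_cz_comb h2 rfl (p := p) (u := u) (v := v) (a := w)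
  rw [h3] at a1 a2 a3
  have e1 : f u = g u := mul_right_cancel₀ hc (a1.symm.trans b1)
  have e2 : f v = g v := mul_right_cancel₀ hc (a2.symm.trans b2)
  have e3 : f w = g w := mul_right_cancel₀ hc (a3.symm.trans b3)
  intro x hx
  simp only [Finset.mem_insert, Finset.mem_singleton] at hx
  rcases hx with rfl | rfl | rfl <;> assumption

theorem opp {p : V × Fin 2 → ℝ} {T : Finset (Finset V)} (hp : IsTriang p T) {u v a b : V}
    (ha : ({u, v, a} : Finset V) ∈ T) (hb : ({u, v, b} : Finset V) ∈ T) (hab : a ≠ b) :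
    crs p u v a * crs p u v b < 0 := by
  have hca := hp.nondeg u v a ha
  have hcb := hp.nondeg u v b hb
  by_contra hcon
  have hpos : 0 < crs p u v a * crs p u v b :=
    lt_of_le_of_ne (not_lt.1 hcon) (mul_ne_zero hca hcb).symm
  have hratio : 0 < crs p u v a / crs p u v b := by
    have : crs p u v a / crs p u v b = (crs p u v a * crs p u v b) / (crs p u v b) ^ 2 := by
      field_simp
    rw [this]
    exact div_pos hpos (by positivity)
  obtain ⟨m1, m2, m3⟩ := TriGeo1_ne hca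
  obtain ⟨n1, n2, n3⟩ := TriGeo1_ne hcb
  set K1 := TriGeo1_cz p v b (pt p a) / crs p u v b with hK1
  set K2 := TriGeo1_cz p b u (pt p a) / crs p u v b with hK2
  obtain ⟨ε, hε0, hε1, hεa, hεb⟩ : ∃ ε : ℝ, 0 < ε ∧ ε ≤ 1 ∧ 0 ≤ (1 - ε) / 2 + ε * K1 ∧
      0 ≤ (1 - ε) / 2 + ε * K2 := by
    have hd : 0 < 1 + 2 * |K1| + 2 * |K2| := by positivity
    refine ⟨1 / (1 + 2 * |K1| + 2 * |K2|), by positivity, ?_, ?_, ?_⟩
    · rw [div_le_one hd]
      have := abs_nonneg K1
      have := abs_nonneg K2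
      linarith
    · have e : (1 - 1 / (1 + 2 * |K1| + 2 * |K2|)) / 2 + 1 / (1 + 2 * |K1| + 2 * |K2|) * K1 =
          (|K1| + K1 + |K2|) / (1 + 2 * |K1| + 2 * |K2|) := by
        field_simp
        ring
      rw [e]
      have := neg_abs_le K1
      have := abs_nonneg K2
      exact div_nonneg (by linarith) hd.le
    · have e : (1 - 1 / (1 + 2 * |K1| + 2 * |K2|)) / 2 + 1 / (1 + 2 * |K1| + 2 * |K2|) * K2 =
          (|K2| + K2 + |K1|) / (1 + 2 * |K1| + 2 * |K2|) := by
        field_simp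
        ring
      rw [e]
      have := neg_abs_le K2
      have := abs_nonneg K1
      exact div_nonneg (by linarith) hd.le
  set z : Fin 2 → ℝ := ((1 - ε) / 2) • pt p u + (((1 - ε) / 2) • pt p v + ε • pt p a) with hz
  have hsum : (1 - ε) / 2 + ((1 - ε) / 2 + ε) = 1 := by ring
  obtain ⟨c1, c2, c3⟩ := TriGeo1_cz_comb hsum hz.symm
  have hzs : z ∈ hull p {u, v, a} := by
    refine TriGeo1_mem_hull3 hca ?_ ?_ ?_
    · rw [c1, mul_div_assoc, div_self hca, mul_one]; linarith
    · rw [c2, mul_div_assoc, div_self hca, mul_one]; linarith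
    · rw [c3, mul_div_assoc, div_self hca, mul_one]; linarith
  have hz0 : z 0 = (1 - ε) / 2 * p (u, 0) + ((1 - ε) / 2 * p (v, 0) + ε * p (a, 0)) := rfl
  have hz1 : z 1 = (1 - ε) / 2 * p (u, 1) + ((1 - ε) / 2 * p (v, 1) + ε * p (a, 1)) := rfl
  have hpa0 : pt p a 0 = p (a, 0) := rfl
  have hpa1 : pt p a 1 = p (a, 1) := rfl
  have hzt : z ∈ hull p {u, v, b} := by
    refine TriGeo1_mem_hull3 hcb ?_ ?_ ?_
    · have : TriGeo1_cz p v b z / crs p u v b = (1 - ε) / 2 + ε * K1 := by
        rw [hK1]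
        field_simp
        unfold TriGeo1_cz crs
        rw [hz0, hz1, hpa0, hpa1]
        ring
      rw [this]; exact hεa
    · have : TriGeo1_cz p b u z / crs p u v b = (1 - ε) / 2 + ε * K2 := by
        rw [hK2]
        field_simp
        unfold TriGeo1_cz crs
        rw [hz0, hz1, hpa0, hpa1]
        ring
      rw [this]; exact hεb
    · rw [c3, mul_div_assoc]
      exact (mul_pos hε0 hratio).le
  have hint : z ∈ hull p (({u, v, a} : Finset V) ∩ {u, v, b}) := by
    rw [← hp.inter _ ha _ hb]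
    exact ⟨hzs, hzt⟩
  have hsub : ({u, v, a} : Finset V) ∩ {u, v, b} ⊆ {u, v} := by
    intro x hx
    simp only [Finset.mem_inter, Finset.mem_insert, Finset.mem_singleton] at hx ⊢
    rcases hx with ⟨h1 | h1 | h1, h2 | h2 | h2⟩
    · exact Or.inl h1
    · exact Or.inl h1
    · exact Or.inl h1
    · exact Or.inr h1
    · exact Or.inr h1
    · exact Or.inr h1
    · exact Or.inl h2
    · exact Or.inr h2
    · exact absurd (h1.symm.trans h2) hab
  have h0 := TriGeo1_cz_of_mem_pair n1 (hull_mono hsub hint)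
  rw [c3] at h0
  exact (mul_ne_zero hε0.ne' hca) h0

theorem tdeg_le_two {p : V × Fin 2 → ℝ} {T : Finset (Finset V)} (hp : IsTriang p T)
    {e : Finset V} (he : e.card = 2) : tdeg T e ≤ 2 := by
  obtain ⟨u, v, huv, rfl⟩ := Finset.card_eq_two.1 he
  by_contra hcon
  have h2 : 2 < (T.filter (fun t => ({u, v} : Finset V) ⊆ t)).card := by
    have := not_le.1 hcon
    exact this
  obtain ⟨t1, h1, t2, h2, t3, h3, n12, n13, n23⟩ := Finset.two_lt_card.1 h2
  have key : ∀ t ∈ T.filter (fun t => ({u, v} : Finset V) ⊆ t),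
      ∃ a, t = {u, v, a} ∧ ({u, v, a} : Finset V) ∈ T := by
    intro t ht
    rw [Finset.mem_filter] at ht
    obtain ⟨a, -, -, rfl⟩ := TriGeo1_third (hp.card3 t ht.1) huv
      (ht.2 (by simp)) (ht.2 (by simp))
    exact ⟨a, rfl, ht.1⟩
  obtain ⟨a1, rfl, m1⟩ := key t1 h1
  obtain ⟨a2, rfl, m2⟩ := key t2 h2
  obtain ⟨a3, rfl, m3⟩ := key t3 h3
  have d12 : a1 ≠ a2 := by rintro rfl; exact n12 rfl
  have d13 : a1 ≠ a3 := by rintro rfl; exact n13 rfl
  have d23 : a2 ≠ a3 := by rintro rfl; exact n23 rfl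
  have o12 := opp hp m1 m2 d12
  have o13 := opp hp m1 m3 d13
  have o23 := opp hp m2 m3 d23
  have hprod : (crs p u v a1 * crs p u v a2) * (crs p u v a1 * crs p u v a3) *
      (crs p u v a2 * crs p u v a3) =
      (crs p u v a1 * crs p u v a2 * crs p u v a3) ^ 2 := by ring
  have hneg : (crs p u v a1 * crs p u v a2) * (crs p u v a1 * crs p u v a3) *
      (crs p u v a2 * crs p u v a3) < 0 :=
    mul_neg_of_pos_of_neg (mul_pos_of_neg_of_neg o12 o13) o23
  rw [hprod] at hneg
  exact absurd hneg (not_lt.2 (sq_nonneg _))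

theorem pt_injective {p : V × Fin 2 → ℝ} {T : Finset (Finset V)} (hp : IsTriang p T) :
    Function.Injective (pt p) := by
  intro v w hvw
  by_contra hne
  have e0 : p (v, 0) = p (w, 0) := congrFun hvw 0
  have e1 : p (v, 1) = p (w, 1) := congrFun hvw 1
  obtain ⟨s, hs, hvs⟩ := hp.used v
  obtain ⟨t, ht, hwt⟩ := hp.used w
  have nodeg : ∀ r ∈ T, v ∈ r → w ∈ r → False := by
    intro r hr h1 h2
    obtain ⟨a, -, -, rfl⟩ := TriGeo1_third (hp.card3 r hr) hne h1 h2
    apply hp.nondeg v w a hr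
    unfold crs
    rw [e0, e1]
    ring
  have hwns : w ∉ s := fun h => nodeg s hs hvs h
  have hvnt : v ∉ t := fun h => nodeg t ht h hwt
  have hzs : pt p v ∈ hull p s := pt_mem_hull hvs
  have hzt : pt p v ∈ hull p t := by rw [hvw]; exact pt_mem_hull hwt
  have hint : pt p v ∈ hull p (s ∩ t) := by
    rw [← hp.inter s hs t ht]
    exact ⟨hzs, hzt⟩
  -- write `s = {x, y, v}`
  obtain ⟨x, hx⟩ : (s \ {v}).Nonempty := by
    rw [← Finset.card_pos, Finset.card_sdiff_of_subset (by simpa using hvs), hp.card3 s hs]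
    simp
  rw [Finset.mem_sdiff, Finset.mem_singleton] at hx
  obtain ⟨y, hyx, hyv, hsy⟩ := TriGeo1_third (hp.card3 s hs) hx.2 hx.1 hvs
  have hs' : ({x, y, v} : Finset V) ∈ T := by
    have : ({x, y, v} : Finset V) = {x, v, y} := by
      ext r; simp only [Finset.mem_insert, Finset.mem_singleton]; tauto
    rw [this, ← hsy]; exact hs
  have hsub : s ∩ t ⊆ {x, y} := by
    intro r hr
    rw [Finset.mem_inter, hsy] at hr
    simp only [Finset.mem_insert, Finset.mem_singleton] at hr ⊢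
    rcases hr.1 with h | h | h
    · exact Or.inl h
    · rw [h] at hr; exact absurd hr.2 hvnt
    · exact Or.inr h
  have h0 := TriGeo1_cz_of_mem_pair hyx.symm (hull_mono hsub hint)
  exact hp.nondeg x y v hs' h0

theorem mem_inter_of_pos {p : V × Fin 2 → ℝ} {T : Finset (Finset V)} (hp : IsTriang p T)
    {s t : Finset V} (hs : s ∈ T) (ht : t ∈ T) {c : Finset V} (hc : c ⊆ s) {a : V → ℝ}
    (ha : ∀ x ∈ c, 0 < a x) (ha1 : ∑ x ∈ c, a x = 1) (hz : ∑ x ∈ c, a x • pt p x ∈ hull p t) :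
    c ⊆ t := by
  have hzc : ∑ x ∈ c, a x • pt p x ∈ hull p c :=
    mem_hull_iff.2 ⟨a, fun x hx => (ha x hx).le, ha1, rfl⟩
  have hint : ∑ x ∈ c, a x • pt p x ∈ hull p (s ∩ t) := by
    rw [← hp.inter s hs t ht]
    exact ⟨hull_mono hc hzc, hz⟩
  obtain ⟨b, -, hb1, hb2⟩ := mem_hull_iff.1 hint
  have f1 : ∑ x ∈ s, (if x ∈ c then a x else 0) = 1 := by
    rw [Finset.sum_ite_mem, Finset.inter_eq_right.2 hc, ha1]
  have g1 : ∑ x ∈ s, (if x ∈ t then b x else 0) = 1 := by
    rw [Finset.sum_ite_mem, hb1]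
  have fg : ∑ x ∈ s, (if x ∈ c then a x else 0) • pt p x =
      ∑ x ∈ s, (if x ∈ t then b x else 0) • pt p x := by
    simp only [ite_smul, zero_smul]
    rw [Finset.sum_ite_mem, Finset.sum_ite_mem, Finset.inter_eq_right.2 hc, hb2]
  have huniq := TriGeo1_unique hp hs f1 g1 fg
  intro x hx
  by_contra hxt
  have := huniq x (hc hx)
  rw [if_pos hx, if_neg hxt] at this
  exact (ha x hx).ne' this

/-- a point of a triangle with all coordinates positive is an interior point -/
theorem hull_mem_nhds {p : V × Fin 2 → ℝ} {T : Finset (Finset V)} (hp : IsTriang p T)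
    {t : Finset V} (ht : t ∈ T) {a : V → ℝ} (ha : ∀ x ∈ t, 0 < a x) (ha1 : ∑ x ∈ t, a x = 1) :
    hull p t ∈ 𝓝 (∑ x ∈ t, a x • pt p x) := by
  obtain ⟨u, v, w, -, -, -, rfl⟩ := Finset.card_eq_three.1 (hp.card3 t ht)
  have hc := hp.nondeg u v w ht
  obtain ⟨n1, n2, n3⟩ := TriGeo1_ne hc
  rw [TriGeo1_sum3 n1 n2 n3] at ha1 ⊢
  obtain ⟨c1, c2, c3⟩ := TriGeo1_cz_comb ha1 rfl (p := p) (u := u) (v := v) (a := w)
  set z := a u • pt p u + (a v • pt p v + a w • pt p w) with hz
  have hU : {y : Fin 2 → ℝ | 0 < TriGeo1_cz p v w y / crs p u v w ∧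
      0 < TriGeo1_cz p w u y / crs p u v w ∧ 0 < TriGeo1_cz p u v y / crs p u v w} ∈ 𝓝 z := by
    apply IsOpen.mem_nhds
    · exact (isOpen_lt continuous_const ((TriGeo1_cz_continuous p v w).div_const _)).inter
        ((isOpen_lt continuous_const ((TriGeo1_cz_continuous p w u).div_const _)).inter
          (isOpen_lt continuous_const ((TriGeo1_cz_continuous p u v).div_const _)))
    · refine ⟨?_, ?_, ?_⟩
      · rw [c1, mul_div_assoc, div_self hc, mul_one]; exact ha u (by simp)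
      · rw [c2, mul_div_assoc, div_self hc, mul_one]; exact ha v (by simp)
      · rw [c3, mul_div_assoc, div_self hc, mul_one]; exact ha w (by simp)
  refine Filter.mem_of_superset hU ?_
  rintro y ⟨h1, h2, h3⟩
  exact TriGeo1_mem_hull3 hc h1.le h2.le h3.le

theorem TriGeo1_edge {p : V × Fin 2 → ℝ} {T D : Finset (Finset V)} (hp : IsTriang p T)
    (hD : D ⊆ T) {u v w : V} (ht : ({u, v, w} : Finset V) ∈ D) {z : Fin 2 → ℝ} {x y : ℝ}
    (hx : 0 < x) (hy : 0 < y) (hxy : x + y = 1) (hz : x • pt p u + y • pt p v = z)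
    (he : Even (tdeg D {u, v})) : Omega p D ∈ 𝓝 z := by
  have hc := hp.nondeg u v w (hD ht)
  obtain ⟨n1, n2, n3⟩ := TriGeo1_ne hc
  -- the second triangle
  obtain ⟨t', ht', hne⟩ : ∃ t' ∈ D.filter (fun t => ({u, v} : Finset V) ⊆ t),
      t' ≠ ({u, v, w} : Finset V) := by
    by_contra hcon
    push Not at hcon
    have hsub : D.filter (fun t => ({u, v} : Finset V) ⊆ t) = {({u, v, w} : Finset V)} := by
      apply Finset.eq_singleton_iff_unique_mem.2
      refine ⟨?_, hcon⟩
      rw [Finset.mem_filter]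
      refine ⟨ht, ?_⟩
      intro r hr
      simp only [Finset.mem_insert, Finset.mem_singleton] at hr ⊢
      tauto
    unfold tdeg at he
    rw [hsub, Finset.card_singleton] at he
    exact absurd he (by decide)
  rw [Finset.mem_filter] at ht'
  obtain ⟨b, hbu, hbv, rfl⟩ := TriGeo1_third (hp.card3 t' (hD ht'.1)) n1
    (ht'.2 (by simp)) (ht'.2 (by simp))
  have hwb : w ≠ b := by rintro rfl; exact hne rfl
  have hcb := hp.nondeg u v b (hD ht'.1)
  have hopp := opp hp (hD ht) (hD ht'.1) hwb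
  have hsum : x + (y + 0) = 1 := by linarith
  have hz' : x • pt p u + (y • pt p v + (0 : ℝ) • pt p w) = z := by
    rw [zero_smul, add_zero]; exact hz
  have hz'' : x • pt p u + (y • pt p v + (0 : ℝ) • pt p b) = z := by
    rw [zero_smul, add_zero]; exact hz
  obtain ⟨c1, c2, -⟩ := TriGeo1_cz_comb hsum hz'
  obtain ⟨d1, d2, -⟩ := TriGeo1_cz_comb hsum hz''
  have hU : {y : Fin 2 → ℝ | (0 < TriGeo1_cz p v w y / crs p u v w ∧
      0 < TriGeo1_cz p w u y / crs p u v w) ∧ (0 < TriGeo1_cz p v b y / crs p u v b ∧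
      0 < TriGeo1_cz p b u y / crs p u v b)} ∈ 𝓝 z := by
    apply IsOpen.mem_nhds
    · exact ((isOpen_lt continuous_const ((TriGeo1_cz_continuous p v w).div_const _)).inter
        (isOpen_lt continuous_const ((TriGeo1_cz_continuous p w u).div_const _))).inter
        ((isOpen_lt continuous_const ((TriGeo1_cz_continuous p v b).div_const _)).inter
          (isOpen_lt continuous_const ((TriGeo1_cz_continuous p b u).div_const _)))
    · refine ⟨⟨?_, ?_⟩, ?_, ?_⟩
      · rw [c1, mul_div_assoc, div_self hc, mul_one]; exact hx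
      · rw [c2, mul_div_assoc, div_self hc, mul_one]; exact hy
      · rw [d1, mul_div_assoc, div_self hcb, mul_one]; exact hx
      · rw [d2, mul_div_assoc, div_self hcb, mul_one]; exact hy
  refine Filter.mem_of_superset hU ?_
  rintro q ⟨⟨h1, h2⟩, h3, h4⟩
  unfold Omega
  rcases le_or_gt 0 (TriGeo1_cz p u v q / crs p u v w) with h | h
  · exact Set.mem_biUnion (Finset.mem_coe.2 ht) (TriGeo1_mem_hull3 hc h1.le h2.le h)
  · refine Set.mem_biUnion (Finset.mem_coe.2 ht'.1) (TriGeo1_mem_hull3 hcb h3.le h4.le ?_)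
    have e : TriGeo1_cz p u v q / crs p u v b = (TriGeo1_cz p u v q / crs p u v w) *
        ((crs p u v w * crs p u v b) / (crs p u v b) ^ 2) := by
      field_simp
    rw [e]
    exact (mul_pos_of_neg_of_neg h (div_neg_of_neg_of_pos hopp (by positivity))).le

theorem hull_nhds {p : V × Fin 2 → ℝ} {T D : Finset (Finset V)} (hp : IsTriang p T) (hD : D ⊆ T)
    {t : Finset V} (ht : t ∈ D) {z : Fin 2 → ℝ} (hz : z ∈ hull p t) (hzv : ∀ v, z ≠ pt p v)
    (he : ∀ u v, u ≠ v → z ∈ hull p {u, v} → Even (tdeg D {u, v})) : Omega p D ∈ 𝓝 z := by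
  obtain ⟨a, ha, ha1, rfl⟩ := mem_hull_iff.1 hz
  by_cases hall : ∀ x ∈ t, 0 < a x
  · refine Filter.mem_of_superset (hull_mem_nhds hp (hD ht) hall ha1) ?_
    exact Set.subset_biUnion_of_mem (u := fun t => hull p t) (Finset.mem_coe.2 ht)
  · push Not at hall
    obtain ⟨w, hw, hw0⟩ := hall
    have hw0' : a w = 0 := le_antisymm hw0 (ha w hw)
    obtain ⟨u, hu⟩ : (t \ {w}).Nonempty := by
      rw [← Finset.card_pos, Finset.card_sdiff_of_subset (by simpa using hw),
        hp.card3 t (hD ht)]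
      simp
    rw [Finset.mem_sdiff, Finset.mem_singleton] at hu
    obtain ⟨v, hvw, hvu, htv⟩ := TriGeo1_third (hp.card3 t (hD ht)) (Ne.symm hu.2) hw hu.1
    have htv' : t = {u, v, w} := by
      rw [htv]
      ext r; simp only [Finset.mem_insert, Finset.mem_singleton]; tauto
    subst htv'
    have n1 : u ≠ v := hvu.symm
    have n2 : u ≠ w := hu.2
    have n3 : v ≠ w := hvw
    rw [TriGeo1_sum3 n1 n2 n3] at ha1 hz hzv ⊢
    rw [TriGeo1_sum3 n1 n2 n3] at he
    rw [hw0', add_zero] at ha1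
    rw [hw0', zero_smul, add_zero] at hz hzv ⊢
    rw [hw0', zero_smul, add_zero] at he
    have hau : 0 ≤ a u := ha u (by simp)
    have hav : 0 ≤ a v := ha v (by simp)
    have hau' : 0 < a u := by
      refine lt_of_le_of_ne hau (fun h => ?_)
      apply hzv v
      rw [← h] at ha1 ⊢
      have : a v = 1 := by linarith
      rw [this, zero_smul, zero_add, one_smul]
    have hav' : 0 < a v := by
      refine lt_of_le_of_ne hav (fun h => ?_)
      apply hzv u
      rw [← h] at ha1 ⊢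
      have : a u = 1 := by linarith
      rw [this, zero_smul, add_zero, one_smul]
    refine TriGeo1_edge hp hD ht hau' hav' ha1 rfl (he u v n1 ?_)
    rw [mem_hull_iff]
    refine ⟨a, fun r hr => ?_, ?_, ?_⟩
    · simp only [Finset.mem_insert, Finset.mem_singleton] at hr
      rcases hr with rfl | rfl <;> assumption
    · rw [Finset.sum_pair n1]; exact ha1
    · rw [Finset.sum_pair n1]

end Pool.Agent.Spl1
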