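import Pool.Agent.Spl1.TriGeo1

/-!
# Links and closed surfaces in the plane

`no_closed`: `D ⊆ T`, `bdry D = ∅`, `D ≠ ∅`.  Let `U` be the complement of the finitely many vertices: connected
(`Set.Countable.isConnected_compl_of_one_lt_rank`, the rank of `Fin 2 → ℝ` is `2`).  `Omega p D ∩ U` is closed
in `U`, and by `hull_nhds` it is open; it is nonempty (a triangle has a point with positive coordinates).  So
`U ⊆ Omega p D`, and `Omega p D` is compact, so closed: `Omega p D` is everything (`U` is dense), but the plane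
is not compact.

`isPreconnected_punctured`: `{y | 0 < ‖y - x‖ < δ}` is the image of `Ioo 0 δ ×ˢ sphere 0 1` under
`(r, y) ↦ x + r y`; `isPathConnected_sphere` (rank `2`).

`star_full`: let `S ⊆ star T v` be nonempty and `LinkEven` at `v`.  Choose `δ > 0` such that the ball `B(p_v, δ)`
contains no other vertex and does not meet `hull p (t.erase v)` for `t ∈ star T v` (these are compact sets which
do not contain `p_v`).  `U` = punctured ball.  `Omega p S ∩ U` is closed in `U`, and open by `hull_nhds` with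
`D = S`: if `z ∈ U ∩ hull p {u,w}` and `v ∈ {u,w}` then `tdeg S {u,w}` is even by `LinkEven`; if
`v ∉ {u,w}` then `{u,w}` is contained in no triangle of `S` (it would be an opposite edge), `tdeg S = 0`.
`U ∩ Omega p S ≠ ∅`: points `p_v + ε (p_u - p_v)`.  So `U ⊆ Omega p S`.  For `t' ∈ star T v` take
`z = (1 - ε) p_v + (ε/2) (p_a + p_b) ∈ U`, `t' = {v,a,b}`: `z ∈ hull p t`, `t ∈ S`, and all coordinates of
`z` in `t'` are positive, so `t' ⊆ t` (`mem_inter_of_pos`), `t' = t ∈ S`.
-/

set_option autoImplicit false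

namespace Pool.Agent.Spl1

open Finset Topology

variable {V : Type*} [Fintype V] [DecidableEq V]

theorem tg2_rank : 1 < Module.rank ℝ (Fin 2 → ℝ) := by
  rw [rank_fin_fun]
  exact_mod_cast (one_lt_two : (1 : ℕ) < 2)

theorem isPreconnected_punctured (x : Fin 2 → ℝ) (δ : ℝ) :
    IsPreconnected (Metric.ball x δ \ {x}) := by
  have h1 : IsPreconnected (Set.Ioo (0 : ℝ) δ ×ˢ Metric.sphere (0 : Fin 2 → ℝ) 1) :=
    isPreconnected_Ioo.prod (isPathConnected_sphere tg2_rank 0 zero_le_one).isConnected.isPreconnected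
  have h2 := h1.image (fun q : ℝ × (Fin 2 → ℝ) => x + q.1 • q.2) (by fun_prop)
  convert h2 using 1
  ext y
  constructor
  · rintro ⟨hy, hyx⟩
    have hyx' : y - x ≠ 0 := sub_ne_zero.2 hyx
    have hn : 0 < ‖y - x‖ := norm_pos_iff.2 hyx'
    refine ⟨(‖y - x‖, ‖y - x‖⁻¹ • (y - x)), ⟨⟨hn, ?_⟩, ?_⟩, ?_⟩
    · rw [Metric.mem_ball, dist_eq_norm] at hy
      exact hy
    · rw [mem_sphere_zero_iff_norm, norm_smul, norm_inv, norm_norm, inv_mul_cancel₀ hn.ne']
    · simp only
      rw [smul_smul, mul_inv_cancel₀ hn.ne', one_smul]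
      abel
  · rintro ⟨⟨r, u⟩, ⟨hr, hu⟩, rfl⟩
    simp only at hr hu ⊢
    rw [mem_sphere_zero_iff_norm] at hu
    refine ⟨?_, ?_⟩
    · rw [Metric.mem_ball, dist_eq_norm, add_sub_cancel_left, norm_smul, hu, mul_one,
        Real.norm_of_nonneg hr.1.le]
      exact hr.2
    · intro h
      have h3 : r • u = 0 := by
        have h4 : x + r • u = x := h
        simpa using h4
      rcases smul_eq_zero.1 h3 with h5 | h5
      · exact hr.1.ne' h5
      · rw [h5, norm_zero] at hu
        exact zero_ne_one hu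

theorem tg2_star {p : V × Fin 2 → ℝ} {T : Finset (Finset V)} (hp : IsTriang p T) {v : V}
    {t : Finset V} (ht : t ∈ star T v) : ∃ a b, a ≠ b ∧ v ≠ a ∧ v ≠ b ∧ t = {v, a, b} ∧
      t.erase v = {a, b} ∧ crs p v a b ≠ 0 := by
  obtain ⟨htT, hvt⟩ := mem_star.1 ht
  have h1 : (t.erase v).card = 2 := by
    rw [card_erase_of_mem hvt, hp.card3 t htT]
  obtain ⟨a, b, hab, he⟩ := card_eq_two.1 h1
  have hva : v ≠ a := by
    intro h
    have : a ∈ t.erase v := by rw [he]; simp
    exact (mem_erase.1 this).1 h.symm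
  have hvb : v ≠ b := by
    intro h
    have : b ∈ t.erase v := by rw [he]; simp
    exact (mem_erase.1 this).1 h.symm
  have ht3 : t = {v, a, b} := by
    rw [← insert_erase hvt, he]
  refine ⟨a, b, hab, hva, hvb, ht3, he, ?_⟩
  exact hp.nondeg v a b (ht3 ▸ htT)

theorem tg2_opp {p : V × Fin 2 → ℝ} {T : Finset (Finset V)} (hp : IsTriang p T) {v : V}
    {t : Finset V} (ht : t ∈ star T v) : pt p v ∉ hull p (t.erase v) := by
  obtain ⟨a, b, hab, hva, hvb, ht3, he, hc⟩ := tg2_star hp ht
  rw [he]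
  intro h
  obtain ⟨c, hc0, hc1, hc2⟩ := mem_hull_iff.1 h
  rw [sum_pair hab] at hc1 hc2
  apply hc
  have h0 := congrFun hc2 0
  have h1 := congrFun hc2 1
  simp only [Pi.add_apply, Pi.smul_apply, smul_eq_mul, pt] at h0 h1
  unfold crs
  have hca : c a = 1 - c b := by linarith
  rw [← h0, ← h1, hca]
  ring

theorem tg2_near {p : V × Fin 2 → ℝ} {T : Finset (Finset V)} (hp : IsTriang p T) {v : V}
    {t : Finset V} (ht : t ∈ star T v) {δ : ℝ} (hδ : 0 < δ) :
    ∃ c : V → ℝ, (∀ x ∈ t, 0 < c x) ∧ ∑ x ∈ t, c x = 1 ∧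
      ∑ x ∈ t, c x • pt p x ∈ Metric.ball (pt p v) δ \ {pt p v} := by
  obtain ⟨a, b, hab, hva, hvb, ht3, he, hc⟩ := tg2_star hp ht
  obtain ⟨w, hw⟩ : ∃ w, w = (pt p a - pt p v) + (pt p b - pt p v) := ⟨_, rfl⟩
  have hw0 : w ≠ 0 := by
    intro h
    apply hc
    have h0 := congrFun h 0
    have h1 := congrFun h 1
    rw [hw] at h0 h1
    simp only [Pi.add_apply, Pi.sub_apply, Pi.zero_apply, pt] at h0 h1
    unfold crs
    have h2 : p (b, 0) - p (v, 0) = -(p (a, 0) - p (v, 0)) := by linarith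
    have h3 : p (b, 1) - p (v, 1) = -(p (a, 1) - p (v, 1)) := by linarith
    rw [h2, h3]
    ring
  have hwn : 0 < ‖w‖ := norm_pos_iff.2 hw0
  obtain ⟨η, hη0, hη1, hη2⟩ : ∃ η : ℝ, 0 < η ∧ 2 * η < 1 ∧ η * ‖w‖ < δ := by
    refine ⟨min (1 / 3) (δ / (2 * ‖w‖)), lt_min (by norm_num) (by positivity), ?_, ?_⟩
    · have := min_le_left (1 / 3 : ℝ) (δ / (2 * ‖w‖))
      linarith
    · have h1 := min_le_right (1 / 3 : ℝ) (δ / (2 * ‖w‖))
      calc min (1 / 3) (δ / (2 * ‖w‖)) * ‖w‖ ≤ δ / (2 * ‖w‖) * ‖w‖ :=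
            mul_le_mul_of_nonneg_right h1 hwn.le
        _ = δ / 2 := by field_simp
        _ < δ := by linarith
  have hv' : v ∉ ({a, b} : Finset V) := by simp [hva, hvb]
  have hs : ∑ x ∈ t, (if x = v then 1 - 2 * η else η) • pt p x = pt p v + η • w := by
    rw [ht3, sum_insert hv', sum_pair hab, if_pos rfl, if_neg (Ne.symm hva),
      if_neg (Ne.symm hvb), hw]
    ext k
    simp only [Pi.add_apply, Pi.smul_apply, smul_eq_mul, Pi.sub_apply]
    ring
  refine ⟨fun x => if x = v then 1 - 2 * η else η, ?_, ?_, ?_⟩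
  · intro x _
    simp only
    split_ifs
    · linarith
    · exact hη0
  · rw [ht3, sum_insert hv', sum_pair hab, if_pos rfl, if_neg (Ne.symm hva),
      if_neg (Ne.symm hvb)]
    ring
  · rw [hs]
    refine ⟨?_, ?_⟩
    · rw [Metric.mem_ball, dist_eq_norm, add_sub_cancel_left, norm_smul,
        Real.norm_of_nonneg hη0.le]
      exact hη2
    · intro h
      have h3 : η • w = 0 := by
        have h4 : pt p v + η • w = pt p v := h
        simpa using h4
      rcases smul_eq_zero.1 h3 with h5 | h5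
      · exact hη0.ne' h5
      · exact hw0 h5

theorem tg2_interior {p : V × Fin 2 → ℝ} {T D : Finset (Finset V)} (hp : IsTriang p T)
    (hD : D ⊆ T) {t : Finset V} (ht : t ∈ D) {c : V → ℝ} (hc : ∀ x ∈ t, 0 < c x)
    (hc1 : ∑ x ∈ t, c x = 1) : ∑ x ∈ t, c x • pt p x ∈ interior (Omega p D) := by
  rw [mem_interior_iff_mem_nhds]
  refine Filter.mem_of_superset (hull_mem_nhds hp (hD ht) hc hc1) ?_
  exact Set.subset_biUnion_of_mem (u := fun t => hull p t) ht

theorem no_closed {p : V × Fin 2 → ℝ} {T D : Finset (Finset V)} (hp : IsTriang p T) (hD : D ⊆ T)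
    (hb : bdry D = ∅) : D = ∅ := by
  by_contra hne
  obtain ⟨t, ht⟩ := nonempty_iff_ne_empty.2 hne
  have hfin : (Set.range (pt p)).Finite := Set.finite_range _
  have hU := hfin.countable.isConnected_compl_of_one_lt_rank tg2_rank
  have hden : Dense (Set.range (pt p))ᶜ := hfin.countable.dense_compl ℝ
  have hcl : IsClosed (Omega p D) := isClosed_Omega p D
  have hin : (interior (Omega p D)).Nonempty := by
    refine ⟨_, tg2_interior hp hD ht (c := fun _ => (1 / 3 : ℝ)) (fun x _ => by norm_num) ?_⟩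
    rw [sum_const, hp.card3 t (hD ht)]
    norm_num
  have hsub : (Set.range (pt p))ᶜ ⊆ interior (Omega p D) := by
    refine hU.isPreconnected.subset_of_closure_inter_subset isOpen_interior ?_ ?_
    · obtain ⟨z, hz1, hz2⟩ := hden.inter_open_nonempty _ isOpen_interior hin
      exact ⟨z, hz2, hz1⟩
    · rintro z ⟨hz1, hz2⟩
      have hz3 : z ∈ Omega p D := closure_minimal interior_subset hcl hz1
      obtain ⟨t', ht', hz4⟩ := Set.mem_iUnion₂.1 hz3
      rw [mem_interior_iff_mem_nhds]
      refine hull_nhds hp hD ht' hz4 (fun v h => hz2 ⟨v, h.symm⟩) (fun u v huv _ => ?_)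
      by_contra hodd
      rw [Nat.not_even_iff_odd] at hodd
      have : ({u, v} : Finset V) ∈ bdry D := mem_bdry.2 ⟨card_pair huv, hodd⟩
      rw [hb] at this
      exact notMem_empty _ this
  have huniv : Omega p D = Set.univ := by
    rw [← hcl.closure_eq]
    exact (hden.mono (hsub.trans interior_subset)).closure_eq
  have hcomp : IsCompact (Omega p D) := by
    unfold Omega
    exact D.isCompact_biUnion (fun t _ => isCompact_hull p t)
  rw [huniv] at hcomp
  obtain ⟨C, hC⟩ := hcomp.isBounded.exists_norm_le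
  have h1 := hC (fun _ => |C| + 1) (Set.mem_univ _)
  have h2 := norm_le_pi_norm (fun _ : Fin 2 => |C| + 1) 0
  rw [Real.norm_of_nonneg (by positivity)] at h2
  have h3 := le_abs_self C
  linarith

theorem star_full {p : V × Fin 2 → ℝ} {T S : Finset (Finset V)} (hp : IsTriang p T) {v : V}
    (hS : S ⊆ star T v) (hl : LinkEven S v) (hne : S.Nonempty) : S = star T v := by
  obtain ⟨K, hK⟩ : ∃ K : Set (Fin 2 → ℝ), K = (⋃ t ∈ star T v, hull p (t.erase v)) ∪
      (pt p '' {w | w ≠ v}) := ⟨_, rfl⟩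
  have hKc : IsClosed K := by
    rw [hK]
    refine IsClosed.union ?_ ?_
    · exact ((star T v).isCompact_biUnion (fun t _ => isCompact_hull p _)).isClosed
    · exact ((Set.toFinite _).image _).isClosed
  have hvK : pt p v ∈ Kᶜ := by
    rw [hK]
    rintro (h | h)
    · obtain ⟨t, ht, h1⟩ := Set.mem_iUnion₂.1 h
      exact tg2_opp hp ht h1
    · obtain ⟨w, hw, h1⟩ := h
      exact hw (pt_injective hp h1)
  obtain ⟨δ, hδ, hδK⟩ := Metric.isOpen_iff.1 hKc.isOpen_compl _ hvK
  have hST : S ⊆ T := fun t ht => (mem_star.1 (hS ht)).1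
  have hcl : IsClosed (Omega p S) := isClosed_Omega p S
  have hsub : Metric.ball (pt p v) δ \ {pt p v} ⊆ interior (Omega p S) := by
    refine (isPreconnected_punctured (pt p v) δ).subset_of_closure_inter_subset
      isOpen_interior ?_ ?_
    · obtain ⟨t, ht⟩ := hne
      obtain ⟨c, hc, hc1, hc2⟩ := tg2_near hp (hS ht) hδ
      exact ⟨_, hc2, tg2_interior hp hST ht hc hc1⟩
    · rintro z ⟨hz1, hz2, hz5⟩
      have hz3 : z ∈ Omega p S := closure_minimal interior_subset hcl hz1
      obtain ⟨t', ht', hz4⟩ := Set.mem_iUnion₂.1 hz3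
      have hzK : z ∉ K := hδK hz2
      rw [mem_interior_iff_mem_nhds]
      refine hull_nhds hp hST ht' hz4 (fun w h => ?_) (fun u w huw hz6 => ?_)
      · by_cases hwv : w = v
        · exact hz5 (by rw [h, hwv]; rfl)
        · apply hzK
          rw [hK]
          exact Or.inr ⟨w, hwv, h.symm⟩
      · by_cases hvu : v = u
        · subst hvu
          exact hl w (Ne.symm huw)
        · by_cases hvw : v = w
          · subst hvw
            rw [pair_comm]
            exact hl u huw
          · have h0 : tdeg S {u, w} = 0 := by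
              unfold tdeg
              rw [card_eq_zero, filter_eq_empty_iff]
              intro t'' ht'' hsub'
              apply hzK
              rw [hK]
              refine Or.inl (Set.mem_iUnion₂.2 ⟨t'', hS ht'', hull_mono ?_ hz6⟩)
              intro x hx
              refine mem_erase.2 ⟨?_, hsub' hx⟩
              rintro rfl
              rcases mem_insert.1 hx with h | h
              · exact hvu h
              · exact hvw (mem_singleton.1 h)
            rw [h0]
            exact Even.zero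
  refine Subset.antisymm hS (fun t' ht' => ?_)
  obtain ⟨c, hc, hc1, hc2⟩ := tg2_near hp ht' hδ
  have hz := interior_subset (hsub hc2)
  obtain ⟨t, ht, hzt⟩ := Set.mem_iUnion₂.1 hz
  have ht'T := (mem_star.1 ht').1
  have hsub2 := mem_inter_of_pos hp ht'T (hST ht) (Subset.refl t') hc hc1 hzt
  have heq : t' = t := eq_of_subset_of_card_le hsub2
    (by rw [hp.card3 t (hST ht), hp.card3 t' ht'T])
  rw [heq]
  exact ht

end Pool.Agent.Spl1
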