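import Pool.Agent.Spl1.TriGeo1

/-!
# Vanishing to order `n` of a polynomial along a line

`Agree n P Q z`: all partial derivatives of order `≤ n` of `P` and `Q` agree at `z` (recursive definition).

Paper proofs.  `agree_of_dvd`: induction on `n` for all `P, Q`: `P - Q = L^(n+1) h`, `L(z) = 0`; so
`P(z) = Q(z)`, and `∂_i (P - Q) = (n+1) L^n (∂_i L) h + L^(n+1) ∂_i h` is divisible by `L^n` (for `n = 0` there is
nothing to show about derivatives).

`dvd_of_agree`: let `R = P - Q ≠ 0`, `L = lin p u v`, `∂_0 L = -(b)`, `∂_1 L = a`, `(a,b) = p_v - p_u ≠ 0`.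
(1) if `R` vanishes at infinitely many points of the line `L = 0` then `L ∣ R` (say `a ≠ 0`: as a polynomial in
`X₁` over `ℝ[X₀]` divide by `L`: `R = L q + ρ(X₀)`, and `ρ` vanishes at infinitely many points; or use an affine
change of coordinates).  (2) write `R = L^m h` with `L ∤ h` (finite multiplicity; `m ≥ 1`) and suppose `m ≤ n`.
By induction on `n`: `Agree n R 0` at the points of the line gives `Agree (n-1) (∂_i R) 0`, so
`L^n ∣ ∂_i R = m L^(m-1) (∂_i L) h + L^m ∂_i h`; choose `i` with `∂_i L` a nonzero constant; then `L ∣ h`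
(`m - 1 < n`, characteristic `0`), contradiction.

`fderiv_eval`: the derivative of `y ↦ eval y P` is `∑ i, eval z (pderiv i P) • proj i` (induction on `P`).
-/

set_option autoImplicit false

namespace Pool.Agent.Spl1

open Finset

variable {V : Type*} [Fintype V] [DecidableEq V]

/-- all partial derivatives of order `≤ n` agree at `z` -/
def Agree : ℕ → MvPolynomial (Fin 2) ℝ → MvPolynomial (Fin 2) ℝ → (Fin 2 → ℝ) → Prop
  | 0, P, Q, z => MvPolynomial.eval z P = MvPolynomial.eval z Q
  | n + 1, P, Q, z => MvPolynomial.eval z P = MvPolynomial.eval z Q ∧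
      ∀ i, Agree n (MvPolynomial.pderiv i P) (MvPolynomial.pderiv i Q) z

theorem agree_refl (n : ℕ) (P : MvPolynomial (Fin 2) ℝ) (z : Fin 2 → ℝ) : Agree n P P z := by
  induction n generalizing P with
  | zero => rfl
  | succ n ih => exact ⟨rfl, fun i => ih _⟩

theorem agree_symm {n : ℕ} {P Q : MvPolynomial (Fin 2) ℝ} {z : Fin 2 → ℝ} (h : Agree n P Q z) :
    Agree n Q P z := by
  induction n generalizing P Q with
  | zero => exact Eq.symm h
  | succ n ih => exact ⟨h.1.symm, fun i => ih (h.2 i)⟩

theorem agree_trans {n : ℕ} {P Q R : MvPolynomial (Fin 2) ℝ} {z : Fin 2 → ℝ}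
    (h : Agree n P Q z) (h' : Agree n Q R z) : Agree n P R z := by
  induction n generalizing P Q R with
  | zero => exact Eq.trans h h'
  | succ n ih => exact ⟨h.1.trans h'.1, fun i => ih (h.2 i) (h'.2 i)⟩

theorem agree_eval {n : ℕ} {P Q : MvPolynomial (Fin 2) ℝ} {z : Fin 2 → ℝ} (h : Agree n P Q z) :
    MvPolynomial.eval z P = MvPolynomial.eval z Q := by
  cases n with
  | zero => exact h
  | succ n => exact h.1

theorem agree_sub {n : ℕ} {P Q : MvPolynomial (Fin 2) ℝ} {z : Fin 2 → ℝ} (h : Agree n P Q z) :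
    Agree n (P - Q) 0 z := by
  induction n generalizing P Q with
  | zero =>
    have h1 : MvPolynomial.eval z P = MvPolynomial.eval z Q := h
    change MvPolynomial.eval z (P - Q) = MvPolynomial.eval z 0
    rw [map_sub, h1, sub_self, map_zero]
  | succ n ih =>
    refine ⟨?_, fun i => ?_⟩
    · rw [map_sub, h.1, sub_self, map_zero]
    · rw [map_sub, map_zero]
      exact ih (h.2 i)

theorem agree_pred {n : ℕ} {P Q : MvPolynomial (Fin 2) ℝ} {z : Fin 2 → ℝ} (h : Agree (n + 1) P Q z) :
    Agree n P Q z := by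
  induction n generalizing P Q with
  | zero => exact h.1
  | succ n ih => exact ⟨h.1, fun i => ih (h.2 i)⟩

theorem pderiv_pow_mul (i : Fin 2) (n : ℕ) (L h : MvPolynomial (Fin 2) ℝ) :
    MvPolynomial.pderiv i (L ^ (n + 1) * h) =
      L ^ n * (((n : MvPolynomial (Fin 2) ℝ) + 1) * MvPolynomial.pderiv i L * h +
        L * MvPolynomial.pderiv i h) := by
  rw [MvPolynomial.pderiv_mul, MvPolynomial.pderiv_pow]
  push_cast
  ring

theorem agree_of_dvd {n : ℕ} {P Q L : MvPolynomial (Fin 2) ℝ} {z : Fin 2 → ℝ}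
    (hL : MvPolynomial.eval z L = 0) (h : L ^ (n + 1) ∣ P - Q) : Agree n P Q z := by
  have h0 : ∀ (m : ℕ) (P Q : MvPolynomial (Fin 2) ℝ), L ^ (m + 1) ∣ P - Q →
      MvPolynomial.eval z P = MvPolynomial.eval z Q := by
    intro m P Q hPQ
    obtain ⟨g, hg⟩ := hPQ
    have h1 : MvPolynomial.eval z (P - Q) = 0 := by
      rw [hg, map_mul, map_pow, hL]
      simp
    rw [map_sub, sub_eq_zero] at h1
    exact h1
  induction n generalizing P Q with
  | zero => exact h0 0 P Q h
  | succ n ih =>
    refine ⟨h0 _ P Q h, fun i => ih ?_⟩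
    obtain ⟨g, hg⟩ := h
    rw [← map_sub, hg, pderiv_pow_mul]
    exact Dvd.intro _ rfl

theorem eval_lin (p : V × Fin 2 → ℝ) (u v : V) (z : Fin 2 → ℝ) :
    MvPolynomial.eval z (lin p u v) =
      (p (v, 0) - p (u, 0)) * (z 1 - p (u, 1)) - (p (v, 1) - p (u, 1)) * (z 0 - p (u, 0)) := by
  unfold lin
  simp

/-- a polynomial which vanishes on a piece of the line is divisible by the affine form -/
theorem lin_dvd {p : V × Fin 2 → ℝ} {u v : V}
    (huv : (p (v, 0) - p (u, 0)) ^ 2 + (p (v, 1) - p (u, 1)) ^ 2 ≠ 0)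
    {R : MvPolynomial (Fin 2) ℝ}
    (h : ∀ c : ℝ, 0 < c → c < 1 → MvPolynomial.eval (c • pt p u + (1 - c) • pt p v) R = 0) :
    lin p u v ∣ R := by
  set a : ℝ := p (v, 0) - p (u, 0) with ha
  set b : ℝ := p (v, 1) - p (u, 1) with hb
  set s : ℝ := a ^ 2 + b ^ 2 with hs
  let τ : MvPolynomial (Fin 2) ℝ := MvPolynomial.C (s⁻¹) *
    (MvPolynomial.C a * (MvPolynomial.X 0 - MvPolynomial.C (p (u, 0))) +
      MvPolynomial.C b * (MvPolynomial.X 1 - MvPolynomial.C (p (u, 1))))
  let g : Fin 2 → Polynomial ℝ := ![Polynomial.C (p (u, 0)) + Polynomial.C a * Polynomial.X,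
    Polynomial.C (p (u, 1)) + Polynomial.C b * Polynomial.X]
  let φ : MvPolynomial (Fin 2) ℝ →ₐ[ℝ] Polynomial ℝ := MvPolynomial.aeval g
  have hφ : ∀ (t : ℝ) (S : MvPolynomial (Fin 2) ℝ), Polynomial.eval t (φ S) =
      MvPolynomial.eval ((1 - t) • pt p u + t • pt p v) S := by
    intro t S
    induction S using MvPolynomial.induction_on with
    | C r => simp [φ]
    | add S₁ S₂ h₁ h₂ => rw [map_add, Polynomial.eval_add, h₁, h₂, map_add]
    | mul_X S j hS =>
      rw [map_mul, Polynomial.eval_mul, hS, map_mul]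
      congr 1
      fin_cases j
      · simp [φ, g, pt, ha]
        ring
      · simp [φ, g, pt, hb]
        ring
  have hφR : φ R = 0 := by
    apply Polynomial.eq_zero_of_infinite_isRoot
    apply Set.Infinite.mono (s := Set.Ioo (0 : ℝ) 1)
    · intro t ht
      change Polynomial.IsRoot (φ R) t
      rw [Polynomial.IsRoot, hφ]
      have := h (1 - t) (by linarith [ht.2]) (by linarith [ht.1])
      rwa [sub_sub_cancel] at this
    · exact Set.Ioo_infinite zero_lt_one
  have hmod : ∀ S : MvPolynomial (Fin 2) ℝ, lin p u v ∣ S - Polynomial.aeval τ (φ S) := by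
    intro S
    induction S using MvPolynomial.induction_on with
    | C r => simp [φ]
    | add S₁ S₂ h₁ h₂ =>
      rw [map_add, map_add, add_sub_add_comm]
      exact dvd_add h₁ h₂
    | mul_X S j hS =>
      rw [map_mul, map_mul]
      have hX : lin p u v ∣ MvPolynomial.X j - Polynomial.aeval τ (φ (MvPolynomial.X j)) := by
        have hs1 : MvPolynomial.C (σ := Fin 2) (s⁻¹) * MvPolynomial.C s = 1 := by
          rw [← MvPolynomial.C_mul, inv_mul_cancel₀ huv, MvPolynomial.C_1]
        have hs2 : MvPolynomial.C (σ := Fin 2) s =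
            MvPolynomial.C a * MvPolynomial.C a + MvPolynomial.C b * MvPolynomial.C b := by
          rw [hs, ← MvPolynomial.C_mul, ← MvPolynomial.C_mul, ← MvPolynomial.C_add]
          congr 1
          ring
        rw [hs2] at hs1
        fin_cases j
        · refine ⟨- (MvPolynomial.C (s⁻¹) * MvPolynomial.C b), ?_⟩
          simp only [φ, g, τ, lin, ← ha, ← hb]
          simp
          linear_combination (MvPolynomial.C (p (u, 0)) - MvPolynomial.X 0) * hs1
        · refine ⟨MvPolynomial.C (s⁻¹) * MvPolynomial.C a, ?_⟩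
          simp only [φ, g, τ, lin, ← ha, ← hb]
          simp
          linear_combination (MvPolynomial.C (p (u, 1)) - MvPolynomial.X 1) * hs1
      have e : S * MvPolynomial.X j - Polynomial.aeval τ (φ S) * Polynomial.aeval τ (φ (MvPolynomial.X j)) =
          (S - Polynomial.aeval τ (φ S)) * MvPolynomial.X j +
            Polynomial.aeval τ (φ S) * (MvPolynomial.X j - Polynomial.aeval τ (φ (MvPolynomial.X j))) := by
        ring
      rw [e]
      exact dvd_add (hS.mul_right _) (hX.mul_left _)
  have h1 := hmod R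
  rw [hφR, map_zero, sub_zero] at h1
  exact h1

theorem dvd_of_agree {n : ℕ} {P Q : MvPolynomial (Fin 2) ℝ} {p : V × Fin 2 → ℝ} {u v : V}
    (huv : pt p u ≠ pt p v)
    (h : ∀ c : ℝ, 0 < c → c < 1 → Agree n P Q (c • pt p u + (1 - c) • pt p v)) :
    lin p u v ^ (n + 1) ∣ P - Q := by
  have hne : (p (v, 0) - p (u, 0)) ^ 2 + (p (v, 1) - p (u, 1)) ^ 2 ≠ 0 := by
    intro h0
    apply huv
    have s0 := sq_nonneg (p (v, 0) - p (u, 0))
    have s1 := sq_nonneg (p (v, 1) - p (u, 1))
    have h1 : p (v, 0) - p (u, 0) = 0 := by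
      apply pow_eq_zero_iff (two_ne_zero) |>.1
      linarith
    have h2 : p (v, 1) - p (u, 1) = 0 := by
      apply pow_eq_zero_iff (two_ne_zero) |>.1
      linarith
    funext k
    fin_cases k
    · change p (u, 0) = p (v, 0)
      linarith
    · change p (u, 1) = p (v, 1)
      linarith
  have key : ∀ (n : ℕ) (R : MvPolynomial (Fin 2) ℝ),
      (∀ c : ℝ, 0 < c → c < 1 → Agree n R 0 (c • pt p u + (1 - c) • pt p v)) →
      lin p u v ^ (n + 1) ∣ R := by
    intro n
    induction n with
    | zero =>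
      intro R hR
      rw [zero_add, pow_one]
      apply lin_dvd hne
      intro c hc hc1
      have h1 : MvPolynomial.eval (c • pt p u + (1 - c) • pt p v) R =
        MvPolynomial.eval (c • pt p u + (1 - c) • pt p v) 0 := hR c hc hc1
      rw [h1, map_zero]
    | succ n ih =>
      intro R hR
      obtain ⟨g, hg⟩ := ih R (fun c hc hc1 => agree_pred (hR c hc hc1))
      have hd : ∀ i, lin p u v ^ (n + 1) ∣ MvPolynomial.pderiv i R := by
        intro i
        apply ih
        intro c hc hc1
        have h1 := (hR c hc hc1).2 i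
        rwa [map_zero] at h1
      have hL0 : MvPolynomial.pderiv 0 (lin p u v) = - MvPolynomial.C (p (v, 1) - p (u, 1)) := by
        unfold lin
        simp [MvPolynomial.pderiv_mul, MvPolynomial.pderiv_X]
      have hL1 : MvPolynomial.pderiv 1 (lin p u v) = MvPolynomial.C (p (v, 0) - p (u, 0)) := by
        unfold lin
        simp [MvPolynomial.pderiv_mul, MvPolynomial.pderiv_X]
      set L := lin p u v with hL
      set a : ℝ := p (v, 0) - p (u, 0) with ha
      set b : ℝ := p (v, 1) - p (u, 1) with hb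
      have hLne : L ≠ 0 := by
        intro h0
        rw [h0, map_zero] at hL0 hL1
        have h1 : b = 0 := by
          have h2 : MvPolynomial.C (σ := Fin 2) b = 0 := by
            rw [← neg_neg (MvPolynomial.C b), ← hL0, neg_zero]
          exact (MvPolynomial.C_eq_zero).1 h2
        have h2 : a = 0 := (MvPolynomial.C_eq_zero).1 hL1.symm
        apply hne
        rw [h1, h2]
        ring
      have h0 := hd 0
      have h1 := hd 1
      rw [hg, pderiv_pow_mul, hL0, pow_succ] at h0
      rw [hg, pderiv_pow_mul, hL1, pow_succ] at h1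
      have h0' := (mul_dvd_mul_iff_left (pow_ne_zero n hLne)).1 h0
      have h1' := (mul_dvd_mul_iff_left (pow_ne_zero n hLne)).1 h1
      have h2 : L ∣ ((n : MvPolynomial (Fin 2) ℝ) + 1) * MvPolynomial.C b * g := by
        have h3 := (dvd_add_left (Dvd.intro _ rfl : L ∣ L * MvPolynomial.pderiv 0 g)).1 h0'
        have e : ((n : MvPolynomial (Fin 2) ℝ) + 1) * MvPolynomial.C b * g =
          -(((n : MvPolynomial (Fin 2) ℝ) + 1) * -MvPolynomial.C b * g) := by ring
        rw [e]
        exact (dvd_neg).2 h3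
      have h3 : L ∣ ((n : MvPolynomial (Fin 2) ℝ) + 1) * MvPolynomial.C a * g :=
        (dvd_add_left (Dvd.intro _ rfl : L ∣ L * MvPolynomial.pderiv 1 g)).1 h1'
      have h4 : L ∣ MvPolynomial.C (((n : ℝ) + 1) * (a ^ 2 + b ^ 2)) * g := by
        have e : MvPolynomial.C (((n : ℝ) + 1) * (a ^ 2 + b ^ 2)) * g =
            MvPolynomial.C a * (((n : MvPolynomial (Fin 2) ℝ) + 1) * MvPolynomial.C a * g) +
              MvPolynomial.C b * (((n : MvPolynomial (Fin 2) ℝ) + 1) * MvPolynomial.C b * g) := by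
          simp only [map_mul, map_add, map_pow, map_natCast, map_one]
          ring
        rw [e]
        exact dvd_add (h3.mul_left _) (h2.mul_left _)
      have h5 : L ∣ g := by
        have h6 : ((n : ℝ) + 1) * (a ^ 2 + b ^ 2) ≠ 0 := mul_ne_zero (by positivity) hne
        have h7 := h4.mul_left (MvPolynomial.C ((((n : ℝ) + 1) * (a ^ 2 + b ^ 2))⁻¹))
        rwa [← mul_assoc, ← MvPolynomial.C_mul, inv_mul_cancel₀ h6, MvPolynomial.C_1, one_mul] at h7
      rw [hg, pow_succ L (n + 1)]
      exact mul_dvd_mul_left _ h5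
  exact key n (P - Q) (fun c hc hc1 => agree_sub (h c hc hc1))

theorem hasFDerivAt_eval (P : MvPolynomial (Fin 2) ℝ) (z : Fin 2 → ℝ) :
    HasFDerivAt (fun y => MvPolynomial.eval y P)
      (∑ i, MvPolynomial.eval z (MvPolynomial.pderiv i P) •
        (ContinuousLinearMap.proj i : (Fin 2 → ℝ) →L[ℝ] ℝ)) z := by
  induction P using MvPolynomial.induction_on with
  | C a =>
    have h : HasFDerivAt (fun _ : Fin 2 → ℝ => a) (0 : (Fin 2 → ℝ) →L[ℝ] ℝ) z := hasFDerivAt_const a z
    simpa using h
  | add p q hp hq =>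
    have h := hp.add hq
    simp only [map_add, add_smul, Finset.sum_add_distrib]
    exact h
  | mul_X p j hp =>
    have h1 : HasFDerivAt (fun y : Fin 2 → ℝ => y j) (ContinuousLinearMap.proj j : (Fin 2 → ℝ) →L[ℝ] ℝ) z :=
      hasFDerivAt_apply j z
    have h2 := hp.mul h1
    simp only [map_mul, MvPolynomial.eval_X]
    refine h2.congr_fderiv ?_
    simp only [MvPolynomial.pderiv_mul, map_add, map_mul, MvPolynomial.eval_X, add_smul,
      Finset.sum_add_distrib]
    rw [add_comm]
    congr 1
    · rw [Finset.smul_sum]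
      refine Finset.sum_congr rfl fun i _ => ?_
      rw [smul_smul, mul_comm]
    · rw [Finset.sum_eq_single j]
      · simp
      · intro i _ hij
        rw [MvPolynomial.pderiv_X, Pi.single_eq_of_ne]
        · simp
        · exact fun h => hij h.symm
      · intro hj
        exact absurd (Finset.mem_univ j) hj

end Pool.Agent.Spl1
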