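import Pool.Agent.Spl1.TriPoly
import Pool.Agent.Spl1.TriCof

/-!
# Smooth piecewise polynomial functions

Paper proofs.
`agree_pieces`: `f ∈ SplineAlg r k p T`, `z ∈ hull p s ∩ hull p t = hull p (s ∩ t)`.  If `s = t` trivial.  If
`s ∩ t = {u,v}`: `lin p u v` vanishes at `z` (it vanishes on the segment), `agree_of_dvd`.  If `s ∩ t = {v}`,
`z = pt p v`: the set `S` of the triangles `t'` at `v` with `Agree r (f s) (f t') z` is closed under adjacency
across edges at `v` (same argument), so `S = star T v` by `star_conn` (with `ori_ori`, `good_of_disc`).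

`contDiffOn_glue`: induction on `n` for all families `f` and functions `F`: if `F = f t` on `hull p t` for all
`t ∈ T` and `Agree n (f s) (f t) z` whenever `z ∈ hull p s ∩ hull p t`, then `F` is `C^n` on the interior of
`Ω`.  `n = 0`: `F` is continuous on each of the finitely many closed sets `hull p t` (it is a polynomial there),
which cover `Ω`.  `n + 1`: at `z ∈ interior Ω` let `L = ∑ i, eval z (∂_i (f t)) • proj i`, the same for all
`t` with `z ∈ hull p t`.  `F` has the derivative `L` at `z` within each `hull p t ∋ z`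
(`hasFDerivAt_eval`, equality on `hull p t`), hence within their union (`HasFDerivWithinAt.union`), which is a
neighbourhood of `z` (the other closed triangles do not contain `z`, and `Ω` is a neighbourhood).  So `F` is
differentiable at `z` and its derivative is the gluing of `∂_i (f t)`, which is `C^n` by induction
(`contDiffOn_succ_iff_fderiv_of_isOpen`).

`agree_of_contDiffOn`: induction on `n` for all `f` and `F`: let `U` be open, `U ⊆ interior Ω`, `F` be `C^n` on
`U`, `F = P` on `hull p s ∩ U`, `F = Q` on `hull p t ∩ U`.  Then `Agree n P Q z` for `z ∈ U` in both hulls.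
`n + 1`: for `y ∈ U ∩ hull p s` the derivative of `F` at `y` is that of `P`, because `hull p s` is convex with
nonempty interior (`uniqueDiffOn_convex`); so the `i`-th partial derivative of `F` is `C^n` on `U` and equals
`∂_i P` on `hull p s ∩ U`, `∂_i Q` on `hull p t ∩ U`.

`finrank_splineFn`: the map `Ξ : SplineAlg → SplineFn`, `(Ξ f) z = eval z (f t)` for `z ∈ hull p t` (any such
`t`, `agree_pieces`), `0` outside `Ω`.  It is well defined (`contDiffOn_glue`), linear, injective (a polynomial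
vanishing on a triangle is `0`) and surjective: for `s ∈ SplineFn` let `f t` be the polynomial of the
triangle `t ∈ T`.  If `t ≠ t'` share `{u,v}`, the points `z = c p_u + (1-c) p_v`, `0 < c < 1`, are in the
interior of `Ω` (`hull_nhds` with `D = {t, t'}`: if `z ∈ hull p {x,y}` then, looking at coordinates in
`t` or `t'`..., `{x,y} = {u,v}` or `{x,y}` is in no triangle of `D`), so `agree_of_contDiffOn` and
`dvd_of_agree` give the divisibility.
-/

set_option autoImplicit false

namespace Pool.Agent.Spl1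

open Finset Topology

variable {V : Type*} [Fintype V] [DecidableEq V]

/-- pieces at a common edge -/
theorem ts_agree_edge {p : V × Fin 2 → ℝ} {T : Finset (Finset V)} {r k : ℕ}
    {f : Finset V → MvPolynomial (Fin 2) ℝ} (hf : f ∈ SplineAlg r k p T)
    {s t : Finset V} (hs : s ∈ T) (ht : t ∈ T) {u v : V} (huv : u ≠ v) (h1 : u ∈ s) (h2 : v ∈ s)
    (h3 : u ∈ t) (h4 : v ∈ t) {z : Fin 2 → ℝ} (hz : z ∈ hull p {u, v}) :
    Agree r (f s) (f t) z := by
  refine agree_of_dvd ?_ (hf.2.2 s hs t ht u v huv h1 h2 h3 h4)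
  rw [eval_lin]
  exact TriGeo1_cz_of_mem_pair huv hz

theorem agree_pieces {p : V × Fin 2 → ℝ} {T : Finset (Finset V)} (hp : IsTriang p T)
    (hT : Disc T) {r k : ℕ} {f : Finset V → MvPolynomial (Fin 2) ℝ} (hf : f ∈ SplineAlg r k p T)
    {s t : Finset V} (hs : s ∈ T) (ht : t ∈ T) {z : Fin 2 → ℝ} (h1 : z ∈ hull p s)
    (h2 : z ∈ hull p t) : Agree r (f s) (f t) z := by
  classical
  by_cases hst : s = t
  · subst hst
    exact agree_refl _ _ _
  have hz : z ∈ hull p (s ∩ t) := by
    rw [← hp.inter s hs t ht]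
    exact ⟨h1, h2⟩
  have hne : (s ∩ t).Nonempty := by
    by_contra hne
    rw [not_nonempty_iff_eq_empty] at hne
    rw [hne] at hz
    unfold hull at hz
    simp at hz
  have hcard : (s ∩ t).card ≤ 2 := by
    by_contra hc
    have h3 : (s ∩ t).card ≤ s.card := card_le_card inter_subset_left
    rw [hp.card3 s hs] at h3
    have h4 : s ∩ t = s := eq_of_subset_of_card_le inter_subset_left (by
      rw [hp.card3 s hs]; omega)
    have h5 : s ∩ t = t := eq_of_subset_of_card_le inter_subset_right (by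
      rw [hp.card3 t ht]; omega)
    exact hst (h4.symm.trans h5)
  have hcpos := hne.card_pos
  rcases (by omega : (s ∩ t).card = 1 ∨ (s ∩ t).card = 2) with hc | hc
  · obtain ⟨v, hv⟩ := card_eq_one.1 hc
    have hvs : v ∈ s := (mem_inter.1 (hv ▸ mem_singleton_self v : v ∈ s ∩ t)).1
    have hvt : v ∈ t := (mem_inter.1 (hv ▸ mem_singleton_self v : v ∈ s ∩ t)).2
    have hzv : z = pt p v := by
      rw [hv] at hz
      unfold hull at hz
      simpa using hz
    subst hzv
    have key := star_conn (good_of_disc hp hT) hT hp.used (ori_ori hp) (v := v)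
      (S := (star T v).filter (fun t' => Agree r (f s) (f t') (pt p v))) (filter_subset _ _)
      ⟨s, mem_filter.2 ⟨mem_star.2 ⟨hs, hvs⟩, agree_refl _ _ _⟩⟩ (by
        intro s' hs' t' ht' u hu hvt' hus' hut'
        obtain ⟨hs'1, hs'2⟩ := mem_filter.1 hs'
        obtain ⟨hs'T, hvs'⟩ := mem_star.1 hs'1
        refine mem_filter.2 ⟨mem_star.2 ⟨ht', hvt'⟩, agree_trans hs'2 ?_⟩
        exact ts_agree_edge hf hs'T ht' hu.symm hvs' hus' hvt' hut'
          (pt_mem_hull (mem_insert_self v {u})))
    have ht' : t ∈ star T v := mem_star.2 ⟨ht, hvt⟩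
    rw [← key] at ht'
    exact (mem_filter.1 ht').2
  · obtain ⟨u, v, huv, he⟩ := card_eq_two.1 hc
    have hu : u ∈ s ∩ t := by rw [he]; simp
    have hv : v ∈ s ∩ t := by rw [he]; simp
    rw [he] at hz
    exact ts_agree_edge hf hs ht huv (mem_inter.1 hu).1 (mem_inter.1 hv).1 (mem_inter.1 hu).2
      (mem_inter.1 hv).2 hz

/-- values of the gluing -/
theorem ts_glue (p : V × Fin 2 → ℝ) (T : Finset (Finset V)) :
    ∃ τ : (Fin 2 → ℝ) → Finset V, ∀ z ∈ Omega p T, τ z ∈ T ∧ z ∈ hull p (τ z) := by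
  classical
  have h : ∀ z : Fin 2 → ℝ, ∃ t : Finset V, z ∈ Omega p T → t ∈ T ∧ z ∈ hull p t := by
    intro z
    by_cases hz : z ∈ Omega p T
    · obtain ⟨t, ht, hzt⟩ := Set.mem_iUnion₂.1 hz
      exact ⟨t, fun _ => ⟨ht, hzt⟩⟩
    · exact ⟨∅, fun h => absurd h hz⟩
  choose τ hτ using h
  exact ⟨τ, hτ⟩

theorem ts_hasFDerivWithinAt_union {p : V × Fin 2 → ℝ} {F : (Fin 2 → ℝ) → ℝ}
    {L : (Fin 2 → ℝ) →L[ℝ] ℝ} {z : Fin 2 → ℝ} (S : Finset (Finset V))
    (h : ∀ t ∈ S, HasFDerivWithinAt F L (hull p t) z) :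
    HasFDerivWithinAt F L (Omega p S) z := by
  classical
  induction S using Finset.induction_on with
  | empty =>
    refine HasFDerivWithinAt.of_notMem_closure ?_
    unfold Omega
    simp
  | insert t S ht ih =>
    have e : Omega p (insert t S) = hull p t ∪ Omega p S := by
      unfold Omega
      exact Finset.set_biUnion_insert _ _ _
    rw [e]
    exact (h t (mem_insert_self t S)).union (ih fun t' ht' => h t' (mem_insert_of_mem ht'))

theorem contDiffOn_glue {p : V × Fin 2 → ℝ} {T : Finset (Finset V)} (n : ℕ)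
    (f : Finset V → MvPolynomial (Fin 2) ℝ) (F : (Fin 2 → ℝ) → ℝ)
    (hF : ∀ t ∈ T, ∀ z ∈ hull p t, F z = MvPolynomial.eval z (f t))
    (ha : ∀ s ∈ T, ∀ t ∈ T, ∀ z ∈ hull p s, z ∈ hull p t → Agree n (f s) (f t) z) :
    ContDiffOn ℝ n F (interior (Omega p T)) := by
  classical
  induction n generalizing f F with
  | zero =>
    rw [Nat.cast_zero, contDiffOn_zero]
    refine ContinuousOn.mono ?_ interior_subset
    have e : Omega p T = ⋃ t : T, hull p t.1 := by
      unfold Omega
      ext z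
      simp
    rw [e]
    refine (locallyFinite_of_finite _).continuousOn_iUnion
      (fun t => (isCompact_hull p t.1).isClosed) (fun t => ?_)
    have h1 : Continuous fun z : Fin 2 → ℝ => MvPolynomial.eval z (f t.1) :=
      continuous_iff_continuousAt.2 fun z => (hasFDerivAt_eval (f t.1) z).continuousAt
    exact h1.continuousOn.congr fun z hz => hF t.1 t.2 z hz
  | succ n ih =>
    obtain ⟨τ, hτ⟩ := ts_glue p T
    have hG : ∀ i : Fin 2, ContDiffOn ℝ n
        (fun z => MvPolynomial.eval z (MvPolynomial.pderiv i (f (τ z)))) (interior (Omega p T)) := by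
      intro i
      refine ih (fun t => MvPolynomial.pderiv i (f t)) _ (fun t ht z hz => ?_)
        (fun s hs t ht z h1 h2 => (ha s hs t ht z h1 h2).2 i)
      have hz' : z ∈ Omega p T := Set.mem_biUnion (show t ∈ (T : Set (Finset V)) from ht) hz
      exact agree_eval ((ha (τ z) (hτ z hz').1 t ht z (hτ z hz').2 hz).2 i)
    have hder : ∀ z ∈ interior (Omega p T), HasFDerivAt F
        (∑ i, MvPolynomial.eval z (MvPolynomial.pderiv i (f (τ z))) •
          (ContinuousLinearMap.proj i : (Fin 2 → ℝ) →L[ℝ] ℝ)) z := by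
      intro z hz
      have hz' := interior_subset hz
      refine (ts_hasFDerivWithinAt_union T (fun t ht => ?_)).hasFDerivAt
        (mem_interior_iff_mem_nhds.1 hz)
      by_cases hzt : z ∈ hull p t
      · have h1 := (hasFDerivAt_eval (f t) z).hasFDerivWithinAt (s := hull p t)
        have h2 := h1.congr (f₁ := F) (fun y hy => hF t ht y hy) (hF t ht z hzt)
        have e : (∑ i, MvPolynomial.eval z (MvPolynomial.pderiv i (f (τ z))) •
            (ContinuousLinearMap.proj i : (Fin 2 → ℝ) →L[ℝ] ℝ)) =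
            ∑ i, MvPolynomial.eval z (MvPolynomial.pderiv i (f t)) •
              (ContinuousLinearMap.proj i : (Fin 2 → ℝ) →L[ℝ] ℝ) := by
          refine Finset.sum_congr rfl fun i _ => ?_
          rw [agree_eval ((ha (τ z) (hτ z hz').1 t ht z (hτ z hz').2 hzt).2 i)]
        rw [e]
        exact h2
      · refine HasFDerivWithinAt.of_notMem_closure ?_
        rwa [(isCompact_hull p t).isClosed.closure_eq]
    rw [Nat.cast_succ, contDiffOn_succ_iff_fderiv_of_isOpen isOpen_interior]
    refine ⟨fun z hz => (hder z hz).differentiableAt.differentiableWithinAt,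
      fun h => absurd h (WithTop.coe_ne_top), ?_⟩
    have h2 : ContDiffOn ℝ n (fun z => ∑ i,
        MvPolynomial.eval z (MvPolynomial.pderiv i (f (τ z))) •
          (ContinuousLinearMap.proj i : (Fin 2 → ℝ) →L[ℝ] ℝ)) (interior (Omega p T)) :=
      ContDiffOn.sum fun i _ => (hG i).smul contDiffOn_const
    exact h2.congr fun z hz => (hder z hz).fderiv

theorem ts_interior_nonempty {p : V × Fin 2 → ℝ} {T : Finset (Finset V)} (hp : IsTriang p T)
    {s : Finset V} (hs : s ∈ T) : (interior (hull p s)).Nonempty := by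
  have h := hull_mem_nhds hp hs (a := fun _ => (1 / 3 : ℝ)) (fun x _ => by norm_num) (by
    rw [sum_const, hp.card3 s hs]
    norm_num)
  exact ⟨_, mem_interior_iff_mem_nhds.2 h⟩

theorem ts_fderiv_eq {p : V × Fin 2 → ℝ} {T : Finset (Finset V)} (hp : IsTriang p T)
    {s : Finset V} (hs : s ∈ T) {U : Set (Fin 2 → ℝ)} (hU : IsOpen U)
    (P : MvPolynomial (Fin 2) ℝ) (F : (Fin 2 → ℝ) → ℝ)
    (hP : ∀ z ∈ hull p s, z ∈ U → F z = MvPolynomial.eval z P)
    {y : Fin 2 → ℝ} (hy : y ∈ hull p s) (hyU : y ∈ U) (hd : DifferentiableAt ℝ F y) (i : Fin 2) :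
    fderiv ℝ F y (Pi.single i 1) = MvPolynomial.eval y (MvPolynomial.pderiv i P) := by
  have hu : UniqueDiffWithinAt ℝ (hull p s) y :=
    uniqueDiffOn_convex (convex_convexHull ℝ _) (ts_interior_nonempty hp hs) y hy
  have h1 := hd.hasFDerivAt.hasFDerivWithinAt (s := hull p s)
  have h2 := (hasFDerivAt_eval P y).hasFDerivWithinAt (s := hull p s)
  have h3 : HasFDerivWithinAt F (∑ i, MvPolynomial.eval y (MvPolynomial.pderiv i P) •
      (ContinuousLinearMap.proj i : (Fin 2 → ℝ) →L[ℝ] ℝ)) (hull p s) y := by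
    refine h2.congr_of_eventuallyEq ?_ (hP y hy hyU)
    filter_upwards [self_mem_nhdsWithin, mem_nhdsWithin_of_mem_nhds (hU.mem_nhds hyU)]
      with w hw1 hw2
    exact hP w hw1 hw2
  rw [hu.eq h1 h3]
  simp only [Fin.sum_univ_two]
  fin_cases i <;> simp

theorem agree_of_contDiffOn {p : V × Fin 2 → ℝ} {T : Finset (Finset V)} (hp : IsTriang p T)
    {s t : Finset V} (hs : s ∈ T) (ht : t ∈ T) {U : Set (Fin 2 → ℝ)} (hU : IsOpen U) (n : ℕ)
    (P Q : MvPolynomial (Fin 2) ℝ) (F : (Fin 2 → ℝ) → ℝ)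
    (hP : ∀ z ∈ hull p s, z ∈ U → F z = MvPolynomial.eval z P)
    (hQ : ∀ z ∈ hull p t, z ∈ U → F z = MvPolynomial.eval z Q)
    (hF : ContDiffOn ℝ n F U) {z : Fin 2 → ℝ} (hz : z ∈ U) (h1 : z ∈ hull p s)
    (h2 : z ∈ hull p t) : Agree n P Q z := by
  induction n generalizing P Q F with
  | zero => exact (hP z h1 hz).symm.trans (hQ z h2 hz)
  | succ n ih =>
    refine ⟨(hP z h1 hz).symm.trans (hQ z h2 hz), fun i => ?_⟩
    rw [Nat.cast_succ, contDiffOn_succ_iff_fderiv_of_isOpen hU] at hF
    have hd : ∀ y ∈ U, DifferentiableAt ℝ F y := fun y hy =>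
      (hF.1 y hy).differentiableAt (hU.mem_nhds hy)
    refine ih (MvPolynomial.pderiv i P) (MvPolynomial.pderiv i Q)
      (fun y => fderiv ℝ F y (Pi.single i 1)) (fun y hy hyU => ?_) (fun y hy hyU => ?_) ?_
    · exact ts_fderiv_eq hp hs hU P F hP hy hyU (hd y hyU) i
    · exact ts_fderiv_eq hp ht hU Q F hQ hy hyU (hd y hyU) i
    · exact hF.2.2.clm_apply contDiffOn_const

theorem edge_mem_interior {p : V × Fin 2 → ℝ} {T : Finset (Finset V)} (hp : IsTriang p T)
    {s t : Finset V} (hs : s ∈ T) (ht : t ∈ T) (hst : s ≠ t) {u v : V} (huv : u ≠ v)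
    (h1 : u ∈ s) (h2 : v ∈ s) (h3 : u ∈ t) (h4 : v ∈ t) {c : ℝ} (hc0 : 0 < c) (hc1 : c < 1) :
    c • pt p u + (1 - c) • pt p v ∈ interior (Omega p T) := by
  obtain ⟨a, -, -, ha⟩ := TriGeo1_third (hp.card3 s hs) huv h1 h2
  have hD : ({s, t} : Finset (Finset V)) ⊆ T := by
    intro x hx
    rcases mem_insert.1 hx with h | h
    · rw [h]; exact hs
    · rw [mem_singleton.1 h]; exact ht
  have hev : Even (tdeg ({s, t} : Finset (Finset V)) {u, v}) := by
    have hus : ({u, v} : Finset V) ⊆ s := by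
      intro x hx
      rcases mem_insert.1 hx with h | h
      · rw [h]; exact h1
      · rw [mem_singleton.1 h]; exact h2
    have hut : ({u, v} : Finset V) ⊆ t := by
      intro x hx
      rcases mem_insert.1 hx with h | h
      · rw [h]; exact h3
      · rw [mem_singleton.1 h]; exact h4
    unfold tdeg
    rw [filter_true_of_mem (by
      intro x hx
      rcases mem_insert.1 hx with h | h
      · rw [h]; exact hus
      · rw [mem_singleton.1 h]; exact hut), card_pair hst]
    exact even_two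
  have h5 := TriGeo1_edge (x := c) (y := 1 - c) (z := c • pt p u + (1 - c) • pt p v) hp hD
    (u := u) (v := v) (w := a) (by rw [← ha]; exact mem_insert_self s {t}) hc0 (by linarith)
    (by ring) rfl hev
  rw [mem_interior_iff_mem_nhds]
  refine Filter.mem_of_superset h5 ?_
  unfold Omega
  exact Set.biUnion_subset_biUnion_left hD

theorem ts_eq_of_eval {p : V × Fin 2 → ℝ} {T : Finset (Finset V)} (hp : IsTriang p T)
    {s : Finset V} (hs : s ∈ T) {P Q : MvPolynomial (Fin 2) ℝ}
    (h : ∀ z ∈ hull p s, MvPolynomial.eval z P = MvPolynomial.eval z Q) : P = Q := by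
  obtain ⟨z, hz⟩ := ts_interior_nonempty hp hs
  rw [mem_interior_iff_mem_nhds, Metric.mem_nhds_iff] at hz
  obtain ⟨ε, hε, hb⟩ := hz
  refine MvPolynomial.funext_set (fun i => Metric.ball (z i) ε) (fun i => ?_) (fun x hx => ?_)
  · rw [Real.ball_eq_Ioo]
    exact Set.Ioo_infinite (by linarith)
  · refine h x (hb ?_)
    rw [Metric.mem_ball, dist_pi_lt_iff hε]
    intro i
    exact hx i (Set.mem_univ i)

theorem ts_hull_omega {p : V × Fin 2 → ℝ} {T : Finset (Finset V)} {t : Finset V} (ht : t ∈ T)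
    {z : Fin 2 → ℝ} (hz : z ∈ hull p t) : z ∈ Omega p T :=
  Set.mem_biUnion (show t ∈ (T : Set (Finset V)) from ht) hz

theorem finrank_splineFn {p : V × Fin 2 → ℝ} {T : Finset (Finset V)} (hp : IsTriang p T)
    (hT : Disc T) (r k : ℕ) :
    Module.finrank ℝ (SplineFn r k p T) = Module.finrank ℝ (SplineAlg r k p T) := by
  classical
  obtain ⟨τ, hτ⟩ := ts_glue p T
  obtain ⟨G, hG⟩ : ∃ G : (Finset V → MvPolynomial (Fin 2) ℝ) → (Fin 2 → ℝ) → ℝ,
      ∀ f z, G f z = if z ∈ Omega p T then MvPolynomial.eval z (f (τ z)) else 0 :=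
    ⟨_, fun _ _ => rfl⟩
  have hGt : ∀ f ∈ SplineAlg r k p T, ∀ t ∈ T, ∀ z ∈ hull p t,
      G f z = MvPolynomial.eval z (f t) := by
    intro f hf t ht z hz
    have hz' := ts_hull_omega ht hz
    rw [hG, if_pos hz']
    exact agree_eval (agree_pieces hp hT hf (hτ z hz').1 ht (hτ z hz').2 hz)
  have hGmem : ∀ f ∈ SplineAlg r k p T, G f ∈ SplineFn r k p T := by
    intro f hf
    refine ⟨fun z hz => by rw [hG, if_neg hz], fun t ht => ⟨f t, hf.2.1 t ht, hGt f hf t ht⟩, ?_⟩
    exact contDiffOn_glue r f (G f) (hGt f hf) fun s hs t ht z h1 h2 =>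
      agree_pieces hp hT hf hs ht h1 h2
  let Ξ : SplineAlg r k p T →ₗ[ℝ] SplineFn r k p T :=
    { toFun := fun f => ⟨G f.1, hGmem f.1 f.2⟩
      map_add' := by
        intro f g
        ext z
        show G (f.1 + g.1) z = G f.1 z + G g.1 z
        simp only [hG]
        split_ifs
        · simp
        · simp
      map_smul' := by
        intro c f
        ext z
        show G (c • f.1) z = c • G f.1 z
        simp only [hG]
        split_ifs
        · simp
        · simp }
  have hinj : Function.Injective Ξ := by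
    rw [← LinearMap.ker_eq_bot, LinearMap.ker_eq_bot']
    intro f hf
    have hf' : ∀ z, G f.1 z = 0 := fun z => congrFun (congrArg Subtype.val hf) z
    ext1
    funext t
    by_cases ht : t ∈ T
    · refine ts_eq_of_eval hp ht fun z hz => ?_
      rw [← hGt f.1 f.2 t ht z hz, hf' z]
      simp
    · exact f.2.1 t ht
  have hsurj : Function.Surjective Ξ := by
    rintro ⟨s, hs⟩
    obtain ⟨hs0, hsP, hsC⟩ := hs
    have h1 : ∀ t : Finset V, ∃ P : MvPolynomial (Fin 2) ℝ, (t ∉ T → P = 0) ∧
        (t ∈ T → P.totalDegree ≤ k ∧ ∀ z ∈ hull p t, s z = MvPolynomial.eval z P) := by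
      intro t
      by_cases ht : t ∈ T
      · obtain ⟨P, hP⟩ := hsP t ht
        exact ⟨P, fun h => absurd ht h, fun _ => hP⟩
      · exact ⟨0, fun _ => rfl, fun h => absurd h ht⟩
    choose f hf0 hf1 using h1
    have hf : f ∈ SplineAlg r k p T := by
      refine ⟨hf0, fun t ht => (hf1 t ht).1, fun s' hs' t ht u v huv h1 h2 h3 h4 => ?_⟩
      by_cases hst : s' = t
      · subst hst
        rw [sub_self]
        exact dvd_zero _
      refine dvd_of_agree (fun h => huv (pt_injective hp h)) fun c hc0 hc1 => ?_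
      have hmem : ∀ w : Finset V, u ∈ w → v ∈ w → c • pt p u + (1 - c) • pt p v ∈ hull p w :=
        fun w hu hv => (convex_convexHull ℝ _) (pt_mem_hull hu) (pt_mem_hull hv) hc0.le
          (by linarith) (by ring)
      exact agree_of_contDiffOn hp hs' ht isOpen_interior r (f s') (f t) s
        (fun z hz _ => (hf1 s' hs').2 z hz) (fun z hz _ => (hf1 t ht).2 z hz) hsC
        (edge_mem_interior hp hs' ht hst huv h1 h2 h3 h4 hc0 hc1) (hmem s' h1 h2) (hmem t h3 h4)
    refine ⟨⟨f, hf⟩, ?_⟩
    ext z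
    show G f z = s z
    by_cases hz : z ∈ Omega p T
    · rw [hG, if_pos hz, (hf1 _ (hτ z hz).1).2 z (hτ z hz).2]
    · rw [hG, if_neg hz, hs0 z hz]
  exact (LinearEquiv.ofBijective Ξ ⟨hinj, hsurj⟩).finrank_eq.symm

end Pool.Agent.Spl1
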